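import Pool.Agent.Lib.H79W.S

/-!
# H79W, file Final: assembly
-/

set_option autoImplicit false

namespace H79W

theorem sB_rows {a b c d : ℕ} {P Q R : M3} (h : MT a b c d P Q R) (l : ℕ) (hl : l ≤ 3) :
    LC ((sB R).coeff l) := by
  obtain ⟨h0, h1, h2, h3⟩ := LC_rows (MT_PT h)
  interval_cases l
  · exact h0
  · exact h1
  · exact h2
  · exact h3

theorem sH_rows {a b c d : ℕ} {P Q R : M3} (h : MT a b c d P Q R) (l : ℕ) (hl : l ≤ 2) :
    LC ((sH R).coeff l) := by
  obtain ⟨h0, h1, h2⟩ := HLC (MT_HT h)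
  interval_cases l
  · exact h0
  · exact h1
  · exact h2

theorem sV_rows {a b c d : ℕ} {P Q R : M3} (h : MT a b c d P Q R) (l : ℕ) (hl : l ≤ 1) :
    LC ((sV R).coeff l) := by
  have hlt : a + c < b + d := by
    obtain ⟨hdet, hab, hcd, _⟩ := PT_inv (MT_PT h)
    by_contra hge
    have h1 : a = b := by omega
    have h2 : c = d := by omega
    rw [h1, h2] at hdet
    omega
  obtain ⟨h0, h1⟩ := VLC (MT_VT h) hlt
  interval_cases l
  · exact h0
  · exact h1

theorem final {a b c d : ℕ} {P Q M : F3} (h : Farey (var 0) (var 1) (var 2) a b c d P Q M) :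
    ∃ N : MvPolynomial (Fin 3) ℤ,
      M * (var 0 ^ (a + c - 1) * var 1 ^ (b + d - 1) * var 2 ^ (a + c + (b + d) - 1)) =
        algebraMap (MvPolynomial (Fin 3) ℤ) F3 (MvPolynomial.expand 2 N) ∧
      N.IsHomogeneous (a + c + (b + d) - 1) ∧
      (∀ i j, i + j = a + c + (b + d) - 1 → N.coeff (mon i j 0) = (((i + j).choose i : ℕ) : ℤ)) ∧
      (∀ i j l, l ≤ 3 → i + j + 2 + l = a + c + (b + d) - 1 →
        N.coeff (mon i (j + 2) l) * N.coeff (mon (i + 2) j l) ≤ N.coeff (mon (i + 1) (j + 1) l) ^ 2) ∧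
      (∀ i j l, j ≤ 2 → i + l + 2 + j = a + c + (b + d) - 1 →
        N.coeff (mon i j (l + 2)) * N.coeff (mon (i + 2) j l) ≤ N.coeff (mon (i + 1) j (l + 1)) ^ 2) ∧
      (∀ i j l, i ≤ 1 → j + l + 2 + i = a + c + (b + d) - 1 →
        N.coeff (mon i (j + 2) l) * N.coeff (mon i j (l + 2)) ≤ N.coeff (mon i (j + 1) (l + 1)) ^ 2) := by
  obtain ⟨_, _, _, _, NP, NQ, N, hT, _, _, hE⟩ := corrM h
  obtain ⟨_, _, _, _, hH⟩ := MT_hom hT
  obtain ⟨hdet, hab, hcd, hP', hQ', hR1, _⟩ := PT_inv (MT_PT hT)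
  have hc : 1 ≤ c := by
    rcases Nat.eq_zero_or_pos c with h0 | h0
    · rw [h0] at hdet; omega
    · exact h0
  have hx := (Pos_var 0).ne
  have hy := (Pos_var 1).ne
  have hz := (Pos_var 2).ne
  obtain ⟨e, he⟩ : ∃ e, e = a + c + (b + d) - 1 := ⟨_, rfl⟩
  rw [← he] at hH
  refine ⟨N, ?_, ?_, ?_, ?_, ?_, ?_⟩
  · show M * (var 0 ^ (a + c - 1) * var 1 ^ (b + d - 1) * var 2 ^ (a + c + (b + d) - 1)) = sq N
    unfold EM at hE
    obtain ⟨p, hp⟩ : ∃ p, a + c = p + 1 := ⟨a + c - 1, by omega⟩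
    obtain ⟨q, hq⟩ : ∃ q, b + d = q + 1 := ⟨b + d - 1, by omega⟩
    have e1 : a + c - 1 = p := by omega
    have e2 : b + d - 1 = q := by omega
    have e3 : a + c + (b + d) - 1 = p + q + 1 := by omega
    rw [e1, e2, e3]
    rw [hp, hq] at hE
    have hxyz : var 0 * var 1 * var 2 ≠ 0 := mul_ne_zero (mul_ne_zero hx hy) hz
    apply mul_right_cancel₀ hxyz
    rw [hE]
    ring
  · rw [← he]; exact hH
  · intro i j hij
    rw [← he] at hij
    have h1 := sB_coeff N hH i 0 (by omega)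
    have e1 : e - i - 0 = j := by omega
    rw [e1] at h1
    rw [← h1]
    have hc0 : (sB N).coeff 0 = sA ^ e := by
      have h2 := hR1.1
      have e2 : a + c + (b + d) = e + 1 := by omega
      rw [e2] at h2
      have h3 : sA * (sB N).coeff 0 = sA * sA ^ e := by rw [h2]; ring
      exact mul_left_cancel₀ sA_ne h3
    rw [hc0]
    unfold sA
    rw [Polynomial.coeff_X_add_one_pow, hij]
  · intro i j l hl hij
    rw [← he] at hij
    have hLC := (sB_rows hT l hl).2 i i le_rfl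
    rw [sB_coeff N hH i l (by omega), sB_coeff N hH (i + 2) l (by omega), sB_coeff N hH (i + 1) l (by omega)] at hLC
    have e1 : e - i - l = j + 2 := by omega
    have e2 : e - (i + 2) - l = j := by omega
    have e3 : e - (i + 1) - l = j + 1 := by omega
    rw [e1, e2, e3] at hLC
    rw [pow_two]
    exact hLC
  · intro i j l hl hij
    rw [← he] at hij
    have hLC := (sH_rows hT j hl).2 i i le_rfl
    rw [sH_coeff N hH i j (by omega), sH_coeff N hH (i + 2) j (by omega), sH_coeff N hH (i + 1) j (by omega)] at hLC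
    have e1 : e - i - j = l + 2 := by omega
    have e2 : e - (i + 2) - j = l := by omega
    have e3 : e - (i + 1) - j = l + 1 := by omega
    rw [e1, e2, e3] at hLC
    rw [pow_two]
    exact hLC
  · intro i j l hl hij
    rw [← he] at hij
    have hLC := (sV_rows hT i hl).2 l l le_rfl
    rw [sV_coeff N hH l i (by omega), sV_coeff N hH (l + 2) i (by omega), sV_coeff N hH (l + 1) i (by omega)] at hLC
    have e1 : e - l - i = j + 2 := by omega
    have e2 : e - (l + 2) - i = j := by omega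
    have e3 : e - (l + 1) - i = j + 1 := by omega
    rw [e1, e2, e3] at hLC
    rw [pow_two]
    exact hLC

end H79W
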