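import Mathlib

/-!
# H79W, file E1: coefficientwise domination of real polynomials
-/

set_option autoImplicit false

namespace H79W

open Polynomial Finset

/-- Coefficientwise domination. -/
def Dm (f g : ℝ[X]) : Prop := ∀ k, |f.coeff k| ≤ g.coeff k

/-- Nonnegative coefficients. -/
def NN (g : ℝ[X]) : Prop := ∀ k, 0 ≤ g.coeff k

theorem NN.dm {g : ℝ[X]} (h : NN g) : Dm g g := fun k => by rw [abs_of_nonneg (h k)]

theorem Dm.nn {f g : ℝ[X]} (h : Dm f g) : NN g := fun k => (abs_nonneg _).trans (h k)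

theorem NN.add {f g : ℝ[X]} (hf : NN f) (hg : NN g) : NN (f + g) := fun k => by
  rw [coeff_add]; exact add_nonneg (hf k) (hg k)

theorem NN.mul {f g : ℝ[X]} (hf : NN f) (hg : NN g) : NN (f * g) := fun k => by
  rw [coeff_mul]; exact sum_nonneg fun x _ => mul_nonneg (hf _) (hg _)

theorem NN_C {c : ℝ} (hc : 0 ≤ c) : NN (C c) := fun k => by
  rw [coeff_C]; split_ifs <;> simp [hc]

theorem NN_one : NN 1 := by
  have := NN_C (zero_le_one)
  rwa [map_one] at this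

theorem NN_zero : NN 0 := fun k => by simp

theorem NN_X : NN X := fun k => by
  rw [coeff_X]; split_ifs <;> norm_num

theorem NN.pow {f : ℝ[X]} (hf : NN f) (n : ℕ) : NN (f ^ n) := by
  induction n with
  | zero => rw [pow_zero]; exact NN_one
  | succ n ih => rw [pow_succ]; exact ih.mul hf

theorem NN.sum {ι : Type} {s : Finset ι} {f : ι → ℝ[X]} (h : ∀ i ∈ s, NN (f i)) : NN (∑ i ∈ s, f i) := fun k => by
  rw [finsetSum_coeff]; exact sum_nonneg fun i hi => h i hi k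

theorem Dm.add {f g f' g' : ℝ[X]} (h : Dm f g) (h' : Dm f' g') : Dm (f + f') (g + g') := fun k => by
  rw [coeff_add, coeff_add]; exact (abs_add_le _ _).trans (add_le_add (h k) (h' k))

theorem Dm.neg {f g : ℝ[X]} (h : Dm f g) : Dm (-f) g := fun k => by
  rw [coeff_neg, abs_neg]; exact h k

theorem Dm.sub {f g f' g' : ℝ[X]} (h : Dm f g) (h' : Dm f' g') : Dm (f - f') (g + g') := by
  rw [sub_eq_add_neg]; exact h.add h'.neg

theorem Dm.mul {f g f' g' : ℝ[X]} (h : Dm f g) (h' : Dm f' g') : Dm (f * f') (g * g') := fun k => by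
  rw [coeff_mul, coeff_mul]
  refine (abs_sum_le_sum_abs _ _).trans (sum_le_sum fun x _ => ?_)
  rw [abs_mul]
  exact mul_le_mul (h _) (h' _) (abs_nonneg _) (h.nn _)

theorem Dm.pow {f g : ℝ[X]} (h : Dm f g) (n : ℕ) : Dm (f ^ n) (g ^ n) := by
  induction n with
  | zero => rw [pow_zero, pow_zero]; exact NN_one.dm
  | succ n ih => rw [pow_succ, pow_succ]; exact ih.mul h

theorem Dm.sum {ι : Type} {s : Finset ι} {f g : ι → ℝ[X]} (h : ∀ i ∈ s, Dm (f i) (g i)) :
    Dm (∑ i ∈ s, f i) (∑ i ∈ s, g i) := fun k => by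
  rw [finsetSum_coeff, finsetSum_coeff]
  exact (abs_sum_le_sum_abs _ _).trans (sum_le_sum fun i hi => h i hi k)

theorem Dm.le {f g h : ℝ[X]} (hf : Dm f g) (hg : NN (h - g)) : Dm f h := fun k => by
  have := hg k
  rw [coeff_sub] at this
  linarith [hf k]

theorem Dm.trans {f g h : ℝ[X]} (hf : Dm f g) (hg : Dm g h) : Dm f h := fun k =>
  (hf k).trans ((le_abs_self _).trans (hg k))

theorem NN.dm_zero {g : ℝ[X]} (h : NN g) : Dm 0 g := fun k => by simpa using h k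

theorem Dm_C {c c' : ℝ} (h : |c| ≤ c') : Dm (C c) (C c') := fun k => by
  rw [coeff_C, coeff_C]; split_ifs <;> simp [h]

theorem NN_sub_of_dm {f g : ℝ[X]} (h : Dm f g) : NN (g - f) := fun k => by
  rw [coeff_sub]; linarith [h k, le_abs_self (f.coeff k)]

/-- The mixed monomials. -/
noncomputable def Mx (x y : ℝ[X]) (n : ℕ) : ℝ[X] := ∑ i ∈ range n, x ^ (i + 1) * y ^ (n - i)

theorem Mx_nn {x y : ℝ[X]} (hx : NN x) (hy : NN y) (n : ℕ) : NN (Mx x y n) :=
  NN.sum fun i _ => (hx.pow _).mul (hy.pow _)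

theorem mixed (x y : ℝ[X]) (n : ℕ) :
    (x + y) ^ (n + 1) = x ^ (n + 1) + y ^ (n + 1) +
      ∑ i ∈ range n, x ^ (i + 1) * y ^ (n - i) * (((n + 1).choose (i + 1) : ℕ) : ℝ[X]) := by
  rw [add_pow, sum_range_succ, sum_range_succ']
  have e : ∀ i ∈ range n, x ^ (i + 1) * y ^ (n + 1 - (i + 1)) * (((n + 1).choose (i + 1) : ℕ) : ℝ[X]) =
      x ^ (i + 1) * y ^ (n - i) * (((n + 1).choose (i + 1) : ℕ) : ℝ[X]) := by
    intro _ _
    rw [Nat.add_sub_add_right]
  rw [sum_congr rfl e]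
  simp
  ring

theorem mixed_nn {x y : ℝ[X]} (hx : NN x) (hy : NN y) (n : ℕ) :
    NN ((x + y) ^ (n + 1) - (x ^ (n + 1) + y ^ (n + 1) + Mx x y n)) := by
  rw [mixed]
  have e : x ^ (n + 1) + y ^ (n + 1) + ∑ i ∈ range n, x ^ (i + 1) * y ^ (n - i) * (((n + 1).choose (i + 1) : ℕ) : ℝ[X]) -
      (x ^ (n + 1) + y ^ (n + 1) + Mx x y n) =
      ∑ i ∈ range n, x ^ (i + 1) * y ^ (n - i) * ((((n + 1).choose (i + 1) : ℕ) : ℝ[X]) - 1) := by
    unfold Mx
    simp only [mul_sub, sum_sub_distrib, mul_one]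
    ring
  rw [e]
  refine NN.sum fun i hi => ?_
  have h1 : 1 ≤ (n + 1).choose (i + 1) := Nat.choose_pos (by have := mem_range.mp hi; omega)
  have h2 : ((((n + 1).choose (i + 1) : ℕ) : ℝ[X]) - 1) = C ((((n + 1).choose (i + 1) : ℕ) : ℝ) - 1) := by
    simp
  rw [h2]
  refine ((hx.pow _).mul (hy.pow _)).mul (NN_C ?_)
  have : (1 : ℝ) ≤ (((n + 1).choose (i + 1) : ℕ) : ℝ) := by exact_mod_cast h1
  linarith

end H79W
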