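import Pool.Agent.Lib.H79W.E1

/-!
# H79W, file F1: domination of power series with polynomial coefficients
-/

set_option autoImplicit false

namespace H79W

open Finset

/-- The ring of the majorants. -/
abbrev RR : Type := PowerSeries (Polynomial ℝ)

/-- Coefficientwise domination. -/
def DM (f g : RR) : Prop := ∀ l, Dm (PowerSeries.coeff l f) (PowerSeries.coeff l g)

/-- Nonnegative coefficients. -/
def NM (g : RR) : Prop := ∀ l, NN (PowerSeries.coeff l g)

theorem NM.dm {g : RR} (h : NM g) : DM g g := fun l => (h l).dm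

theorem DM.nm {f g : RR} (h : DM f g) : NM g := fun l => (h l).nn

theorem NM.add {f g : RR} (hf : NM f) (hg : NM g) : NM (f + g) := fun l => by
  rw [map_add]; exact (hf l).add (hg l)

theorem NM.mul {f g : RR} (hf : NM f) (hg : NM g) : NM (f * g) := fun l => by
  rw [PowerSeries.coeff_mul]; exact NN.sum fun x _ => (hf _).mul (hg _)

theorem NM_C {c : Polynomial ℝ} (hc : NN c) : NM (PowerSeries.C c) := fun l => by
  rw [PowerSeries.coeff_C]; split_ifs
  · exact hc
  · exact NN_zero

theorem NM_one : NM 1 := by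
  have := NM_C NN_one
  rwa [map_one] at this

theorem NM_zero : NM 0 := fun l => by rw [map_zero]; exact NN_zero

theorem NM_X : NM (PowerSeries.X : RR) := fun l => by
  rw [PowerSeries.coeff_X]; split_ifs
  · exact NN_one
  · exact NN_zero

theorem NM.pow {f : RR} (hf : NM f) (n : ℕ) : NM (f ^ n) := by
  induction n with
  | zero => rw [pow_zero]; exact NM_one
  | succ n ih => rw [pow_succ]; exact ih.mul hf

theorem DM.add {f g f' g' : RR} (h : DM f g) (h' : DM f' g') : DM (f + f') (g + g') := fun l => by
  rw [map_add, map_add]; exact (h l).add (h' l)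

theorem DM.neg {f g : RR} (h : DM f g) : DM (-f) g := fun l => by
  rw [map_neg]; exact (h l).neg

theorem DM.sub {f g f' g' : RR} (h : DM f g) (h' : DM f' g') : DM (f - f') (g + g') := by
  rw [sub_eq_add_neg]; exact h.add h'.neg

theorem DM.mul {f g f' g' : RR} (h : DM f g) (h' : DM f' g') : DM (f * f') (g * g') := fun l => by
  rw [PowerSeries.coeff_mul, PowerSeries.coeff_mul]
  exact Dm.sum fun x _ => (h _).mul (h' _)

theorem DM.le {f g h : RR} (hf : DM f g) (hg : NM (h - g)) : DM f h := fun l =>
  (hf l).le (by have := hg l; rwa [map_sub] at this)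

theorem DM.trans {f g h : RR} (hf : DM f g) (hg : DM g h) : DM f h := fun l => (hf l).trans (hg l)

theorem NM.dm_zero {g : RR} (h : NM g) : DM 0 g := fun l => by rw [map_zero]; exact (h l).dm_zero

theorem NM.cast {f g : RR} (h : NM f) (e : f = g) : NM g := e ▸ h

/-- The variables and the series. -/
noncomputable def ep : RR := PowerSeries.X
noncomputable def aa : RR := PowerSeries.C Polynomial.X
noncomputable def sP : Polynomial ℝ := Polynomial.X + 1
noncomputable def uu : RR := PowerSeries.C sP * ep
/-- `1 / (1 - c ε)`. -/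
noncomputable def geo (c : Polynomial ℝ) : RR := PowerSeries.mk fun i => c ^ i

theorem NN_sP : NN sP := NN_X.add NN_one
theorem NM_ep : NM ep := NM_X
theorem NM_aa : NM aa := NM_C NN_X
theorem NM_uu : NM uu := (NM_C NN_sP).mul NM_ep

theorem NM_geo {c : Polynomial ℝ} (hc : NN c) : NM (geo c) := fun l => by
  unfold geo
  rw [PowerSeries.coeff_mk]; exact hc.pow l

theorem geo_eq (c : Polynomial ℝ) : (1 - PowerSeries.C c * ep) * geo c = 1 := by
  ext1 n
  unfold geo ep
  rw [sub_mul, one_mul, map_sub, PowerSeries.coeff_mk, mul_assoc, PowerSeries.coeff_C_mul]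
  rcases n with _ | n
  · rw [PowerSeries.coeff_zero_X_mul]
    simp
  · rw [PowerSeries.coeff_succ_X_mul, PowerSeries.coeff_mk, PowerSeries.coeff_one, if_neg (by omega)]
    ring

theorem geo_mono {c c' : Polynomial ℝ} (hc : NN c) (h : NN (c' - c)) : NM (geo c' - geo c) := fun l => by
  unfold geo
  rw [map_sub, PowerSeries.coeff_mk, PowerSeries.coeff_mk]
  have hc' : NN c' := by
    have := h.add hc
    rwa [sub_add_cancel] at this
  induction l with
  | zero => rw [pow_zero, pow_zero, sub_self]; exact NN_zero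
  | succ n ih =>
    have e : c' ^ (n + 1) - c ^ (n + 1) = c' ^ n * (c' - c) + (c' ^ n - c ^ n) * c := by ring
    rw [e]
    exact ((hc'.pow n).mul h).add (ih.mul hc)

theorem geo_sub_one {c : Polynomial ℝ} (hc : NN c) : NM (geo c - 1) := by
  have h : geo c - 1 = PowerSeries.C c * ep * geo c := by
    have := geo_eq c
    linear_combination this
  rw [h]
  exact ((NM_C hc).mul NM_ep).mul (NM_geo hc)

/-- `1 / (1 - 2 u)`, `1 / (1 - u)`, `1 / (1 - ε)`. -/
noncomputable def w2 : RR := geo (2 * sP)
noncomputable def w1 : RR := geo sP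
noncomputable def w0 : RR := geo 1

theorem w2_eq : (1 - 2 * uu) * w2 = 1 := by
  have := geo_eq (2 * sP)
  rw [map_mul] at this
  have e : (PowerSeries.C (2 : Polynomial ℝ) : RR) = 2 := map_ofNat _ 2
  rw [e] at this
  unfold w2 uu
  linear_combination this

theorem w1_eq : (1 - uu) * w1 = 1 := geo_eq sP

theorem w0_eq : (1 - ep) * w0 = 1 := by
  have := geo_eq 1
  rw [map_one, one_mul] at this
  exact this

theorem NN_two : NN (2 : Polynomial ℝ) := by
  have := NN_one.add NN_one
  rwa [one_add_one_eq_two] at this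

theorem NM_w2 : NM w2 := NM_geo (NN_two.mul NN_sP)
theorem NM_w1 : NM w1 := NM_geo NN_sP
theorem NM_w0 : NM w0 := NM_geo NN_one

theorem w2_w1 : NM (w2 - w1) := geo_mono NN_sP (by
  have : 2 * sP - sP = sP := by ring
  rw [this]; exact NN_sP)

theorem w2_w0 : NM (w2 - w0) := geo_mono NN_one (by
  have : 2 * sP - 1 = 2 * Polynomial.X + 1 := by unfold sP; ring
  rw [this]; exact (NN_two.mul NN_X).add NN_one)

theorem w2_one : NM (w2 - 1) := geo_sub_one (NN_two.mul NN_sP)
theorem w1_one : NM (w1 - 1) := geo_sub_one NN_sP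
theorem w0_one : NM (w0 - 1) := geo_sub_one NN_one

theorem uu_eq : uu = aa * ep + ep := by
  unfold uu aa sP
  rw [map_add, map_one]; ring

theorem w1_pow (k : ℕ) : NM (w1 - uu ^ k) := fun l => by
  unfold w1 geo uu ep
  rw [map_sub, PowerSeries.coeff_mk, mul_pow, ← map_pow, PowerSeries.coeff_C_mul, PowerSeries.coeff_X_pow]
  split_ifs with h
  · rw [h]
    have : sP ^ k - sP ^ k * 1 = 0 := by ring
    rw [this]; exact NN_zero
  · rw [mul_zero, sub_zero]
    exact NN_sP.pow l

end H79W
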