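import Pool.Agent.Lib.H79W.F9

/-!
# H79W, file F10: log-concavity of the rows up to the square root of the label
-/

set_option autoImplicit false

namespace H79W

open Polynomial

theorem Sr_close {p q l : ℕ} {T : ℤ[X][X]} (hpq : p ≤ q) (hl : l ≤ p)
    (hT : DM (tau T - WW p q) (MM p q - WW p q)) (k : ℕ) :
    |(((Sr T l).coeff k : ℤ) : ℝ) - cc p q l k| ≤ ((1 + 2 * rho p l) ^ l - 1) * cc p q l k := by
  have h1 := (Ss_bound hT) l
  rw [map_sub, map_sub, WW_coeff] at h1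
  have h2 := GG_bound hpq hl
  obtain ⟨η, hη⟩ : ∃ η, η = (1 + 2 * rho p l) ^ l - 1 := ⟨_, rfl⟩
  have h3 : Dm (PowerSeries.coeff l (Ss T) - (Wp p q).coeff l) (C η * (Wp p q).coeff l) := by
    refine h1.le ?_
    have e : C η * (Wp p q).coeff l - (PowerSeries.coeff l (Ga ^ q * Gb ^ p * w2) - (Wp p q).coeff l) =
        C ((1 + 2 * rho p l) ^ l) * (Wp p q).coeff l - PowerSeries.coeff l (Ga ^ q * Gb ^ p * w2) := by
      rw [hη, C_sub, map_one]; ring
    rw [e]; exact h2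
  have h4 := h3 k
  rw [coeff_sub, coeff_C_mul] at h4
  have e : (PowerSeries.coeff l (Ss T)).coeff k = (((Sr T l).coeff k : ℤ) : ℝ) := by
    unfold Ss
    rw [PowerSeries.coeff_mk, coeff_map]
    simp
  rw [e] at h4
  rw [← hη]
  exact h4

theorem eta3 {p l : ℕ} (h : 8 * l ^ 2 + l ≤ p + 1) (hl : l ≤ p) : (1 + 2 * rho p l) ^ l - 1 ≤ 1 / 3 := by
  rcases Nat.eq_zero_or_pos l with h0 | h0
  · subst h0; norm_num
  have hlp : (l : ℝ) ≤ p := by exact_mod_cast hl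
  have hl1 : (1 : ℝ) ≤ l := by exact_mod_cast h0
  have h' : 8 * (l : ℝ) ^ 2 + l ≤ p + 1 := by exact_mod_cast h
  have hden : (0 : ℝ) < (p : ℝ) - l + 1 := by linarith
  obtain ⟨x, hx⟩ : ∃ x, x = 2 * rho p l := ⟨_, rfl⟩
  have hx0 : 0 ≤ x := by rw [hx]; exact mul_nonneg (by norm_num) (rho_nn hl)
  have hxl : l * x ≤ 1 / 4 := by
    rw [hx]
    unfold rho
    rw [mul_div_assoc', mul_div_assoc', div_le_iff₀ hden]
    nlinarith
  rw [← hx]
  have hx1 : x ≤ 1 := by nlinarith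
  have h1 : 1 + (l : ℝ) * (-x) ≤ (1 + (-x)) ^ l := one_add_mul_le_pow (by linarith) l
  have h2 : (1 + x) ^ l * (1 + (-x)) ^ l ≤ 1 := by
    rw [← mul_pow]
    exact pow_le_one₀ (mul_nonneg (by linarith) (by linarith)) (by nlinarith)
  have h3 : 0 < (1 + x) ^ l := by positivity
  have h4 : (1 + x) ^ l * (3 / 4) ≤ 1 := (mul_le_mul_of_nonneg_left (by linarith) h3.le).trans h2
  linarith

theorem row_coeff {D l : ℕ} {S : ℤ[X]} (hS : ∀ k, l < k → S.coeff k = 0) (n : ℕ) :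
    (((sA ^ D * S).coeff n : ℤ) : ℝ) =
      ∑ k ∈ Finset.range (l + 1), ((S.coeff k : ℤ) : ℝ) * (if k ≤ n then ((D.choose (n - k) : ℕ) : ℝ) else 0) := by
  have h1 : (sA ^ D * S).coeff n = ∑ k ∈ Finset.range (n + 1), S.coeff k * ((D.choose (n - k) : ℕ) : ℤ) := by
    rw [mul_comm, coeff_mul, Finset.Nat.sum_antidiagonal_eq_sum_range_succ_mk]
    refine Finset.sum_congr rfl fun k _ => ?_
    simp only
    unfold sA
    rw [coeff_X_add_one_pow]
  rw [h1]
  push_cast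
  have h2 : ∑ k ∈ Finset.range (n + 1), ((S.coeff k : ℤ) : ℝ) * ((D.choose (n - k) : ℕ) : ℝ) =
      ∑ k ∈ Finset.range (n + l + 1), ((S.coeff k : ℤ) : ℝ) * (if k ≤ n then ((D.choose (n - k) : ℕ) : ℝ) else 0) := by
    refine Finset.sum_subset_zero_on_sdiff ?_ ?_ ?_
    · intro k hk
      have := Finset.mem_range.mp hk
      exact Finset.mem_range.mpr (by omega)
    · intro k hk
      have h3 := (Finset.mem_sdiff.mp hk).2
      have : ¬ k ≤ n := fun h => h3 (Finset.mem_range.mpr (by omega))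
      rw [if_neg this, mul_zero]
    · intro k hk
      have := Finset.mem_range.mp hk
      rw [if_pos (by omega)]
  rw [h2]
  symm
  refine Finset.sum_subset_zero_on_sdiff ?_ ?_ ?_
  · intro k hk
    have := Finset.mem_range.mp hk
    exact Finset.mem_range.mpr (by omega)
  · intro k hk
    have h3 := (Finset.mem_sdiff.mp hk).2
    have : l < k := by
      by_contra h
      exact h3 (Finset.mem_range.mpr (by omega))
    rw [hS k this]
    simp
  · intro k _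
    rfl

theorem row_final {p q l D : ℕ} {S : ℤ[X]} (hpq : p ≤ q) (hl : 8 * l ^ 2 + l ≤ p + 1) (hlp : l ≤ p)
    (hD : D + 2 * l + 1 = p + q) (hS : ∀ k, |((S.coeff k : ℤ) : ℝ) - cc p q l k| ≤ 1 / 3 * cc p q l k) (n : ℕ) :
    (sA ^ D * S).coeff n * (sA ^ D * S).coeff (n + 2) ≤ (sA ^ D * S).coeff (n + 1) ^ 2 := by
  have hS0 : ∀ k, l < k → S.coeff k = 0 := by
    intro k hk
    have h1 := hS k
    have h2 : cc p q l k = 0 := by
      unfold cc
      rw [Wp_cc, if_neg (by omega)]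
    rw [h2, mul_zero, sub_zero] at h1
    have h3 := abs_nonpos_iff.mp h1
    exact_mod_cast h3
  have key : (((sA ^ D * S).coeff n : ℤ) : ℝ) * (((sA ^ D * S).coeff (n + 2) : ℤ) : ℝ) ≤
      (((sA ^ D * S).coeff (n + 1) : ℤ) : ℝ) ^ 2 := by
    rw [row_coeff hS0, row_coeff hS0, row_coeff hS0]
    have hcr := crit (n := n) (σ := fun k => ((S.coeff k : ℤ) : ℝ)) hpq hl hlp hD hS
    obtain ⟨σ, hσ⟩ : ∃ σ : ℕ → ℝ, σ = fun k => ((S.coeff k : ℤ) : ℝ) := ⟨_, rfl⟩
    have hσk : ∀ k, ((S.coeff k : ℤ) : ℝ) = σ k := fun k => by rw [hσ]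
    simp only [hσk] at hcr ⊢
    obtain ⟨m0, hm0⟩ : ∃ x, x = ∑ k ∈ Finset.range (l + 1), σ k * bt D n k := ⟨_, rfl⟩
    obtain ⟨m1, hm1⟩ : ∃ x, x = ∑ k ∈ Finset.range (l + 1), σ k * bt D n k * ((n : ℝ) + 2 - k) := ⟨_, rfl⟩
    obtain ⟨m2, hm2⟩ : ∃ x, x = ∑ k ∈ Finset.range (l + 1), σ k * bt D n k * ((n : ℝ) + 2 - k) ^ 2 := ⟨_, rfl⟩
    rw [← hm0, ← hm1, ← hm2] at hcr
    have hF : (1 : ℝ) ≤ (D : ℝ) + 2 := by
      have : (0 : ℝ) ≤ D := Nat.cast_nonneg _
      linarith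
    have hv := var_crit hF hcr
    have hc0 : (0 : ℝ) < ((D : ℝ) + 2) * ((D : ℝ) + 1) := by positivity
    have r0 : ((D : ℝ) + 2) * ((D : ℝ) + 1) *
        (∑ k ∈ Finset.range (l + 1), σ k * (if k ≤ n then ((D.choose (n - k) : ℕ) : ℝ) else 0)) = m2 - m1 := by
      rw [hm1, hm2, Finset.mul_sum, ← Finset.sum_sub_distrib]
      refine Finset.sum_congr rfl fun k _ => ?_
      have := bt_0 D n k
      linear_combination σ k * this
    have r1 : ((D : ℝ) + 2) * ((D : ℝ) + 1) *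
        (∑ k ∈ Finset.range (l + 1), σ k * (if k ≤ n + 1 then ((D.choose (n + 1 - k) : ℕ) : ℝ) else 0)) =
        ((D : ℝ) + 2) * m1 - m2 := by
      rw [hm1, hm2, Finset.mul_sum, Finset.mul_sum, ← Finset.sum_sub_distrib]
      refine Finset.sum_congr rfl fun k _ => ?_
      have := bt_1 D n k
      linear_combination σ k * this
    have r2 : ((D : ℝ) + 2) * ((D : ℝ) + 1) *
        (∑ k ∈ Finset.range (l + 1), σ k * (if k ≤ n + 2 then ((D.choose (n + 2 - k) : ℕ) : ℝ) else 0)) =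
        ((D : ℝ) + 2) * ((D : ℝ) + 2 - 1) * m0 - (2 * ((D : ℝ) + 2) - 1) * m1 + m2 := by
      rw [hm0, hm1, hm2, Finset.mul_sum, Finset.mul_sum, Finset.mul_sum, ← Finset.sum_sub_distrib,
        ← Finset.sum_add_distrib]
      refine Finset.sum_congr rfl fun k _ => ?_
      have := bt_2 D n k
      linear_combination σ k * this
    rw [← r0, ← r1, ← r2] at hv
    have hfin : (((D : ℝ) + 2) * ((D : ℝ) + 1)) ^ 2 *
        ((∑ k ∈ Finset.range (l + 1), σ k * (if k ≤ n then ((D.choose (n - k) : ℕ) : ℝ) else 0)) *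
          (∑ k ∈ Finset.range (l + 1), σ k * (if k ≤ n + 2 then ((D.choose (n + 2 - k) : ℕ) : ℝ) else 0))) ≤
        (((D : ℝ) + 2) * ((D : ℝ) + 1)) ^ 2 *
          (∑ k ∈ Finset.range (l + 1), σ k * (if k ≤ n + 1 then ((D.choose (n + 1 - k) : ℕ) : ℝ) else 0)) ^ 2 := by
      linarith [hv]
    exact le_of_mul_le_mul_left hfin (by positivity)
  exact_mod_cast key

theorem row_deep {a b c d : ℕ} {P Q R : ℤ[X][X]} (h : PT a b c d P Q R) (hab : a + c ≤ b + d) {l : ℕ}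
    (hl : 8 * l ^ 2 + l ≤ a + c + 1) (n : ℕ) :
    (R.coeff l).coeff n * (R.coeff l).coeff (n + 2) ≤ (R.coeff l).coeff (n + 1) ^ 2 := by
  obtain ⟨P', Q', R', hT, _, _, hR⟩ := PT_TT h
  obtain ⟨_, hc, _, _, _, hb, _⟩ := TT_bound hT
  have hlp : l ≤ a + c := by nlinarith
  have h2 := Rel_row hR l
  have hD : (a + c + (b + d) - (2 * l + 1)) + 2 * l + 1 = a + c + (b + d) := by
    have : 2 * l + 1 ≤ a + c + (b + d) := by nlinarith
    omega
  have e : a + c + (b + d) = (2 * l + 1) + (a + c + (b + d) - (2 * l + 1)) := by omega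
  have h3 : R.coeff l = sA ^ (a + c + (b + d) - (2 * l + 1)) * Sr R' l := by
    have hne : sA ^ (2 * l + 1) ≠ 0 := pow_ne_zero _ sA_ne
    apply mul_left_cancel₀ hne
    rw [h2, ← mul_assoc, ← pow_add, ← e]
  rw [h3]
  refine row_final hab hl hlp hD (fun k => ?_) n
  refine (Sr_close hab hlp hb k).trans ?_
  exact mul_le_mul_of_nonneg_right (eta3 hl hlp) (cc_nn _ _ _ _)

end H79W
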