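import Pool.Agent.Lib.H79W.F1

/-!
# H79W, file F2: the majorants
-/

set_option autoImplicit false

namespace H79W

open Finset

/-- The main factors and their majorants. -/
noncomputable def Wa : RR := 1 + aa * ep
noncomputable def Wb : RR := 1 + ep
noncomputable def Ga : RR := 1 + aa * ep * w2
noncomputable def Gb : RR := 1 + ep * w2
noncomputable def Ps : RR := 1 - uu ^ 2 * w1

noncomputable def WW (p q : ℕ) : RR := Wa ^ q * Wb ^ p
noncomputable def MM (p q : ℕ) : RR := Ga ^ q * Gb ^ p * Ps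

theorem NM_Wa : NM Wa := NM_one.add (NM_aa.mul NM_ep)
theorem NM_Wb : NM Wb := NM_one.add NM_ep
theorem NM_Ga : NM Ga := NM_one.add ((NM_aa.mul NM_ep).mul NM_w2)
theorem NM_Gb : NM Gb := NM_one.add (NM_ep.mul NM_w2)

theorem NM_WW (p q : ℕ) : NM (WW p q) := (NM_Wa.pow q).mul (NM_Wb.pow p)

theorem Ga_Wa : NM (Ga - Wa) := by
  have e : Ga - Wa = aa * ep * (w2 - 1) := by unfold Ga Wa; ring
  rw [e]; exact (NM_aa.mul NM_ep).mul w2_one

theorem Gb_Wb : NM (Gb - Wb) := by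
  have e : Gb - Wb = ep * (w2 - 1) := by unfold Gb Wb; ring
  rw [e]; exact NM_ep.mul w2_one

/-- Domination between nonnegative series is closed under products. -/
theorem NM_mul_sub {f f' g g' : RR} (hf : NM f) (hg : NM g) (h1 : NM (f' - f)) (h2 : NM (g' - g)) :
    NM (f' * g' - f * g) := by
  have hf' : NM f' := (h1.add hf).cast (by ring)
  exact ((hf'.mul h2).add (h1.mul hg)).cast (by ring)

theorem NM_pow_sub {f f' : RR} (hf : NM f) (h1 : NM (f' - f)) (n : ℕ) : NM (f' ^ n - f ^ n) := by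
  induction n with
  | zero => rw [pow_zero, pow_zero, sub_self]; exact NM_zero
  | succ n ih =>
    rw [pow_succ, pow_succ]
    exact NM_mul_sub (hf.pow n) hf ih h1

theorem base_identity : Ga * Gb * Ps - Wa * Wb =
    uu ^ 2 * w2 + aa * ep ^ 2 * ((PowerSeries.C (Polynomial.C (1 / 2 : ℝ))) * (w2 ^ 2 + 3 * w2) - 1 - w1) := by
  have h2 := w2_eq
  have h1 := w1_eq
  have hh : (PowerSeries.C (Polynomial.C (1 / 2 : ℝ)) : RR) * 2 = 1 := by
    have e : (2 : RR) = PowerSeries.C (Polynomial.C 2) := by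
      have e1 : (Polynomial.C (2 : ℝ) : Polynomial ℝ) = 2 := map_ofNat _ 2
      have e2 : (PowerSeries.C (2 : Polynomial ℝ) : RR) = 2 := map_ofNat _ 2
      rw [e1, e2]
    rw [e, ← map_mul, ← Polynomial.C_mul]
    norm_num
  obtain ⟨h, hdef⟩ : ∃ h : RR, h = PowerSeries.C (Polynomial.C (1 / 2 : ℝ)) := ⟨_, rfl⟩
  rw [← hdef] at hh ⊢
  have e3 : w2 - w1 = uu * w2 * w1 := by
    linear_combination (w2 * w1 * 0 + w1) * h2 - w2 * h1
  have e4 : uu ^ 2 * w2 ^ 2 * w1 = uu * w2 * (w2 - w1) := by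
    rw [e3]; ring
  have e5 : 2 * (uu * w2) = w2 - 1 := by linear_combination -h2
  have e6 : uu * w2 = h * (w2 - 1) := by
    linear_combination h * e5 - (uu * w2) * hh
  have hu := uu_eq
  unfold Ga Gb Ps Wa Wb
  have e7 : (1 + aa * ep * w2) * (1 + ep * w2) * (1 - uu ^ 2 * w1) - (1 + aa * ep) * (1 + ep) =
      (uu * w2 - uu) - uu ^ 2 * w1 - uu ^ 2 * (uu * w2 * w1) +
        aa * ep ^ 2 * (w2 ^ 2 - uu ^ 2 * w2 ^ 2 * w1 - 1) := by
    rw [hu]; ring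
  rw [e7, e4, ← e3]
  have e8 : uu * w2 * (w2 - w1) = h * (w2 - 1) * w2 - (w2 - w1) := by
    rw [mul_sub, e6, ← e6, ← e3]
  rw [e8]
  linear_combination uu * h2 - (aa * ep ^ 2 * (w2 + w2 ^ 2)) * hh

theorem half_nn : NM (PowerSeries.C (Polynomial.C (1 / 2 : ℝ)) * (w2 ^ 2 + 3 * w2) - 1 - w1) := by
  have hc : NN (Polynomial.C (1 / 2 : ℝ)) := NN_C (by norm_num)
  have h1 : NM (w2 ^ 2 - w2) := ((NM_w2).mul w2_one).cast (by ring)
  have hh : (PowerSeries.C (Polynomial.C (1 / 2 : ℝ)) : RR) * 2 = 1 := by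
    have e : (2 : RR) = PowerSeries.C (Polynomial.C 2) := by
      have e1 : (Polynomial.C (2 : ℝ) : Polynomial ℝ) = 2 := map_ofNat _ 2
      have e2 : (PowerSeries.C (2 : Polynomial ℝ) : RR) = 2 := map_ofNat _ 2
      rw [e1, e2]
    rw [e, ← map_mul, ← Polynomial.C_mul]
    norm_num
  have e : PowerSeries.C (Polynomial.C (1 / 2 : ℝ)) * (w2 ^ 2 + 3 * w2) - 1 - w1 =
      PowerSeries.C (Polynomial.C (1 / 2 : ℝ)) * (w2 ^ 2 - w2) + (w2 - 1) + (w2 - w1) := by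
    linear_combination (2 * w2) * hh
  rw [e]
  exact (((NM_C hc).mul h1).add w2_one).add w2_w1

theorem aa_ep2 : NM (uu ^ 2 * w2 - aa * ep ^ 2 - aa * ep ^ 2) := by
  have e : uu ^ 2 * w2 - aa * ep ^ 2 - aa * ep ^ 2 = uu ^ 2 * (w2 - 1) + (aa * ep) ^ 2 + ep ^ 2 := by
    rw [uu_eq]; ring
  rw [e]
  exact (((NM_uu.pow 2).mul w2_one).add ((NM_aa.mul NM_ep).pow 2)).add (NM_ep.pow 2)

/-- The basic inequality. -/
theorem base_nn : NM (MM 1 1 - WW 1 1 - aa * ep ^ 2) := by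
  have e : MM 1 1 - WW 1 1 - aa * ep ^ 2 = (uu ^ 2 * w2 - aa * ep ^ 2 - aa * ep ^ 2) + aa * ep ^ 2 +
      aa * ep ^ 2 * ((PowerSeries.C (Polynomial.C (1 / 2 : ℝ))) * (w2 ^ 2 + 3 * w2) - 1 - w1) := by
    have := base_identity
    unfold MM WW
    linear_combination this
  rw [e]
  exact (aa_ep2.add (NM_aa.mul (NM_ep.pow 2))).add ((NM_aa.mul (NM_ep.pow 2)).mul half_nn)

theorem base_nn' : NM (MM 1 1 - WW 1 1) :=
  (base_nn.add (NM_aa.mul (NM_ep.pow 2))).cast (by ring)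

theorem NM_M11 : NM (MM 1 1) := (base_nn'.add (NM_WW 1 1)).cast (by ring)

theorem MM_succ (p q : ℕ) : MM (p + 1) (q + 1) = MM 1 1 * (Ga ^ q * Gb ^ p) := by unfold MM; ring

theorem WW_succ (p q : ℕ) : WW (p + 1) (q + 1) = WW 1 1 * (Wa ^ q * Wb ^ p) := by unfold WW; ring

theorem NM_MM {p q : ℕ} (hp : 1 ≤ p) (hq : 1 ≤ q) : NM (MM p q) := by
  obtain ⟨p, rfl⟩ := Nat.exists_eq_add_of_le' hp
  obtain ⟨q, rfl⟩ := Nat.exists_eq_add_of_le' hq
  rw [MM_succ]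
  exact NM_M11.mul ((NM_Ga.pow q).mul (NM_Gb.pow p))

theorem MM_WW {p q : ℕ} (hp : 1 ≤ p) (hq : 1 ≤ q) : NM (MM p q - WW p q) := by
  obtain ⟨p, rfl⟩ := Nat.exists_eq_add_of_le' hp
  obtain ⟨q, rfl⟩ := Nat.exists_eq_add_of_le' hq
  rw [MM_succ, WW_succ]
  exact NM_mul_sub (NM_WW 1 1) ((NM_Wa.pow q).mul (NM_Wb.pow p)) base_nn'
    (NM_mul_sub (NM_Wa.pow q) (NM_Wb.pow p) (NM_pow_sub NM_Wa Ga_Wa q) (NM_pow_sub NM_Wb Gb_Wb p))

theorem WW_uu {p q : ℕ} (hp : 1 ≤ p) (hq : 1 ≤ q) : NM (WW p q - (1 + uu)) := by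
  obtain ⟨p, rfl⟩ := Nat.exists_eq_add_of_le' hp
  obtain ⟨q, rfl⟩ := Nat.exists_eq_add_of_le' hq
  rw [WW_succ]
  have h1 : NM (WW 1 1 - (1 + uu)) := by
    have e : WW 1 1 - (1 + uu) = aa * ep ^ 2 := by unfold WW Wa Wb; rw [uu_eq]; ring
    rw [e]; exact NM_aa.mul (NM_ep.pow 2)
  have h2 : NM (Wa ^ q * Wb ^ p - 1 * 1) := by
    refine NM_mul_sub NM_one NM_one ?_ ?_
    · have := NM_pow_sub (f := 1) (f' := Wa) NM_one ((NM_aa.mul NM_ep).cast (by unfold Wa; ring)) q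
      rwa [one_pow] at this
    · have := NM_pow_sub (f := 1) (f' := Wb) NM_one (NM_ep.cast (by unfold Wb; ring)) p
      rwa [one_pow] at this
  rw [one_mul] at h2
  have h3 := NM_mul_sub (NM_one.add NM_uu) NM_one h1 h2
  rwa [mul_one] at h3

end H79W
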