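import Pool.Agent.Lib.H79W.F2

/-!
# H79W, file F3: the two steps for the majorants
-/

set_option autoImplicit false

namespace H79W

open Finset

theorem Ga_one : NM (Ga - 1) := ((NM_aa.mul NM_ep).mul NM_w2).cast (by unfold Ga; ring)
theorem Gb_one : NM (Gb - 1) := (NM_ep.mul NM_w2).cast (by unfold Gb; ring)

theorem Gx_one (x1 x2 : ℕ) : NM ((Ga ^ x2 * Gb ^ x1) ^ 2 - 1) := by
  have h1 := NM_pow_sub NM_one Ga_one x2
  have h2 := NM_pow_sub NM_one Gb_one x1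
  rw [one_pow] at h1 h2
  have h3 := NM_mul_sub NM_one NM_one h1 h2
  rw [one_mul] at h3
  have h4 := NM_pow_sub NM_one h3 2
  rwa [one_pow] at h4

theorem WW_add (x1 x2 y1 y2 : ℕ) : WW (x1 + y1) (x2 + y2) = WW x1 x2 * WW y1 y2 := by
  unfold WW; ring

theorem MM_add (x1 x2 y1 y2 : ℕ) : MM (x1 + y1) (x2 + y2) * Ps = MM x1 x2 * MM y1 y2 := by
  unfold MM; ring

theorem corr_dm (x1 x2 : ℕ) : DM (aa ^ x1 * ep ^ (x1 + x2)) (uu ^ (x1 + x2)) := by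
  have e : aa ^ x1 * ep ^ (x1 + x2) = (aa * ep) ^ x1 * ep ^ x2 := by ring
  have h1 : NM (uu - aa * ep) := NM_ep.cast (by rw [uu_eq]; ring)
  have h2 : NM (uu - ep) := (NM_aa.mul NM_ep).cast (by rw [uu_eq]; ring)
  have h3 := NM_mul_sub ((NM_aa.mul NM_ep).pow x1) (NM_ep.pow x2) (NM_pow_sub (NM_aa.mul NM_ep) h1 x1)
    (NM_pow_sub NM_ep h2 x2)
  rw [e, pow_add]
  exact (((NM_aa.mul NM_ep).pow x1).mul (NM_ep.pow x2)).dm.le h3

theorem DM_tot {X W M : RR} (hW : NM W) (h : DM (X - W) (M - W)) : DM X M := by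
  have := h.add hW.dm
  rwa [sub_add_cancel, sub_add_cancel] at this

theorem maj_step {x1 x2 o1 o2 : ℕ} {X Y O : RR} (hx1 : 1 ≤ x1) (hx2 : 1 ≤ x2)
    (hX : DM (X - WW x1 x2) (MM x1 x2 - WW x1 x2))
    (hY : DM (Y - WW (x1 + o1) (x2 + o2)) (MM (x1 + o1) (x2 + o2) - WW (x1 + o1) (x2 + o2)))
    (hO : (1 ≤ o1 ∧ 1 ≤ o2 ∧ DM (O - WW o1 o2) (MM o1 o2 - WW o1 o2)) ∨ O = 1 + uu) :
    DM (X * Y - aa ^ x1 * ep ^ (x1 + x2) * O - WW (x1 + (x1 + o1)) (x2 + (x2 + o2)))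
      (MM (x1 + (x1 + o1)) (x2 + (x2 + o2)) - WW (x1 + (x1 + o1)) (x2 + (x2 + o2))) := by
  obtain ⟨n, hn⟩ : ∃ n, x1 + x2 = n + 2 := ⟨x1 + x2 - 2, by omega⟩
  have hw := w1_pow n
  have e1 : X * Y - aa ^ x1 * ep ^ (x1 + x2) * O - WW (x1 + (x1 + o1)) (x2 + (x2 + o2)) =
      ((X - WW x1 x2) * Y + WW x1 x2 * (Y - WW (x1 + o1) (x2 + o2))) - aa ^ x1 * ep ^ (x1 + x2) * O := by
    rw [WW_add]; ring
  have hYt : DM Y (MM (x1 + o1) (x2 + o2)) := DM_tot (NM_WW _ _) hY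
  have hM := MM_add x1 x2 (x1 + o1) (x2 + o2)
  have hWn := WW_add x1 x2 (x1 + o1) (x2 + o2)
  rw [e1]
  rcases hO with ⟨ho1, ho2, hO⟩ | hO
  · have hOt : DM O (MM o1 o2) := DM_tot (NM_WW _ _) hO
    refine (((hX.mul hYt).add ((NM_WW x1 x2).dm.mul hY)).sub ((corr_dm x1 x2).mul hOt)).le ?_
    have e2 : MM (x1 + (x1 + o1)) (x2 + (x2 + o2)) - WW (x1 + (x1 + o1)) (x2 + (x2 + o2)) -
        ((MM x1 x2 - WW x1 x2) * MM (x1 + o1) (x2 + o2) + WW x1 x2 * (MM (x1 + o1) (x2 + o2) - WW (x1 + o1) (x2 + o2)) +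
          uu ^ (x1 + x2) * MM o1 o2) =
        MM o1 o2 * (((Ga ^ x2 * Gb ^ x1) ^ 2 - 1) * (uu ^ 2 * w1) + uu ^ 2 * (w1 - uu ^ n)) := by
      have e3 : MM (x1 + (x1 + o1)) (x2 + (x2 + o2)) = MM o1 o2 * (Ga ^ x2 * Gb ^ x1) ^ 2 := by
        unfold MM; ring
      have e4 : MM (x1 + (x1 + o1)) (x2 + (x2 + o2)) * (uu ^ 2 * w1) =
          MM (x1 + (x1 + o1)) (x2 + (x2 + o2)) - MM x1 x2 * MM (x1 + o1) (x2 + o2) := by
        rw [← hM]; unfold Ps; ring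
      rw [hn, hWn, pow_add]
      rw [e3] at e4 ⊢
      linear_combination -e4
    rw [e2]
    exact (NM_MM ho1 ho2).mul (((Gx_one x1 x2).mul ((NM_uu.pow 2).mul NM_w1)).add ((NM_uu.pow 2).mul hw))
  · rw [hO]
    have h1u : NM (1 + uu) := NM_one.add NM_uu
    refine (((hX.mul hYt).add ((NM_WW x1 x2).dm.mul hY)).sub ((corr_dm x1 x2).mul h1u.dm)).le ?_
    have e2 : MM (x1 + (x1 + o1)) (x2 + (x2 + o2)) - WW (x1 + (x1 + o1)) (x2 + (x2 + o2)) -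
        ((MM x1 x2 - WW x1 x2) * MM (x1 + o1) (x2 + o2) + WW x1 x2 * (MM (x1 + o1) (x2 + o2) - WW (x1 + o1) (x2 + o2)) +
          uu ^ (x1 + x2) * (1 + uu)) =
        ((MM (x1 + (x1 + o1)) (x2 + (x2 + o2)) - WW (x1 + (x1 + o1)) (x2 + (x2 + o2))) +
          (WW (x1 + (x1 + o1)) (x2 + (x2 + o2)) - (1 + uu))) * (uu ^ 2 * w1) +
          (1 + uu) * (uu ^ 2 * (w1 - uu ^ n)) := by
      have e4 : MM (x1 + (x1 + o1)) (x2 + (x2 + o2)) * (uu ^ 2 * w1) =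
          MM (x1 + (x1 + o1)) (x2 + (x2 + o2)) - MM x1 x2 * MM (x1 + o1) (x2 + o2) := by
        rw [← hM]; unfold Ps; ring
      rw [hn, hWn, pow_add]
      linear_combination -e4
    rw [e2]
    exact (((MM_WW (by omega) (by omega)).add (WW_uu (by omega) (by omega))).mul ((NM_uu.pow 2).mul NM_w1)).add
      (h1u.mul ((NM_uu.pow 2).mul hw))

theorem chain_step' {d : ℕ} {R Q : RR} (hd : 1 ≤ d)
    (hR : DM (R - WW 1 (1 + d)) (MM 1 (1 + d) - WW 1 (1 + d)))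
    (hD : DM (R - Q) (aa * ep * w0 * MM 1 d)) :
    DM ((1 + uu) * R - ep * Q - WW 1 (1 + (1 + d))) (MM 1 (1 + (1 + d)) - WW 1 (1 + (1 + d))) ∧
      DM ((1 + uu) * R - ep * Q - R) (aa * ep * w0 * MM 1 (1 + d)) := by
  have hMd : MM 1 (1 + d) = MM 1 d * Ga := by unfold MM; ring
  have hMd' : MM 1 (1 + (1 + d)) = MM 1 d * Ga * Ga := by unfold MM; ring
  have hWd : WW 1 (1 + (1 + d)) = WW 1 (1 + d) * Wa := by unfold WW; ring
  have hMnn : NM (MM 1 d) := NM_MM le_rfl hd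
  have hGW : Ga - Wa = aa * ep * (w2 - 1) := by unfold Ga Wa; ring
  have hw2 : w2 - 1 = 2 * (uu * w2) := by
    have := w2_eq
    linear_combination this
  have hw0 : w0 - 1 = ep * w0 := by
    have := w0_eq
    linear_combination this
  have hRt : DM R (MM 1 (1 + d)) := DM_tot (NM_WW _ _) hR
  have hea : NM (aa * ep) := NM_aa.mul NM_ep
  constructor
  · have e1 : (1 + uu) * R - ep * Q - WW 1 (1 + (1 + d)) = Wa * (R - WW 1 (1 + d)) + ep * (R - Q) := by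
      rw [hWd, uu_eq]; unfold Wa; ring
    rw [e1]
    refine ((NM_Wa.dm.mul hR).add (NM_ep.dm.mul hD)).le ?_
    have e2 : MM 1 (1 + (1 + d)) - WW 1 (1 + (1 + d)) -
        (Wa * (MM 1 (1 + d) - WW 1 (1 + d)) + ep * (aa * ep * w0 * MM 1 d)) =
        MM 1 d * ((Ga - 1) * (Ga - Wa) + aa * ep * (2 * (aa * ep * w2) + ep * w2 + ep * (w2 - w0))) := by
      rw [hMd', hMd, hWd]
      have e3 : aa * ep * (2 * (aa * ep * w2) + ep * w2 + ep * (w2 - w0)) = (Ga - Wa) - aa * ep * (ep * w0) := by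
        rw [hGW, hw2, uu_eq]; ring
      rw [e3]
      ring
    rw [e2]
    have h2 : NM (2 : RR) := by
      have := NM_one.add NM_one
      rwa [one_add_one_eq_two] at this
    exact hMnn.mul ((Ga_one.mul Ga_Wa).add (hea.mul (((h2.mul (hea.mul NM_w2)).add (NM_ep.mul NM_w2)).add
      (NM_ep.mul w2_w0))))
  · have e1 : (1 + uu) * R - ep * Q - R = aa * ep * R + ep * (R - Q) := by
      rw [uu_eq]; ring
    rw [e1]
    refine ((hea.dm.mul hRt).add (NM_ep.dm.mul hD)).le ?_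
    have e2 : aa * ep * w0 * MM 1 (1 + d) - (aa * ep * MM 1 (1 + d) + ep * (aa * ep * w0 * MM 1 d)) =
        aa * ep * (ep * w0 * (MM 1 d * (Ga - 1))) := by
      rw [hMd]
      linear_combination (aa * ep * MM 1 d * Ga) * hw0
    rw [e2]
    exact hea.mul ((NM_ep.mul NM_w0).mul (hMnn.mul Ga_one))

end H79W
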