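import Pool.Agent.Lib.H79W.P
import Pool.Agent.Lib.H79W.F3

/-!
# H79W, file F4: the series of the Markov polynomials and their bounds
-/

set_option autoImplicit false

namespace H79W

open Polynomial

/-- The series (in the outer variable) of the Markov polynomials. -/
inductive TT : ℕ → ℕ → ℕ → ℕ → ℤ[X][X] → ℤ[X][X] → ℤ[X][X] → Prop
  | base : TT 0 1 1 1 (1 + C sA * X) (1 + C sA * X) ((1 + C sA * X) * (1 + C X * X))
  | left {a b c d : ℕ} {P Q R : ℤ[X][X]} : TT a b c d P Q R →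
      TT a b (a + c) (b + d) P R (P * R - C (X ^ a) * (X ^ (a + b) * Q))
  | right {a b c d : ℕ} {P Q R : ℤ[X][X]} : TT a b c d P Q R →
      TT (a + c) (b + d) c d R Q (R * Q - C (X ^ c) * (X ^ (c + d) * P))

/-- The relation between the numerator and the series. -/
def Rel (n : ℕ) (N T : ℤ[X][X]) : Prop :=
  (C sA + C (sA ^ 2) * X) * N.comp (C (sA ^ 2) * X) = C sA ^ n * T

theorem Rel_step {a b c d : ℕ} {P Q R P' Q' R' : ℤ[X][X]} (hP : Rel (a + b) P P') (hQ : Rel (c + d) Q Q')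
    (hR : Rel (a + c + (b + d)) R R') :
    Rel (a + (a + c) + (b + (b + d))) ((C sA + X) * (P * R) - C (X ^ a) * (X ^ (a + b) * Q))
      (P' * R' - C (X ^ a) * (X ^ (a + b) * Q')) := by
  unfold Rel at *
  simp only [sub_comp, mul_comp, add_comp, C_comp, X_comp, pow_comp, C_pow] at *
  have e : (C sA : ℤ[X][X]) ^ (a + (a + c) + (b + (b + d))) = C sA ^ (a + b) * C sA ^ (a + c + (b + d)) := by
    rw [← pow_add]; congr 1; ring
  have e2 : (C sA : ℤ[X][X]) ^ (a + (a + c) + (b + (b + d))) = (C sA ^ 2) ^ (a + b) * C sA ^ (c + d) := by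
    rw [← pow_mul, ← pow_add]; congr 1; ring
  have e3 : C sA ^ (a + (a + c) + (b + (b + d))) * (P' * R' - C X ^ a * (X ^ (a + b) * Q')) =
      (C sA ^ (a + b) * P') * (C sA ^ (a + c + (b + d)) * R') -
        C X ^ a * ((C sA ^ 2) ^ (a + b) * X ^ (a + b)) * (C sA ^ (c + d) * Q') := by
    rw [mul_sub]
    nth_rewrite 1 [e]
    rw [e2]
    ring
  rw [e3, ← hP, ← hQ, ← hR, mul_pow]
  ring

theorem PT_TT {a b c d : ℕ} {P Q R : ℤ[X][X]} (h : PT a b c d P Q R) :
    ∃ P' Q' R', TT a b c d P' Q' R' ∧ Rel (a + b) P P' ∧ Rel (c + d) Q Q' ∧ Rel (a + c + (b + d)) R R' := by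
  induction h with
  | base =>
    refine ⟨_, _, _, TT.base, ?_, ?_, ?_⟩
    · unfold Rel
      simp only [one_comp, C_pow]
      ring
    · unfold Rel
      simp only [C_comp, C_pow]
      ring
    · unfold Rel
      simp only [add_comp, mul_comp, C_comp, X_comp, pow_comp, C_pow]
      ring
  | left _ ih =>
    obtain ⟨P', Q', R', hT, hP, hQ, hR⟩ := ih
    exact ⟨_, _, _, hT.left, hP, hR, Rel_step hP hQ hR⟩
  | @right a b c d P Q R _ ih =>
    obtain ⟨P', Q', R', hT, hP, hQ, hR⟩ := ih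
    refine ⟨_, _, _, hT.right, hR, hQ, ?_⟩
    have hR' : Rel (c + a + (d + b)) R R' := by
      have e : c + a + (d + b) = a + c + (b + d) := by ring
      rw [e]; exact hR
    have h1 := Rel_step hQ hP hR'
    have e : c + (c + a) + (d + (d + b)) = a + c + c + (b + d + d) := by ring
    rw [e, mul_comm Q R, mul_comm Q' R'] at h1
    exact h1

/-- The coefficients over the reals. -/
noncomputable def tau : ℤ[X][X] →+* RR :=
  (Polynomial.coeToPowerSeries.ringHom).comp (mapRingHom (mapRingHom (Int.castRingHom ℝ)))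

theorem tau_coeff (T : ℤ[X][X]) (l : ℕ) :
    PowerSeries.coeff l (tau T) = (T.coeff l).map (Int.castRingHom ℝ) := by
  unfold tau
  simp

theorem tau_C (p : ℤ[X]) : tau (C p) = PowerSeries.C (p.map (Int.castRingHom ℝ)) := by
  unfold tau
  simp

theorem tau_X : tau X = ep := by
  unfold tau ep
  simp

theorem tau_CX : tau (C X) = aa := by
  rw [tau_C]
  unfold aa
  simp

theorem tau_sA : tau (C sA * X) = uu := by
  rw [map_mul, tau_C, tau_X]
  unfold uu sA sP
  simp

theorem TT_bound {a b c d : ℕ} {P Q R : ℤ[X][X]} (h : TT a b c d P Q R) :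
    1 ≤ b ∧ 1 ≤ c ∧ 1 ≤ d ∧
    ((a = 0 ∧ b = 1 ∧ c = 1 ∧ tau P = 1 + uu) ∨ (1 ≤ a ∧ DM (tau P - WW a b) (MM a b - WW a b))) ∧
    DM (tau Q - WW c d) (MM c d - WW c d) ∧
    DM (tau R - WW (a + c) (b + d)) (MM (a + c) (b + d) - WW (a + c) (b + d)) ∧
    (a = 0 → DM (tau R - tau Q) (aa * ep * w0 * MM 1 d)) := by
  induction h with
  | base =>
    have hP : tau (1 + C sA * X) = 1 + uu := by rw [map_add, map_one, tau_sA]
    have hR : tau ((1 + C sA * X) * (1 + C X * X)) = (1 + uu) * (1 + aa * ep) := by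
      rw [map_mul, hP, map_add, map_one, map_mul, tau_CX, tau_X]
    have hea : NM (aa * ep) := NM_aa.mul NM_ep
    have hQ : DM (1 + uu - WW 1 1) (MM 1 1 - WW 1 1) := by
      have e : 1 + uu - WW 1 1 = -(aa * ep ^ 2) := by unfold WW Wa Wb; rw [uu_eq]; ring
      rw [e]
      exact ((NM_aa.mul (NM_ep.pow 2)).dm.neg).le base_nn
    refine ⟨le_rfl, le_rfl, le_rfl, Or.inl ⟨rfl, rfl, rfl, hP⟩, ?_, ?_, ?_⟩
    · rw [hP]; exact hQ
    · rw [hR]
      have e1 : (1 + uu) * (1 + aa * ep) - WW (0 + 1) (1 + 1) = Wa * (1 + uu - WW 1 1) := by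
        unfold WW Wa Wb; ring
      rw [e1]
      refine (NM_Wa.dm.mul hQ).le ?_
      have e2 : MM (0 + 1) (1 + 1) - WW (0 + 1) (1 + 1) - Wa * (MM 1 1 - WW 1 1) = MM 1 1 * (Ga - Wa) := by
        unfold MM WW; ring
      rw [e2]
      exact NM_M11.mul Ga_Wa
    · intro _
      rw [hR, hP]
      have e1 : (1 + uu) * (1 + aa * ep) - (1 + uu) = aa * ep * (1 + uu) := by ring
      rw [e1]
      refine ((hea.mul (NM_one.add NM_uu)).dm).le ?_
      have e2 : aa * ep * w0 * MM 1 1 - aa * ep * (1 + uu) =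
          aa * ep * ((w0 - 1) * MM 1 1 + ((MM 1 1 - WW 1 1) + (WW 1 1 - (1 + uu)))) := by ring
      rw [e2]
      exact hea.mul ((w0_one.mul NM_M11).add (base_nn'.add (WW_uu le_rfl le_rfl)))
  | @left a b c d P Q R _ ih =>
    obtain ⟨hb, hc, hd, hP, hQ, hR, hD⟩ := ih
    have hnew : tau (P * R - C (X ^ a) * (X ^ (a + b) * Q)) = tau P * tau R - aa ^ a * ep ^ (a + b) * tau Q := by
      rw [map_sub, map_mul, map_mul, map_mul, C_pow, map_pow, tau_CX, map_pow, tau_X]; ring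
    rcases hP with ⟨ha, hb1, hc1, hP⟩ | ⟨ha, hP⟩
    · have hD' := hD ha
      subst ha; subst hb1; subst hc1
      have hR' : DM (tau R - WW 1 (1 + d)) (MM 1 (1 + d) - WW 1 (1 + d)) := by
        have := hR
        rwa [zero_add] at this
      obtain ⟨h1, h2⟩ := chain_step' hd hR' hD'
      refine ⟨le_rfl, by omega, by omega, Or.inl ⟨rfl, rfl, by omega, hP⟩, ?_, ?_, ?_⟩
      · rw [zero_add]; exact hR'
      · rw [hnew, hP, pow_zero, zero_add, pow_one, one_mul]
        exact h1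
      · intro _
        rw [hnew, hP, pow_zero, zero_add, pow_one, one_mul]
        exact h2
    · refine ⟨hb, by omega, by omega, Or.inr ⟨ha, hP⟩, hR, ?_, fun h0 => by omega⟩
      rw [hnew]
      exact maj_step ha hb hP hR (Or.inl ⟨hc, hd, hQ⟩)
  | @right a b c d P Q R _ ih =>
    obtain ⟨hb, hc, hd, hP, hQ, hR, hD⟩ := ih
    have hnew : tau (R * Q - C (X ^ c) * (X ^ (c + d) * P)) = tau Q * tau R - aa ^ c * ep ^ (c + d) * tau P := by
      rw [map_sub, map_mul, map_mul, map_mul, C_pow, map_pow, tau_CX, map_pow, tau_X]; ring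
    refine ⟨by omega, hc, hd, Or.inr ⟨by omega, hR⟩, hQ, ?_, fun h0 => by omega⟩
    rw [hnew]
    have e1 : a + c + c = c + (c + a) := by ring
    have e2 : b + d + d = d + (d + b) := by ring
    rw [e1, e2]
    rw [add_comm a c, add_comm b d] at hR
    refine maj_step hc hd hQ hR ?_
    rcases hP with ⟨_, _, _, hP⟩ | ⟨ha, hP⟩
    · exact Or.inr hP
    · exact Or.inl ⟨ha, hb, hP⟩

end H79W
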