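import Pool.Agent.Lib.H79W.F4

/-!
# H79W, file F5: from the series to the rows
-/

set_option autoImplicit false

namespace H79W

open Polynomial

/-- The series divided by `1 + s ε`. -/
noncomputable def Sr (T : ℤ[X][X]) : ℕ → ℤ[X]
  | 0 => T.coeff 0
  | l + 1 => T.coeff (l + 1) - sA * Sr T l

theorem Rel_row {n : ℕ} {N T : ℤ[X][X]} (h : Rel n N T) (l : ℕ) :
    sA ^ (2 * l + 1) * N.coeff l = sA ^ n * Sr T l := by
  unfold Rel at h
  induction l with
  | zero =>
    have h0 := congrArg (fun F => F.coeff 0) h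
    rw [add_mul, coeff_add, coeff_C_mul, mul_assoc, coeff_C_mul, coeff_X_mul_zero, comp_C_mul_X_coeff, ← C_pow,
      coeff_C_mul] at h0
    unfold Sr
    linear_combination h0
  | succ l ih =>
    have h0 := congrArg (fun F => F.coeff (l + 1)) h
    rw [add_mul, coeff_add, coeff_C_mul, mul_assoc, coeff_C_mul, coeff_X_mul, comp_C_mul_X_coeff, comp_C_mul_X_coeff,
      ← C_pow, coeff_C_mul] at h0
    rw [Sr, mul_sub, ← h0]
    have e : sA ^ n * (sA * Sr T l) = sA * (sA ^ n * Sr T l) := by ring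
    rw [e, ← ih]
    ring

/-- The series over the reals. -/
noncomputable def Ss (T : ℤ[X][X]) : RR := PowerSeries.mk fun l => (Sr T l).map (Int.castRingHom ℝ)

theorem sA_map : sA.map (Int.castRingHom ℝ) = sP := by
  unfold sA sP
  simp

theorem Ss_eq (T : ℤ[X][X]) : (1 + uu) * Ss T = tau T := by
  ext1 l
  rw [tau_coeff, add_mul, one_mul, map_add]
  unfold uu ep
  rw [mul_assoc, PowerSeries.coeff_C_mul]
  rcases l with _ | l
  · rw [PowerSeries.coeff_zero_X_mul, mul_zero, add_zero]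
    unfold Ss
    rw [PowerSeries.coeff_mk, Sr]
  · rw [PowerSeries.coeff_succ_X_mul]
    unfold Ss
    rw [PowerSeries.coeff_mk, PowerSeries.coeff_mk, Sr, Polynomial.map_sub, Polynomial.map_mul, sA_map]
    ring

noncomputable def wm : RR := geo (-sP)

theorem wm_eq : (1 + uu) * wm = 1 := by
  have := geo_eq (-sP)
  rw [map_neg] at this
  unfold wm uu
  linear_combination this

theorem wm_dm : DM wm w1 := fun l => by
  unfold wm w1 geo
  rw [PowerSeries.coeff_mk, PowerSeries.coeff_mk, neg_pow]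
  have h1 : Dm ((-1 : ℝ[X]) ^ l) 1 := by
    rcases neg_one_pow_eq_or ℝ[X] l with h | h
    · rw [h]; exact NN_one.dm
    · rw [h]; exact NN_one.dm.neg
  have := h1.mul (NN_sP.pow l).dm
  rwa [one_mul] at this

theorem wm_one_dm : DM (wm - 1) (w1 - 1) := by
  have h1 : wm - 1 = -(uu * wm) := by
    have := wm_eq
    linear_combination this
  have h2 : w1 - 1 = uu * w1 := by
    have := w1_eq
    linear_combination this
  rw [h1, h2]
  exact (NM_uu.dm.mul wm_dm).neg

theorem Ss_bound {p q : ℕ} {T : ℤ[X][X]} (h : DM (tau T - WW p q) (MM p q - WW p q)) :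
    DM (Ss T - WW p q) (Ga ^ q * Gb ^ p * w2 - WW p q) := by
  have h1 : Ss T = tau T * wm := by
    have e1 := Ss_eq T
    have e2 := wm_eq
    linear_combination wm * e1 - Ss T * e2
  have h2 : Ss T - WW p q = (tau T - WW p q) * wm + WW p q * (wm - 1) := by rw [h1]; ring
  rw [h2]
  refine ((h.mul wm_dm).add ((NM_WW p q).dm.mul wm_one_dm)).le ?_
  have e : Ga ^ q * Gb ^ p * w2 - WW p q - ((MM p q - WW p q) * w1 + WW p q * (w1 - 1)) =
      Ga ^ q * Gb ^ p * ((w2 - w1) + uu ^ 2 * (w1 * w1)) := by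
    unfold MM Ps
    ring
  rw [e]
  exact ((NM_Ga.pow q).mul (NM_Gb.pow p)).mul (w2_w1.add ((NM_uu.pow 2).mul (NM_w1.mul NM_w1)))

/-- The main polynomial. -/
noncomputable def Wp (p q : ℕ) : ℝ[X][X] := (1 + C X * X) ^ q * (1 + X) ^ p

theorem one_pow_coeff (q i : ℕ) : ((1 + C X * X : ℝ[X][X]) ^ q).coeff i = ((q.choose i : ℕ) : ℝ[X]) * X ^ i := by
  have e : (1 + C X * X : ℝ[X][X]) ^ q = ((1 + X : ℝ[X][X]) ^ q).comp (C X * X) := by
    simp
  rw [e, comp_C_mul_X_coeff, coeff_one_add_X_pow]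

theorem Wp_coeff (p q l : ℕ) : (Wp p q).coeff l =
    ∑ k ∈ Finset.range (l + 1), C ((((q.choose k : ℕ) : ℝ)) * (((p.choose (l - k) : ℕ) : ℝ))) * X ^ k := by
  unfold Wp
  rw [coeff_mul, Finset.Nat.sum_antidiagonal_eq_sum_range_succ_mk]
  refine Finset.sum_congr rfl fun k _ => ?_
  simp only
  rw [one_pow_coeff, coeff_one_add_X_pow, C_mul]
  simp only [map_natCast]
  ring

theorem Wp_cc (p q l k : ℕ) : ((Wp p q).coeff l).coeff k =
    if k ≤ l then (((q.choose k : ℕ) : ℝ)) * (((p.choose (l - k) : ℕ) : ℝ)) else 0 := by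
  rw [Wp_coeff, finsetSum_coeff]
  simp only [coeff_C_mul, coeff_X_pow]
  split_ifs with h
  · rw [Finset.sum_eq_single k]
    · simp
    · intro j _ hj
      rw [if_neg (fun h => hj h.symm), mul_zero]
    · intro h'
      exact absurd (Finset.mem_range.mpr (by omega)) h'
  · refine Finset.sum_eq_zero fun j hj => ?_
    have := Finset.mem_range.mp hj
    rw [if_neg (by omega), mul_zero]

theorem Wp_nn (p q l : ℕ) : NN ((Wp p q).coeff l) := fun k => by
  rw [Wp_cc]
  split_ifs <;> positivity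

end H79W
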