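import Pool.Agent.Lib.H79W.F5

/-!
# H79W, file F6: the size of the majorant
-/

set_option autoImplicit false

namespace H79W

open Polynomial

/-- The ratio. -/
noncomputable def rho (p l : ℕ) : ℝ := (l : ℝ) / ((p : ℝ) - l + 1)

theorem rho_nn {p l : ℕ} (hl : l ≤ p) : 0 ≤ rho p l := by
  unfold rho
  have : (l : ℝ) ≤ p := by exact_mod_cast hl
  exact div_nonneg (Nat.cast_nonneg _) (by linarith)

theorem rho_le {p l j : ℕ} (hl : l ≤ p) (hj : j + 1 ≤ l) {x y : ℝ} (hy : 0 ≤ y) (h : ((p : ℝ) - j) * x ≤ (j + 1) * y) :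
    x ≤ rho p l * y := by
  unfold rho
  have h1 : (l : ℝ) ≤ p := by exact_mod_cast hl
  have h2 : (j : ℝ) + 1 ≤ l := by exact_mod_cast hj
  have h3 : (0 : ℝ) < (p : ℝ) - l + 1 := by linarith
  have h4 : (0 : ℝ) < (p : ℝ) - j := by linarith
  rw [div_mul_eq_mul_div, le_div_iff₀ h3]
  have hl0 : (0 : ℝ) ≤ l := Nat.cast_nonneg _
  have hj0 : (0 : ℝ) ≤ j := Nat.cast_nonneg _
  have h5 : x * ((p : ℝ) - j) ≤ l * y := by nlinarith
  rcases le_total 0 x with hx | hx
  · nlinarith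
  · nlinarith [mul_nonneg hl0 hy]

theorem ch1 {p j k : ℕ} (hj : j ≤ p) (hk : k ≤ j) :
    ((p : ℝ) - j) * ((p.choose (j - k) : ℕ) : ℝ) ≤ ((j : ℝ) - k + 1) * ((p.choose (j - k + 1) : ℕ) : ℝ) := by
  have h1 := Nat.choose_succ_right_eq p (j - k)
  have h2 : ((p.choose (j - k + 1) : ℕ) : ℝ) * ((j : ℝ) - k + 1) =
      ((p.choose (j - k) : ℕ) : ℝ) * ((p : ℝ) - ((j : ℝ) - k)) := by
    have h3 : ((p.choose (j - k + 1) * (j - k + 1) : ℕ) : ℝ) = ((p.choose (j - k) * (p - (j - k)) : ℕ) : ℝ) := by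
      rw [h1]
    push_cast [Nat.cast_sub hk, Nat.cast_sub (show j - k ≤ p by omega)] at h3
    exact h3
  rw [mul_comm ((j : ℝ) - k + 1), h2]
  have h4 : (0 : ℝ) ≤ ((p.choose (j - k) : ℕ) : ℝ) := Nat.cast_nonneg _
  have h5 : (0 : ℝ) ≤ k := Nat.cast_nonneg _
  nlinarith

theorem ch2 {p q j k : ℕ} (hpq : p ≤ q) (hj : j ≤ p) (hk : k ≤ j) :
    ((p : ℝ) - j) * ((q.choose k : ℕ) : ℝ) ≤ ((k : ℝ) + 1) * ((q.choose (k + 1) : ℕ) : ℝ) := by
  have h1 := Nat.choose_succ_right_eq q k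
  have h2 : ((q.choose (k + 1) : ℕ) : ℝ) * ((k : ℝ) + 1) = ((q.choose k : ℕ) : ℝ) * ((q : ℝ) - k) := by
    have h3 : ((q.choose (k + 1) * (k + 1) : ℕ) : ℝ) = ((q.choose k * (q - k) : ℕ) : ℝ) := by rw [h1]
    push_cast [Nat.cast_sub (show k ≤ q by omega)] at h3
    exact h3
  rw [mul_comm ((k : ℝ) + 1), h2]
  have h4 : (0 : ℝ) ≤ ((q.choose k : ℕ) : ℝ) := Nat.cast_nonneg _
  have h5 : (p : ℝ) ≤ q := by exact_mod_cast hpq
  have h6 : (k : ℝ) ≤ j := by exact_mod_cast hk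
  nlinarith

theorem s_step {p q l j : ℕ} (hpq : p ≤ q) (hl : l ≤ p) (hj : j + 1 ≤ l) :
    NN (C (rho p l) * (Wp p q).coeff (j + 1) - sP * (Wp p q).coeff j) := by
  intro k
  have hjp : j ≤ p := by omega
  unfold sP
  rw [coeff_sub, coeff_C_mul, add_mul, one_mul, coeff_add]
  rcases k with _ | k
  · rw [coeff_X_mul_zero, zero_add, Wp_cc, Wp_cc, if_pos (by omega), if_pos (by omega)]
    have h1 := ch1 hjp (Nat.zero_le j)
    rw [Nat.sub_zero, Nat.cast_zero, sub_zero] at h1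
    have h2 := rho_le hl hj (Nat.cast_nonneg _) h1
    simp only [Nat.choose_zero_right, Nat.cast_one, one_mul, Nat.sub_zero]
    linarith
  · rw [coeff_X_mul, Wp_cc, Wp_cc, Wp_cc]
    rcases lt_trichotomy k j with hk | hk | hk
    · rw [if_pos (by omega), if_pos (by omega), if_pos (by omega)]
      have h1 := ch1 hjp (show k + 1 ≤ j by omega)
      have h2 := ch2 hpq hjp hk.le
      have e1 : j - (k + 1) + 1 = j - k := by omega
      have e2 : j + 1 - (k + 1) = j - k := by omega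
      rw [e1] at h1
      rw [e2]
      push_cast at h1
      have h3 : (0 : ℝ) ≤ ((q.choose (k + 1) : ℕ) : ℝ) := Nat.cast_nonneg _
      have h4 : (0 : ℝ) ≤ ((p.choose (j - k) : ℕ) : ℝ) := Nat.cast_nonneg _
      have h5 : ((p : ℝ) - j) * (((q.choose k : ℕ) : ℝ) * ((p.choose (j - k) : ℕ) : ℝ) +
          ((q.choose (k + 1) : ℕ) : ℝ) * ((p.choose (j - (k + 1)) : ℕ) : ℝ)) ≤
          ((j : ℝ) + 1) * (((q.choose (k + 1) : ℕ) : ℝ) * ((p.choose (j - k) : ℕ) : ℝ)) := by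
        nlinarith [mul_le_mul_of_nonneg_left h1 h3, mul_le_mul_of_nonneg_right h2 h4]
      have h6 := rho_le hl hj (mul_nonneg h3 h4) h5
      linarith
    · subst hk
      rw [if_pos (by omega), if_pos (by omega), if_neg (by omega)]
      have h2 := ch2 hpq hjp (le_refl k)
      have e1 : k + 1 - (k + 1) = 0 := by omega
      rw [e1, Nat.sub_self, Nat.choose_zero_right, Nat.cast_one, mul_one, mul_one, add_zero]
      have h6 := rho_le hl hj (Nat.cast_nonneg _) h2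
      linarith
    · rw [if_neg (by omega), if_neg (by omega), if_neg (by omega)]
      simp

theorem s_pow {p q l : ℕ} (hpq : p ≤ q) (hl : l ≤ p) (i : ℕ) : ∀ j, j + i ≤ l →
    NN (C (rho p l ^ i) * (Wp p q).coeff (j + i) - sP ^ i * (Wp p q).coeff j) := by
  induction i with
  | zero =>
    intro j _
    have : C (rho p l ^ 0) * (Wp p q).coeff (j + 0) - sP ^ 0 * (Wp p q).coeff j = 0 := by simp
    rw [this]; exact NN_zero
  | succ i ih =>
    intro j hj
    have h1 := ih (j + 1) (by omega)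
    have h2 := s_step (q := q) hpq hl (show j + 1 ≤ l by omega)
    have e : j + 1 + i = j + (i + 1) := by ring
    rw [e] at h1
    have e2 : C (rho p l ^ (i + 1)) * (Wp p q).coeff (j + (i + 1)) - sP ^ (i + 1) * (Wp p q).coeff j =
        C (rho p l) * (C (rho p l ^ i) * (Wp p q).coeff (j + (i + 1)) - sP ^ i * (Wp p q).coeff (j + 1)) +
          sP ^ i * (C (rho p l) * (Wp p q).coeff (j + 1) - sP * (Wp p q).coeff j) := by
      rw [pow_succ, C_mul]; ring
    rw [e2]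
    exact ((NN_C (rho_nn hl)).mul h1).add ((NN_sP.pow i).mul h2)

theorem geo_pow_coeff (c : ℝ[X]) (j i : ℕ) :
    PowerSeries.coeff i (geo c ^ (j + 1)) = c ^ i * ((((j + i).choose j : ℕ)) : ℝ[X]) := by
  have h1 : geo c = PowerSeries.rescale c (PowerSeries.mk 1) := by
    ext1 n
    unfold geo
    rw [PowerSeries.coeff_mk, PowerSeries.coeff_rescale, PowerSeries.coeff_mk]
    simp
  rw [h1, ← map_pow, PowerSeries.mk_one_pow_eq_mk_choose_add, PowerSeries.coeff_rescale, PowerSeries.coeff_mk]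

theorem WW_coeff (p q l : ℕ) : PowerSeries.coeff l (WW p q) = (Wp p q).coeff l := by
  have h1 : WW p q = eval₂ (PowerSeries.C : ℝ[X] →+* RR) ep (Wp p q) := by
    unfold WW Wp Wa Wb aa
    simp [eval₂_mul, eval₂_pow, eval₂_add]
  rw [h1]
  unfold ep
  rw [Polynomial.eval₂_C_X_eq_coe, Polynomial.coeff_coe]

theorem GGm_coeff (p q l : ℕ) : PowerSeries.coeff l (Ga ^ q * Gb ^ p * w2) =
    ∑ j ∈ Finset.range (l + 1), (Wp p q).coeff j * ((2 * sP) ^ (l - j) * (((l.choose j : ℕ)) : ℝ[X])) := by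
  have h1 : Ga ^ q * Gb ^ p = eval₂ (PowerSeries.C : ℝ[X] →+* RR) (ep * w2) (Wp p q) := by
    unfold Ga Gb Wp aa
    simp [eval₂_mul, eval₂_pow, eval₂_add, mul_assoc]
  have hn : (Wp p q).natDegree < max (Wp p q).natDegree l + 1 := by omega
  rw [h1, eval₂_eq_sum_range' _ hn, Finset.sum_mul, map_sum]
  have e : ∀ j, PowerSeries.coeff l (PowerSeries.C ((Wp p q).coeff j) * (ep * w2) ^ j * w2) =
      if j ≤ l then (Wp p q).coeff j * ((2 * sP) ^ (l - j) * (((l.choose j : ℕ)) : ℝ[X])) else 0 := by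
    intro j
    have e1 : PowerSeries.C ((Wp p q).coeff j) * (ep * w2) ^ j * w2 =
        PowerSeries.C ((Wp p q).coeff j) * (PowerSeries.X ^ j * w2 ^ (j + 1)) := by
      unfold ep; ring
    rw [e1, PowerSeries.coeff_C_mul, PowerSeries.coeff_X_pow_mul']
    split_ifs with h
    · unfold w2
      rw [geo_pow_coeff]
      have e2 : j + (l - j) = l := by omega
      rw [e2]
    · rw [mul_zero]
  rw [Finset.sum_congr rfl fun j _ => e j]
  symm
  refine Finset.sum_subset_zero_on_sdiff ?_ ?_ ?_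
  · intro j hj
    have := Finset.mem_range.mp hj
    exact Finset.mem_range.mpr (by omega)
  · intro j hj
    have h2 := (Finset.mem_sdiff.mp hj).2
    have : ¬ j ≤ l := fun h => h2 (Finset.mem_range.mpr (by omega))
    rw [if_neg this]
  · intro j hj
    have := Finset.mem_range.mp hj
    rw [if_pos (by omega)]

theorem GG_bound {p q l : ℕ} (hpq : p ≤ q) (hl : l ≤ p) :
    NN (C ((1 + 2 * rho p l) ^ l) * (Wp p q).coeff l - PowerSeries.coeff l (Ga ^ q * Gb ^ p * w2)) := by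
  rw [GGm_coeff]
  have e : C ((1 + 2 * rho p l) ^ l) * (Wp p q).coeff l =
      ∑ j ∈ Finset.range (l + 1), C ((2 * rho p l) ^ (l - j) * (l.choose j : ℕ)) * (Wp p q).coeff l := by
    rw [add_pow, map_sum, Finset.sum_mul]
    refine Finset.sum_congr rfl fun j _ => ?_
    rw [one_pow, one_mul]
  rw [e, ← Finset.sum_sub_distrib]
  refine NN.sum fun j hj => ?_
  have hj' : j ≤ l := by have := Finset.mem_range.mp hj; omega
  have h1 := s_pow (q := q) hpq hl (l - j) j (by omega)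
  have e1 : j + (l - j) = l := by omega
  rw [e1] at h1
  have e2 : C ((2 * rho p l) ^ (l - j) * ((l.choose j : ℕ) : ℝ)) * (Wp p q).coeff l -
      (Wp p q).coeff j * ((2 * sP) ^ (l - j) * (((l.choose j : ℕ)) : ℝ[X])) =
      C (2 ^ (l - j) * ((l.choose j : ℕ) : ℝ)) *
        (C (rho p l ^ (l - j)) * (Wp p q).coeff l - sP ^ (l - j) * (Wp p q).coeff j) := by
    rw [mul_pow, mul_pow]
    simp only [C_mul, C_pow, map_ofNat, map_natCast]
    ring
  rw [e2]
  exact (NN_C (by positivity)).mul h1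

end H79W
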