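import Pool.Agent.Lib.H79W.P2

/-!
# H79W, file LC: log-concavity of the rows
-/

set_option autoImplicit false

namespace H79W

open Polynomial

/-- Nonnegative coefficients and strong log-concavity. -/
def LC (f : ℤ[X]) : Prop :=
  (∀ i, 0 ≤ f.coeff i) ∧
    ∀ i j, i ≤ j → f.coeff i * f.coeff (j + 2) ≤ f.coeff (i + 1) * f.coeff (j + 1)

theorem sA_ne : sA ≠ 0 := by
  intro h
  have := congrArg (fun f : ℤ[X] => f.coeff 0) h
  simp [sA] at this

theorem sA_coeff_zero (f : ℤ[X]) : (sA * f).coeff 0 = f.coeff 0 := by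
  unfold sA
  rw [add_mul, one_mul, coeff_add, mul_coeff_zero]
  simp

theorem sA_coeff_succ (f : ℤ[X]) (n : ℕ) : (sA * f).coeff (n + 1) = f.coeff (n + 1) + f.coeff n := by
  unfold sA
  rw [add_mul, one_mul, coeff_add, coeff_X_mul]
  ring

theorem LC_sA {f : ℤ[X]} (h : LC f) : LC (sA * f) := by
  obtain ⟨h0, h1⟩ := h
  constructor
  · intro i
    rcases i with _ | i
    · rw [sA_coeff_zero]; exact h0 0
    · rw [sA_coeff_succ]; exact add_nonneg (h0 _) (h0 _)
  · intro i j hij
    rcases i with _ | i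
    · rcases j with _ | j
      · have a1 := h1 0 0 le_rfl
        rw [sA_coeff_zero, sA_coeff_succ, sA_coeff_succ]
        have b0 := h0 0
        have b1 := h0 1
        simp only [zero_add] at a1 ⊢
        nlinarith [mul_nonneg b0 b1, mul_nonneg b0 b0]
      · have a1 := h1 0 (j + 1) (by omega)
        rw [sA_coeff_zero, sA_coeff_succ, sA_coeff_succ, sA_coeff_succ]
        simp only [zero_add] at a1 ⊢
        nlinarith [mul_nonneg (h0 1) (h0 (j + 1)), mul_nonneg (h0 0) (h0 (j + 1))]
    · rcases j with _ | j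
      · omega
      · have a1 := h1 (i + 1) (j + 1) (by omega)
        have a2 := h1 i (j + 1) (by omega)
        have a4 := h1 i j (by omega)
        have a3 : f.coeff (i + 1) * f.coeff (j + 2) ≤ f.coeff (i + 2) * f.coeff (j + 1) := by
          rcases Nat.lt_or_ge i j with hlt | hge
          · exact h1 (i + 1) j (by omega)
          · have : i = j := by omega
            subst this
            exact le_of_eq (mul_comm _ _)
        rw [sA_coeff_succ, sA_coeff_succ, sA_coeff_succ, sA_coeff_succ]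
        have e1 : i + 1 + 1 = i + 2 := rfl
        have e2 : j + 1 + 1 = j + 2 := rfl
        have e3 : j + 1 + 2 = j + 3 := rfl
        rw [e1] at a1
        rw [e2, e3] at a1 a2
        show (f.coeff (i + 1) + f.coeff i) * (f.coeff (j + 3) + f.coeff (j + 2)) ≤
          (f.coeff (i + 2) + f.coeff (i + 1)) * (f.coeff (j + 2) + f.coeff (j + 1))
        nlinarith

theorem LC_pow {f : ℤ[X]} (h : LC f) (n : ℕ) : LC (sA ^ n * f) := by
  induction n with
  | zero => simpa using h
  | succ n ih =>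
    have e : sA ^ (n + 1) * f = sA * (sA ^ n * f) := by ring
    rw [e]
    exact LC_sA ih

theorem LC_two {f : ℤ[X]} (h : LC (2 * f)) : LC f := by
  obtain ⟨h0, h1⟩ := h
  have e : ∀ i, (2 * f).coeff i = 2 * f.coeff i := fun i => by
    rw [two_mul, coeff_add]; ring
  constructor
  · intro i
    have := h0 i
    rw [e] at this
    linarith
  · intro i j hij
    have := h1 i j hij
    rw [e, e, e, e] at this
    nlinarith

theorem quad_coeff (α β γ : ℤ) (n : ℕ) : (C γ * X ^ 2 + C β * X + C α : ℤ[X]).coeff n =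
    (if n = 2 then γ else 0) + (if n = 1 then β else 0) + (if n = 0 then α else 0) := by
  rw [coeff_add, coeff_add, coeff_C_mul, coeff_C_mul, coeff_X_pow, coeff_X, coeff_C]
  rcases n with _ | _ | _ | n
  · simp
  · simp
  · simp
  · simp

theorem LC_quad {α β γ : ℤ} (ha : 0 ≤ α) (hb : 0 ≤ β) (hc : 0 ≤ γ) (h : α * γ ≤ β * β) :
    LC (C γ * X ^ 2 + C β * X + C α) := by
  have e0 : (C γ * X ^ 2 + C β * X + C α : ℤ[X]).coeff 0 = α := by
    rw [quad_coeff]; norm_num
  have e1 : (C γ * X ^ 2 + C β * X + C α : ℤ[X]).coeff 1 = β := by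
    rw [quad_coeff]; norm_num
  have e2 : (C γ * X ^ 2 + C β * X + C α : ℤ[X]).coeff 2 = γ := by
    rw [quad_coeff]; norm_num
  have e3 : ∀ n, (C γ * X ^ 2 + C β * X + C α : ℤ[X]).coeff (n + 3) = 0 := by
    intro n
    rw [quad_coeff, if_neg (by omega), if_neg (by omega), if_neg (by omega)]; norm_num
  constructor
  · intro i
    rcases i with _ | _ | _ | i
    · rw [e0]; exact ha
    · rw [e1]; exact hb
    · rw [e2]; exact hc
    · rw [e3]
  · intro i j hij
    have hz : ∀ k, 0 ≤ (C γ * X ^ 2 + C β * X + C α : ℤ[X]).coeff k := by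
      intro i
      rcases i with _ | _ | _ | i
      · rw [e0]; exact ha
      · rw [e1]; exact hb
      · rw [e2]; exact hc
      · rw [e3]
    rcases j with _ | j
    · have hi : i = 0 := by omega
      subst hi
      rw [zero_add, zero_add, e0, e1, e2]
      exact h
    · have : (C γ * X ^ 2 + C β * X + C α : ℤ[X]).coeff (j + 1 + 2) = 0 := e3 j
      rw [this, mul_zero]
      exact mul_nonneg (hz _) (hz _)

theorem quad_ineq {p q : ℕ} (hp : 1 ≤ p) (hpq : p < q) :
    0 ≤ 2 * ((p : ℤ) * q - 4 * p + 2) ∧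
      ((p : ℤ) - 1) * (p - 2) * (((q : ℤ) - 1) * (q - 2)) ≤
        (2 * ((p : ℤ) * q - 4 * p + 2)) * (2 * ((p : ℤ) * q - 4 * p + 2)) := by
  constructor
  · rcases Nat.lt_or_ge q 4 with h | h
    · interval_cases q <;> interval_cases p <;> norm_num
    · have h1 : (4 : ℤ) ≤ q := by exact_mod_cast h
      have h2 : (1 : ℤ) ≤ p := by exact_mod_cast hp
      nlinarith
  · rcases Nat.lt_or_ge p 3 with h | h
    · have : ((p : ℤ) - 1) * (p - 2) = 0 := by
        interval_cases p <;> norm_num
      rw [this, zero_mul]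
      exact mul_self_nonneg _
    · obtain ⟨m, rfl⟩ := Nat.exists_eq_add_of_le h
      obtain ⟨n, rfl⟩ := Nat.exists_eq_add_of_lt hpq
      push_cast
      have hm : (0 : ℤ) ≤ m := Int.natCast_nonneg m
      have hn : (0 : ℤ) ≤ n := Int.natCast_nonneg n
      have key : 0 ≤ (2 * ((3 + (m : ℤ)) * (3 + m + n + 1) - 4 * (3 + m) + 2)) *
          (2 * ((3 + (m : ℤ)) * (3 + m + n + 1) - 4 * (3 + m) + 2)) -
          (3 + (m : ℤ) - 1) * (3 + m - 2) * ((3 + (m : ℤ) + n + 1 - 1) * (3 + m + n + 1 - 2)) := by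
        ring_nf
        positivity
      linarith

theorem QQ_eq (p q : ℕ) : QQ p q = C (((q : ℤ) - 1) * (q - 2)) * X ^ 2 +
    C (2 * ((p : ℤ) * q - 4 * p + 2)) * X + C (((p : ℤ) - 1) * (p - 2)) := by
  unfold QQ
  simp only [map_mul, map_sub, map_add, map_one, map_ofNat, map_natCast]

theorem LC_QQ {p q : ℕ} (hp : 1 ≤ p) (hpq : p < q) : LC (QQ p q) := by
  rw [QQ_eq]
  obtain ⟨h1, h2⟩ := quad_ineq hp hpq
  have hp' : (1 : ℤ) ≤ p := by exact_mod_cast hp
  have hq' : (p : ℤ) + 1 ≤ q := by exact_mod_cast hpq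
  apply LC_quad _ h1 _ h2
  · rcases hp.eq_or_lt with h | h
    · rw [← h]; norm_num
    · have : (2 : ℤ) ≤ p := by exact_mod_cast h
      nlinarith
  · nlinarith

/-- The third row is log-concave. -/
theorem row2_LC {p q : ℕ} (hp : 1 ≤ p) (hpq : p < q) {N : ℤ[X][X]} (h : Row2 p q N) : LC (N.coeff 2) := by
  unfold Row2 at h
  apply LC_two
  rcases Nat.lt_or_ge (p + q) 5 with hlt | hge
  · have hp1 : p = 1 := by omega
    subst hp1
    have hq : q = 2 ∨ q = 3 := by omega
    rcases hq with rfl | rfl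
    · have e : 2 * N.coeff 2 = 0 := by
        have h5 : sA ^ 5 * (2 * N.coeff 2) = sA ^ 5 * 0 := by
          rw [h]
          unfold QQ
          push_cast
          ring
        exact mul_left_cancel₀ (pow_ne_zero 5 sA_ne) h5
      rw [e]
      constructor
      · intro i; simp
      · intro i j _; simp
    · have e : 2 * N.coeff 2 = C 0 * X ^ 2 + C 2 * X + C 0 := by
        have h5 : sA ^ 5 * (2 * N.coeff 2) = sA ^ 5 * (C 0 * X ^ 2 + C 2 * X + C 0) := by
          rw [h]
          unfold QQ sA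
          simp only [map_zero, map_ofNat]
          push_cast
          ring
        exact mul_left_cancel₀ (pow_ne_zero 5 sA_ne) h5
      rw [e]
      exact LC_quad le_rfl (by norm_num) le_rfl (by norm_num)
  · obtain ⟨k, hk⟩ := Nat.exists_eq_add_of_le hge
    have e : 2 * N.coeff 2 = sA ^ k * QQ p q := by
      have h5 : sA ^ 5 * (2 * N.coeff 2) = sA ^ 5 * (sA ^ k * QQ p q) := by
        rw [h, hk]; ring
      exact mul_left_cancel₀ (pow_ne_zero 5 sA_ne) h5
    rw [e]
    exact LC_pow (LC_QQ hp hpq) k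

end H79W
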