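import Pool.Agent.Lib.H79W.F6
import Pool.Agent.Lib.H79W.LC

/-!
# H79W, file F7: log-concavity of the deep rows
-/

set_option autoImplicit false

namespace H79W

open Polynomial

theorem lc_of_close {l : ℕ} {c s : ℕ → ℝ} {η : ℝ} (h0 : 0 ≤ η) (hη : η * (l + 1) ≤ 1)
    (hc : ∀ k, k ≤ l → 0 < c k) (hc0 : ∀ k, l < k → c k = 0)
    (hcc : ∀ k, k + 2 ≤ l → c k * c (k + 2) * ((l : ℝ) + 2) ^ 2 ≤ (l : ℝ) ^ 2 * c (k + 1) ^ 2)
    (hs : ∀ k, |s k - c k| ≤ η * c k) :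
    (∀ k, 0 ≤ s k) ∧ ∀ i j, i ≤ j → s i * s (j + 2) ≤ s (i + 1) * s (j + 1) := by
  have hl0 : (0 : ℝ) ≤ l := Nat.cast_nonneg _
  have hη1 : η ≤ 1 := by nlinarith
  have hcnn : ∀ k, 0 ≤ c k := by
    intro k
    rcases le_or_gt k l with h | h
    · exact (hc k h).le
    · rw [hc0 k h]
  have hlow : ∀ k, (1 - η) * c k ≤ s k := by
    intro k
    have := abs_le.mp (hs k)
    linarith [this.1]
  have hup : ∀ k, s k ≤ (1 + η) * c k := by
    intro k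
    have := abs_le.mp (hs k)
    linarith [this.2]
  have hnn : ∀ k, 0 ≤ s k := fun k => (mul_nonneg (by linarith) (hcnn k)).trans (hlow k)
  refine ⟨hnn, ?_⟩
  intro i j hij
  rcases le_or_gt (j + 2) l with hj | hj
  · have hl2 : (2 : ℝ) ≤ l := by
      have : 2 ≤ l := by omega
      exact_mod_cast this
    have hη3 : η ≤ 1 / 3 := by nlinarith
    have hpos : ∀ k, k ≤ l → 0 < s k := fun k hk =>
      lt_of_lt_of_le (mul_pos (by linarith) (hc k hk)) (hlow k)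
    have hcons : ∀ k, k + 2 ≤ l → s k * s (k + 2) ≤ s (k + 1) ^ 2 := by
      intro k hk
      have h1 : s k * s (k + 2) ≤ ((1 + η) * c k) * ((1 + η) * c (k + 2)) :=
        mul_le_mul (hup k) (hup (k + 2)) (hnn _) (mul_nonneg (by linarith) (hcnn k))
      have h2 : ((1 - η) * c (k + 1)) ^ 2 ≤ s (k + 1) ^ 2 :=
        pow_le_pow_left₀ (mul_nonneg (by linarith) (hcnn _)) (hlow _) 2
      have h3 : (1 + η) * l ≤ (1 - η) * (l + 2) := by nlinarith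
      have h4 : ((1 + η) * l) ^ 2 ≤ ((1 - η) * (l + 2)) ^ 2 :=
        pow_le_pow_left₀ (mul_nonneg (by linarith) hl0) h3 2
      have h5 := hcc k hk
      have h6 : ((1 + η) * c k) * ((1 + η) * c (k + 2)) * ((l : ℝ) + 2) ^ 2 ≤
          ((1 - η) * c (k + 1)) ^ 2 * ((l : ℝ) + 2) ^ 2 := by
        calc ((1 + η) * c k) * ((1 + η) * c (k + 2)) * ((l : ℝ) + 2) ^ 2
            = (1 + η) ^ 2 * (c k * c (k + 2) * ((l : ℝ) + 2) ^ 2) := by ring
          _ ≤ (1 + η) ^ 2 * ((l : ℝ) ^ 2 * c (k + 1) ^ 2) := mul_le_mul_of_nonneg_left h5 (by positivity)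
          _ = ((1 + η) * l) ^ 2 * c (k + 1) ^ 2 := by ring
          _ ≤ ((1 - η) * (l + 2)) ^ 2 * c (k + 1) ^ 2 := mul_le_mul_of_nonneg_right h4 (by positivity)
          _ = ((1 - η) * c (k + 1)) ^ 2 * ((l : ℝ) + 2) ^ 2 := by ring
      have h7 := le_of_mul_le_mul_right h6 (by positivity)
      linarith
    clear hlow hup hs hcc hc hc0 hcnn
    induction j, hij using Nat.le_induction with
    | base =>
      have := hcons i hj
      rw [pow_two] at this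
      exact this
    | succ j hij ih =>
      have h1 := ih (by omega)
      have h2 := hcons (j + 1) hj
      have p1 := hpos (j + 1) (by omega)
      have p2 := hpos (j + 2) (by omega)
      have p3 := hpos i (by omega)
      have p4 := hpos (j + 3) (by omega)
      have e1 : j + 1 + 2 = j + 3 := by omega
      have e2 : j + 1 + 1 = j + 2 := by omega
      rw [e1, e2] at h2
      rw [e1, e2]
      have h3 : (s i * s (j + 2)) * (s (j + 1) * s (j + 3)) ≤ (s (i + 1) * s (j + 1)) * s (j + 2) ^ 2 :=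
        mul_le_mul h1 h2 (by positivity) (mul_nonneg (hnn _) (hnn _))
      have h4 : (s i * s (j + 3)) * (s (j + 1) * s (j + 2)) ≤ (s (i + 1) * s (j + 2)) * (s (j + 1) * s (j + 2)) := by
        calc (s i * s (j + 3)) * (s (j + 1) * s (j + 2)) = (s i * s (j + 2)) * (s (j + 1) * s (j + 3)) := by ring
          _ ≤ (s (i + 1) * s (j + 1)) * s (j + 2) ^ 2 := h3
          _ = (s (i + 1) * s (j + 2)) * (s (j + 1) * s (j + 2)) := by ring
      exact le_of_mul_le_mul_right h4 (mul_pos p1 p2)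
  · have h1 : s (j + 2) = 0 := by
      have := hs (j + 2)
      rw [hc0 _ hj, mul_zero, sub_zero] at this
      exact abs_nonpos_iff.mp this
    rw [h1, mul_zero]
    exact mul_nonneg (hnn _) (hnn _)

theorem choose_lc {n k : ℕ} (hk : k + 1 ≤ n) :
    ((n.choose k : ℕ) : ℝ) * ((n.choose (k + 2) : ℕ) : ℝ) * ((k : ℝ) + 2) ≤
      ((k : ℝ) + 1) * ((n.choose (k + 1) : ℕ) : ℝ) ^ 2 := by
  have h1 := Nat.choose_succ_right_eq n k
  have h2 := Nat.choose_succ_right_eq n (k + 1)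
  have h3 : ((n.choose (k + 1) : ℕ) : ℝ) * ((k : ℝ) + 1) = ((n.choose k : ℕ) : ℝ) * ((n : ℝ) - k) := by
    have h : ((n.choose (k + 1) * (k + 1) : ℕ) : ℝ) = ((n.choose k * (n - k) : ℕ) : ℝ) := by rw [h1]
    push_cast [Nat.cast_sub (show k ≤ n by omega)] at h
    exact h
  have h4 : ((n.choose (k + 2) : ℕ) : ℝ) * ((k : ℝ) + 2) = ((n.choose (k + 1) : ℕ) : ℝ) * ((n : ℝ) - k - 1) := by
    have h : ((n.choose (k + 1 + 1) * (k + 1 + 1) : ℕ) : ℝ) = ((n.choose (k + 1) * (n - (k + 1)) : ℕ) : ℝ) := by rw [h2]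
    push_cast [Nat.cast_sub (show k + 1 ≤ n by omega)] at h
    linear_combination h
  have hn : (k : ℝ) + 1 ≤ n := by exact_mod_cast hk
  have hpos : (0 : ℝ) < (n : ℝ) - k := by linarith
  have h5 : ((n.choose k : ℕ) : ℝ) * ((n.choose (k + 2) : ℕ) : ℝ) * ((k : ℝ) + 2) * ((n : ℝ) - k) ≤
      ((k : ℝ) + 1) * ((n.choose (k + 1) : ℕ) : ℝ) ^ 2 * ((n : ℝ) - k) := by
    calc ((n.choose k : ℕ) : ℝ) * ((n.choose (k + 2) : ℕ) : ℝ) * ((k : ℝ) + 2) * ((n : ℝ) - k)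
        = (((n.choose k : ℕ) : ℝ) * ((n : ℝ) - k)) * (((n.choose (k + 2) : ℕ) : ℝ) * ((k : ℝ) + 2)) := by ring
      _ = (((n.choose (k + 1) : ℕ) : ℝ) * ((k : ℝ) + 1)) * (((n.choose (k + 1) : ℕ) : ℝ) * ((n : ℝ) - k - 1)) := by
        rw [h3, h4]
      _ = ((k : ℝ) + 1) * ((n.choose (k + 1) : ℕ) : ℝ) ^ 2 * ((n : ℝ) - k - 1) := by ring
      _ ≤ ((k : ℝ) + 1) * ((n.choose (k + 1) : ℕ) : ℝ) ^ 2 * ((n : ℝ) - k) := by
        apply mul_le_mul_of_nonneg_left _ (by positivity)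
        linarith
  exact le_of_mul_le_mul_right h5 hpos

theorem main_lc {p q l k : ℕ} (hpq : p ≤ q) (hl : l ≤ p) (hk : k + 2 ≤ l) :
    (((Wp p q).coeff l).coeff k * ((Wp p q).coeff l).coeff (k + 2)) * ((l : ℝ) + 2) ^ 2 ≤
      (l : ℝ) ^ 2 * ((Wp p q).coeff l).coeff (k + 1) ^ 2 := by
  rw [Wp_cc, Wp_cc, Wp_cc, if_pos (by omega), if_pos (by omega), if_pos (by omega)]
  have h1 := choose_lc (n := q) (k := k) (by omega)
  have h2 := choose_lc (n := p) (k := l - (k + 2)) (by omega)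
  have e1 : l - (k + 2) + 2 = l - k := by omega
  have e2 : l - (k + 2) + 1 = l - (k + 1) := by omega
  rw [e1, e2, Nat.cast_sub hk] at h2
  push_cast at h2
  have hkl : (k : ℝ) + 2 ≤ l := by exact_mod_cast hk
  have hk0 : (0 : ℝ) ≤ k := Nat.cast_nonneg _
  obtain ⟨x0, hx0⟩ : ∃ x : ℝ, x = ((q.choose k : ℕ) : ℝ) := ⟨_, rfl⟩
  obtain ⟨x1, hx1⟩ : ∃ x : ℝ, x = ((q.choose (k + 1) : ℕ) : ℝ) := ⟨_, rfl⟩
  obtain ⟨x2, hx2⟩ : ∃ x : ℝ, x = ((q.choose (k + 2) : ℕ) : ℝ) := ⟨_, rfl⟩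
  obtain ⟨y0, hy0⟩ : ∃ x : ℝ, x = ((p.choose (l - k) : ℕ) : ℝ) := ⟨_, rfl⟩
  obtain ⟨y1, hy1⟩ : ∃ x : ℝ, x = ((p.choose (l - (k + 1)) : ℕ) : ℝ) := ⟨_, rfl⟩
  obtain ⟨y2, hy2⟩ : ∃ x : ℝ, x = ((p.choose (l - (k + 2)) : ℕ) : ℝ) := ⟨_, rfl⟩
  have n0 : 0 ≤ x0 := hx0 ▸ Nat.cast_nonneg _
  have n1 : 0 ≤ x1 := hx1 ▸ Nat.cast_nonneg _
  have n2 : 0 ≤ x2 := hx2 ▸ Nat.cast_nonneg _
  have m0 : 0 ≤ y0 := hy0 ▸ Nat.cast_nonneg _
  have m1 : 0 ≤ y1 := hy1 ▸ Nat.cast_nonneg _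
  have m2 : 0 ≤ y2 := hy2 ▸ Nat.cast_nonneg _
  rw [← hx0, ← hx1, ← hx2] at h1
  rw [← hy0, ← hy1, ← hy2] at h2
  rw [← hx0, ← hx1, ← hx2, ← hy0, ← hy1, ← hy2]
  obtain ⟨L, hL⟩ : ∃ L : ℝ, L = (l : ℝ) := ⟨_, rfl⟩
  obtain ⟨K, hK⟩ : ∃ K : ℝ, K = (k : ℝ) := ⟨_, rfl⟩
  rw [← hL, ← hK] at h2 hkl
  rw [← hK] at h1 hk0
  rw [← hL]
  have h3 : (x0 * x2 * (K + 2)) * (y2 * y0 * (L - (K + 2) + 2)) ≤
      ((K + 1) * x1 ^ 2) * ((L - (K + 2) + 1) * y1 ^ 2) :=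
    mul_le_mul h1 h2 (mul_nonneg (mul_nonneg m2 m0) (by linarith)) (mul_nonneg (by linarith) (by positivity))
  have h4 : (K + 1) * (L - K - 1) * (L + 2) ^ 2 ≤ L ^ 2 * ((K + 2) * (L - K)) := by
    have h5 : 0 ≤ (2 * K + 2 - L) ^ 2 := sq_nonneg _
    nlinarith [mul_nonneg (by linarith : (0 : ℝ) ≤ L + 1) h5]
  have hpos : 0 < (K + 2) * (L - K) := mul_pos (by linarith) (by linarith)
  have h6 : x0 * y0 * (x2 * y2) * (L + 2) ^ 2 * ((K + 2) * (L - K)) ≤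
      L ^ 2 * (x1 * y1) ^ 2 * ((K + 2) * (L - K)) := by
    calc x0 * y0 * (x2 * y2) * (L + 2) ^ 2 * ((K + 2) * (L - K))
        = ((x0 * x2 * (K + 2)) * (y2 * y0 * (L - (K + 2) + 2))) * (L + 2) ^ 2 := by ring
      _ ≤ (((K + 1) * x1 ^ 2) * ((L - (K + 2) + 1) * y1 ^ 2)) * (L + 2) ^ 2 :=
        mul_le_mul_of_nonneg_right h3 (by positivity)
      _ = ((K + 1) * (L - K - 1) * (L + 2) ^ 2) * (x1 * y1) ^ 2 := by ring
      _ ≤ (L ^ 2 * ((K + 2) * (L - K))) * (x1 * y1) ^ 2 := mul_le_mul_of_nonneg_right h4 (by positivity)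
      _ = L ^ 2 * (x1 * y1) ^ 2 * ((K + 2) * (L - K)) := by ring
  exact le_of_mul_le_mul_right h6 hpos

theorem eta_bound {p l : ℕ} (h : 2 * l ^ 2 * (l + 2) + l ≤ p + 1) (hl : l ≤ p) :
    ((1 + 2 * rho p l) ^ l - 1) * (l + 1) ≤ 1 := by
  rcases Nat.eq_zero_or_pos l with h0 | h0
  · subst h0; simp
  have hlp : (l : ℝ) ≤ p := by exact_mod_cast hl
  have hl1 : (1 : ℝ) ≤ l := by exact_mod_cast h0
  have h' : 2 * (l : ℝ) ^ 2 * (l + 2) + l ≤ p + 1 := by exact_mod_cast h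
  have hden : (0 : ℝ) < (p : ℝ) - l + 1 := by linarith
  obtain ⟨x, hx⟩ : ∃ x, x = 2 * rho p l := ⟨_, rfl⟩
  have hx0 : 0 ≤ x := by rw [hx]; exact mul_nonneg (by norm_num) (rho_nn hl)
  have hxl : x * (l * (l + 2)) ≤ 1 := by
    rw [hx]
    unfold rho
    rw [mul_div_assoc', div_mul_eq_mul_div, div_le_one hden]
    nlinarith
  rw [← hx]
  have hx1 : x ≤ 1 := by nlinarith
  have h1 : 1 + (l : ℝ) * (-x) ≤ (1 + (-x)) ^ l := one_add_mul_le_pow (by linarith) l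
  have h2 : (1 + x) ^ l * (1 + (-x)) ^ l ≤ 1 := by
    rw [← mul_pow]
    exact pow_le_one₀ (mul_nonneg (by linarith) (by linarith)) (by nlinarith)
  have h3 : 0 < (1 + x) ^ l := by positivity
  have h4 : (1 + x) ^ l * (1 + l * (-x)) ≤ 1 := (mul_le_mul_of_nonneg_left h1 h3.le).trans h2
  have h5 : (l : ℝ) * x * (l + 2) ≤ 1 := by nlinarith
  have h6 : (1 + x) ^ l * ((l : ℝ) + 1) ≤ l + 2 := by
    have h7 : ((l : ℝ) + 1) ≤ (l + 2) * (1 + l * (-x)) := by nlinarith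
    calc (1 + x) ^ l * ((l : ℝ) + 1) ≤ (1 + x) ^ l * ((l + 2) * (1 + l * (-x))) :=
          mul_le_mul_of_nonneg_left h7 h3.le
      _ = (l + 2) * ((1 + x) ^ l * (1 + l * (-x))) := by ring
      _ ≤ (l + 2) * 1 := mul_le_mul_of_nonneg_left h4 (by linarith)
      _ = l + 2 := mul_one _
  linarith

theorem LC_Sr {p q l : ℕ} {T : ℤ[X][X]} (hpq : p ≤ q) (hl : l ≤ p) (h : 2 * l ^ 2 * (l + 2) + l ≤ p + 1)
    (hT : DM (tau T - WW p q) (MM p q - WW p q)) : LC (Sr T l) := by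
  have h1 := (Ss_bound hT) l
  rw [map_sub, map_sub, WW_coeff] at h1
  have h2 := GG_bound hpq hl
  obtain ⟨η, hη⟩ : ∃ η, η = (1 + 2 * rho p l) ^ l - 1 := ⟨_, rfl⟩
  have h3 : Dm (PowerSeries.coeff l (Ss T) - (Wp p q).coeff l) (C η * (Wp p q).coeff l) := by
    refine h1.le ?_
    have e : C η * (Wp p q).coeff l - (PowerSeries.coeff l (Ga ^ q * Gb ^ p * w2) - (Wp p q).coeff l) =
        C ((1 + 2 * rho p l) ^ l) * (Wp p q).coeff l - PowerSeries.coeff l (Ga ^ q * Gb ^ p * w2) := by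
      rw [hη, C_sub, map_one]; ring
    rw [e]; exact h2
  have hη0 : 0 ≤ η := by
    rw [hη]
    have : (1 : ℝ) ≤ (1 + 2 * rho p l) ^ l := one_le_pow₀ (by linarith [rho_nn hl])
    linarith
  have hηb : η * (l + 1) ≤ 1 := by rw [hη]; exact eta_bound h hl
  have key := lc_of_close (l := l) (c := fun k => ((Wp p q).coeff l).coeff k)
    (s := fun k => (((Sr T l).coeff k : ℤ) : ℝ)) hη0 hηb ?_ ?_ (fun k hk => main_lc hpq hl hk) ?_
  · obtain ⟨k1, k2⟩ := key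
    refine ⟨fun i => by exact_mod_cast k1 i, fun i j hij => by exact_mod_cast k2 i j hij⟩
  · intro k hk
    show 0 < ((Wp p q).coeff l).coeff k
    rw [Wp_cc, if_pos hk]
    have e1 : 0 < q.choose k := Nat.choose_pos (by omega)
    have e2 : 0 < p.choose (l - k) := Nat.choose_pos (by omega)
    positivity
  · intro k hk
    show ((Wp p q).coeff l).coeff k = 0
    rw [Wp_cc, if_neg (by omega)]
  · intro k
    have h4 := h3 k
    rw [coeff_sub, coeff_C_mul] at h4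
    have e : (PowerSeries.coeff l (Ss T)).coeff k = (((Sr T l).coeff k : ℤ) : ℝ) := by
      unfold Ss
      rw [PowerSeries.coeff_mk, coeff_map]
      simp
    rw [e] at h4
    exact h4

theorem LC_deep {a b c d : ℕ} {P Q R : ℤ[X][X]} (h : PT a b c d P Q R) (hab : a + c ≤ b + d) {l : ℕ}
    (hl : 2 * l ^ 2 * (l + 2) + l ≤ a + c + 1) : LC (R.coeff l) := by
  obtain ⟨P', Q', R', hT, _, _, hR⟩ := PT_TT h
  obtain ⟨_, hc, _, _, _, hb, _⟩ := TT_bound hT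
  have hlp : l ≤ a + c := by
    rcases Nat.eq_zero_or_pos l with h0 | h0
    · omega
    · have : 1 ≤ l ^ 2 * (l + 2) := Nat.one_le_iff_ne_zero.mpr (by positivity)
      nlinarith
  have h1 := LC_Sr hab hlp hl hb
  have h2 := Rel_row hR l
  have e : a + c + (b + d) = (2 * l + 1) + (a + c + (b + d) - (2 * l + 1)) := by
    have : 2 * l + 1 ≤ a + c + (b + d) := by
      rcases Nat.eq_zero_or_pos l with h0 | h0
      · omega
      · have : 1 ≤ l ^ 2 * (l + 2) := Nat.one_le_iff_ne_zero.mpr (by positivity)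
        nlinarith
    omega
  have h3 : R.coeff l = sA ^ (a + c + (b + d) - (2 * l + 1)) * Sr R' l := by
    have hne : sA ^ (2 * l + 1) ≠ 0 := pow_ne_zero _ sA_ne
    apply mul_left_cancel₀ hne
    rw [h2, ← mul_assoc, ← pow_add, ← e]
  rw [h3]
  exact LC_pow h1 _

end H79W
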