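import Pool.Agent.Lib.H79W.F7

/-!
# H79W, file F8: a criterion for the log-concavity of `(1 + X)^D S`
-/

set_option autoImplicit false

namespace H79W

open Finset

theorem cm (n x : ℕ) : (((n + 1).choose x : ℕ) : ℝ) * ((n : ℝ) + 1 - x) = ((n : ℝ) + 1) * ((n.choose x : ℕ) : ℝ) := by
  rcases le_or_gt x (n + 1) with h | h
  · have h1 := Nat.choose_mul_succ_eq n x
    have h2 : ((n.choose x * (n + 1) : ℕ) : ℝ) = (((n + 1).choose x * (n + 1 - x) : ℕ) : ℝ) := by rw [h1]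
    push_cast [Nat.cast_sub h] at h2
    linarith
  · rw [Nat.choose_eq_zero_of_lt h, Nat.choose_eq_zero_of_lt (by omega)]
    simp

theorem cs (n x : ℕ) : (((n + 1).choose (x + 1) : ℕ) : ℝ) * ((x : ℝ) + 1) = ((n : ℝ) + 1) * ((n.choose x : ℕ) : ℝ) := by
  have h1 := Nat.add_one_mul_choose_eq n x
  have h2 : (((n + 1) * n.choose x : ℕ) : ℝ) = (((n + 1).choose (x + 1) * (x + 1) : ℕ) : ℝ) := by rw [h1]
  push_cast at h2
  linarith

/-- The weights of the row. -/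
noncomputable def bt (D n k : ℕ) : ℝ := if k ≤ n + 2 then (((D + 2).choose (n + 2 - k) : ℕ) : ℝ) else 0

theorem bt_nn (D n k : ℕ) : 0 ≤ bt D n k := by
  unfold bt; split_ifs <;> positivity

theorem bt_X (D n k : ℕ) : 0 ≤ bt D n k * ((n : ℝ) + 2 - k) := by
  unfold bt
  split_ifs with h
  · have : (k : ℝ) ≤ n + 2 := by exact_mod_cast h
    exact mul_nonneg (by positivity) (by linarith)
  · simp

theorem bt_F (D n k : ℕ) : 0 ≤ bt D n k * ((D : ℝ) - n + k) := by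
  unfold bt
  split_ifs with h
  · rcases le_or_gt (n + 2 - k) (D + 2) with h1 | h1
    · have h2 : n + 2 ≤ D + 2 + k := by omega
      have h3 : (n : ℝ) + 2 ≤ D + 2 + k := by exact_mod_cast h2
      exact mul_nonneg (by positivity) (by linarith)
    · rw [Nat.choose_eq_zero_of_lt h1]; simp
  · simp

theorem bt_step (D n k : ℕ) : bt D n (k + 1) * ((D : ℝ) + 1 - n + k) = bt D n k * ((n : ℝ) + 2 - k) := by
  unfold bt
  rcases lt_trichotomy k (n + 2) with h | h | h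
  · rw [if_pos (by omega), if_pos (by omega)]
    obtain ⟨x, hx⟩ : ∃ x, n + 2 - k = x + 1 := ⟨n + 1 - k, by omega⟩
    have hx' : n + 2 - (k + 1) = x := by omega
    rw [hx, hx']
    have hxr : (x : ℝ) = n + 1 - k := by
      have : x + k = n + 1 := by omega
      have : (x : ℝ) + k = n + 1 := by exact_mod_cast this
      linarith
    have h1 := cs (D + 1) x
    have h2 := cm (D + 1) x
    push_cast at h1 h2
    rw [hxr] at h1 h2
    have e : (D + 1 + 1) = D + 2 := rfl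
    rw [e] at h1 h2
    linarith
  · rw [if_neg (by omega), if_pos (by omega)]
    rw [h]; push_cast; ring
  · rw [if_neg (by omega), if_neg (by omega)]
    ring

theorem bt_0 (D n k : ℕ) : ((D : ℝ) + 2) * ((D : ℝ) + 1) * (if k ≤ n then ((D.choose (n - k) : ℕ) : ℝ) else 0) =
    bt D n k * (((n : ℝ) + 2 - k) * ((n : ℝ) + 1 - k)) := by
  unfold bt
  rcases Nat.lt_or_ge n k with h | h
  · rw [if_neg (by omega)]
    split_ifs with h1
    · have : k = n + 1 ∨ k = n + 2 := by omega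
      rcases this with h2 | h2 <;> rw [h2] <;> push_cast <;> ring
    · ring
  · rw [if_pos h, if_pos (by omega)]
    obtain ⟨x, hx⟩ : ∃ x, n = x + k := ⟨n - k, by omega⟩
    subst hx
    have e1 : x + k - k = x := by omega
    have e2 : x + k + 2 - k = x + 2 := by omega
    rw [e1, e2]
    have h1 := cs (D + 1) (x + 1)
    have h2 := cs D x
    push_cast at h1 h2 ⊢
    have e : (D + 1 + 1) = D + 2 := rfl
    rw [e] at h1
    have e3 : x + 1 + 1 = x + 2 := rfl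
    rw [e3] at h1
    calc ((D : ℝ) + 2) * (D + 1) * ((D.choose x : ℕ) : ℝ) = ((D : ℝ) + 2) * (((D : ℝ) + 1) * ((D.choose x : ℕ) : ℝ)) := by ring
      _ = ((D : ℝ) + 2) * ((((D + 1).choose (x + 1) : ℕ) : ℝ) * ((x : ℝ) + 1)) := by rw [h2]
      _ = (((D : ℝ) + 1 + 1) * (((D + 1).choose (x + 1) : ℕ) : ℝ)) * ((x : ℝ) + 1) := by ring
      _ = ((((D + 2).choose (x + 2) : ℕ) : ℝ) * ((x : ℝ) + 1 + 1)) * ((x : ℝ) + 1) := by rw [h1]
      _ = _ := by ring

theorem bt_1 (D n k : ℕ) : ((D : ℝ) + 2) * ((D : ℝ) + 1) * (if k ≤ n + 1 then ((D.choose (n + 1 - k) : ℕ) : ℝ) else 0) =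
    bt D n k * (((n : ℝ) + 2 - k) * ((D : ℝ) - n + k)) := by
  unfold bt
  rcases Nat.lt_or_ge (n + 1) k with h | h
  · rw [if_neg (by omega)]
    split_ifs with h1
    · have h2 : k = n + 2 := by omega
      rw [h2]; push_cast; ring
    · ring
  · rw [if_pos h, if_pos (by omega)]
    obtain ⟨x, hx⟩ : ∃ x, n + 1 = x + k := ⟨n + 1 - k, by omega⟩
    have e1 : n + 1 - k = x := by omega
    have e2 : n + 2 - k = x + 1 := by omega
    have hn : (n : ℝ) = x + k - 1 := by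
      have : (n : ℝ) + 1 = x + k := by exact_mod_cast hx
      linarith
    rw [e1, e2, hn]
    have h1 := cs (D + 1) x
    have h2 := cm D x
    push_cast at h1 h2
    have e : (D + 1 + 1) = D + 2 := rfl
    rw [e] at h1
    calc ((D : ℝ) + 2) * (D + 1) * ((D.choose x : ℕ) : ℝ) = ((D : ℝ) + 2) * (((D : ℝ) + 1) * ((D.choose x : ℕ) : ℝ)) := by ring
      _ = ((D : ℝ) + 2) * ((((D + 1).choose x : ℕ) : ℝ) * ((D : ℝ) + 1 - x)) := by rw [h2]
      _ = (((D : ℝ) + 1 + 1) * (((D + 1).choose x : ℕ) : ℝ)) * ((D : ℝ) + 1 - x) := by ring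
      _ = ((((D + 2).choose (x + 1) : ℕ) : ℝ) * ((x : ℝ) + 1)) * ((D : ℝ) + 1 - x) := by rw [h1]
      _ = _ := by ring

theorem bt_2 (D n k : ℕ) : ((D : ℝ) + 2) * ((D : ℝ) + 1) * (if k ≤ n + 2 then ((D.choose (n + 2 - k) : ℕ) : ℝ) else 0) =
    bt D n k * (((D : ℝ) - n + k) * ((D : ℝ) - n + k - 1)) := by
  unfold bt
  split_ifs with h
  · obtain ⟨x, hx⟩ : ∃ x, n + 2 = x + k := ⟨n + 2 - k, by omega⟩
    have e1 : n + 2 - k = x := by omega
    have hn : (n : ℝ) = x + k - 2 := by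
      have : (n : ℝ) + 2 = x + k := by exact_mod_cast hx
      linarith
    rw [e1, hn]
    have h1 := cm (D + 1) x
    have h2 := cm D x
    push_cast at h1 h2
    have e : (D + 1 + 1) = D + 2 := rfl
    rw [e] at h1
    calc ((D : ℝ) + 2) * (D + 1) * ((D.choose x : ℕ) : ℝ) = ((D : ℝ) + 2) * (((D : ℝ) + 1) * ((D.choose x : ℕ) : ℝ)) := by ring
      _ = ((D : ℝ) + 2) * ((((D + 1).choose x : ℕ) : ℝ) * ((D : ℝ) + 1 - x)) := by rw [h2]
      _ = (((D : ℝ) + 1 + 1) * (((D + 1).choose x : ℕ) : ℝ)) * ((D : ℝ) + 1 - x) := by ring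
      _ = ((((D + 2).choose x : ℕ) : ℝ) * ((D : ℝ) + 1 + 1 - x)) * ((D : ℝ) + 1 - x) := by rw [h1]
      _ = _ := by ring
  · ring

/-- The variance criterion. -/
theorem var_crit {m0 m1 m2 F : ℝ} (hF : 1 ≤ F) (h : F * (m0 * m2 - m1 ^ 2) ≤ m1 * (F * m0 - m1)) :
    (m2 - m1) * (F * (F - 1) * m0 - (2 * F - 1) * m1 + m2) ≤ (F * m1 - m2) ^ 2 := by
  have e : (F * m1 - m2) ^ 2 - (m2 - m1) * (F * (F - 1) * m0 - (2 * F - 1) * m1 + m2) =
      (F - 1) * (m1 * (F * m0 - m1) - F * (m0 * m2 - m1 ^ 2)) := by ring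
  have h2 : 0 ≤ (F - 1) * (m1 * (F * m0 - m1) - F * (m0 * m2 - m1 ^ 2)) :=
    mul_nonneg (by linarith) (by linarith)
  linarith

end H79W
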