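import Pool.Agent.Lib.H79W.F8

/-!
# H79W, file F9: log-concavity of `(1 + X)^D S` for `S` close to the main polynomial
-/

set_option autoImplicit false

namespace H79W

open Finset

/-- The main coefficients. -/
noncomputable def cc (p q l k : ℕ) : ℝ := ((Wp p q).coeff l).coeff k

theorem cc_nn (p q l k : ℕ) : 0 ≤ cc p q l k := Wp_nn p q l k

theorem cc_step {p q l k : ℕ} (hpq : p ≤ q) (hl : l ≤ p) (hk : k + 1 ≤ l) :
    cc p q l (k + 1) * (((k : ℝ) + 1) * ((p : ℝ) - l + k + 1)) = cc p q l k * (((q : ℝ) - k) * ((l : ℝ) - k)) := by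
  unfold cc
  rw [Wp_cc, Wp_cc, if_pos (by omega), if_pos (by omega)]
  have h1 := Nat.choose_succ_right_eq q k
  have h2 : ((q.choose (k + 1) : ℕ) : ℝ) * ((k : ℝ) + 1) = ((q.choose k : ℕ) : ℝ) * ((q : ℝ) - k) := by
    have h3 : ((q.choose (k + 1) * (k + 1) : ℕ) : ℝ) = ((q.choose k * (q - k) : ℕ) : ℝ) := by rw [h1]
    push_cast [Nat.cast_sub (show k ≤ q by omega)] at h3
    exact h3
  obtain ⟨m, hm⟩ : ∃ m, l = m + (k + 1) := ⟨l - (k + 1), by omega⟩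
  have e1 : l - (k + 1) = m := by omega
  have e2 : l - k = m + 1 := by omega
  rw [e1, e2]
  have h4 := Nat.choose_succ_right_eq p m
  have h5 : ((p.choose (m + 1) : ℕ) : ℝ) * ((m : ℝ) + 1) = ((p.choose m : ℕ) : ℝ) * ((p : ℝ) - m) := by
    have h3 : ((p.choose (m + 1) * (m + 1) : ℕ) : ℝ) = ((p.choose m * (p - m) : ℕ) : ℝ) := by rw [h4]
    push_cast [Nat.cast_sub (show m ≤ p by omega)] at h3
    exact h3
  have e3 : (l : ℝ) = m + (k + 1) := by exact_mod_cast hm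
  rw [e3]
  have e4 : (m : ℝ) + (k + 1) - k = m + 1 := by ring
  have e5 : (p : ℝ) - (m + (k + 1)) + k + 1 = p - m := by ring
  rw [e4, e5]
  calc ((q.choose (k + 1) : ℕ) : ℝ) * ((p.choose m : ℕ) : ℝ) * (((k : ℝ) + 1) * ((p : ℝ) - m))
      = (((q.choose (k + 1) : ℕ) : ℝ) * ((k : ℝ) + 1)) * (((p.choose m : ℕ) : ℝ) * ((p : ℝ) - m)) := by ring
    _ = (((q.choose k : ℕ) : ℝ) * ((q : ℝ) - k)) * (((p.choose (m + 1) : ℕ) : ℝ) * ((m : ℝ) + 1)) := by rw [h2, h5]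
    _ = _ := by ring

theorem star {p q l k D n : ℕ} (hpq : p ≤ q) (hl : l ≤ p) (hk : k + 1 ≤ l) :
    cc p q l (k + 1) * bt D n (k + 1) * (((k : ℝ) + 1) * ((p : ℝ) - l + k + 1) * ((D : ℝ) + 1 - n + k)) =
      cc p q l k * bt D n k * (((q : ℝ) - k) * ((l : ℝ) - k) * ((n : ℝ) + 2 - k)) := by
  have h1 := cc_step hpq hl hk
  have h2 := bt_step D n k
  calc cc p q l (k + 1) * bt D n (k + 1) * (((k : ℝ) + 1) * ((p : ℝ) - l + k + 1) * ((D : ℝ) + 1 - n + k))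
      = (cc p q l (k + 1) * (((k : ℝ) + 1) * ((p : ℝ) - l + k + 1))) * (bt D n (k + 1) * ((D : ℝ) + 1 - n + k)) := by ring
    _ = (cc p q l k * (((q : ℝ) - k) * ((l : ℝ) - k))) * (bt D n k * ((n : ℝ) + 2 - k)) := by rw [h1, h2]
    _ = _ := by ring

theorem crit {p q l D n : ℕ} {σ : ℕ → ℝ} (hpq : p ≤ q) (hl : 8 * l ^ 2 + l ≤ p + 1) (hlp : l ≤ p)
    (hD : D + 2 * l + 1 = p + q) (hσ : ∀ k, |σ k - cc p q l k| ≤ 1 / 3 * cc p q l k) :
    ((D : ℝ) + 2) * ((∑ k ∈ range (l + 1), σ k * bt D n k) *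
        (∑ k ∈ range (l + 1), σ k * bt D n k * ((n : ℝ) + 2 - k) ^ 2) -
        (∑ k ∈ range (l + 1), σ k * bt D n k * ((n : ℝ) + 2 - k)) ^ 2) ≤
      (∑ k ∈ range (l + 1), σ k * bt D n k * ((n : ℝ) + 2 - k)) *
        (((D : ℝ) + 2) * (∑ k ∈ range (l + 1), σ k * bt D n k) -
          ∑ k ∈ range (l + 1), σ k * bt D n k * ((n : ℝ) + 2 - k)) := by
  have hl' : 8 * (l : ℝ) ^ 2 + l ≤ p + 1 := by exact_mod_cast hl
  have hD' : (D : ℝ) + 2 * l + 1 = p + q := by exact_mod_cast hD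
  have hpq' : (p : ℝ) ≤ q := by exact_mod_cast hpq
  have hlp' : (l : ℝ) ≤ p := by exact_mod_cast hlp
  have hl0 : (0 : ℝ) ≤ l := Nat.cast_nonneg _
  have hll : (l : ℝ) ≤ (l : ℝ) ^ 2 := by
    rcases Nat.eq_zero_or_pos l with h | h
    · subst h; simp
    · have : (1 : ℝ) ≤ l := by exact_mod_cast h
      nlinarith
  obtain ⟨F, hF⟩ : ∃ F : ℝ, F = (D : ℝ) + 2 := ⟨_, rfl⟩
  have hF0 : 0 < F := by rw [hF]; positivity
  obtain ⟨u, hu⟩ : ∃ u : ℕ → ℝ, u = fun k => cc p q l k * bt D n k := ⟨_, rfl⟩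
  obtain ⟨v, hv⟩ : ∃ v : ℕ → ℝ, v = fun k => σ k * bt D n k := ⟨_, rfl⟩
  have hu0 : ∀ k, 0 ≤ u k := fun k => by rw [hu]; exact mul_nonneg (cc_nn _ _ _ _) (bt_nn _ _ _)
  have hlow : ∀ k, 2 / 3 * cc p q l k ≤ σ k := fun k => by
    have := (abs_le.mp (hσ k)).1; linarith
  have hup : ∀ k, σ k ≤ 4 / 3 * cc p q l k := fun k => by
    have := (abs_le.mp (hσ k)).2; linarith
  have hvl : ∀ k, u k ≤ 3 / 2 * v k := fun k => by
    rw [hu, hv]
    have := mul_le_mul_of_nonneg_right (hlow k) (bt_nn D n k)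
    simp only
    linarith
  have hvu : ∀ k, v k ≤ 4 / 3 * u k := fun k => by
    rw [hu, hv]
    have := mul_le_mul_of_nonneg_right (hup k) (bt_nn D n k)
    simp only
    linarith
  have hv0 : ∀ k, 0 ≤ v k := fun k => by linarith [hu0 k, hvl k]
  have huX : ∀ k : ℕ, 0 ≤ u k * ((n : ℝ) + 2 - k) := fun k => by
    rw [hu]
    simp only
    rw [mul_assoc]
    exact mul_nonneg (cc_nn _ _ _ _) (bt_X D n k)
  have huF : ∀ k : ℕ, 0 ≤ u k * ((D : ℝ) - n + k) := fun k => by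
    rw [hu]
    simp only
    rw [mul_assoc]
    exact mul_nonneg (cc_nn _ _ _ _) (bt_F D n k)
  have huXv : ∀ k : ℕ, u k * ((n : ℝ) + 2 - k) ≤ 3 / 2 * (v k * ((n : ℝ) + 2 - k)) := fun k => by
    have h1 := mul_le_mul_of_nonneg_right (hlow k) (bt_X D n k)
    rw [hu, hv]
    simp only
    nlinarith
  have huFv : ∀ k : ℕ, u k * ((D : ℝ) - n + k) ≤ 3 / 2 * (v k * ((D : ℝ) - n + k)) := fun k => by
    have h1 := mul_le_mul_of_nonneg_right (hlow k) (bt_F D n k)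
    rw [hu, hv]
    simp only
    nlinarith
  have hstar : ∀ k, k + 1 ≤ l → u (k + 1) * (((k : ℝ) + 1) * ((p : ℝ) - l + k + 1) * ((D : ℝ) + 1 - n + k)) =
      u k * (((q : ℝ) - k) * ((l : ℝ) - k) * ((n : ℝ) + 2 - k)) := fun k hk => by
    rw [hu]; exact star hpq hlp hk
  have eM0 : ∑ k ∈ range (l + 1), σ k * bt D n k = ∑ k ∈ range (l + 1), v k := by rw [hv]
  have eM1 : ∑ k ∈ range (l + 1), σ k * bt D n k * ((n : ℝ) + 2 - k) = ∑ k ∈ range (l + 1), v k * ((n : ℝ) + 2 - k) := by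
    rw [hv]
  have eM2 : ∑ k ∈ range (l + 1), σ k * bt D n k * ((n : ℝ) + 2 - k) ^ 2 =
      ∑ k ∈ range (l + 1), v k * ((n : ℝ) + 2 - k) ^ 2 := by rw [hv]
  rw [eM0, eM1, eM2, ← hF]
  clear eM0 eM1 eM2 hlow hup hσ
  obtain ⟨m0, hm0⟩ : ∃ x, x = ∑ k ∈ range (l + 1), v k := ⟨_, rfl⟩
  obtain ⟨m1, hm1⟩ : ∃ x, x = ∑ k ∈ range (l + 1), v k * ((n : ℝ) + 2 - k) := ⟨_, rfl⟩
  obtain ⟨m2, hm2⟩ : ∃ x, x = ∑ k ∈ range (l + 1), v k * ((n : ℝ) + 2 - k) ^ 2 := ⟨_, rfl⟩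
  rw [← hm0, ← hm1, ← hm2]
  have hm00 : 0 ≤ m0 := by rw [hm0]; exact sum_nonneg fun k _ => hv0 k
  have hvX : ∀ k : ℕ, 0 ≤ v k * ((n : ℝ) + 2 - k) := fun k => by linarith [huX k, huXv k]
  have hvF : ∀ k : ℕ, 0 ≤ v k * ((D : ℝ) - n + k) := fun k => by linarith [huF k, huFv k]
  have hm10 : 0 ≤ m1 := by rw [hm1]; exact sum_nonneg fun k _ => hvX k
  have hmF : F * m0 - m1 = ∑ k ∈ range (l + 1), v k * ((D : ℝ) - n + k) := by
    rw [hm0, hm1, hF, mul_sum, ← sum_sub_distrib]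
    refine sum_congr rfl fun k _ => ?_
    ring
  have hmF0 : 0 ≤ F * m0 - m1 := by rw [hmF]; exact sum_nonneg fun k _ => hvF k
  have hFl : 4 * (l : ℝ) ≤ p + 1 := by nlinarith
  have hFF : (F - l) ^ 2 ≥ F * q := by
    have : F - 2 * l ≥ q := by rw [hF]; linarith
    nlinarith
  have hFl0 : 0 ≤ F - l := by
    have hq0 : (0 : ℝ) ≤ q := Nat.cast_nonneg _
    rw [hF]; linarith
  have hP0 : 8 * (l : ℝ) ^ 2 ≤ (p : ℝ) - l + 1 := by linarith
  have hP1 : (0 : ℝ) < (p : ℝ) - l + 1 := by linarith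
  rcases le_or_gt (2 * ((n : ℝ) + 2)) (F + l) with hc | hc
  · -- left half
    obtain ⟨y, hy⟩ : ∃ y : ℝ, y = F - n - 2 := ⟨_, rfl⟩
    have hyl : (F - l) / 2 ≤ y := by rw [hy]; linarith
    have hy0 : 0 ≤ y := by linarith
    have hY1 : 0 < y + 1 := by linarith
    obtain ⟨α, hα⟩ : ∃ α : ℝ, α = (q : ℝ) * l / (((p : ℝ) - l + 1) * (y + 1)) := ⟨_, rfl⟩
    have hα0 : 0 ≤ α := by rw [hα]; positivity
    have hterm : ∀ k, k + 1 ≤ l → u (k + 1) * ((k : ℝ) + 1) ≤ α * (u k * ((n : ℝ) + 2 - k)) := by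
      intro k hk
      have hk' : (k : ℝ) + 1 ≤ l := by exact_mod_cast hk
      have hk0 : (0 : ℝ) ≤ k := Nat.cast_nonneg _
      rw [hα, div_mul_eq_mul_div, le_div_iff₀ (mul_pos hP1 hY1)]
      have h1 := hstar k hk
      have hYk : (D : ℝ) + 1 - n + k = y + 1 + k := by rw [hy, hF]; ring
      rw [hYk] at h1
      have h2 : ((p : ℝ) - l + 1) * (y + 1) ≤ ((p : ℝ) - l + k + 1) * (y + 1 + k) :=
        mul_le_mul (by linarith) (by linarith) hY1.le (by linarith)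
      have h3 : ((q : ℝ) - k) * ((l : ℝ) - k) ≤ q * l :=
        mul_le_mul (by linarith) (by linarith) (by linarith) (by linarith)
      calc u (k + 1) * ((k : ℝ) + 1) * (((p : ℝ) - l + 1) * (y + 1))
          ≤ u (k + 1) * ((k : ℝ) + 1) * (((p : ℝ) - l + k + 1) * (y + 1 + k)) :=
            mul_le_mul_of_nonneg_left h2 (mul_nonneg (hu0 _) (by linarith))
        _ = u (k + 1) * (((k : ℝ) + 1) * ((p : ℝ) - l + k + 1) * (y + 1 + k)) := by ring
        _ = u k * (((q : ℝ) - k) * ((l : ℝ) - k) * ((n : ℝ) + 2 - k)) := h1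
        _ = ((q : ℝ) - k) * ((l : ℝ) - k) * (u k * ((n : ℝ) + 2 - k)) := by ring
        _ ≤ q * l * (u k * ((n : ℝ) + 2 - k)) := mul_le_mul_of_nonneg_right h3 (huX k)
    obtain ⟨K1, hK1⟩ : ∃ x, x = ∑ k ∈ range (l + 1), v k * (k : ℝ) := ⟨_, rfl⟩
    obtain ⟨K2, hK2⟩ : ∃ x, x = ∑ k ∈ range (l + 1), v k * (k : ℝ) ^ 2 := ⟨_, rfl⟩
    have hid1 : m1 = ((n : ℝ) + 2) * m0 - K1 := by
      rw [hm1, hm0, hK1, mul_sum, ← sum_sub_distrib]
      refine sum_congr rfl fun k _ => ?_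
      ring
    have hid2 : m2 = ((n : ℝ) + 2) ^ 2 * m0 - 2 * ((n : ℝ) + 2) * K1 + K2 := by
      rw [hm2, hm0, hK1, hK2, mul_sum, mul_sum, ← sum_sub_distrib, ← sum_add_distrib]
      refine sum_congr rfl fun k _ => ?_
      ring
    have hvar : m0 * m2 - m1 ^ 2 ≤ m0 * K2 := by
      rw [hid1, hid2]
      nlinarith [sq_nonneg K1]
    have hS : ∑ k ∈ range (l + 1), u k * (k : ℝ) ≤ α * (3 / 2 * m1) := by
      have h1 : ∑ k ∈ range (l + 1), u k * (k : ℝ) = ∑ k ∈ range l, u (k + 1) * ((k : ℝ) + 1) := by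
        rw [sum_range_succ']
        simp
      have h2 : ∑ k ∈ range l, u (k + 1) * ((k : ℝ) + 1) ≤ ∑ k ∈ range l, α * (u k * ((n : ℝ) + 2 - k)) :=
        sum_le_sum fun k hk => hterm k (by have := mem_range.mp hk; omega)
      have h3 : ∑ k ∈ range l, α * (u k * ((n : ℝ) + 2 - k)) ≤ ∑ k ∈ range (l + 1), α * (u k * ((n : ℝ) + 2 - k)) := by
        rw [sum_range_succ]
        linarith [mul_nonneg hα0 (huX l)]
      have h4 : ∑ k ∈ range (l + 1), α * (u k * ((n : ℝ) + 2 - k)) ≤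
          ∑ k ∈ range (l + 1), α * (3 / 2 * (v k * ((n : ℝ) + 2 - k))) :=
        sum_le_sum fun k _ => mul_le_mul_of_nonneg_left (huXv k) hα0
      have h5 : ∑ k ∈ range (l + 1), α * (3 / 2 * (v k * ((n : ℝ) + 2 - k))) = α * (3 / 2 * m1) := by
        rw [hm1, mul_sum, mul_sum]
      linarith
    have hK2b : K2 ≤ 4 / 3 * (l * (α * (3 / 2 * m1))) := by
      have h1 : K2 ≤ ∑ k ∈ range (l + 1), 4 / 3 * (l * (u k * (k : ℝ))) := by
        rw [hK2]
        refine sum_le_sum fun k hk => ?_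
        have hk' : (k : ℝ) ≤ l := by exact_mod_cast (show k ≤ l by have := mem_range.mp hk; omega)
        have hk0 : (0 : ℝ) ≤ k := Nat.cast_nonneg _
        have h2 : v k * (k : ℝ) ^ 2 ≤ 4 / 3 * u k * (k : ℝ) ^ 2 := mul_le_mul_of_nonneg_right (hvu k) (by positivity)
        have h3 : 4 / 3 * u k * (k : ℝ) ^ 2 ≤ 4 / 3 * (l * (u k * (k : ℝ))) := by
          have : u k * (k : ℝ) * k ≤ u k * (k : ℝ) * l := mul_le_mul_of_nonneg_left hk' (mul_nonneg (hu0 k) hk0)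
          nlinarith
        linarith
      have h2 : ∑ k ∈ range (l + 1), 4 / 3 * (l * (u k * (k : ℝ))) = 4 / 3 * (l * ∑ k ∈ range (l + 1), u k * (k : ℝ)) := by
        rw [mul_sum, mul_sum]
      rw [h2] at h1
      have h3 := mul_le_mul_of_nonneg_left hS hl0
      linarith
    have hFy : y * m0 ≤ F * m0 - m1 := by
      rw [hmF, hm0, mul_sum]
      refine sum_le_sum fun k _ => ?_
      have hk0 : (0 : ℝ) ≤ k := Nat.cast_nonneg _
      have : (D : ℝ) - n + k = y + k := by rw [hy, hF]; ring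
      rw [this]
      nlinarith [hv0 k, mul_nonneg (hv0 k) hk0]
    have hnum : F * (2 * l * α) ≤ y := by
      rw [hα]
      have e1 : F * (2 * l * ((q : ℝ) * l / (((p : ℝ) - l + 1) * (y + 1)))) =
          (2 * (l : ℝ) ^ 2 * (F * q)) / (((p : ℝ) - l + 1) * (y + 1)) := by ring
      rw [e1, div_le_iff₀ (mul_pos hP1 hY1)]
      have h1 : (F - l) ^ 2 / 4 ≤ y * (y + 1) := by nlinarith
      have h2 : 2 * (l : ℝ) ^ 2 * (F * q) ≤ 2 * (l : ℝ) ^ 2 * (F - l) ^ 2 := mul_le_mul_of_nonneg_left hFF (by positivity)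
      have h3 : 8 * (l : ℝ) ^ 2 * ((F - l) ^ 2 / 4) ≤ ((p : ℝ) - l + 1) * (y * (y + 1)) :=
        mul_le_mul hP0 h1 (by positivity) hP1.le
      nlinarith
    calc F * (m0 * m2 - m1 ^ 2) ≤ F * (m0 * (4 / 3 * (l * (α * (3 / 2 * m1))))) :=
          mul_le_mul_of_nonneg_left (hvar.trans (mul_le_mul_of_nonneg_left hK2b hm00)) hF0.le
      _ = m1 * (F * (2 * l * α) * m0) := by ring
      _ ≤ m1 * (y * m0) := mul_le_mul_of_nonneg_left (mul_le_mul_of_nonneg_right hnum hm00) hm10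
      _ ≤ m1 * (F * m0 - m1) := mul_le_mul_of_nonneg_left hFy hm10
  · -- right half
    obtain ⟨x, hx⟩ : ∃ x : ℝ, x = (n : ℝ) + 2 - l := ⟨_, rfl⟩
    have hxl : (F - l) / 2 ≤ x := by rw [hx]; linarith
    have hx0 : 0 < x := by rw [hx]; linarith
    have hQ1 : (0 : ℝ) < (q : ℝ) - l + 1 := by linarith
    obtain ⟨α, hα⟩ : ∃ α : ℝ, α = (l : ℝ) * p / (((q : ℝ) - l + 1) * x) := ⟨_, rfl⟩
    have hα0 : 0 ≤ α := by rw [hα]; positivity
    have hterm : ∀ k, k + 1 ≤ l → u k * ((l : ℝ) - k) ≤ α * (u (k + 1) * ((D : ℝ) - n + (k + 1 : ℕ))) := by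
      intro k hk
      have hk' : (k : ℝ) + 1 ≤ l := by exact_mod_cast hk
      have hk0 : (0 : ℝ) ≤ k := Nat.cast_nonneg _
      rw [hα, div_mul_eq_mul_div, le_div_iff₀ (mul_pos hQ1 hx0)]
      have h1 := hstar k hk
      have hYk : (D : ℝ) + 1 - n + k = (D : ℝ) - n + (k + 1 : ℕ) := by push_cast; ring
      rw [hYk] at h1
      have h2 : ((q : ℝ) - l + 1) * x ≤ ((q : ℝ) - k) * ((n : ℝ) + 2 - k) := by
        rw [hx] at hx0 ⊢
        exact mul_le_mul (by linarith) (by linarith) hx0.le (by linarith)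
      have h3 : ((k : ℝ) + 1) * ((p : ℝ) - l + k + 1) ≤ l * p :=
        mul_le_mul hk' (by linarith) (by linarith) hl0
      calc u k * ((l : ℝ) - k) * (((q : ℝ) - l + 1) * x)
          ≤ u k * ((l : ℝ) - k) * (((q : ℝ) - k) * ((n : ℝ) + 2 - k)) :=
            mul_le_mul_of_nonneg_left h2 (mul_nonneg (hu0 _) (by linarith))
        _ = u k * (((q : ℝ) - k) * ((l : ℝ) - k) * ((n : ℝ) + 2 - k)) := by ring
        _ = u (k + 1) * (((k : ℝ) + 1) * ((p : ℝ) - l + k + 1) * ((D : ℝ) - n + (k + 1 : ℕ))) := h1.symm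
        _ = ((k : ℝ) + 1) * ((p : ℝ) - l + k + 1) * (u (k + 1) * ((D : ℝ) - n + (k + 1 : ℕ))) := by ring
        _ ≤ l * p * (u (k + 1) * ((D : ℝ) - n + (k + 1 : ℕ))) := mul_le_mul_of_nonneg_right h3 (huF (k + 1))
    obtain ⟨K1, hK1⟩ : ∃ x, x = ∑ k ∈ range (l + 1), v k * ((l : ℝ) - k) := ⟨_, rfl⟩
    obtain ⟨K2, hK2⟩ : ∃ x, x = ∑ k ∈ range (l + 1), v k * ((l : ℝ) - k) ^ 2 := ⟨_, rfl⟩
    have hid1 : m1 = x * m0 + K1 := by
      rw [hm1, hm0, hK1, mul_sum, ← sum_add_distrib, hx]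
      refine sum_congr rfl fun k _ => ?_
      ring
    have hid2 : m2 = x ^ 2 * m0 + 2 * x * K1 + K2 := by
      rw [hm2, hm0, hK1, hK2, mul_sum, mul_sum, ← sum_add_distrib, ← sum_add_distrib, hx]
      refine sum_congr rfl fun k _ => ?_
      ring
    have hvar : m0 * m2 - m1 ^ 2 ≤ m0 * K2 := by
      rw [hid1, hid2]
      nlinarith [sq_nonneg K1]
    have hS : ∑ k ∈ range (l + 1), u k * ((l : ℝ) - k) ≤ α * (3 / 2 * (F * m0 - m1)) := by
      have h1 : ∑ k ∈ range (l + 1), u k * ((l : ℝ) - k) = ∑ k ∈ range l, u k * ((l : ℝ) - k) := by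
        rw [sum_range_succ]
        ring
      have h2 : ∑ k ∈ range l, u k * ((l : ℝ) - k) ≤
          ∑ k ∈ range l, α * (u (k + 1) * ((D : ℝ) - n + (k + 1 : ℕ))) :=
        sum_le_sum fun k hk => hterm k (by have := mem_range.mp hk; omega)
      have h3 : ∑ k ∈ range l, α * (u (k + 1) * ((D : ℝ) - n + (k + 1 : ℕ))) ≤
          ∑ k ∈ range (l + 1), α * (u k * ((D : ℝ) - n + k)) := by
        rw [sum_range_succ' (fun k => α * (u k * ((D : ℝ) - n + k)))]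
        have := mul_nonneg hα0 (huF 0)
        linarith
      have h4 : ∑ k ∈ range (l + 1), α * (u k * ((D : ℝ) - n + k)) ≤
          ∑ k ∈ range (l + 1), α * (3 / 2 * (v k * ((D : ℝ) - n + k))) :=
        sum_le_sum fun k _ => mul_le_mul_of_nonneg_left (huFv k) hα0
      have h5 : ∑ k ∈ range (l + 1), α * (3 / 2 * (v k * ((D : ℝ) - n + k))) = α * (3 / 2 * (F * m0 - m1)) := by
        rw [hmF, mul_sum, mul_sum]
      linarith
    have hK2b : K2 ≤ 4 / 3 * (l * (α * (3 / 2 * (F * m0 - m1)))) := by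
      have h1 : K2 ≤ ∑ k ∈ range (l + 1), 4 / 3 * (l * (u k * ((l : ℝ) - k))) := by
        rw [hK2]
        refine sum_le_sum fun k hk => ?_
        have hk' : (k : ℝ) ≤ l := by exact_mod_cast (show k ≤ l by have := mem_range.mp hk; omega)
        have hk0 : (0 : ℝ) ≤ k := Nat.cast_nonneg _
        have h2 : v k * ((l : ℝ) - k) ^ 2 ≤ 4 / 3 * u k * ((l : ℝ) - k) ^ 2 :=
          mul_le_mul_of_nonneg_right (hvu k) (by positivity)
        have h3 : 4 / 3 * u k * ((l : ℝ) - k) ^ 2 ≤ 4 / 3 * (l * (u k * ((l : ℝ) - k))) := by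
          have : u k * ((l : ℝ) - k) * ((l : ℝ) - k) ≤ u k * ((l : ℝ) - k) * l :=
            mul_le_mul_of_nonneg_left (by linarith) (mul_nonneg (hu0 k) (by linarith))
          nlinarith
        linarith
      have h2 : ∑ k ∈ range (l + 1), 4 / 3 * (l * (u k * ((l : ℝ) - k))) =
          4 / 3 * (l * ∑ k ∈ range (l + 1), u k * ((l : ℝ) - k)) := by
        rw [mul_sum, mul_sum]
      rw [h2] at h1
      have h3 := mul_le_mul_of_nonneg_left hS hl0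
      linarith
    have hxm : x * m0 ≤ m1 := by
      have hK10 : 0 ≤ K1 := by
        rw [hK1]
        refine sum_nonneg fun k hk => ?_
        have hk' : (k : ℝ) ≤ l := by exact_mod_cast (show k ≤ l by have := mem_range.mp hk; omega)
        exact mul_nonneg (hv0 k) (by linarith)
      linarith
    have hnum : F * (2 * l * α) ≤ x := by
      rw [hα]
      have e1 : F * (2 * l * ((l : ℝ) * p / (((q : ℝ) - l + 1) * x))) =
          (2 * (l : ℝ) ^ 2 * (F * p)) / (((q : ℝ) - l + 1) * x) := by ring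
      rw [e1, div_le_iff₀ (mul_pos hQ1 hx0)]
      have h1 : (F - l) ^ 2 / 4 ≤ x * x := by nlinarith
      have h2 : 2 * (l : ℝ) ^ 2 * (F * p) ≤ 2 * (l : ℝ) ^ 2 * (F - l) ^ 2 := by
        refine mul_le_mul_of_nonneg_left ?_ (by positivity)
        have : F * p ≤ F * q := mul_le_mul_of_nonneg_left hpq' hF0.le
        linarith
      have h3 : 8 * (l : ℝ) ^ 2 * ((F - l) ^ 2 / 4) ≤ ((q : ℝ) - l + 1) * (x * x) :=
        mul_le_mul (by linarith) h1 (by positivity) hQ1.le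
      nlinarith
    calc F * (m0 * m2 - m1 ^ 2) ≤ F * (m0 * (4 / 3 * (l * (α * (3 / 2 * (F * m0 - m1)))))) :=
          mul_le_mul_of_nonneg_left (hvar.trans (mul_le_mul_of_nonneg_left hK2b hm00)) hF0.le
      _ = (F * (2 * l * α) * m0) * (F * m0 - m1) := by ring
      _ ≤ (x * m0) * (F * m0 - m1) := mul_le_mul_of_nonneg_right (mul_le_mul_of_nonneg_right hnum hm00) hmF0
      _ ≤ m1 * (F * m0 - m1) := mul_le_mul_of_nonneg_right hxm hmF0

end H79W
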