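import Pool.Agent.Lib.H46M.Y
import Pool.Agent.Lib.H79W.F10

/-!
# H79W, file G: the deep diagonal lines of every Markov polynomial
-/

set_option autoImplicit false

namespace H79W

open MvPolynomial H46M

/-- The range of the depth. -/
def cond (l p : ℕ) : Prop := 8 * l ^ 2 + l ≤ p + 1

theorem cond_mono {l' l p : ℕ} (h : l' ≤ l) (hc : cond l p) : cond l' p := by
  unfold cond at *
  have h1 : 8 * l' ^ 2 ≤ 8 * l ^ 2 := by gcongr
  omega

theorem W_symm {N : MvPolynomial (Fin 3) ℤ} {u v : Fin 3} {f : Fin 3 →₀ ℕ} (h : W N u v f) : W N v u f := by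
  unfold W at *
  rw [mul_comm, add_right_comm]
  exact h

theorem mt_deep {p q r s : ℕ} {P Q N : MvPolynomial (Fin 3) ℤ} (hT : MT p q r s P Q N) (f : Fin 3 →₀ ℕ)
    (hf : cond (f 2) (p + r)) : W N 0 1 f := by
  obtain ⟨_, _, _, _, hH⟩ := MT_hom hT
  obtain ⟨hdet, hab, hcd, _⟩ := PT_inv (MT_PT hT)
  obtain ⟨e, he⟩ : ∃ e, e = p + r + (q + s) - 1 := ⟨_, rfl⟩
  rw [← he] at hH
  by_cases hd : f 0 + f 1 + f 2 + 2 = e
  · rw [W, mon_eq f]
    have hLC := row_deep (MT_PT hT) (by omega) (l := f 2) hf (f 0)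
    generalize f 0 = i at *
    generalize f 1 = j at *
    generalize f 2 = l at *
    simp +decide only [mon_add, if_true, if_false, add_zero]
    rw [sB_coeff N hH i l (by omega), sB_coeff N hH (i + 2) l (by omega), sB_coeff N hH (i + 1) l (by omega)] at hLC
    rw [show e - i - l = j + 2 by omega, show e - (i + 2) - l = j by omega,
      show e - (i + 1) - l = j + 1 by omega] at hLC
    rw [mul_comm (N.coeff (mon (i + 2) j l))]
    exact hLC
  · have h1 : N.coeff (f + Finsupp.single 0 2) = 0 := by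
      by_contra h0
      apply hd
      have := deg_eq hH h0
      rw [← this, map_add, Finsupp.degree_single, Finsupp.degree_eq_sum, Fin.sum_univ_three]
    rw [W, h1, zero_mul]
    exact sq_nonneg _

/-- The property of the node `(p, q)`. -/
def DD (p q : ℕ) (N : MvPolynomial (Fin 3) ℤ) : Prop := ∀ f : Fin 3 →₀ ℕ, cond (f 2) (min p q) → W N 0 1 f

theorem third_deep {p q r s : ℕ} {P Q N : MvPolynomial (Fin 3) ℤ}
    (h : Tri (X 0 : MvPolynomial (Fin 3) ℤ) (X 1) (X 2) p q r s P Q N) : DD (p + r) (q + s) N := by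
  have lt : ∀ {p q r s : ℕ} {P Q N : MvPolynomial (Fin 3) ℤ}, MT p q r s P Q N → p + r ≤ q + s := by
    intro p q r s P Q N h
    obtain ⟨hdet, hab, hcd, _⟩ := PT_inv (MT_PT h)
    omega
  intro f hf
  rcases h.cls with ⟨rfl, rfl, rfl, rfl, rfl, rfl, rfl⟩ | h | h
  · have : (X 0 + X 1 : MvPolynomial (Fin 3) ℤ).IsHomogeneous 1 :=
      (isHomogeneous_X _ 0).add (isHomogeneous_X _ 1)
    exact W_small this le_rfl _ _ _
  · rw [min_eq_left (lt h)] at hf
    exact mt_deep h f hf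
  · have h1 := lt h
    rw [min_eq_right (by omega)] at hf
    have e : (f.mapDomain (Equiv.swap (0 : Fin 3) 1)) 2 = f 2 := by
      have := Finsupp.mapDomain_apply (Equiv.swap (0 : Fin 3) 1).injective f 2
      rw [Equiv.swap_apply_of_ne_of_ne (by decide) (by decide)] at this
      exact this
    have h2 := mt_deep h (f.mapDomain (Equiv.swap (0 : Fin 3) 1)) (by
      rw [e, add_comm s q]; exact hf)
    exact W_symm ((W_rename (Equiv.swap (0 : Fin 3) 1) N 1 0 f).mp h2)

theorem tri_deep {p q r s : ℕ} {P Q N : MvPolynomial (Fin 3) ℤ}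
    (h : Tri (X 0 : MvPolynomial (Fin 3) ℤ) (X 1) (X 2) p q r s P Q N) : DD p q P ∧ DD r s Q := by
  induction h with
  | base =>
    have : (1 : MvPolynomial (Fin 3) ℤ).IsHomogeneous 0 := isHomogeneous_one _ _
    exact ⟨fun _ _ => W_small this (by omega) _ _ _, fun _ _ => W_small this (by omega) _ _ _⟩
  | left h ih => exact ⟨ih.1, third_deep h⟩
  | right h ih => exact ⟨third_deep h, ih.2⟩

theorem W2_num (σ : Equiv.Perm (Fin 3)) {N : MvPolynomial (Fin 3) ℤ} (u v w : Fin 3) (n : ℕ)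
    (hW : ∀ f : Fin 3 →₀ ℕ, f w ≤ n → W N u v f) (f : Fin 3 →₀ ℕ) (hf : f (σ w) ≤ 2 * n + 1) :
    W2 (num σ N) (σ u) (σ v) f := by
  obtain ⟨g, rfl⟩ : ∃ g : Fin 3 →₀ ℕ, f = g.mapDomain σ := by
    refine ⟨f.mapDomain σ.symm, ?_⟩
    rw [← Finsupp.mapDomain_comp]
    simp
  rw [Finsupp.mapDomain_apply σ.injective] at hf
  rw [num, W2_rename]
  exact W2_expand hW g hf

/-- What is proved about a Markov polynomial. -/
def ResD (N : MvPolynomial (Fin 3) ℤ) (α : Fin 3 → ℤ) : Prop :=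
  ∀ i j k : Fin 3, i ≠ j → j ≠ k → i ≠ k → α i ≤ α j → α j ≤ α k → ∀ l : ℕ,
    8 * (l : ℤ) ^ 2 + l ≤ α i + 2 → ∀ f : Fin 3 →₀ ℕ, f k ≤ 2 * l + 1 → W2 N i j f

theorem W2_one (u v : Fin 3) (f : Fin 3 →₀ ℕ) : W2 1 u v f := by
  have h1 : (1 : MvPolynomial (Fin 3) ℤ).coeff (f + Finsupp.single u 4) = 0 := by
    rw [MvPolynomial.coeff_one, if_neg]
    intro h
    have := DFunLike.congr_fun h u
    simp at this
  rw [W2, h1, zero_mul]
  exact sq_nonneg _

theorem resD_val (σ : Equiv.Perm (Fin 3)) (p q : ℕ) {P : MvPolynomial (Fin 3) ℤ} (hD : DD p q P)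
    (hL : p = 0 ∨ q = 0 → P = 1) :
    ResD (num σ P) (fun t => ![(p : ℤ) - 1, (q : ℤ) - 1, (p : ℤ) + q - 1] (σ.symm t)) := by
  intro i j k hij hjk hik h1 h2 l hl f hf
  obtain ⟨i, rfl⟩ := σ.surjective i
  obtain ⟨j, rfl⟩ := σ.surjective j
  obtain ⟨k, rfl⟩ := σ.surjective k
  simp only [Equiv.symm_apply_apply] at h1 h2 hl
  by_cases h0 : p = 0 ∨ q = 0
  · rw [hL h0]
    exact W2_num σ i j k l (fun g _ => W_small (isHomogeneous_one _ _) (by omega) _ _ _) f hf
  · have hij' : i ≠ j := fun e => hij (by rw [e])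
    have hjk' : j ≠ k := fun e => hjk (by rw [e])
    have hik' : i ≠ k := fun e => hik (by rw [e])
    have c1 : 8 * (l : ℤ) ^ 2 + l ≤ (p : ℤ) - 1 + 2 → cond l p := by
      intro h
      have : ((8 * l ^ 2 + l : ℕ) : ℤ) ≤ ((p + 1 : ℕ) : ℤ) := by push_cast; linarith
      exact_mod_cast this
    have c2 : 8 * (l : ℤ) ^ 2 + l ≤ (q : ℤ) - 1 + 2 → cond l q := by
      intro h
      have : ((8 * l ^ 2 + l : ℕ) : ℤ) ≤ ((q + 1 : ℕ) : ℤ) := by push_cast; linarith
      exact_mod_cast this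
    fin_cases i <;> fin_cases j <;> fin_cases k <;> first
      | exact absurd rfl hij'
      | exact absurd rfl hjk'
      | exact absurd rfl hik'
      | (refine W2_num σ 0 1 2 l (fun g hg => hD g ?_) f hf
         have hpq : p ≤ q := by simp at h1; omega
         rw [min_eq_left hpq]
         exact cond_mono hg (c1 hl))
      | (refine W2_num σ 1 0 2 l (fun g hg => W_symm (hD g ?_)) f hf
         have hpq : q ≤ p := by simp at h1; omega
         rw [min_eq_right hpq]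
         exact cond_mono hg (c2 hl))
      | (exfalso; simp at h1 h2; omega)

theorem can_deep {A B C : K} (h : Can A B C) : ∀ M ∈ ({A, B, C} : Multiset K),
    ∃ N α, Reduced M N α ∧ ResD N α := by
  intro M hM
  simp only [Multiset.insert_eq_cons, Multiset.mem_cons, Multiset.mem_singleton] at hM
  cases h with
  | init σ =>
    rcases hM with rfl | rfl | rfl
    all_goals exact ⟨1, _, reduced_x _, fun i j k _ _ _ _ _ _ _ _ _ => W2_one _ _ _⟩
  | @tree σ p q r s P Q N h =>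
    obtain ⟨g1, g2, g3⟩ := h.good
    rcases hM with rfl | rfl | rfl
    · exact ⟨_, _, reduced_val σ _ _ g1, resD_val σ _ _ (tri_deep h).1 h.nl.1.2.2⟩
    · exact ⟨_, _, reduced_val σ _ _ g2, resD_val σ _ _ (tri_deep h).2 h.nl.2.2.2⟩
    · exact ⟨_, _, reduced_val σ _ _ g3, resD_val σ _ _ (third_deep h) (third h).2.2⟩

theorem deep {A B C : K} (h : MarkovTriple A B C) :
    (∃! p : MvPolynomial (Fin 3) ℤ × (Fin 3 → ℤ), Reduced A p.1 p.2) ∧
      ∀ N α, Reduced A N α → ResD N α := by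
  refine ⟨(full h).1, ?_⟩
  obtain ⟨A', B', C', h1, h2⟩ := cls_of_markov h
  obtain ⟨N, α, h3, h4⟩ := can_deep h1 A (by rw [← h2]; simp)
  intro N' α' h5
  obtain ⟨rfl, rfl⟩ := h5.unique h3
  exact h4

end H79W
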