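import Pool.Agent.Lib.H79W.LC3

/-!
# H79W, file H: the first three rows in the direction of `B` (horizontal lines), at `C = 1`
-/

set_option autoImplicit false

namespace H79W

open Polynomial

/-- The numerators at `C = 1`, outer variable `B`, inner variable `A`. -/
inductive HT : ℕ → ℕ → ℕ → ℕ → ℤ[X][X] → ℤ[X][X] → ℤ[X][X] → Prop
  | base : HT 0 1 1 1 1 (C X + X) ((C X + X) ^ 2 + C X)
  | left {a b c d : ℕ} {P Q R : ℤ[X][X]} : HT a b c d P Q R →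
      HT a b (a + c) (b + d) P R ((C sA + X) * (P * R) - C (X ^ a) * (X ^ b * Q))
  | right {a b c d : ℕ} {P Q R : ℤ[X][X]} : HT a b c d P Q R →
      HT (a + c) (b + d) c d R Q ((C sA + X) * (R * Q) - C (X ^ c) * (X ^ d * P))

noncomputable def LH (p q : ℕ) : ℤ[X] := ((p : ℤ[X]) + (q : ℤ[X]) - 1) * X + (3 * (p : ℤ[X]) - 1)

noncomputable def QA (p q : ℕ) : ℤ[X] :=
  ((p : ℤ[X]) + (q : ℤ[X]) - 1) * ((p : ℤ[X]) + (q : ℤ[X]) - 2) * X ^ 3 +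
    (6 * (p : ℤ[X]) * (q : ℤ[X]) + 6 * (p : ℤ[X]) ^ 2 - 16 * (p : ℤ[X]) + 4) * X ^ 2 +
    (9 * (p : ℤ[X]) ^ 2 - 5 * (p : ℤ[X]) + 2) * X

noncomputable def QB (p q : ℕ) : ℤ[X] := QA p q + 8 * (2 * (p : ℤ[X]) - (q : ℤ[X]))

def HR1 (p q : ℕ) (N : ℤ[X][X]) : Prop :=
  sA * N.coeff 0 = X ^ p * sA ^ q ∧ sA ^ 3 * N.coeff 1 = X ^ p * sA ^ q * LH p q

def HR2 (K : ℤ[X]) (p q : ℕ) (N : ℤ[X][X]) : Prop :=
  X * (sA ^ 5 * (2 * N.coeff 2)) = X ^ p * sA ^ q * K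

theorem h_step1 {p q p' q' : ℕ} {P R T : ℤ[X][X]} (hP : HR1 p q P) (hR : HR1 p' q' R)
    (h0 : T.coeff 0 = 0) (h1 : T.coeff 1 = 0) :
    HR1 (p + p') (q + q') ((C sA + X) * (P * R) - T) := by
  obtain ⟨hP0, hP1⟩ := hP
  obtain ⟨hR0, hR1⟩ := hR
  have e0 : ((C sA + X) * (P * R) - T).coeff 0 = sA * (P.coeff 0 * R.coeff 0) := by
    rw [coeff_sub, h0, st_coeff_zero, mul_coeff_zero, sub_zero]
  have e1 : ((C sA + X) * (P * R) - T).coeff 1 =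
      sA * (P.coeff 0 * R.coeff 1 + P.coeff 1 * R.coeff 0) + P.coeff 0 * R.coeff 0 := by
    rw [coeff_sub, h1, st_coeff_succ, mul_coeff_one, mul_coeff_zero, sub_zero]
  constructor
  · rw [e0]
    calc sA * (sA * (P.coeff 0 * R.coeff 0)) = (sA * P.coeff 0) * (sA * R.coeff 0) := by ring
      _ = _ := by rw [hP0, hR0]; ring
  · rw [e1]
    calc sA ^ 3 * (sA * (P.coeff 0 * R.coeff 1 + P.coeff 1 * R.coeff 0) + P.coeff 0 * R.coeff 0)
        = (sA * P.coeff 0) * (sA ^ 3 * R.coeff 1) + (sA ^ 3 * P.coeff 1) * (sA * R.coeff 0) +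
          sA * ((sA * P.coeff 0) * (sA * R.coeff 0)) := by ring
      _ = _ := by
        rw [hP0, hR0, hP1, hR1]
        unfold LH sA
        push_cast
        ring

theorem h_step2 {p q p' q' : ℕ} {P R T : ℤ[X][X]} {KP KR : ℤ[X]} (hP : HR1 p q P) (hP2 : HR2 KP p q P)
    (hR : HR1 p' q' R) (hR2 : HR2 KR p' q' R) :
    X * (sA ^ 5 * (2 * ((C sA + X) * (P * R) - T).coeff 2)) = X ^ (p + p') * sA ^ (q + q') *
      (KR + KP + 2 * X * (LH p q * LH p' q') + 2 * X * sA * (LH p q + LH p' q')) -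
      X * (sA ^ 5 * (2 * T.coeff 2)) := by
  obtain ⟨hP0, hP1⟩ := hP
  obtain ⟨hR0, hR1⟩ := hR
  unfold HR2 at hP2 hR2
  have e2 : ((C sA + X) * (P * R) - T).coeff 2 =
      sA * (P.coeff 0 * R.coeff 2 + P.coeff 1 * R.coeff 1 + P.coeff 2 * R.coeff 0) +
        (P.coeff 0 * R.coeff 1 + P.coeff 1 * R.coeff 0) - T.coeff 2 := by
    rw [coeff_sub, st_coeff_succ, mul_coeff_one, coeff_mul_two]
  rw [e2]
  calc X * (sA ^ 5 * (2 * (sA * (P.coeff 0 * R.coeff 2 + P.coeff 1 * R.coeff 1 + P.coeff 2 * R.coeff 0) +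
        (P.coeff 0 * R.coeff 1 + P.coeff 1 * R.coeff 0) - T.coeff 2)))
      = (sA * P.coeff 0) * (X * (sA ^ 5 * (2 * R.coeff 2))) +
        2 * X * ((sA ^ 3 * P.coeff 1) * (sA ^ 3 * R.coeff 1)) +
        (X * (sA ^ 5 * (2 * P.coeff 2))) * (sA * R.coeff 0) +
        2 * X * sA * ((sA * P.coeff 0) * (sA ^ 3 * R.coeff 1) + (sA ^ 3 * P.coeff 1) * (sA * R.coeff 0)) -
        X * (sA ^ 5 * (2 * T.coeff 2)) := by
        ring
    _ = _ := by
      rw [hP0, hR0, hP1, hR1, hP2, hR2]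
      ring

theorem QA_add (p q p' q' : ℕ) : QA (p + p') (q + q') =
    QA p' q' + QA p q + 2 * X * (LH p q * LH p' q') + 2 * X * sA * (LH p q + LH p' q') := by
  unfold QA LH sA
  push_cast
  ring

theorem QB_add (p q p' q' : ℕ) : QB (p + p') (q + q') =
    QB p' q' + QB p q + 2 * X * (LH p q * LH p' q') + 2 * X * sA * (LH p q + LH p' q') := by
  unfold QB
  rw [QA_add]
  push_cast
  ring

/-- Labels `1/1` and `1/2`. -/
noncomputable def N11 : ℤ[X][X] := C X + X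
noncomputable def N12 : ℤ[X][X] := (C X + X) ^ 2 + C X

theorem N11_eq : N11.coeff 0 = X ∧ N11.coeff 1 = 1 ∧ N11.coeff 2 = 0 := by
  unfold N11
  refine ⟨?_, ?_, ?_⟩
  · rw [coeff_add, coeff_C_zero, coeff_X_zero, add_zero]
  · rw [coeff_add, coeff_C_of_ne_zero (by norm_num), coeff_X_one, zero_add]
  · rw [coeff_add, coeff_C_of_ne_zero (by norm_num), coeff_X, if_neg (by norm_num), add_zero]

theorem N12_eq : N12.coeff 0 = X ^ 2 + X ∧ N12.coeff 1 = 2 * X ∧ N12.coeff 2 = 1 := by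
  have e : N12 = C (X ^ 2 + X) + C (2 * X) * X + C 1 * X ^ 2 := by
    unfold N12
    simp only [map_one, map_add, map_mul, map_ofNat, map_pow]
    ring
  rw [e]
  refine ⟨?_, ?_, ?_⟩
  · rw [coeff_add, coeff_add, coeff_C_zero, coeff_C_mul, coeff_C_mul, coeff_X_zero, coeff_X_pow,
      if_neg (by norm_num)]
    ring
  · rw [coeff_add, coeff_add, coeff_C_of_ne_zero (by norm_num), coeff_C_mul, coeff_C_mul, coeff_X_one, coeff_X_pow,
      if_neg (by norm_num)]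
    ring
  · rw [coeff_add, coeff_add, coeff_C_of_ne_zero (by norm_num), coeff_C_mul, coeff_C_mul, coeff_X, coeff_X_pow,
      if_neg (by norm_num), if_pos rfl]
    ring

theorem N12_HR1 : HR1 1 2 N12 := by
  obtain ⟨h0, h1, _⟩ := N12_eq
  constructor
  · rw [h0]; unfold sA; ring
  · rw [h1]; unfold LH sA; push_cast; ring

theorem N12_HR2 : HR2 (QA 1 2 + 2) 1 2 N12 := by
  obtain ⟨_, _, h2⟩ := N12_eq
  unfold HR2
  rw [h2]
  unfold QA sA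
  push_cast
  ring

theorem N12_HR2' : HR2 (QB 1 2 + 2) 1 2 N12 := by
  obtain ⟨_, _, h2⟩ := N12_eq
  unfold HR2
  rw [h2]
  unfold QB QA sA
  push_cast
  ring

theorem tb0 (a k : ℕ) (Q : ℤ[X][X]) (h : 1 ≤ k) : (C ((X : ℤ[X]) ^ a) * (X ^ k * Q)).coeff 0 = 0 :=
  sub_coeff _ _ _ _ (by omega)

/-- Left step, left end `0/1`. -/
theorem h_left_zero {d : ℕ} {Q R : ℤ[X][X]} (hQ : sA * Q.coeff 0 = X ^ 1 * sA ^ d) (hR : HR1 1 (d + 1) R) :
    HR1 1 (d + 2) ((C sA + X) * (1 * R) - C (X ^ 0) * (X ^ 1 * Q)) := by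
  obtain ⟨hR0, hR1⟩ := hR
  rw [one_mul]
  have e0 : ((C sA + X) * R - C (X ^ 0) * (X ^ 1 * Q)).coeff 0 = sA * R.coeff 0 := by
    rw [coeff_sub, sub_coeff _ _ _ _ (by norm_num), st_coeff_zero, sub_zero]
  have e1 : ((C sA + X) * R - C (X ^ 0) * (X ^ 1 * Q)).coeff 1 =
      sA * R.coeff 1 + R.coeff 0 - Q.coeff 0 := by
    rw [coeff_sub, sub_coeff' _ _ _ _ (by norm_num), st_coeff_succ]
    simp
  constructor
  · rw [e0, hR0]; ring
  · rw [e1]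
    calc sA ^ 3 * (sA * R.coeff 1 + R.coeff 0 - Q.coeff 0)
        = sA * (sA ^ 3 * R.coeff 1) + sA ^ 2 * (sA * R.coeff 0) - sA ^ 2 * (sA * Q.coeff 0) := by ring
      _ = _ := by
        rw [hR0, hR1, hQ]
        unfold LH sA
        push_cast
        ring

theorem h_left_zero2 {d : ℕ} {Q R : ℤ[X][X]} (hQ : HR1 1 (d + 2) Q) (hR : HR1 1 (d + 3) R)
    (hR2 : HR2 (QA 1 (d + 3)) 1 (d + 3) R) :
    HR2 (QA 1 (d + 4)) 1 (d + 4) ((C sA + X) * (1 * R) - C (X ^ 0) * (X ^ 1 * Q)) := by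
  obtain ⟨_, hQ1⟩ := hQ
  obtain ⟨_, hR1⟩ := hR
  unfold HR2 at hR2 ⊢
  rw [one_mul]
  have e2 : ((C sA + X) * R - C (X ^ 0) * (X ^ 1 * Q)).coeff 2 =
      sA * R.coeff 2 + R.coeff 1 - Q.coeff 1 := by
    rw [coeff_sub, sub_coeff' _ _ _ _ (by norm_num), st_coeff_succ]
    simp
  rw [e2]
  calc X * (sA ^ 5 * (2 * (sA * R.coeff 2 + R.coeff 1 - Q.coeff 1)))
      = sA * (X * (sA ^ 5 * (2 * R.coeff 2))) + 2 * X * sA ^ 2 * (sA ^ 3 * R.coeff 1) -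
        2 * X * sA ^ 2 * (sA ^ 3 * Q.coeff 1) := by ring
    _ = _ := by
      rw [hR2, hR1, hQ1]
      unfold QA LH sA
      push_cast
      ring

/-- Right step, right end `1/1`. -/
theorem h_right_one {a : ℕ} {P R : ℤ[X][X]} (hP : sA * P.coeff 0 = X ^ a * sA ^ (a + 1))
    (hR : HR1 (a + 1) (a + 2) R) :
    HR1 (a + 2) (a + 3) ((C sA + X) * (R * N11) - C (X ^ 1) * (X ^ 1 * P)) := by
  obtain ⟨hR0, hR1⟩ := hR
  obtain ⟨n0, n1, n2⟩ := N11_eq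
  have e0 : ((C sA + X) * (R * N11) - C (X ^ 1) * (X ^ 1 * P)).coeff 0 = sA * (R.coeff 0 * X) := by
    rw [coeff_sub, sub_coeff _ _ _ _ (by norm_num), st_coeff_zero, mul_coeff_zero, n0, sub_zero]
  have e1 : ((C sA + X) * (R * N11) - C (X ^ 1) * (X ^ 1 * P)).coeff 1 =
      sA * (R.coeff 0 + R.coeff 1 * X) + R.coeff 0 * X - X * P.coeff 0 := by
    rw [coeff_sub, sub_coeff' _ _ _ _ (by norm_num), st_coeff_succ, mul_coeff_one, mul_coeff_zero, n0, n1]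
    simp
  constructor
  · rw [e0]
    calc sA * (sA * (R.coeff 0 * X)) = sA * X * (sA * R.coeff 0) := by ring
      _ = _ := by rw [hR0]; ring
  · rw [e1]
    calc sA ^ 3 * (sA * (R.coeff 0 + R.coeff 1 * X) + R.coeff 0 * X - X * P.coeff 0)
        = sA ^ 3 * (sA * R.coeff 0) + sA * X * (sA ^ 3 * R.coeff 1) + sA ^ 2 * X * (sA * R.coeff 0) -
          sA ^ 2 * X * (sA * P.coeff 0) := by ring
      _ = _ := by
        rw [hR0, hR1, hP]
        unfold LH sA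
        push_cast
        ring

theorem h_right_one2 {a : ℕ} {P R : ℤ[X][X]} (hP : HR1 (a + 1) (a + 2) P)
    (hR : HR1 (a + 2) (a + 3) R) (hR2 : HR2 (QB (a + 2) (a + 3)) (a + 2) (a + 3) R) :
    HR2 (QB (a + 3) (a + 4)) (a + 3) (a + 4) ((C sA + X) * (R * N11) - C (X ^ 1) * (X ^ 1 * P)) := by
  obtain ⟨_, hP1⟩ := hP
  obtain ⟨hR0, hR1⟩ := hR
  obtain ⟨n0, n1, n2⟩ := N11_eq
  unfold HR2 at hR2 ⊢
  have e2 : ((C sA + X) * (R * N11) - C (X ^ 1) * (X ^ 1 * P)).coeff 2 =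
      sA * (R.coeff 1 + R.coeff 2 * X) + (R.coeff 0 + R.coeff 1 * X) - X * P.coeff 1 := by
    rw [coeff_sub, sub_coeff' _ _ _ _ (by norm_num), st_coeff_succ, coeff_mul_two, mul_coeff_one, n0, n1, n2]
    simp
  rw [e2]
  calc X * (sA ^ 5 * (2 * (sA * (R.coeff 1 + R.coeff 2 * X) + (R.coeff 0 + R.coeff 1 * X) - X * P.coeff 1)))
      = 2 * X * sA ^ 3 * (sA ^ 3 * R.coeff 1) + sA * X * (X * (sA ^ 5 * (2 * R.coeff 2))) +
        2 * X * sA ^ 4 * (sA * R.coeff 0) + 2 * X ^ 2 * sA ^ 2 * (sA ^ 3 * R.coeff 1) -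
        2 * X ^ 2 * sA ^ 2 * (sA ^ 3 * P.coeff 1) := by ring
    _ = _ := by
      rw [hR0, hR1, hR2, hP1]
      unfold QB QA LH sA
      push_cast
      ring

end H79W
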