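import Pool.Agent.Lib.H79W.H

/-!
# H79W, file H2: the horizontal rows, by induction over the Farey tree
-/

set_option autoImplicit false

namespace H79W

open Polynomial

theorem row0_zero (P : ℤ[X][X]) (h : P = 1) : sA * P.coeff 0 = X ^ 0 * sA ^ (0 + 1) := by
  rw [h, coeff_one_zero]; ring

theorem row0_11 : sA * N11.coeff 0 = X ^ 1 * sA ^ 1 := by
  rw [N11_eq.1]; ring

theorem HT_inv1 {a b c d : ℕ} {P Q R : ℤ[X][X]} (h : HT a b c d P Q R) :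
    b * c = a * d + 1 ∧ a ≤ b ∧ c ≤ d ∧
    ((a = 0 ∧ b = 1 ∧ P = 1) ∨ (HR1 a b P ∧ 2 ≤ b ∧ 1 ≤ a)) ∧
    ((c = 1 ∧ d = 1 ∧ Q = N11) ∨ (HR1 c d Q ∧ 2 ≤ d)) ∧ HR1 (a + c) (b + d) R := by
  induction h with
  | base =>
    exact ⟨by norm_num, by norm_num, by norm_num, Or.inl ⟨rfl, rfl, rfl⟩, Or.inl ⟨rfl, rfl, rfl⟩, N12_HR1⟩
  | @left a b c d P Q R h ih =>
    obtain ⟨hdet, hab, hcd, hP, hQ, hR⟩ := ih
    have hb : 1 ≤ b := by
      rcases Nat.eq_zero_or_pos b with h0 | h0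
      · rw [h0] at hdet; omega
      · exact h0
    have hc : 1 ≤ c := by
      rcases Nat.eq_zero_or_pos c with h0 | h0
      · rw [h0] at hdet; omega
      · exact h0
    refine ⟨by nlinarith, hab, by omega, hP, Or.inr ⟨hR, by omega⟩, ?_⟩
    rcases hP with ⟨ha, hb', hP⟩ | ⟨hP, hb2, ha⟩
    · subst ha hb' hP
      have hc1 : c = 1 := by omega
      subst hc1
      have hQ0 : sA * Q.coeff 0 = X ^ 1 * sA ^ d := by
        rcases hQ with ⟨_, hd, hQ⟩ | ⟨hQ, _⟩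
        · rw [hd, hQ]; exact row0_11
        · exact hQ.1
      have e : (1 : ℕ) + d = d + 1 := by omega
      rw [zero_add, e] at hR
      have hh := h_left_zero hQ0 hR
      have e1 : 0 + (0 + 1) = 1 := rfl
      have e2 : 1 + (1 + d) = d + 2 := by omega
      rw [e1, e2]
      exact hh
    · exact h_step1 hP hR (sub_coeff _ _ _ _ (by omega)) (sub_coeff _ _ _ _ (by omega))
  | @right a b c d P Q R h ih =>
    obtain ⟨hdet, hab, hcd, hP, hQ, hR⟩ := ih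
    have hb : 1 ≤ b := by
      rcases Nat.eq_zero_or_pos b with h0 | h0
      · rw [h0] at hdet; omega
      · exact h0
    have hc : 1 ≤ c := by
      rcases Nat.eq_zero_or_pos c with h0 | h0
      · rw [h0] at hdet; omega
      · exact h0
    refine ⟨by nlinarith, by omega, hcd, Or.inr ⟨hR, by omega, by omega⟩, hQ, ?_⟩
    rcases hQ with ⟨hc', hd', hQ⟩ | ⟨hQ, h3⟩
    · subst hc' hd' hQ
      have hb1 : b = a + 1 := by omega
      subst hb1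
      have hP0 : sA * P.coeff 0 = X ^ a * sA ^ (a + 1) := by
        rcases hP with ⟨ha, _, hP⟩ | ⟨hP, _, _⟩
        · rw [ha]; exact row0_zero P hP
        · exact hP.1
      exact h_right_one hP0 hR
    · exact h_step1 hR hQ (sub_coeff _ _ _ _ (by omega)) (sub_coeff _ _ _ _ (by omega))

theorem hroot_left : HR2 (QA 1 3) 1 3 ((C sA + X) * (1 * N12) - C (X ^ 0) * (X ^ 1 * N11)) := by
  obtain ⟨n0, n1, n2⟩ := N11_eq
  obtain ⟨m0, m1, m2⟩ := N12_eq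
  unfold HR2
  rw [one_mul]
  have e : ((C sA + X) * N12 - C (X ^ 0) * (X ^ 1 * N11)).coeff 2 = 3 * X := by
    rw [coeff_sub, sub_coeff' _ _ _ _ (by norm_num), st_coeff_succ, m1, m2]
    have : (2 - 1 : ℕ) = 1 := rfl
    rw [this, n1]
    unfold sA
    ring
  rw [e]
  unfold QA sA
  push_cast
  ring

theorem hroot_right : HR2 (QB 2 3) 2 3 ((C sA + X) * (N12 * N11) - C (X ^ 1) * (X ^ 1 * 1)) := by
  obtain ⟨n0, n1, n2⟩ := N11_eq
  obtain ⟨m0, m1, m2⟩ := N12_eq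
  unfold HR2
  have e : ((C sA + X) * (N12 * N11) - C (X ^ 1) * (X ^ 1 * 1)).coeff 2 = 6 * X ^ 2 + 4 * X := by
    rw [coeff_sub, sub_coeff' _ _ _ _ (by norm_num), st_coeff_succ, coeff_mul_two, mul_coeff_one,
      m0, m1, m2, n0, n1, n2, coeff_one, if_neg (by norm_num)]
    unfold sA
    ring
  rw [e]
  unfold QB QA sA
  push_cast
  ring

theorem h_right_half {a b : ℕ} {P R : ℤ[X][X]} (hP : sA * P.coeff 0 = X ^ a * sA ^ b)
    (hR : HR1 (a + 1) (b + 2) R) (hR2 : HR2 (QA (a + 1) (b + 2)) (a + 1) (b + 2) R) :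
    HR2 (QA (a + 1 + 1) (b + 2 + 2)) (a + 1 + 1) (b + 2 + 2)
      ((C sA + X) * (R * N12) - C (X ^ 1) * (X ^ 2 * P)) := by
  have hs := h_step2 (T := C (X ^ 1) * (X ^ 2 * P)) hR hR2 N12_HR1 N12_HR2
  have hT : (C ((X : ℤ[X]) ^ 1) * (X ^ 2 * P)).coeff 2 = X * P.coeff 0 := by
    rw [sub_coeff' _ _ _ _ (by norm_num)]
    simp
  unfold HR2
  rw [hs, hT, QA_add (a + 1) (b + 2) 1 2]
  have e2 : X * (sA ^ 5 * (2 * (X * P.coeff 0))) = 2 * X ^ 2 * sA ^ 4 * (sA * P.coeff 0) := by ring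
  rw [e2, hP]
  ring

theorem h_left_half {c d : ℕ} {Q R : ℤ[X][X]} (hQ : sA * Q.coeff 0 = X ^ c * sA ^ d)
    (hR : HR1 (1 + c) (2 + d) R) (hR2 : HR2 (QB (1 + c) (2 + d)) (1 + c) (2 + d) R) :
    HR2 (QB (1 + (1 + c)) (2 + (2 + d))) (1 + (1 + c)) (2 + (2 + d))
      ((C sA + X) * (N12 * R) - C (X ^ 1) * (X ^ 2 * Q)) := by
  have hs := h_step2 (T := C (X ^ 1) * (X ^ 2 * Q)) N12_HR1 N12_HR2' hR hR2
  have hT : (C ((X : ℤ[X]) ^ 1) * (X ^ 2 * Q)).coeff 2 = X * Q.coeff 0 := by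
    rw [sub_coeff' _ _ _ _ (by norm_num)]
    simp
  unfold HR2
  rw [hs, hT, QB_add 1 2 (1 + c) (2 + d)]
  have e2 : X * (sA ^ 5 * (2 * (X * Q.coeff 0))) = 2 * X ^ 2 * sA ^ 4 * (sA * Q.coeff 0) := by ring
  rw [e2, hQ]
  ring

theorem hgenA {p q p' q' : ℕ} {P R T : ℤ[X][X]} (hP1 : HR1 p q P)
    (hP3 : HR2 (QA p q) p q P) (hR1 : HR1 p' q' R) (hR3 : HR2 (QA p' q') p' q' R)
    (hT : T.coeff 2 = 0) :
    HR2 (QA (p + p') (q + q')) (p + p') (q + q') ((C sA + X) * (P * R) - T) := by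
  have hs := h_step2 (T := T) hP1 hP3 hR1 hR3
  unfold HR2
  rw [hs, hT, QA_add p q p' q']
  ring

theorem hgenB {p q p' q' : ℕ} {P R T : ℤ[X][X]} (hP1 : HR1 p q P)
    (hP3 : HR2 (QB p q) p q P) (hR1 : HR1 p' q' R) (hR3 : HR2 (QB p' q') p' q' R)
    (hT : T.coeff 2 = 0) :
    HR2 (QB (p + p') (q + q')) (p + p') (q + q') ((C sA + X) * (P * R) - T) := by
  have hs := h_step2 (T := T) hP1 hP3 hR1 hR3
  unfold HR2
  rw [hs, hT, QB_add p q p' q']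
  ring

theorem HT_inv2 {a b c d : ℕ} {P Q R : ℤ[X][X]} (h : HT a b c d P Q R) :
    (a = 0 ∧ b = 1 ∧ c = 1 ∧ d = 1 ∧ P = 1 ∧ Q = N11 ∧ R = N12) ∨
    (2 * (a + c) < b + d ∧ 2 * a ≤ b ∧ 2 * c ≤ d ∧ HR2 (QA (a + c) (b + d)) (a + c) (b + d) R ∧
      ((a = 0 ∧ b = 1 ∧ P = 1) ∨ (HR2 (QA a b) a b P ∧ 3 ≤ b)) ∧
      ((c = 1 ∧ d = 2 ∧ Q = N12) ∨ (HR2 (QA c d) c d Q ∧ 3 ≤ d))) ∨
    (b + d < 2 * (a + c) ∧ b ≤ 2 * a ∧ d ≤ 2 * c ∧ HR2 (QB (a + c) (b + d)) (a + c) (b + d) R ∧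
      ((a = 1 ∧ b = 2 ∧ P = N12) ∨ (HR2 (QB a b) a b P ∧ 3 ≤ b)) ∧
      ((c = 1 ∧ d = 1 ∧ Q = N11) ∨ (HR2 (QB c d) c d Q ∧ 3 ≤ d))) := by
  induction h with
  | base => exact Or.inl ⟨rfl, rfl, rfl, rfl, rfl, rfl, rfl⟩
  | @left a b c d P Q R h ih =>
    obtain ⟨hdet, hab, hcd, hP, hQ, hR1⟩ := HT_inv1 h
    have hb : 1 ≤ b := by
      rcases Nat.eq_zero_or_pos b with h0 | h0
      · rw [h0] at hdet; omega
      · exact h0
    have hc : 1 ≤ c := by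
      rcases Nat.eq_zero_or_pos c with h0 | h0
      · rw [h0] at hdet; omega
      · exact h0
    rcases ih with ⟨ha, hb, hc', hd', hP', hQ', hR'⟩ | ⟨i1, i2, i3, i4, i5, i6⟩ | ⟨i1, i2, i3, i4, i5, i6⟩
    · subst ha hb hc' hd' hP' hQ' hR'
      refine Or.inr (Or.inl ⟨by norm_num, by norm_num, by norm_num, hroot_left, Or.inl ⟨rfl, rfl, rfl⟩,
        Or.inl ⟨rfl, rfl, rfl⟩⟩)
    · refine Or.inr (Or.inl ⟨by omega, i2, by omega, ?_, i5, Or.inr ⟨i4, by omega⟩⟩)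
      rcases i5 with ⟨ha, hb, hP'⟩ | ⟨hP3, h4⟩
      · subst ha hb hP'
        have hc1 : c = 1 := by omega
        subst hc1
        obtain ⟨e, rfl⟩ : ∃ e, d = e + 2 := ⟨d - 2, by omega⟩
        have hQ2 : HR1 1 (e + 2) Q := by
          rcases hQ with ⟨_, hd, _⟩ | ⟨hQ, _⟩
          · omega
          · exact hQ
        have e1 : 1 + (e + 2) = e + 3 := by omega
        rw [zero_add, e1] at hR1 i4
        have hh := h_left_zero2 hQ2 hR1 i4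
        have e2 : 0 + (0 + 1) = 1 := rfl
        have e3 : 1 + (1 + (e + 2)) = e + 4 := by omega
        rw [e2, e3]
        exact hh
      · rcases hP with ⟨ha, hb, _⟩ | ⟨hP1, hP2, _⟩
        · omega
        · exact hgenA hP1 hP3 hR1 i4 (sub_coeff _ _ _ _ (by omega))
    · refine Or.inr (Or.inr ⟨by omega, i2, by omega, ?_, i5, Or.inr ⟨i4, by omega⟩⟩)
      rcases i5 with ⟨ha, hb, hP'⟩ | ⟨hP3, h4⟩
      · subst ha hb hP'
        have hQ0 : sA * Q.coeff 0 = X ^ c * sA ^ d := by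
          rcases hQ with ⟨h1, h2, h3⟩ | ⟨h1, _⟩
          · rw [h1, h2, h3]; exact row0_11
          · exact h1.1
        exact h_left_half hQ0 hR1 i4
      · rcases hP with ⟨ha, hb, _⟩ | ⟨hP1, hP2, _⟩
        · omega
        · exact hgenB hP1 hP3 hR1 i4 (sub_coeff _ _ _ _ (by omega))
  | @right a b c d P Q R h ih =>
    obtain ⟨hdet, hab, hcd, hP, hQ, hR1⟩ := HT_inv1 h
    have hb : 1 ≤ b := by
      rcases Nat.eq_zero_or_pos b with h0 | h0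
      · rw [h0] at hdet; omega
      · exact h0
    have hc : 1 ≤ c := by
      rcases Nat.eq_zero_or_pos c with h0 | h0
      · rw [h0] at hdet; omega
      · exact h0
    have hP0 : sA * P.coeff 0 = X ^ a * sA ^ b := by
      rcases hP with ⟨ha, hb, hP⟩ | ⟨hP, _, _⟩
      · rw [ha, hb]; exact row0_zero P hP
      · exact hP.1
    rcases ih with ⟨ha, hb, hc', hd', hP', hQ', hR'⟩ | ⟨i1, i2, i3, i4, i5, i6⟩ | ⟨i1, i2, i3, i4, i5, i6⟩
    · subst ha hb hc' hd' hP' hQ' hR'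
      refine Or.inr (Or.inr ⟨by norm_num, by norm_num, by norm_num, hroot_right, Or.inl ⟨rfl, rfl, rfl⟩,
        Or.inl ⟨rfl, rfl, rfl⟩⟩)
    · refine Or.inr (Or.inl ⟨by omega, by omega, i3, ?_, Or.inr ⟨i4, by omega⟩, i6⟩)
      rcases i6 with ⟨hc', hd', hQ'⟩ | ⟨hQ3, h4⟩
      · subst hc' hd' hQ'
        exact h_right_half hP0 hR1 i4
      · rcases hQ with ⟨h1, h2, _⟩ | ⟨hQ1, hQ2⟩
        · omega
        · exact hgenA hR1 i4 hQ1 hQ3 (sub_coeff _ _ _ _ (by omega))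
    · refine Or.inr (Or.inr ⟨by omega, by omega, i3, ?_, Or.inr ⟨i4, by omega⟩, i6⟩)
      rcases i6 with ⟨hc', hd', hQ'⟩ | ⟨hQ3, h4⟩
      · subst hc' hd' hQ'
        have hb1 : b = a + 1 := by omega
        subst hb1
        obtain ⟨e, rfl⟩ : ∃ e, a = e + 1 := ⟨a - 1, by omega⟩
        have hP1 : HR1 (e + 1) (e + 2) P := by
          rcases hP with ⟨h1, _, _⟩ | ⟨h1, _, _⟩
          · omega
          · exact h1
        exact h_right_one2 hP1 hR1 i4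
      · rcases hQ with ⟨h1, h2, _⟩ | ⟨hQ1, hQ2⟩
        · omega
        · exact hgenB hR1 i4 hQ1 hQ3 (sub_coeff _ _ _ _ (by omega))

/-! ### Log-concavity -/

theorem LC_X {f : ℤ[X]} (h : LC f) : LC (X * f) := by
  obtain ⟨h0, h1⟩ := h
  constructor
  · intro i
    rcases i with _ | i
    · rw [mul_coeff_zero, coeff_X_zero, zero_mul]
    · rw [coeff_X_mul]; exact h0 i
  · intro i j hij
    rcases i with _ | i
    · rw [mul_coeff_zero, coeff_X_zero, zero_mul, zero_mul, zero_add, coeff_X_mul, coeff_X_mul]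
      exact mul_nonneg (h0 _) (h0 _)
    · rcases j with _ | j
      · omega
      · show (X * f).coeff (i + 1) * (X * f).coeff (j + 2 + 1) ≤
          (X * f).coeff (i + 1 + 1) * (X * f).coeff (j + 1 + 1)
        rw [coeff_X_mul, coeff_X_mul, coeff_X_mul, coeff_X_mul]
        exact h1 i j (by omega)

theorem LC_Xpow {f : ℤ[X]} (h : LC f) (n : ℕ) : LC (X ^ n * f) := by
  induction n with
  | zero => simpa using h
  | succ n ih =>
    have e : X ^ (n + 1) * f = X * (X ^ n * f) := by ring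
    rw [e]
    exact LC_X ih

theorem QA_eq (p q : ℕ) : QA p q = C (((p : ℤ) + q - 1) * ((p : ℤ) + q - 2)) * X ^ 3 +
    C (6 * (p : ℤ) * q + 6 * (p : ℤ) ^ 2 - 16 * p + 4) * X ^ 2 + C (9 * (p : ℤ) ^ 2 - 5 * p + 2) * X + C 0 := by
  unfold QA
  simp only [map_mul, map_sub, map_add, map_one, map_ofNat, map_natCast, map_pow, map_zero]
  ring

theorem QB_eq (p q : ℕ) : QB p q = C (((p : ℤ) + q - 1) * ((p : ℤ) + q - 2)) * X ^ 3 +
    C (6 * (p : ℤ) * q + 6 * (p : ℤ) ^ 2 - 16 * p + 4) * X ^ 2 + C (9 * (p : ℤ) ^ 2 - 5 * p + 2) * X +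
    C (8 * (2 * (p : ℤ) - q)) := by
  unfold QB QA
  simp only [map_mul, map_sub, map_add, map_one, map_ofNat, map_natCast, map_pow]

theorem LC_QA {p q : ℕ} (hp : 1 ≤ p) (hpq : p < q) : LC (QA p q) := by
  rw [QA_eq]
  obtain ⟨m, rfl⟩ := Nat.exists_eq_add_of_le hp
  obtain ⟨n, rfl⟩ := Nat.exists_eq_add_of_lt hpq
  push_cast
  have hm : (0 : ℤ) ≤ m := Int.natCast_nonneg m
  have hn : (0 : ℤ) ≤ n := Int.natCast_nonneg n
  have i1 : (0 : ℤ) ≤ 9 * (1 + (m : ℤ)) ^ 2 - 5 * (1 + m) + 2 := by ring_nf; positivity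
  have i2 : (0 : ℤ) ≤ 6 * (1 + (m : ℤ)) * (1 + m + n + 1) + 6 * (1 + m) ^ 2 - 16 * (1 + m) + 4 := by
    ring_nf; positivity
  have i3 : (0 : ℤ) ≤ (1 + (m : ℤ) + (1 + m + n + 1) - 1) * (1 + (m : ℤ) + (1 + m + n + 1) - 2) := by
    ring_nf; positivity
  have i4 : (0 : ℤ) ≤ (6 * (1 + (m : ℤ)) * (1 + m + n + 1) + 6 * (1 + m) ^ 2 - 16 * (1 + m) + 4) *
      (6 * (1 + (m : ℤ)) * (1 + m + n + 1) + 6 * (1 + m) ^ 2 - 16 * (1 + m) + 4) -
      (9 * (1 + (m : ℤ)) ^ 2 - 5 * (1 + m) + 2) *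
      ((1 + (m : ℤ) + (1 + m + n + 1) - 1) * (1 + (m : ℤ) + (1 + m + n + 1) - 2)) := by
    ring_nf; positivity
  exact LC_cub le_rfl i1 i2 i3 (by rw [zero_mul]; exact mul_nonneg i1 i1) (by rw [zero_mul]; exact mul_nonneg i1 i2)
    (by linarith)

theorem LC_QB {p q : ℕ} (hpq : p < q) (hpq' : q < 2 * p) : LC (QB p q) := by
  rw [QB_eq]
  obtain ⟨n, rfl⟩ := Nat.exists_eq_add_of_lt hpq
  obtain ⟨m, rfl⟩ : ∃ m, p = n + m + 2 := ⟨p - (n + 2), by omega⟩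
  push_cast
  have hm : (0 : ℤ) ≤ m := Int.natCast_nonneg m
  have hn : (0 : ℤ) ≤ n := Int.natCast_nonneg n
  have i0 : (0 : ℤ) ≤ 8 * (2 * ((n : ℤ) + m + 2) - (n + m + 2 + n + 1)) := by ring_nf; positivity
  have i1 : (0 : ℤ) ≤ 9 * ((n : ℤ) + m + 2) ^ 2 - 5 * (n + m + 2) + 2 := by ring_nf; positivity
  have i2 : (0 : ℤ) ≤ 6 * ((n : ℤ) + m + 2) * (n + m + 2 + n + 1) + 6 * (n + m + 2) ^ 2 - 16 * (n + m + 2) + 4 := by
    ring_nf; positivity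
  have i3 : (0 : ℤ) ≤ ((n : ℤ) + m + 2 + (n + m + 2 + n + 1) - 1) * ((n : ℤ) + m + 2 + (n + m + 2 + n + 1) - 2) := by
    ring_nf; positivity
  have i4 : (0 : ℤ) ≤ (6 * ((n : ℤ) + m + 2) * (n + m + 2 + n + 1) + 6 * (n + m + 2) ^ 2 - 16 * (n + m + 2) + 4) *
      (6 * ((n : ℤ) + m + 2) * (n + m + 2 + n + 1) + 6 * (n + m + 2) ^ 2 - 16 * (n + m + 2) + 4) -
      (9 * ((n : ℤ) + m + 2) ^ 2 - 5 * (n + m + 2) + 2) *
      (((n : ℤ) + m + 2 + (n + m + 2 + n + 1) - 1) * ((n : ℤ) + m + 2 + (n + m + 2 + n + 1) - 2)) := by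
    ring_nf; positivity
  have i5 : (0 : ℤ) ≤ (9 * ((n : ℤ) + m + 2) ^ 2 - 5 * (n + m + 2) + 2) *
      (9 * ((n : ℤ) + m + 2) ^ 2 - 5 * (n + m + 2) + 2) -
      8 * (2 * ((n : ℤ) + m + 2) - (n + m + 2 + n + 1)) *
      (6 * ((n : ℤ) + m + 2) * (n + m + 2 + n + 1) + 6 * (n + m + 2) ^ 2 - 16 * (n + m + 2) + 4) := by
    ring_nf; positivity
  have i6 : (0 : ℤ) ≤ (9 * ((n : ℤ) + m + 2) ^ 2 - 5 * (n + m + 2) + 2) *
      (6 * ((n : ℤ) + m + 2) * (n + m + 2 + n + 1) + 6 * (n + m + 2) ^ 2 - 16 * (n + m + 2) + 4) -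
      8 * (2 * ((n : ℤ) + m + 2) - (n + m + 2 + n + 1)) *
      (((n : ℤ) + m + 2 + (n + m + 2 + n + 1) - 1) * ((n : ℤ) + m + 2 + (n + m + 2 + n + 1) - 2)) := by
    ring_nf; positivity
  exact LC_cub i0 i1 i2 i3 (by linarith) (by linarith) (by linarith)

end H79W
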