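import Pool.Agent.Lib.H79W.H2

/-!
# H79W, file HLC: log-concavity of the horizontal rows
-/

set_option autoImplicit false

namespace H79W

open Polynomial

theorem C2' : (C (2 : ℤ) : ℤ[X]) = 2 := by simp

theorem hrow2 {K E : ℤ[X]} {p q : ℕ} {N : ℤ[X][X]} (h : HR2 K (p + 1) q N)
    (hE : X ^ p * (sA ^ q * K) = sA ^ 5 * E) (hL : LC E) : LC (N.coeff 2) := by
  unfold HR2 at h
  have e : C 2 * N.coeff 2 = E := by
    rw [C2']
    have h5 : X * (sA ^ 5 * (2 * N.coeff 2)) = X * (sA ^ 5 * E) := by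
      rw [h, ← hE]; ring
    exact mul_left_cancel₀ (pow_ne_zero 5 sA_ne) (mul_left_cancel₀ X_ne_zero h5)
  apply LC_smul (k := 2) (by norm_num)
  rw [e]
  exact hL

theorem hrow2_gen {K : ℤ[X]} {p q : ℕ} {N : ℤ[X][X]} (h : HR2 K (p + 1) (q + 5) N) (hK : LC K) :
    LC (N.coeff 2) := by
  refine hrow2 h (E := X ^ p * (sA ^ q * K)) (by ring) (LC_Xpow (LC_pow hK q) p)

theorem HLC {a b c d : ℕ} {P Q R : ℤ[X][X]} (h : HT a b c d P Q R) :
    LC (R.coeff 0) ∧ LC (R.coeff 1) ∧ LC (R.coeff 2) := by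
  obtain ⟨hdet, hab, hcd, hP, hQ, hR⟩ := HT_inv1 h
  have hc : 1 ≤ c := by
    rcases Nat.eq_zero_or_pos c with h0 | h0
    · rw [h0] at hdet; omega
    · exact h0
  have hlt : a + c < b + d := by
    by_contra hge
    have h1 : a = b := by omega
    have h2 : c = d := by omega
    rw [h1, h2] at hdet
    omega
  obtain ⟨p, hp⟩ : ∃ p, a + c = p + 1 := ⟨a + c - 1, by omega⟩
  refine ⟨?_, ?_, ?_⟩
  · obtain ⟨k, hk⟩ : ∃ k, b + d = k + 1 := ⟨b + d - 1, by omega⟩
    have e : R.coeff 0 = X ^ (a + c) * (sA ^ k * 1) := by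
      have h0 := hR.1
      rw [hk] at h0
      have h1 : sA * R.coeff 0 = sA * (X ^ (a + c) * (sA ^ k * 1)) := by rw [h0]; ring
      exact mul_left_cancel₀ sA_ne h1
    rw [e]
    exact LC_Xpow (LC_pow LC_one k) _
  · rcases Nat.lt_or_ge (b + d) 3 with h3 | h3
    · have hR' : R = N12 := by
        rcases HT_inv2 h with ⟨_, _, _, _, _, _, hR'⟩ | ⟨i1, _⟩ | ⟨i1, _⟩
        · exact hR'
        · omega
        · omega
      rw [hR', N12_eq.2.1]
      have e : (2 * X : ℤ[X]) = C 0 * X ^ 2 + C 2 * X + C 0 := by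
        simp only [map_zero, map_ofNat]; ring
      rw [e]
      exact LC_quad le_rfl (by norm_num) le_rfl (by norm_num)
    · obtain ⟨k, hk⟩ : ∃ k, b + d = k + 3 := ⟨b + d - 3, by omega⟩
      have e : R.coeff 1 = X ^ (a + c) * (sA ^ k * LH (a + c) (b + d)) := by
        have h0 := hR.2
        have h1 : sA ^ 3 * R.coeff 1 = sA ^ 3 * (X ^ (a + c) * (sA ^ k * LH (a + c) (b + d))) := by
          rw [h0]
          have e2 : (sA : ℤ[X]) ^ (b + d) = sA ^ 3 * sA ^ k := by rw [hk]; ring
          rw [e2]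
          ring
        exact mul_left_cancel₀ (pow_ne_zero 3 sA_ne) h1
      rw [e]
      apply LC_Xpow
      apply LC_pow
      have e2 : LH (a + c) (b + d) = C 0 * X ^ 2 + C (((a + c : ℕ) : ℤ) + ((b + d : ℕ) : ℤ) - 1) * X +
          C (3 * ((a + c : ℕ) : ℤ) - 1) := by
        unfold LH
        simp only [map_sub, map_add, map_mul, map_one, map_natCast, map_ofNat, map_zero]
        ring
      rw [e2]
      have hp' : (1 : ℤ) ≤ ((a + c : ℕ) : ℤ) := by exact_mod_cast (by omega : 1 ≤ a + c)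
      have hq' : (1 : ℤ) ≤ ((b + d : ℕ) : ℤ) := by exact_mod_cast (by omega : 1 ≤ b + d)
      exact LC_quad (by linarith) (by linarith) le_rfl (by nlinarith)
  · rcases HT_inv2 h with ⟨_, _, _, _, _, _, hR'⟩ | ⟨i1, _, _, i4, _, _⟩ | ⟨i1, _, _, i4, _, _⟩
    · rw [hR', N12_eq.2.2]
      exact LC_one
    · rcases Nat.lt_or_ge (b + d) 5 with h5 | h5
      · have hcase : p = 0 ∧ (b + d = 3 ∨ b + d = 4) := by omega
        obtain ⟨hp0, hq⟩ := hcase
        subst hp0
        rw [hp] at i4
        rcases hq with hq | hq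
        · rw [hq] at i4
          refine hrow2 (p := 0) i4 (E := C 0 * X ^ 2 + C 6 * X + C 0) ?_
            (LC_quad le_rfl (by norm_num) le_rfl (by norm_num))
          unfold QA sA
          simp only [map_zero, map_ofNat]
          push_cast
          ring
        · rw [hq] at i4
          refine hrow2 (p := 0) i4 (E := C 12 * X ^ 2 + C 6 * X + C 0) ?_
            (LC_quad le_rfl (by norm_num) (by norm_num) (by norm_num))
          unfold QA sA
          simp only [map_zero, map_ofNat]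
          push_cast
          ring
      · obtain ⟨k, hk⟩ : ∃ k, b + d = k + 5 := ⟨b + d - 5, by omega⟩
        have hL := LC_QA (by omega : 1 ≤ a + c) hlt
        rw [hp, hk] at i4 hL
        exact hrow2_gen i4 hL
    · rcases Nat.lt_or_ge (b + d) 5 with h5 | h5
      · have hcase : (p = 1 ∧ b + d = 3) ∨ (p = 2 ∧ b + d = 4) := by omega
        rcases hcase with ⟨hp0, hq⟩ | ⟨hp0, hq⟩
        · subst hp0
          rw [hp, hq] at i4
          refine hrow2 (p := 1) i4 (E := X * (C 0 * X ^ 2 + C 12 * X + C 8)) ?_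
            (LC_X (LC_quad (by norm_num) (by norm_num) le_rfl (by norm_num)))
          unfold QB QA sA
          simp only [map_zero, map_ofNat]
          push_cast
          ring
        · subst hp0
          rw [hp, hq] at i4
          refine hrow2 (p := 2) i4 (E := X ^ 2 * (C 30 * X ^ 2 + C 52 * X + C 16)) ?_
            (LC_Xpow (LC_quad (by norm_num) (by norm_num) (by norm_num) (by norm_num)) 2)
          unfold QB QA sA
          simp only [map_ofNat]
          push_cast
          ring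
      · obtain ⟨k, hk⟩ : ∃ k, b + d = k + 5 := ⟨b + d - 5, by omega⟩
        have hL := LC_QB hlt i1
        rw [hp, hk] at i4 hL
        exact hrow2_gen i4 hL

end H79W
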