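import Pool.Agent.Lib.H79W.P

/-!
# H79W, file K: the Markov polynomials with their Farey labels and their numerators
-/

set_option autoImplicit false

namespace H79W

open Polynomial

/-- `Farey x y z a b c d P Q R`: the Markov polynomials with the labels `a/b`, `c/d`, `(a+c)/(b+d)` in `[0,1]` are
`P`, `Q`, `R`. The initial regions are `x` (label `0/1`), `y` (label `1/0`) and `z`. -/
inductive Farey {K : Type} [Field K] (x y z : K) : ℕ → ℕ → ℕ → ℕ → K → K → K → Prop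
  | base : Farey x y z 0 1 1 1 x ((x ^ 2 + y ^ 2) / z) ((x ^ 2 + ((x ^ 2 + y ^ 2) / z) ^ 2) / y)
  | left {a b c d : ℕ} {P Q R : K} : Farey x y z a b c d P Q R →
      Farey x y z a b (a + c) (b + d) P R ((P ^ 2 + R ^ 2) / Q)
  | right {a b c d : ℕ} {P Q R : K} : Farey x y z a b c d P Q R →
      Farey x y z (a + c) (b + d) c d R Q ((R ^ 2 + Q ^ 2) / P)

/-- The field of rational functions in three variables. -/
abbrev F3 : Type := FractionRing (MvPolynomial (Fin 3) ℤ)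

/-- The variables. -/
noncomputable def var (i : Fin 3) : F3 := algebraMap (MvPolynomial (Fin 3) ℤ) F3 (MvPolynomial.X i)

/-- Quotients of polynomials with positive value at `(1,1,1)`. -/
def Pos (f : F3) : Prop := ∃ P Q : MvPolynomial (Fin 3) ℤ,
  0 < MvPolynomial.eval (fun _ => 1) P ∧ 0 < MvPolynomial.eval (fun _ => 1) Q ∧
    f * algebraMap _ F3 Q = algebraMap _ F3 P

theorem ev_ne {P : MvPolynomial (Fin 3) ℤ} (h : 0 < MvPolynomial.eval (fun _ => 1) P) :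
    algebraMap (MvPolynomial (Fin 3) ℤ) F3 P ≠ 0 := by
  intro h0
  have : P = 0 := (IsFractionRing.injective (MvPolynomial (Fin 3) ℤ) F3) (by rw [h0, map_zero])
  rw [this, map_zero] at h
  exact lt_irrefl _ h

theorem Pos.ne {f : F3} (h : Pos f) : f ≠ 0 := by
  obtain ⟨P, Q, hP, _, h⟩ := h
  intro h0
  rw [h0, zero_mul] at h
  exact ev_ne hP h.symm

theorem Pos.add {f g : F3} (hf : Pos f) (hg : Pos g) : Pos (f + g) := by
  obtain ⟨P, Q, hP, hQ, h⟩ := hf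
  obtain ⟨P', Q', hP', hQ', h'⟩ := hg
  refine ⟨P * Q' + P' * Q, Q * Q', ?_, ?_, ?_⟩
  · rw [map_add, map_mul, map_mul]; positivity
  · rw [map_mul]; positivity
  · rw [map_mul, map_add, map_mul, map_mul, ← h, ← h']; ring

theorem Pos.mul {f g : F3} (hf : Pos f) (hg : Pos g) : Pos (f * g) := by
  obtain ⟨P, Q, hP, hQ, h⟩ := hf
  obtain ⟨P', Q', hP', hQ', h'⟩ := hg
  refine ⟨P * P', Q * Q', ?_, ?_, ?_⟩
  · rw [map_mul]; positivity
  · rw [map_mul]; positivity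
  · rw [map_mul, map_mul, ← h, ← h']; ring

theorem Pos.div {f g : F3} (hf : Pos f) (hg : Pos g) : Pos (f / g) := by
  have hg0 := hg.ne
  obtain ⟨P, Q, hP, hQ, h⟩ := hf
  obtain ⟨P', Q', hP', hQ', h'⟩ := hg
  refine ⟨P * Q', Q * P', ?_, ?_, ?_⟩
  · rw [map_mul]; positivity
  · rw [map_mul]; positivity
  · rw [map_mul, map_mul, ← h, ← h']
    field_simp

theorem Pos.sq {f : F3} (hf : Pos f) : Pos (f ^ 2) := by
  rw [pow_two]; exact hf.mul hf

theorem Pos_var (i : Fin 3) : Pos (var i) := by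
  refine ⟨MvPolynomial.X i, 1, ?_, ?_, ?_⟩
  · rw [MvPolynomial.eval_X]; norm_num
  · rw [map_one]; norm_num
  · rw [map_one, mul_one]; rfl

/-- The substitution `A = x^2/y^2`, `B = 1`, `C = z^2/y^2`. -/
noncomputable def phi (x y z : F3) : ℤ[X][X] →+* F3 :=
  eval₂RingHom (eval₂RingHom (Int.castRingHom F3) (x ^ 2 / y ^ 2)) (z ^ 2 / y ^ 2)

theorem phi_X (x y z : F3) : phi x y z X = z ^ 2 / y ^ 2 := by
  simp [phi]

theorem phi_CX (x y z : F3) : phi x y z (C X) = x ^ 2 / y ^ 2 := by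
  simp [phi]

theorem phi_CsA (x y z : F3) : phi x y z (C sA) = x ^ 2 / y ^ 2 + 1 := by
  simp [phi, sA]

/-- The relation between a Markov polynomial and its numerator. -/
def EE (x y z : F3) (p q : ℕ) (N : ℤ[X][X]) (Z : F3) : Prop :=
  phi x y z N * (x * z * y ^ (2 * p + q)) = Z * (x ^ p * y * z ^ (p + q))

/-- The step. -/
theorem EE_step {x y z : F3} (hx : x ≠ 0) (hy : y ≠ 0) (hz : z ≠ 0) {a b c d : ℕ} {NP NQ NR : ℤ[X][X]}
    {P Q R Z : F3} (hP : EE x y z a b NP P) (hQ : EE x y z c d NQ Q) (hR : EE x y z (a + c) (b + d) NR R)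
    (hZ : Z * (x * y * z) = (x ^ 2 + y ^ 2 + z ^ 2) * (P * R) - Q * (x * y * z)) :
    EE x y z (a + (a + c)) (b + (b + d))
      ((C sA + X) * (NP * NR) - C (X ^ a) * (X ^ (a + b) * NQ)) Z := by
  unfold EE at hP hQ hR ⊢
  obtain ⟨u, hu0⟩ : ∃ u, u = x ^ 2 / y ^ 2 := ⟨_, rfl⟩
  obtain ⟨t, ht0⟩ : ∃ t, t = z ^ 2 / y ^ 2 := ⟨_, rfl⟩
  have hu1 : u * y ^ 2 = x ^ 2 := by rw [hu0]; field_simp
  have ht1 : t * y ^ 2 = z ^ 2 := by rw [ht0]; field_simp
  have hu : u ^ a * (y ^ 2) ^ a = (x ^ 2) ^ a := by rw [← mul_pow, hu1]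
  have ht : t ^ (a + b) * (y ^ 2) ^ (a + b) = (z ^ 2) ^ (a + b) := by rw [← mul_pow, ht1]
  have e : phi x y z ((C sA + X) * (NP * NR) - C (X ^ a) * (X ^ (a + b) * NQ)) =
      (u + 1 + t) * (phi x y z NP * phi x y z NR) - u ^ a * (t ^ (a + b) * phi x y z NQ) := by
    simp only [map_sub, map_mul, map_add, phi_CsA, phi_X, map_pow, phi_CX, hu0, ht0]
  rw [e]
  generalize phi x y z NP = α at hP ⊢
  generalize phi x y z NQ = β at hQ ⊢
  generalize phi x y z NR = γ at hR ⊢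
  have hxz : x * z ≠ 0 := mul_ne_zero hx hz
  apply mul_left_cancel₀ hxz
  linear_combination ((u + 1 + t) * (γ * (x * z * y ^ (2 * (a + c) + (b + d))))) * hP +
    ((u + 1 + t) * (P * (x ^ a * y * z ^ (a + b)))) * hR -
    ((x * z) * (t ^ (a + b) * (y ^ 2) ^ (a + b) * (β * (x * z * y ^ (2 * c + d))))) * hu -
    ((x * z) * (x ^ 2) ^ a * (β * (x * z * y ^ (2 * c + d)))) * ht -
    ((x * z) * (x ^ 2) ^ a * (z ^ 2) ^ (a + b)) * hQ +
    (P * R * (x ^ a * z ^ (a + b)) * (x ^ (a + c) * z ^ (a + c + (b + d)))) * (hu1 + ht1) -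
    (x ^ (a + (a + c)) * z ^ (a + (a + c) + (b + (b + d)))) * hZ

end H79W
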