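import Pool.Agent.Lib.H79W.P3

/-!
# H79W, file P4: the fourth row, by induction over the Farey tree
-/

set_option autoImplicit false

namespace H79W

open Polynomial

theorem root_left : Row3 (KA 1 3) 1 3 ((C sA + X) * (1 * Nh) - C (X ^ 0) * (X ^ (0 + 1) * C sA)) := by
  unfold Row3
  rw [one_mul]
  have e3 : ((C sA + X) * Nh - C (X ^ 0) * (X ^ (0 + 1) * C sA)).coeff 3 = 0 := by
    rw [coeff_sub, sub_coeff' _ _ _ _ (by norm_num), st_coeff_succ, Nh_coeff3]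
    unfold Nh
    rw [coeff_add, coeff_C_of_ne_zero (by norm_num), coeff_C_mul, coeff_X, if_neg (by norm_num),
      coeff_C_of_ne_zero (by norm_num)]
    simp
  rw [e3]
  unfold KA
  push_cast
  ring

theorem root_right : Row3 (KB 2 3) 2 3 ((C sA + X) * (Nh * C sA) - C (X ^ 1) * (X ^ (1 + 1) * 1)) := by
  unfold Row3
  have e3 : ((C sA + X) * (Nh * C sA) - C (X ^ 1) * (X ^ (1 + 1) * 1)).coeff 3 = 0 := by
    rw [coeff_sub, sub_coeff' _ _ _ _ (by norm_num), st_coeff_succ, coeff_mul_C, coeff_mul_C, Nh_coeff3]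
    unfold Nh
    rw [coeff_add, coeff_C_of_ne_zero (by norm_num), coeff_C_mul, coeff_X, if_neg (by norm_num),
      coeff_one, if_neg (by norm_num)]
    simp
  rw [e3]
  unfold KB KA
  push_cast
  ring

theorem genA {p q p' q' : ℕ} {P R T : ℤ[X][X]} (hP1 : Row1 p q P) (hP2 : Row2 p q P)
    (hP3 : Row3 (KA p q) p q P) (hR1 : Row1 p' q' R) (hR2 : Row2 p' q' R) (hR3 : Row3 (KA p' q') p' q' R)
    (hT : T.coeff 3 = 0) :
    Row3 (KA (p + p') (q + q')) (p + p') (q + q') ((C sA + X) * (P * R) - T) := by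
  have hs := gen_step3 (T := T) hP1 hP2 hP3 hR1 hR2 hR3
  unfold Row3
  rw [hs, hT, KA_add p q p' q']
  ring

theorem genB {p q p' q' : ℕ} {P R T : ℤ[X][X]} (hP1 : Row1 p q P) (hP2 : Row2 p q P)
    (hP3 : Row3 (KB p q) p q P) (hR1 : Row1 p' q' R) (hR2 : Row2 p' q' R) (hR3 : Row3 (KB p' q') p' q' R)
    (hT : T.coeff 3 = 0) :
    Row3 (KB (p + p') (q + q')) (p + p') (q + q') ((C sA + X) * (P * R) - T) := by
  have hs := gen_step3 (T := T) hP1 hP2 hP3 hR1 hR2 hR3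
  unfold Row3
  rw [hs, hT, KB_add p q p' q']
  ring

/-- The invariants of the tree for the fourth row. -/
theorem PT_inv3 {a b c d : ℕ} {P Q R : ℤ[X][X]} (h : PT a b c d P Q R) :
    (a = 0 ∧ b = 1 ∧ c = 1 ∧ d = 1 ∧ P = 1 ∧ Q = C sA ∧ R = Nh) ∨
    (2 * (a + c) < b + d ∧ 2 * a ≤ b ∧ 2 * c ≤ d ∧ Row3 (KA (a + c) (b + d)) (a + c) (b + d) R ∧
      ((a = 0 ∧ b = 1 ∧ P = 1) ∨ (Row3 (KA a b) a b P ∧ 4 ≤ a + b)) ∧
      ((c = 1 ∧ d = 2 ∧ Q = Nh) ∨ (Row3 (KA c d) c d Q ∧ 4 ≤ c + d))) ∨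
    (b + d < 2 * (a + c) ∧ b ≤ 2 * a ∧ d ≤ 2 * c ∧ Row3 (KB (a + c) (b + d)) (a + c) (b + d) R ∧
      ((a = 1 ∧ b = 2 ∧ P = Nh) ∨ (Row3 (KB a b) a b P ∧ 4 ≤ a + b)) ∧
      ((c = 1 ∧ d = 1 ∧ Q = C sA) ∨ (Row3 (KB c d) c d Q ∧ 4 ≤ c + d))) := by
  induction h with
  | base => exact Or.inl ⟨rfl, rfl, rfl, rfl, rfl, rfl, rfl⟩
  | @left a b c d P Q R h ih =>
    obtain ⟨hdet, hab, hcd, hP, hQ, hR1, hR2⟩ := PT_inv h
    have hc : 1 ≤ c := by
      rcases Nat.eq_zero_or_pos c with h0 | h0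
      · rw [h0] at hdet; omega
      · exact h0
    rcases ih with ⟨ha, hb, hc', hd', hP', hQ', hR'⟩ | ⟨i1, i2, i3, i4, i5, i6⟩ | ⟨i1, i2, i3, i4, i5, i6⟩
    · subst ha hb hc' hd' hP' hQ' hR'
      refine Or.inr (Or.inl ⟨by norm_num, by norm_num, by norm_num, root_left, Or.inl ⟨rfl, rfl, rfl⟩,
        Or.inl ⟨rfl, rfl, rfl⟩⟩)
    · refine Or.inr (Or.inl ⟨by omega, i2, by omega, ?_, i5, Or.inr ⟨i4, by omega⟩⟩)
      rcases i5 with ⟨ha, hb, hP'⟩ | ⟨hP3, h4⟩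
      · subst ha hb hP'
        have hc1 : c = 1 := by omega
        subst hc1
        obtain ⟨e, rfl⟩ : ∃ e, d = e + 2 := ⟨d - 2, by omega⟩
        have hQ2 : Row2 1 (e + 2) Q := by
          rcases hQ with ⟨_, hd, _⟩ | ⟨_, hQ, _⟩
          · omega
          · exact hQ
        have e1 : 1 + (e + 2) = e + 3 := by omega
        rw [zero_add, e1] at hR2 i4
        have hh := left_zero3 hQ2 hR2 i4
        have e2 : 0 + (0 + 1) = 1 := rfl
        have e3 : 1 + (1 + (e + 2)) = e + 4 := by omega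
        rw [e2, e3]
        exact hh
      · rcases hP with ⟨ha, hb, _⟩ | ⟨hP1, hP2, _⟩
        · omega
        · exact genA hP1 hP2 hP3 hR1 hR2 i4 (sub_coeff _ _ _ _ (by omega))
    · refine Or.inr (Or.inr ⟨by omega, i2, by omega, ?_, i5, Or.inr ⟨i4, by omega⟩⟩)
      rcases i5 with ⟨ha, hb, hP'⟩ | ⟨hP3, h4⟩
      · subst ha hb hP'
        have hQ0 : sA * Q.coeff 0 = sA ^ (c + d) := by
          rcases hQ with ⟨h1, h2, h3⟩ | ⟨h1, _, _⟩
          · rw [h1, h2, h3]; exact row1_one_one.1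
          · exact h1.1
        exact left_half3 hQ0 hR1 hR2 i4
      · rcases hP with ⟨ha, hb, _⟩ | ⟨hP1, hP2, _⟩
        · omega
        · exact genB hP1 hP2 hP3 hR1 hR2 i4 (sub_coeff _ _ _ _ (by omega))
  | @right a b c d P Q R h ih =>
    obtain ⟨hdet, hab, hcd, hP, hQ, hR1, hR2⟩ := PT_inv h
    have hc : 1 ≤ c := by
      rcases Nat.eq_zero_or_pos c with h0 | h0
      · rw [h0] at hdet; omega
      · exact h0
    have hP0 : sA * P.coeff 0 = sA ^ (a + b) := by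
      rcases hP with ⟨ha, hb, hP⟩ | ⟨hP, _, _⟩
      · rw [ha, hb]; exact row1_zero P hP
      · exact hP.1
    rcases ih with ⟨ha, hb, hc', hd', hP', hQ', hR'⟩ | ⟨i1, i2, i3, i4, i5, i6⟩ | ⟨i1, i2, i3, i4, i5, i6⟩
    · subst ha hb hc' hd' hP' hQ' hR'
      refine Or.inr (Or.inr ⟨by norm_num, by norm_num, by norm_num, root_right, Or.inl ⟨rfl, rfl, rfl⟩,
        Or.inl ⟨rfl, rfl, rfl⟩⟩)
    · refine Or.inr (Or.inl ⟨by omega, by omega, i3, ?_, Or.inr ⟨i4, by omega⟩, i6⟩)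
      rcases i6 with ⟨hc', hd', hQ'⟩ | ⟨hQ3, h4⟩
      · subst hc' hd' hQ'
        exact right_half3 hP0 hR1 hR2 i4
      · rcases hQ with ⟨h1, h2, _⟩ | ⟨hQ1, hQ2, _⟩
        · omega
        · exact genA hR1 hR2 i4 hQ1 hQ2 hQ3 (sub_coeff _ _ _ _ (by omega))
    · refine Or.inr (Or.inr ⟨by omega, by omega, i3, ?_, Or.inr ⟨i4, by omega⟩, i6⟩)
      rcases i6 with ⟨hc', hd', hQ'⟩ | ⟨hQ3, h4⟩
      · subst hc' hd' hQ'
        have hb1 : b = a + 1 := by omega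
        subst hb1
        obtain ⟨e, rfl⟩ : ∃ e, a = e + 1 := ⟨a - 1, by omega⟩
        have hP1 : Row1 (e + 1) (e + 2) P := by
          rcases hP with ⟨h1, _, _⟩ | ⟨h1, _, _⟩
          · omega
          · exact h1
        exact right_one3 hP1 hR2 i4
      · rcases hQ with ⟨h1, h2, _⟩ | ⟨hQ1, hQ2, _⟩
        · omega
        · exact genB hR1 hR2 i4 hQ1 hQ2 hQ3 (sub_coeff _ _ _ _ (by omega))

end H79W
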