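import Pool.Agent.Lib.H79W.LC
import Pool.Agent.Lib.H79W.P4

/-!
# H79W, file LC3: log-concavity of the fourth row
-/

set_option autoImplicit false

namespace H79W

open Polynomial

theorem LC_smul {f : ℤ[X]} {k : ℤ} (hk : 0 < k) (h : LC (C k * f)) : LC f := by
  obtain ⟨h0, h1⟩ := h
  constructor
  · intro i
    have := h0 i
    rw [coeff_C_mul] at this
    by_contra hc
    have hc' : f.coeff i < 0 := not_le.mp hc
    nlinarith
  · intro i j hij
    have := h1 i j hij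
    rw [coeff_C_mul, coeff_C_mul, coeff_C_mul, coeff_C_mul] at this
    by_contra hc
    have hc' : f.coeff (i + 1) * f.coeff (j + 1) < f.coeff i * f.coeff (j + 2) := not_le.mp hc
    nlinarith [mul_pos hk hk, mul_lt_mul_of_pos_left hc' (mul_pos hk hk)]

theorem cub_coeff (α β γ δ : ℤ) (n : ℕ) : (C δ * X ^ 3 + C γ * X ^ 2 + C β * X + C α : ℤ[X]).coeff n =
    (if n = 3 then δ else 0) + (if n = 2 then γ else 0) + (if n = 1 then β else 0) + (if n = 0 then α else 0) := by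
  rw [coeff_add, coeff_add, coeff_add, coeff_C_mul, coeff_C_mul, coeff_C_mul, coeff_X_pow, coeff_X_pow,
    coeff_X, coeff_C]
  rcases n with _ | _ | _ | _ | n
  · simp
  · simp
  · simp
  · simp
  · simp

theorem LC_cub {α β γ δ : ℤ} (ha : 0 ≤ α) (hb : 0 ≤ β) (hc : 0 ≤ γ) (hd : 0 ≤ δ)
    (h1 : α * γ ≤ β * β) (h2 : α * δ ≤ β * γ) (h3 : β * δ ≤ γ * γ) :
    LC (C δ * X ^ 3 + C γ * X ^ 2 + C β * X + C α) := by
  have e0 : (C δ * X ^ 3 + C γ * X ^ 2 + C β * X + C α : ℤ[X]).coeff 0 = α := by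
    rw [cub_coeff]; norm_num
  have e1 : (C δ * X ^ 3 + C γ * X ^ 2 + C β * X + C α : ℤ[X]).coeff 1 = β := by
    rw [cub_coeff]; norm_num
  have e2 : (C δ * X ^ 3 + C γ * X ^ 2 + C β * X + C α : ℤ[X]).coeff 2 = γ := by
    rw [cub_coeff]; norm_num
  have e3 : (C δ * X ^ 3 + C γ * X ^ 2 + C β * X + C α : ℤ[X]).coeff 3 = δ := by
    rw [cub_coeff]; norm_num
  have e4 : ∀ n, (C δ * X ^ 3 + C γ * X ^ 2 + C β * X + C α : ℤ[X]).coeff (n + 4) = 0 := by
    intro n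
    rw [cub_coeff, if_neg (by omega), if_neg (by omega), if_neg (by omega), if_neg (by omega)]; norm_num
  have hz : ∀ k, 0 ≤ (C δ * X ^ 3 + C γ * X ^ 2 + C β * X + C α : ℤ[X]).coeff k := by
    intro i
    rcases i with _ | _ | _ | _ | i
    · rw [e0]; exact ha
    · rw [e1]; exact hb
    · rw [e2]; exact hc
    · rw [e3]; exact hd
    · rw [e4]
  refine ⟨hz, ?_⟩
  intro i j hij
  rcases j with _ | _ | j
  · have hi : i = 0 := by omega
    subst hi
    rw [zero_add, zero_add, e0, e1, e2]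
    exact h1
  · have hi : i = 0 ∨ i = 1 := by omega
    rcases hi with rfl | rfl
    · show _ * (C δ * X ^ 3 + C γ * X ^ 2 + C β * X + C α : ℤ[X]).coeff 3 ≤
        (C δ * X ^ 3 + C γ * X ^ 2 + C β * X + C α : ℤ[X]).coeff 1 *
        (C δ * X ^ 3 + C γ * X ^ 2 + C β * X + C α : ℤ[X]).coeff 2
      rw [e0, e1, e2, e3]
      exact h2
    · show (C δ * X ^ 3 + C γ * X ^ 2 + C β * X + C α : ℤ[X]).coeff 1 *
        (C δ * X ^ 3 + C γ * X ^ 2 + C β * X + C α : ℤ[X]).coeff 3 ≤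
        (C δ * X ^ 3 + C γ * X ^ 2 + C β * X + C α : ℤ[X]).coeff 2 *
        (C δ * X ^ 3 + C γ * X ^ 2 + C β * X + C α : ℤ[X]).coeff 2
      rw [e1, e2, e3]
      exact h3
  · have : (C δ * X ^ 3 + C γ * X ^ 2 + C β * X + C α : ℤ[X]).coeff (j + 1 + 1 + 2) = 0 := e4 j
    rw [this, mul_zero]
    exact mul_nonneg (hz _) (hz _)

/-- The coefficients of the cubic form, `h = p - 1`, `v = q - 1`. -/
def k0 (h : ℤ) : ℤ := h * (h - 1) * (h - 2)
def k2 (h v : ℤ) : ℤ := 3 * h * v ^ 2 + 6 * v ^ 2 - 21 * h * v - 18 * v + 30 * h + 12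
def k1A (h v : ℤ) : ℤ := 3 * h ^ 2 * v + 3 * h * v - 18 * h ^ 2 - 18 * h + 6 * v - 12
def k1B (h v : ℤ) : ℤ := 3 * h ^ 2 * v + 3 * h * v - 18 * h ^ 2 + 30 * h - 18 * v + 12

theorem KA_eq (h v : ℕ) : KA (h + 1) (v + 1) = C (k0 v) * X ^ 3 + C (k2 h v) * X ^ 2 + C (k1A h v) * X + C (k0 h) := by
  unfold KA k0 k2 k1A
  simp only [map_mul, map_sub, map_add, map_one, map_ofNat, map_natCast, map_pow]
  push_cast
  ring

theorem KB_eq (h v : ℕ) : KB (h + 1) (v + 1) = C (k0 v) * X ^ 3 + C (k2 h v) * X ^ 2 + C (k1B h v) * X + C (k0 h) := by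
  unfold KB KA k0 k2 k1B
  simp only [map_mul, map_sub, map_add, map_one, map_ofNat, map_natCast, map_pow]
  push_cast
  ring

theorem ineqA (h t : ℕ) : 0 ≤ k0 h ∧ 0 ≤ k0 (2 * h + 2 + t) ∧ 0 ≤ k1A h (2 * h + 2 + t) ∧
    0 ≤ k2 h (2 * h + 2 + t) ∧
    0 ≤ k1A h (2 * h + 2 + t) * k1A h (2 * h + 2 + t) - k0 h * k2 h (2 * h + 2 + t) ∧
    0 ≤ k1A h (2 * h + 2 + t) * k2 h (2 * h + 2 + t) - k0 h * k0 (2 * h + 2 + t) ∧
    0 ≤ k2 h (2 * h + 2 + t) * k2 h (2 * h + 2 + t) - k1A h (2 * h + 2 + t) * k0 (2 * h + 2 + t) := by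
  unfold k0 k1A k2
  rcases Nat.lt_or_ge h 3 with hh | hh
  · interval_cases h
    all_goals
      push_cast
      refine ⟨?_, ?_, ?_, ?_, ?_, ?_, ?_⟩ <;> first | (ring_nf; positivity) | norm_num
  · obtain ⟨g, rfl⟩ := Nat.exists_eq_add_of_le hh
    push_cast
    refine ⟨?_, ?_, ?_, ?_, ?_, ?_, ?_⟩ <;> (ring_nf; positivity)

theorem ineqB (g t : ℕ) : 0 ≤ k0 (3 + g) ∧ 0 ≤ k0 (4 + g + t) ∧ 0 ≤ k1B (3 + g) (4 + g + t) ∧
    0 ≤ k2 (3 + g) (4 + g + t) ∧
    0 ≤ k1B (3 + g) (4 + g + t) * k1B (3 + g) (4 + g + t) - k0 (3 + g) * k2 (3 + g) (4 + g + t) ∧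
    0 ≤ k1B (3 + g) (4 + g + t) * k2 (3 + g) (4 + g + t) - k0 (3 + g) * k0 (4 + g + t) ∧
    0 ≤ k2 (3 + g) (4 + g + t) * k2 (3 + g) (4 + g + t) - k1B (3 + g) (4 + g + t) * k0 (4 + g + t) := by
  unfold k0 k1B k2
  refine ⟨?_, ?_, ?_, ?_, ?_, ?_, ?_⟩ <;> (ring_nf; positivity)

theorem LC_KA {p q : ℕ} (hp : 1 ≤ p) (hpq : 2 * p < q) : LC (KA p q) := by
  obtain ⟨h, rfl⟩ : ∃ h, p = h + 1 := ⟨p - 1, by omega⟩
  obtain ⟨t, rfl⟩ : ∃ t, q = 2 * h + 2 + t + 1 := ⟨q - (2 * h + 3), by omega⟩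
  rw [KA_eq]
  push_cast
  obtain ⟨i1, i2, i3, i4, i5, i6, i7⟩ := ineqA h t
  exact LC_cub i1 i3 i4 i2 (by linarith) (by linarith) (by linarith)

theorem LC_KB {p q : ℕ} (hpq : p < q) (hpq' : q < 2 * p) : LC (KB p q) := by
  obtain ⟨h, rfl⟩ : ∃ h, p = h + 1 := ⟨p - 1, by omega⟩
  rcases Nat.lt_or_ge h 3 with hh | hh
  · have hq : (h = 1 ∧ q = 3) ∨ (h = 2 ∧ q = 4) ∨ (h = 2 ∧ q = 5) := by omega
    rcases hq with ⟨rfl, rfl⟩ | ⟨rfl, rfl⟩ | ⟨rfl, rfl⟩
    · rw [KB_eq 1 2]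
      exact LC_cub (by unfold k0; norm_num) (by unfold k1B; norm_num) (by unfold k2; norm_num)
        (by unfold k0; norm_num) (by unfold k0 k1B k2; norm_num) (by unfold k0 k1B k2; norm_num)
        (by unfold k0 k1B k2; norm_num)
    · rw [KB_eq 2 3]
      exact LC_cub (by unfold k0; norm_num) (by unfold k1B; norm_num) (by unfold k2; norm_num)
        (by unfold k0; norm_num) (by unfold k0 k1B k2; norm_num) (by unfold k0 k1B k2; norm_num)
        (by unfold k0 k1B k2; norm_num)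
    · rw [KB_eq 2 4]
      exact LC_cub (by unfold k0; norm_num) (by unfold k1B; norm_num) (by unfold k2; norm_num)
        (by unfold k0; norm_num) (by unfold k0 k1B k2; norm_num) (by unfold k0 k1B k2; norm_num)
        (by unfold k0 k1B k2; norm_num)
  · obtain ⟨g, rfl⟩ : ∃ g, h = 3 + g := ⟨h - 3, by omega⟩
    obtain ⟨t, rfl⟩ : ∃ t, q = 4 + g + t + 1 := ⟨q - (5 + g), by omega⟩
    rw [KB_eq]
    push_cast
    obtain ⟨i1, i2, i3, i4, i5, i6, i7⟩ := ineqB g t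
    exact LC_cub i1 i3 i4 i2 (by linarith) (by linarith) (by linarith)

theorem C6 : (C (6 : ℤ) : ℤ[X]) = 6 := by simp

/-- From the cubic form to the row, when there are enough factors. -/
theorem row3_gen {K : ℤ[X]} {p q : ℕ} {N : ℤ[X][X]} (h : Row3 K p q N) (hK : LC K) (h7 : 7 ≤ p + q) :
    LC (N.coeff 3) := by
  unfold Row3 at h
  obtain ⟨k, hk⟩ := Nat.exists_eq_add_of_le h7
  have e : C 6 * N.coeff 3 = sA ^ k * K := by
    rw [C6]
    have h5 : sA ^ 7 * (6 * N.coeff 3) = sA ^ 7 * (sA ^ k * K) := by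
      rw [h, hk]; ring
    exact mul_left_cancel₀ (pow_ne_zero 7 sA_ne) h5
  apply LC_smul (k := 6) (by norm_num)
  rw [e]
  exact LC_pow hK k

theorem row3_small {K E : ℤ[X]} {p q : ℕ} {N : ℤ[X][X]} (h : Row3 K p q N)
    (hE : sA ^ (p + q) * K = sA ^ 7 * E) (hL : LC E) : LC (N.coeff 3) := by
  unfold Row3 at h
  have e : C 6 * N.coeff 3 = E := by
    rw [C6]
    have h5 : sA ^ 7 * (6 * N.coeff 3) = sA ^ 7 * E := by rw [h, hE]
    exact mul_left_cancel₀ (pow_ne_zero 7 sA_ne) h5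
  apply LC_smul (k := 6) (by norm_num)
  rw [e]
  exact hL

theorem LC_zero : LC (0 : ℤ[X]) := by
  constructor
  · intro i; simp
  · intro i j _; simp

theorem LC_one : LC (1 : ℤ[X]) := by
  have e : (1 : ℤ[X]) = C 0 * X ^ 2 + C 0 * X + C 1 := by simp
  rw [e]
  exact LC_quad (by norm_num) le_rfl le_rfl (by norm_num)

/-- All four rows. -/
theorem LC_rows {a b c d : ℕ} {P Q R : ℤ[X][X]} (h : PT a b c d P Q R) :
    LC (R.coeff 0) ∧ LC (R.coeff 1) ∧ LC (R.coeff 2) ∧ LC (R.coeff 3) := by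
  obtain ⟨hdet, hab, hcd, hP, hQ, hR1, hR2⟩ := PT_inv h
  have hc : 1 ≤ c := by
    rcases Nat.eq_zero_or_pos c with h0 | h0
    · rw [h0] at hdet; omega
    · exact h0
  have hlt : a + c < b + d := by
    by_contra hge
    have h1 : a = b := by omega
    have h2 : c = d := by omega
    rw [h1, h2] at hdet
    omega
  refine ⟨?_, ?_, row2_LC (by omega) hlt hR2, ?_⟩
  · obtain ⟨k, hk⟩ : ∃ k, a + c + (b + d) = k + 1 := ⟨a + c + (b + d) - 1, by omega⟩
    have e : R.coeff 0 = sA ^ k * 1 := by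
      have h0 := hR1.1
      rw [hk] at h0
      have h1 : sA * R.coeff 0 = sA * (sA ^ k * 1) := by rw [h0]; ring
      exact mul_left_cancel₀ sA_ne h1
    rw [e]
    exact LC_pow LC_one k
  · obtain ⟨k, hk⟩ : ∃ k, a + c + (b + d) = k + 3 := ⟨a + c + (b + d) - 3, by omega⟩
    have e : R.coeff 1 = sA ^ k * LL (a + c) (b + d) := by
      have h0 := hR1.2
      rw [hk] at h0
      have h1 : sA ^ 3 * R.coeff 1 = sA ^ 3 * (sA ^ k * LL (a + c) (b + d)) := by rw [h0]; ring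
      exact mul_left_cancel₀ (pow_ne_zero 3 sA_ne) h1
    rw [e]
    apply LC_pow
    have e2 : LL (a + c) (b + d) = C 0 * X ^ 2 + C (((b + d : ℕ) : ℤ) - 1) * X + C (((a + c : ℕ) : ℤ) - 1) := by
      unfold LL
      simp only [map_sub, map_one, map_natCast, map_zero]
      ring
    rw [e2]
    have hp' : (1 : ℤ) ≤ ((a + c : ℕ) : ℤ) := by exact_mod_cast (by omega : 1 ≤ a + c)
    have hq' : (1 : ℤ) ≤ ((b + d : ℕ) : ℤ) := by exact_mod_cast (by omega : 1 ≤ b + d)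
    exact LC_quad (by linarith) (by linarith) le_rfl (by nlinarith)
  · rcases PT_inv3 h with ⟨_, _, _, _, _, _, hR'⟩ | ⟨i1, _, _, i4, _, _⟩ | ⟨i1, _, _, i4, _, _⟩
    · rw [hR', Nh_coeff3]
      exact LC_zero
    · rcases Nat.lt_or_ge (a + c + (b + d)) 7 with h7 | h7
      · have hcase : a + c = 1 ∧ (b + d = 3 ∨ b + d = 4 ∨ b + d = 5) := by omega
        obtain ⟨hp1, hq⟩ := hcase
        rw [hp1] at i4
        rcases hq with hq | hq | hq
        · rw [hq] at i4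
          refine row3_small (E := 0) i4 ?_ LC_zero
          unfold KA
          push_cast
          ring
        · rw [hq] at i4
          refine row3_small (E := C 0 * X ^ 2 + C 6 * X + C 0) i4 ?_ ?_
          · unfold KA sA
            simp only [map_zero, map_ofNat]
            push_cast
            ring
          · exact LC_quad le_rfl (by norm_num) le_rfl (by norm_num)
        · rw [hq] at i4
          refine row3_small (E := C 24 * X ^ 2 + C 12 * X + C 0) i4 ?_ ?_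
          · unfold KA sA
            simp only [map_zero, map_ofNat]
            push_cast
            ring
          · exact LC_quad le_rfl (by norm_num) (by norm_num) (by norm_num)
      · exact row3_gen i4 (LC_KA (by omega) i1) h7
    · rcases Nat.lt_or_ge (a + c + (b + d)) 7 with h7 | h7
      · have hcase : a + c = 2 ∧ b + d = 3 := by omega
        obtain ⟨hp1, hq⟩ := hcase
        rw [hp1, hq] at i4
        refine row3_small (E := 0) i4 ?_ LC_zero
        unfold KB KA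
        push_cast
        ring
      · exact row3_gen i4 (LC_KB hlt i1) h7

end H79W
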