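import Pool.Agent.Lib.H79W.K

/-!
# H79W, file M: the numerators as homogeneous polynomials in three variables
-/

set_option autoImplicit false

namespace H79W

/-- Integer polynomials in three variables. -/
abbrev M3 : Type := MvPolynomial (Fin 3) ℤ

/-- The variables. -/
noncomputable abbrev vA : M3 := MvPolynomial.X 0
noncomputable abbrev vB : M3 := MvPolynomial.X 1
noncomputable abbrev vC : M3 := MvPolynomial.X 2

/-- The numerators. -/
inductive MT : ℕ → ℕ → ℕ → ℕ → M3 → M3 → M3 → Prop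
  | base : MT 0 1 1 1 1 (vA + vB) ((vA + vB) ^ 2 + vA * vC)
  | left {a b c d : ℕ} {P Q R : M3} : MT a b c d P Q R →
      MT a b (a + c) (b + d) P R ((vA + vB + vC) * (P * R) - vA ^ a * (vB ^ b * (vC ^ (a + b) * Q)))
  | right {a b c d : ℕ} {P Q R : M3} : MT a b c d P Q R →
      MT (a + c) (b + d) c d R Q ((vA + vB + vC) * (R * Q) - vA ^ c * (vB ^ d * (vC ^ (c + d) * P)))

/-- The substitution of the squares, as an element of the function field. -/
noncomputable def sq : M3 →+* F3 :=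
  (algebraMap M3 F3).comp (MvPolynomial.expand 2 : M3 →ₐ[ℤ] M3).toRingHom

theorem sq_X (i : Fin 3) : sq (MvPolynomial.X i) = var i ^ 2 := by
  unfold sq
  show algebraMap M3 F3 (MvPolynomial.expand 2 (MvPolynomial.X i)) = var i ^ 2
  rw [MvPolynomial.expand_X, map_pow]
  rfl

/-- The relation between a Markov polynomial and its numerator. -/
def EM (p q : ℕ) (N : M3) (Z : F3) : Prop :=
  sq N * (var 0 * var 1 * var 2) = Z * (var 0 ^ p * var 1 ^ q * var 2 ^ (p + q))

theorem EM_step {a b c d : ℕ} {NP NQ NR : M3}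
    {P Q R Z : F3} (hP : EM a b NP P) (hQ : EM c d NQ Q) (hR : EM (a + c) (b + d) NR R)
    (hZ : Z * (var 0 * var 1 * var 2) = (var 0 ^ 2 + var 1 ^ 2 + var 2 ^ 2) * (P * R) -
      Q * (var 0 * var 1 * var 2)) :
    EM (a + (a + c)) (b + (b + d))
      ((vA + vB + vC) * (NP * NR) - vA ^ a * (vB ^ b * (vC ^ (a + b) * NQ))) Z := by
  unfold EM at hP hQ hR ⊢
  have hx := (Pos_var 0).ne
  have hy := (Pos_var 1).ne
  have hz := (Pos_var 2).ne
  have e : sq ((vA + vB + vC) * (NP * NR) - vA ^ a * (vB ^ b * (vC ^ (a + b) * NQ))) =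
      (var 0 ^ 2 + var 1 ^ 2 + var 2 ^ 2) * (sq NP * sq NR) -
        (var 0 ^ 2) ^ a * ((var 1 ^ 2) ^ b * ((var 2 ^ 2) ^ (a + b) * sq NQ)) := by
    simp only [map_sub, map_mul, map_add, map_pow, sq_X, vA, vB, vC]
  rw [e]
  generalize sq NP = α at hP ⊢
  generalize sq NQ = β at hQ ⊢
  generalize sq NR = γ at hR ⊢
  generalize var 0 = x at *
  generalize var 1 = y at *
  generalize var 2 = z at *
  have hxyz : x * y * z ≠ 0 := mul_ne_zero (mul_ne_zero hx hy) hz
  apply mul_left_cancel₀ hxyz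
  linear_combination ((x ^ 2 + y ^ 2 + z ^ 2) * (γ * (x * y * z))) * hP +
    ((x ^ 2 + y ^ 2 + z ^ 2) * (P * (x ^ a * y ^ b * z ^ (a + b)))) * hR -
    ((x * y * z) * ((x ^ 2) ^ a * (y ^ 2) ^ b * (z ^ 2) ^ (a + b))) * hQ -
    (x ^ (a + (a + c)) * y ^ (b + (b + d)) * z ^ (a + (a + c) + (b + (b + d)))) * hZ

end H79W
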