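import Pool.Agent.Lib.H79W.M

/-!
# H79W, file M2: existence and homogeneity of the numerators, the substitutions `B = 1` and `C = 1`
-/

set_option autoImplicit false

namespace H79W

theorem step_alg' {x y z P Q R Z : F3} (hQ : Q ≠ 0) (hZ : Z = (P ^ 2 + R ^ 2) / Q)
    (hM : (P ^ 2 + Q ^ 2 + R ^ 2) * (x * y * z) = (x ^ 2 + y ^ 2 + z ^ 2) * (P * Q * R)) :
    Z * (x * y * z) = (x ^ 2 + y ^ 2 + z ^ 2) * (P * R) - Q * (x * y * z) ∧
      (P ^ 2 + R ^ 2 + Z ^ 2) * (x * y * z) = (x ^ 2 + y ^ 2 + z ^ 2) * (P * R * Z) := by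
  have hZQ : Z * Q = P ^ 2 + R ^ 2 := by rw [hZ]; field_simp
  have h1 : Z * (x * y * z) = (x ^ 2 + y ^ 2 + z ^ 2) * (P * R) - Q * (x * y * z) := by
    apply mul_left_cancel₀ hQ
    linear_combination (x * y * z) * hZQ + hM
  refine ⟨h1, ?_⟩
  linear_combination (-(x * y * z)) * hZQ + Z * h1

theorem EM_congr {p q p' q' : ℕ} {N N' : M3} {Z : F3} (hp : p = p') (hq : q = q') (hN : N = N')
    (h : EM p q N Z) : EM p' q' N' Z := by
  subst hp
  subst hq
  subst hN
  exact h

theorem corrM {a b c d : ℕ} {P Q R : F3} (h : Farey (var 0) (var 1) (var 2) a b c d P Q R) :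
    Pos P ∧ Pos Q ∧ Pos R ∧
    (P ^ 2 + Q ^ 2 + R ^ 2) * (var 0 * var 1 * var 2) =
      (var 0 ^ 2 + var 1 ^ 2 + var 2 ^ 2) * (P * Q * R) ∧
    ∃ NP NQ NR, MT a b c d NP NQ NR ∧ EM a b NP P ∧ EM c d NQ Q ∧ EM (a + c) (b + d) NR R := by
  have hx := Pos_var 0
  have hy := Pos_var 1
  have hz := Pos_var 2
  have hx0 := hx.ne
  have hy0 := hy.ne
  have hz0 := hz.ne
  induction h with
  | base =>
    have h11 : Pos ((var 0 ^ 2 + var 1 ^ 2) / var 2) := (hx.sq.add hy.sq).div hz
    refine ⟨hx, h11, (hx.sq.add h11.sq).div hy, ?_, 1, vA + vB, (vA + vB) ^ 2 + vA * vC, MT.base, ?_, ?_, ?_⟩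
    · field_simp
      ring
    · unfold EM
      rw [map_one]
      ring
    · unfold EM
      rw [map_add, sq_X, sq_X]
      field_simp
    · unfold EM
      rw [map_add, map_pow, map_mul, map_add, sq_X, sq_X, sq_X]
      field_simp
      ring
  | @left a b c d P Q R h ih =>
    obtain ⟨hP, hQ, hR, hM, NP, NQ, NR, hT, eP, eQ, eR⟩ := ih
    obtain ⟨s1, s2⟩ := step_alg' hQ.ne rfl hM
    exact ⟨hP, hR, (hP.sq.add hR.sq).div hQ, s2, NP, NR, _, MT.left hT, eP, eR,
      EM_step eP eQ eR s1⟩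
  | @right a b c d P Q R h ih =>
    obtain ⟨hP, hQ, hR, hM, NP, NQ, NR, hT, eP, eQ, eR⟩ := ih
    have hM' : (Q ^ 2 + P ^ 2 + R ^ 2) * (var 0 * var 1 * var 2) =
        (var 0 ^ 2 + var 1 ^ 2 + var 2 ^ 2) * (Q * P * R) := by
      linear_combination hM
    have hc : (R ^ 2 + Q ^ 2) / P = (Q ^ 2 + R ^ 2) / P := by rw [add_comm]
    obtain ⟨s1, s2⟩ := step_alg' hP.ne hc hM'
    refine ⟨hR, hQ, (hR.sq.add hQ.sq).div hP, by linear_combination s2, NR, NQ, _, MT.right hT, eR, eQ, ?_⟩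
    have eR' : EM (c + a) (d + b) NR R := EM_congr (by omega) (by omega) rfl eR
    exact EM_congr (by omega) (by omega) (by rw [mul_comm NQ NR]) (EM_step eQ eP eR' s1)

open MvPolynomial in
theorem MT_hom {a b c d : ℕ} {P Q R : M3} (h : MT a b c d P Q R) :
    1 ≤ a + b ∧ 1 ≤ c + d ∧ P.IsHomogeneous (a + b - 1) ∧ Q.IsHomogeneous (c + d - 1) ∧
      R.IsHomogeneous (a + c + (b + d) - 1) := by
  have hA : (vA : M3).IsHomogeneous 1 := isHomogeneous_X ℤ 0
  have hB : (vB : M3).IsHomogeneous 1 := isHomogeneous_X ℤ 1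
  have hC : (vC : M3).IsHomogeneous 1 := isHomogeneous_X ℤ 2
  have key : ∀ {p q p' q' : ℕ} {P R T : M3}, 1 ≤ p + q → 1 ≤ p' + q' → P.IsHomogeneous (p + q - 1) →
      R.IsHomogeneous (p' + q' - 1) → T.IsHomogeneous (p + p' + (q + q') - 1) →
      ((vA + vB + vC) * (P * R) - T).IsHomogeneous (p + p' + (q + q') - 1) := by
    intro p q p' q' P R T h1 h2 hP hR hT
    have h3 := ((hA.add hB).add hC).mul (hP.mul hR)
    have e : 1 + (p + q - 1 + (p' + q' - 1)) = p + p' + (q + q') - 1 := by omega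
    rw [e] at h3
    exact h3.sub hT
  induction h with
  | base =>
    refine ⟨by norm_num, by norm_num, isHomogeneous_one _ _, hA.add hB, ?_⟩
    exact ((hA.add hB).pow 2).add (hA.mul hC)
  | @left a b c d P Q R h ih =>
    obtain ⟨h1, h2, hP, hQ, hR⟩ := ih
    refine ⟨h1, by omega, hP, hR, key h1 (by omega) hP hR ?_⟩
    have h3 := (hA.pow a).mul ((hB.pow b).mul ((hC.pow (a + b)).mul hQ))
    have e : 1 * a + (1 * b + (1 * (a + b) + (c + d - 1))) = a + (a + c) + (b + (b + d)) - 1 := by omega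
    rw [e] at h3
    exact h3
  | @right a b c d P Q R h ih =>
    obtain ⟨h1, h2, hP, hQ, hR⟩ := ih
    refine ⟨by omega, h2, hR, hQ, key (by omega) h2 hR hQ ?_⟩
    have h3 := (hA.pow c).mul ((hB.pow d).mul ((hC.pow (c + d)).mul hP))
    have e : 1 * c + (1 * d + (1 * (c + d) + (a + b - 1))) = a + c + c + (b + d + d) - 1 := by omega
    rw [e] at h3
    exact h3

/-- The substitution `B = 1`. -/
noncomputable def sB : M3 →+* Polynomial (Polynomial ℤ) :=
  (MvPolynomial.aeval (R := ℤ) ![Polynomial.C Polynomial.X, (1 : Polynomial (Polynomial ℤ)),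
    Polynomial.X]).toRingHom

theorem sB_A : sB vA = Polynomial.C Polynomial.X := by simp [sB]
theorem sB_B : sB vB = 1 := by simp [sB]
theorem sB_C : sB vC = Polynomial.X := by simp [sB]

theorem MT_PT {a b c d : ℕ} {P Q R : M3} (h : MT a b c d P Q R) : PT a b c d (sB P) (sB Q) (sB R) := by
  induction h with
  | base =>
    have e1 : sB 1 = 1 := map_one _
    have e2 : sB (vA + vB) = Polynomial.C sA := by
      rw [map_add, sB_A, sB_B]
      unfold sA
      rw [Polynomial.C_add, Polynomial.C_1]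
    have e3 : sB ((vA + vB) ^ 2 + vA * vC) = Polynomial.C (sA ^ 2) + Polynomial.C Polynomial.X * Polynomial.X := by
      rw [map_add, map_pow, e2, map_mul, sB_A, sB_C, Polynomial.C_pow]
    rw [e1, e2, e3]
    exact PT.base
  | @left a b c d P Q R h ih =>
    have e : sB ((vA + vB + vC) * (P * R) - vA ^ a * (vB ^ b * (vC ^ (a + b) * Q))) =
        (Polynomial.C sA + Polynomial.X) * (sB P * sB R) -
          Polynomial.C (Polynomial.X ^ a) * (Polynomial.X ^ (a + b) * sB Q) := by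
      rw [map_sub, map_mul, map_mul, map_mul, map_mul, map_mul, map_pow, map_pow, map_pow, map_add, map_add,
        sB_A, sB_B, sB_C, one_pow, one_mul]
      unfold sA
      rw [Polynomial.C_add, Polynomial.C_1, Polynomial.C_pow]
    rw [e]
    exact PT.left ih
  | @right a b c d P Q R h ih =>
    have e : sB ((vA + vB + vC) * (R * Q) - vA ^ c * (vB ^ d * (vC ^ (c + d) * P))) =
        (Polynomial.C sA + Polynomial.X) * (sB R * sB Q) -
          Polynomial.C (Polynomial.X ^ c) * (Polynomial.X ^ (c + d) * sB P) := by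
      rw [map_sub, map_mul, map_mul, map_mul, map_mul, map_mul, map_pow, map_pow, map_pow, map_add, map_add,
        sB_A, sB_B, sB_C, one_pow, one_mul]
      unfold sA
      rw [Polynomial.C_add, Polynomial.C_1, Polynomial.C_pow]
    rw [e]
    exact PT.right ih

end H79W
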