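import Pool.Agent.Lib.H79W.M2

/-!
# H79W, file M3: the weights of the numerators
-/

set_option autoImplicit false

namespace H79W

/-- The exponent vector of `A^i B^j C^l`. -/
noncomputable def mon (i j l : ℕ) : Fin 3 →₀ ℕ :=
  Finsupp.single 0 i + Finsupp.single 1 j + Finsupp.single 2 l

theorem mon_zero (i j l : ℕ) : mon i j l 0 = i := by simp [mon]
theorem mon_one (i j l : ℕ) : mon i j l 1 = j := by simp [mon]
theorem mon_two (i j l : ℕ) : mon i j l 2 = l := by simp [mon]

theorem mon_eq (s : Fin 3 →₀ ℕ) : s = mon (s 0) (s 1) (s 2) := by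
  ext k
  fin_cases k
  · exact (mon_zero _ _ _).symm
  · exact (mon_one _ _ _).symm
  · exact (mon_two _ _ _).symm

theorem sB_monomial (s : Fin 3 →₀ ℕ) (r : ℤ) :
    sB (MvPolynomial.monomial s r) =
      Polynomial.C (Polynomial.C r * Polynomial.X ^ (s 0)) * Polynomial.X ^ (s 2) := by
  show MvPolynomial.aeval (R := ℤ) ![Polynomial.C Polynomial.X, (1 : Polynomial (Polynomial ℤ)),
    Polynomial.X] (MvPolynomial.monomial s r) = _
  rw [MvPolynomial.aeval_monomial, Finsupp.prod_fintype _ _ (by intro i; rw [pow_zero]), Fin.prod_univ_three]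
  simp only [Matrix.cons_val_zero, Matrix.cons_val_one, Matrix.cons_val, one_pow, mul_one]
  rw [Polynomial.C_mul, Polynomial.C_pow, mul_assoc]
  rfl

theorem sB_monomial_coeff (s : Fin 3 →₀ ℕ) (r : ℤ) (i m : ℕ) :
    ((sB (MvPolynomial.monomial s r)).coeff m).coeff i = if s 2 = m ∧ s 0 = i then r else 0 := by
  rw [sB_monomial, Polynomial.coeff_C_mul, Polynomial.coeff_X_pow]
  by_cases h2 : m = s 2
  · rw [if_pos h2, mul_one, Polynomial.coeff_C_mul, Polynomial.coeff_X_pow]
    by_cases h0 : i = s 0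
    · rw [if_pos h0, if_pos ⟨h2.symm, h0.symm⟩, mul_one]
    · rw [if_neg h0, if_neg (fun h => h0 h.2.symm), mul_zero]
  · rw [if_neg h2, mul_zero, Polynomial.coeff_zero, if_neg (fun h => h2 h.1.symm)]

theorem sB_coeff (N : M3) {e : ℕ} (hN : N.IsHomogeneous e) (i m : ℕ) (him : i + m ≤ e) :
    ((sB N).coeff m).coeff i = N.coeff (mon i (e - i - m) m) := by
  have h1 : sB N = ∑ s ∈ N.support, sB (MvPolynomial.monomial s (N.coeff s)) := by
    rw [← map_sum, ← MvPolynomial.as_sum N]
  rw [h1, Polynomial.finsetSum_coeff, Polynomial.finsetSum_coeff]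
  have h2 : ∀ s ∈ N.support, ((sB (MvPolynomial.monomial s (N.coeff s))).coeff m).coeff i =
      if s = mon i (e - i - m) m then N.coeff s else 0 := by
    intro s hs
    rw [sB_monomial_coeff]
    have hdeg : s 0 + s 1 + s 2 = e := by
      have h3 : Finsupp.degree s = e := by
        by_contra hne
        exact (MvPolynomial.mem_support_iff.mp hs) (hN.coeff_eq_zero hne)
      rw [Finsupp.degree_eq_sum, Fin.sum_univ_three] at h3
      exact h3
    by_cases h : s 2 = m ∧ s 0 = i
    · rw [if_pos h, if_pos]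
      rw [mon_eq s, h.1, h.2]
      congr 1
      omega
    · rw [if_neg h, if_neg]
      intro hs'
      apply h
      rw [hs', mon_two, mon_zero]
      exact ⟨rfl, rfl⟩
  rw [Finset.sum_congr rfl h2, Finset.sum_ite_eq']
  by_cases h : mon i (e - i - m) m ∈ N.support
  · rw [if_pos h]
  · rw [if_neg h]
    exact (MvPolynomial.notMem_support_iff.mp h).symm

/-- Weights outside the triangle vanish. -/
theorem sB_coeff_zero (N : M3) {e : ℕ} (hN : N.IsHomogeneous e) (i m : ℕ) (him : e < i + m) :
    ((sB N).coeff m).coeff i = 0 := by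
  have h1 : sB N = ∑ s ∈ N.support, sB (MvPolynomial.monomial s (N.coeff s)) := by
    rw [← map_sum, ← MvPolynomial.as_sum N]
  rw [h1, Polynomial.finsetSum_coeff, Polynomial.finsetSum_coeff]
  apply Finset.sum_eq_zero
  intro s hs
  rw [sB_monomial_coeff]
  have hdeg : s 0 + s 1 + s 2 = e := by
    have h3 : Finsupp.degree s = e := by
      by_contra hne
      exact (MvPolynomial.mem_support_iff.mp hs) (hN.coeff_eq_zero hne)
    rw [Finsupp.degree_eq_sum, Fin.sum_univ_three] at h3
    exact h3
  rw [if_neg (fun h => by omega)]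

end H79W
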