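import Pool.Agent.Lib.H79W.F10

/-!
# H79W, file N1: positivity of the reduced rows
-/

set_option autoImplicit false

namespace H79W

open Polynomial

/-- Nonnegative coefficients, and the inner degree is at most the outer one. -/
def NZ (f : ℤ[X][X]) : Prop := ∀ i j, 0 ≤ (f.coeff i).coeff j ∧ (i < j → (f.coeff i).coeff j = 0)

theorem NZ.add {f g : ℤ[X][X]} (hf : NZ f) (hg : NZ g) : NZ (f + g) := fun i j => by
  rw [coeff_add, coeff_add]
  refine ⟨add_nonneg (hf i j).1 (hg i j).1, fun h => ?_⟩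
  rw [(hf i j).2 h, (hg i j).2 h, add_zero]

theorem NZ.mul {f g : ℤ[X][X]} (hf : NZ f) (hg : NZ g) : NZ (f * g) := fun i j => by
  rw [coeff_mul, finsetSum_coeff]
  simp only [coeff_mul]
  refine ⟨Finset.sum_nonneg fun x _ => Finset.sum_nonneg fun y _ => mul_nonneg (hf _ _).1 (hg _ _).1, fun h => ?_⟩
  refine Finset.sum_eq_zero fun x hx => Finset.sum_eq_zero fun y hy => ?_
  have h1 := Finset.HasAntidiagonal.mem_antidiagonal.mp hx
  have h2 := Finset.HasAntidiagonal.mem_antidiagonal.mp hy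
  rcases lt_or_ge x.1 y.1 with h3 | h3
  · rw [(hf _ _).2 h3, zero_mul]
  · rw [(hg _ _).2 (by omega), mul_zero]

theorem NZ_one : NZ 1 := fun i j => by
  rw [coeff_one]
  split_ifs with h
  · rw [coeff_one]
    split_ifs with h2
    · exact ⟨by norm_num, fun h3 => by omega⟩
    · exact ⟨le_rfl, fun _ => rfl⟩
  · simp

theorem NZ_X : NZ X := fun i j => by
  rw [coeff_X]
  split_ifs with h
  · rw [coeff_one]
    split_ifs with h2
    · exact ⟨by norm_num, fun h3 => by omega⟩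
    · exact ⟨le_rfl, fun _ => rfl⟩
  · simp

theorem NZ_CX : NZ (C X * X) := fun i j => by
  rw [coeff_C_mul, coeff_X]
  split_ifs with h
  · rw [mul_one, coeff_X]
    split_ifs with h2
    · exact ⟨by norm_num, fun h3 => by omega⟩
    · exact ⟨le_rfl, fun _ => rfl⟩
  · simp

theorem NZ_sA : NZ (C sA * X) := by
  have e : (C sA * X : ℤ[X][X]) = C X * X + X := by
    unfold sA
    rw [C_add, C_1]; ring
  rw [e]
  exact NZ_CX.add NZ_X

/-- A positive matrix with trace `T` and the given determinant, whose upper right entry is `T / (1 + s ε)`. -/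
structure Mt (n m : ℕ) (T e11 e12 e21 e22 : ℤ[X][X]) : Prop where
  n11 : NZ e11
  n12 : NZ e12
  n21 : NZ e21
  n22 : NZ e22
  tr : T = e11 + e22
  det : e11 * e22 - e12 * e21 = C (X ^ n) * X ^ m
  up : T = (1 + C sA * X) * e12

theorem TT_mat {a b c d : ℕ} {P Q R : ℤ[X][X]} (h : TT a b c d P Q R) :
    ∃ p11 p12 p21 p22 q11 q12 q21 q22, Mt a (a + b) P p11 p12 p21 p22 ∧ Mt c (c + d) Q q11 q12 q21 q22 ∧
      Mt (a + c) (a + c + (b + d)) R (p11 * q11 + p12 * q21) (p11 * q12 + p12 * q22)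
        (p21 * q11 + p22 * q21) (p21 * q12 + p22 * q22) := by
  have hC : (C sA : ℤ[X][X]) = C X + 1 := by unfold sA; rw [C_add, C_1]
  induction h with
  | base =>
    refine ⟨1, 1, C X * X, C sA * X, 1 + X, 1, C X * X, C X * X, ?_, ?_, ?_⟩
    · exact ⟨NZ_one, NZ_one, NZ_CX, NZ_sA, rfl, by rw [hC]; simp; ring, by ring⟩
    · exact ⟨NZ_one.add NZ_X, NZ_one, NZ_CX, NZ_CX, by rw [hC]; ring, by simp; ring, by ring⟩
    · refine ⟨(NZ_one.mul (NZ_one.add NZ_X)).add (NZ_one.mul NZ_CX), (NZ_one.mul NZ_one).add (NZ_one.mul NZ_CX),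
        (NZ_CX.mul (NZ_one.add NZ_X)).add (NZ_sA.mul NZ_CX), (NZ_CX.mul NZ_one).add (NZ_sA.mul NZ_CX), ?_, ?_, ?_⟩
      · rw [hC]; ring
      · rw [hC]; simp; ring
      · ring
  | @left a b c d P Q R _ ih =>
    obtain ⟨p11, p12, p21, p22, q11, q12, q21, q22, hP, hQ, hR⟩ := ih
    refine ⟨p11, p12, p21, p22, _, _, _, _, hP, hR, ?_⟩
    have t1 := hP.tr
    have t2 := hP.det
    have t3 := hP.up
    have t4 := hQ.tr
    have t5 := hQ.det
    have t6 := hQ.up
    have t7 := hR.tr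
    have t8 := hR.det
    have t9 := hR.up
    refine ⟨(hP.n11.mul hR.n11).add (hP.n12.mul hR.n21), (hP.n11.mul hR.n12).add (hP.n12.mul hR.n22),
      (hP.n21.mul hR.n11).add (hP.n22.mul hR.n21), (hP.n21.mul hR.n12).add (hP.n22.mul hR.n22), ?_, ?_, ?_⟩
    · have e : C ((X : ℤ[X]) ^ a) * (X ^ (a + b) * Q) = (p11 * p22 - p12 * p21) * (q11 + q22) := by
        rw [t2, t4]; ring
      rw [e, t7, t1]
      ring
    · have e : (C ((X : ℤ[X]) ^ (a + (a + c))) * X ^ (a + (a + c) + (b + (b + d))) : ℤ[X][X]) =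
          (C (X ^ a) * X ^ (a + b)) * (C (X ^ (a + c)) * X ^ (a + c + (b + d))) := by
        rw [C_pow, C_pow, C_pow]; ring
      rw [e, ← t2, ← t8]
      ring
    · have e : C ((X : ℤ[X]) ^ a) * (X ^ (a + b) * Q) = (p11 * p22 - p12 * p21) * ((1 + C sA * X) * q12) := by
        rw [t2, t6]; ring
      rw [e, t9, t1]
      ring
  | @right a b c d P Q R _ ih =>
    obtain ⟨p11, p12, p21, p22, q11, q12, q21, q22, hP, hQ, hR⟩ := ih
    refine ⟨_, _, _, _, q11, q12, q21, q22, hR, hQ, ?_⟩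
    have t1 := hP.tr
    have t2 := hP.det
    have t3 := hP.up
    have t4 := hQ.tr
    have t5 := hQ.det
    have t6 := hQ.up
    have t7 := hR.tr
    have t8 := hR.det
    have t9 := hR.up
    refine ⟨(hR.n11.mul hQ.n11).add (hR.n12.mul hQ.n21), (hR.n11.mul hQ.n12).add (hR.n12.mul hQ.n22),
      (hR.n21.mul hQ.n11).add (hR.n22.mul hQ.n21), (hR.n21.mul hQ.n12).add (hR.n22.mul hQ.n22), ?_, ?_, ?_⟩
    · have e : C ((X : ℤ[X]) ^ c) * (X ^ (c + d) * P) = (q11 * q22 - q12 * q21) * (p11 + p22) := by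
        rw [t5, t1]; ring
      rw [e, t7, t4]
      ring
    · have e : (C ((X : ℤ[X]) ^ (a + c + c)) * X ^ (a + c + c + (b + d + d)) : ℤ[X][X]) =
          (C (X ^ (a + c)) * X ^ (a + c + (b + d))) * (C (X ^ c) * X ^ (c + d)) := by
        rw [C_pow, C_pow, C_pow]; ring
      rw [e, ← t5, ← t8]
      ring
    · have e : C ((X : ℤ[X]) ^ c) * (X ^ (c + d) * P) = (q11 * q22 - q12 * q21) * ((1 + C sA * X) * p12) := by
        rw [t5, t3]; ring
      rw [e, t9, t4]
      ring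

theorem Sr_eq {T e : ℤ[X][X]} (h : T = (1 + C sA * X) * e) (l : ℕ) : Sr T l = e.coeff l := by
  induction l with
  | zero =>
    rw [Sr, h, add_mul, one_mul, coeff_add, mul_assoc, coeff_C_mul, coeff_X_mul_zero, mul_zero, add_zero]
  | succ l ih =>
    rw [Sr, ih, h, add_mul, one_mul, coeff_add, mul_assoc, coeff_C_mul, coeff_X_mul]
    ring

theorem Sr_pos {a b c d : ℕ} {P Q R : ℤ[X][X]} (h : TT a b c d P Q R) (l k : ℕ) :
    0 ≤ (Sr R l).coeff k ∧ (l < k → (Sr R l).coeff k = 0) := by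
  obtain ⟨_, _, _, _, _, _, _, _, _, _, hR⟩ := TT_mat h
  rw [Sr_eq hR.up]
  exact hR.n12 l k

end H79W
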