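import Pool.Agent.Lib.H46M.Y
import Pool.Agent.Lib.H79W.N1

/-!
# H79W, file N2: the middle part of every diagonal line of every Markov polynomial
-/

set_option autoImplicit false

namespace H79W

open Polynomial

theorem crit_mid {l D n : ℕ} {σ : ℕ → ℝ} (h0 : ∀ k, 0 ≤ σ k) {x y : ℝ} (hx : x = (n : ℝ) + 2 - l)
    (hy : y = (D : ℝ) - n) (hx0 : 0 < x) (hy0 : 0 < y) (h : (l : ℝ) ^ 2 * (x + y) ≤ 4 * (x * y)) :
    ((D : ℝ) + 2) * ((∑ k ∈ Finset.range (l + 1), σ k * bt D n k) *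
        (∑ k ∈ Finset.range (l + 1), σ k * bt D n k * ((n : ℝ) + 2 - k) ^ 2) -
        (∑ k ∈ Finset.range (l + 1), σ k * bt D n k * ((n : ℝ) + 2 - k)) ^ 2) ≤
      (∑ k ∈ Finset.range (l + 1), σ k * bt D n k * ((n : ℝ) + 2 - k)) *
        (((D : ℝ) + 2) * (∑ k ∈ Finset.range (l + 1), σ k * bt D n k) -
          ∑ k ∈ Finset.range (l + 1), σ k * bt D n k * ((n : ℝ) + 2 - k)) := by
  obtain ⟨v, hv⟩ : ∃ v : ℕ → ℝ, v = fun k => σ k * bt D n k := ⟨_, rfl⟩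
  have hv0 : ∀ k, 0 ≤ v k := fun k => by rw [hv]; exact mul_nonneg (h0 k) (bt_nn _ _ _)
  have eM0 : ∑ k ∈ Finset.range (l + 1), σ k * bt D n k = ∑ k ∈ Finset.range (l + 1), v k := by rw [hv]
  have eM1 : ∑ k ∈ Finset.range (l + 1), σ k * bt D n k * ((n : ℝ) + 2 - k) =
      ∑ k ∈ Finset.range (l + 1), v k * ((n : ℝ) + 2 - k) := by rw [hv]
  have eM2 : ∑ k ∈ Finset.range (l + 1), σ k * bt D n k * ((n : ℝ) + 2 - k) ^ 2 =
      ∑ k ∈ Finset.range (l + 1), v k * ((n : ℝ) + 2 - k) ^ 2 := by rw [hv]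
  rw [eM0, eM1, eM2]
  obtain ⟨F, hF⟩ : ∃ F : ℝ, F = (D : ℝ) + 2 := ⟨_, rfl⟩
  have hF0 : 0 < F := by rw [hF]; positivity
  obtain ⟨m0, hm0⟩ : ∃ x, x = ∑ k ∈ Finset.range (l + 1), v k := ⟨_, rfl⟩
  obtain ⟨m1, hm1⟩ : ∃ x, x = ∑ k ∈ Finset.range (l + 1), v k * ((n : ℝ) + 2 - k) := ⟨_, rfl⟩
  obtain ⟨m2, hm2⟩ : ∃ x, x = ∑ k ∈ Finset.range (l + 1), v k * ((n : ℝ) + 2 - k) ^ 2 := ⟨_, rfl⟩
  rw [← hm0, ← hm1, ← hm2, ← hF]
  have hm00 : 0 ≤ m0 := by rw [hm0]; exact Finset.sum_nonneg fun k _ => hv0 k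
  obtain ⟨K1, hK1⟩ : ∃ x, x = ∑ k ∈ Finset.range (l + 1), v k * ((l : ℝ) / 2 - k) := ⟨_, rfl⟩
  obtain ⟨K2, hK2⟩ : ∃ x, x = ∑ k ∈ Finset.range (l + 1), v k * ((l : ℝ) / 2 - k) ^ 2 := ⟨_, rfl⟩
  have hid1 : m1 = (x + l / 2) * m0 + K1 := by
    rw [hm1, hm0, hK1, Finset.mul_sum, ← Finset.sum_add_distrib, hx]
    refine Finset.sum_congr rfl fun k _ => ?_
    ring
  have hid2 : m2 = (x + l / 2) ^ 2 * m0 + 2 * (x + l / 2) * K1 + K2 := by
    rw [hm2, hm0, hK1, hK2, Finset.mul_sum, Finset.mul_sum, ← Finset.sum_add_distrib, ← Finset.sum_add_distrib, hx]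
    refine Finset.sum_congr rfl fun k _ => ?_
    ring
  have hvar : m0 * m2 - m1 ^ 2 ≤ m0 * K2 := by
    rw [hid1, hid2]
    nlinarith [sq_nonneg K1]
  have hK2b : K2 ≤ (l : ℝ) ^ 2 / 4 * m0 := by
    rw [hK2, hm0, Finset.mul_sum]
    refine Finset.sum_le_sum fun k hk => ?_
    have hk' : (k : ℝ) ≤ l := by exact_mod_cast (show k ≤ l by have := Finset.mem_range.mp hk; omega)
    have hk0 : (0 : ℝ) ≤ k := Nat.cast_nonneg _
    have h1 : ((l : ℝ) / 2 - k) ^ 2 ≤ (l : ℝ) ^ 2 / 4 := by nlinarith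
    have := mul_le_mul_of_nonneg_left h1 (hv0 k)
    linarith
  have hu : x * m0 ≤ m1 := by
    rw [hm0, hm1, Finset.mul_sum]
    refine Finset.sum_le_sum fun k hk => ?_
    have hk' : (k : ℝ) ≤ l := by exact_mod_cast (show k ≤ l by have := Finset.mem_range.mp hk; omega)
    have h1 : x ≤ (n : ℝ) + 2 - k := by rw [hx]; linarith
    have := mul_le_mul_of_nonneg_left h1 (hv0 k)
    linarith
  have hw : y * m0 ≤ F * m0 - m1 := by
    have e : F * m0 - m1 = ∑ k ∈ Finset.range (l + 1), v k * ((D : ℝ) - n + k) := by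
      rw [hm0, hm1, hF, Finset.mul_sum, ← Finset.sum_sub_distrib]
      refine Finset.sum_congr rfl fun k _ => ?_
      ring
    rw [e, hm0, Finset.mul_sum]
    refine Finset.sum_le_sum fun k hk => ?_
    have hk0 : (0 : ℝ) ≤ k := Nat.cast_nonneg _
    have h1 : y ≤ (D : ℝ) - n + k := by rw [hy]; linarith
    have := mul_le_mul_of_nonneg_left h1 (hv0 k)
    linarith
  obtain ⟨u, hu'⟩ : ∃ u, u = m1 := ⟨_, rfl⟩
  obtain ⟨w, hw'⟩ : ∃ w, w = F * m0 - m1 := ⟨_, rfl⟩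
  rw [← hw'] at hw ⊢
  have huw : u + w = F * m0 := by rw [hu', hw']; ring
  rw [← hu'] at hu hvar ⊢
  have hu0 : 0 ≤ u := le_trans (by positivity) hu
  have hw0 : 0 ≤ w := le_trans (by positivity) hw
  have h1 : x * y * m0 * (u + w) ≤ (x + y) * (u * w) := by
    have e : (x + y) * (u * w) - x * y * m0 * (u + w) = u * x * (w - y * m0) + w * y * (u - x * m0) := by ring
    have e2 : 0 ≤ u * x * (w - y * m0) + w * y * (u - x * m0) :=
      add_nonneg (mul_nonneg (mul_nonneg hu0 hx0.le) (by linarith)) (mul_nonneg (mul_nonneg hw0 hy0.le) (by linarith))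
    linarith
  have h2 : (x + y) * (F * ((l : ℝ) ^ 2 / 4 * m0 * m0)) ≤ (x + y) * (u * w) := by
    have h3 : (l : ℝ) ^ 2 * (x + y) * (m0 * (F * m0)) ≤ 4 * (x * y) * (m0 * (F * m0)) :=
      mul_le_mul_of_nonneg_right h (by positivity)
    rw [huw] at h1
    nlinarith
  have h4 := le_of_mul_le_mul_left h2 (by linarith)
  calc F * (m0 * m2 - u ^ 2) ≤ F * (m0 * ((l : ℝ) ^ 2 / 4 * m0)) :=
        mul_le_mul_of_nonneg_left (hvar.trans (mul_le_mul_of_nonneg_left hK2b hm00)) hF0.le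
    _ = F * ((l : ℝ) ^ 2 / 4 * m0 * m0) := by ring
    _ ≤ u * w := h4

theorem row_of_crit {l D n : ℕ} {S : ℤ[X]} (hS0 : ∀ k, l < k → S.coeff k = 0)
    (hcr : ((D : ℝ) + 2) * ((∑ k ∈ Finset.range (l + 1), ((S.coeff k : ℤ) : ℝ) * bt D n k) *
        (∑ k ∈ Finset.range (l + 1), ((S.coeff k : ℤ) : ℝ) * bt D n k * ((n : ℝ) + 2 - k) ^ 2) -
        (∑ k ∈ Finset.range (l + 1), ((S.coeff k : ℤ) : ℝ) * bt D n k * ((n : ℝ) + 2 - k)) ^ 2) ≤
      (∑ k ∈ Finset.range (l + 1), ((S.coeff k : ℤ) : ℝ) * bt D n k * ((n : ℝ) + 2 - k)) *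
        (((D : ℝ) + 2) * (∑ k ∈ Finset.range (l + 1), ((S.coeff k : ℤ) : ℝ) * bt D n k) -
          ∑ k ∈ Finset.range (l + 1), ((S.coeff k : ℤ) : ℝ) * bt D n k * ((n : ℝ) + 2 - k))) :
    (sA ^ D * S).coeff n * (sA ^ D * S).coeff (n + 2) ≤ (sA ^ D * S).coeff (n + 1) ^ 2 := by
  have key : (((sA ^ D * S).coeff n : ℤ) : ℝ) * (((sA ^ D * S).coeff (n + 2) : ℤ) : ℝ) ≤
      (((sA ^ D * S).coeff (n + 1) : ℤ) : ℝ) ^ 2 := by
    rw [row_coeff hS0, row_coeff hS0, row_coeff hS0]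
    obtain ⟨σ, hσ⟩ : ∃ σ : ℕ → ℝ, σ = fun k => ((S.coeff k : ℤ) : ℝ) := ⟨_, rfl⟩
    have hσk : ∀ k, ((S.coeff k : ℤ) : ℝ) = σ k := fun k => by rw [hσ]
    simp only [hσk] at hcr ⊢
    obtain ⟨m0, hm0⟩ : ∃ x, x = ∑ k ∈ Finset.range (l + 1), σ k * bt D n k := ⟨_, rfl⟩
    obtain ⟨m1, hm1⟩ : ∃ x, x = ∑ k ∈ Finset.range (l + 1), σ k * bt D n k * ((n : ℝ) + 2 - k) := ⟨_, rfl⟩
    obtain ⟨m2, hm2⟩ : ∃ x, x = ∑ k ∈ Finset.range (l + 1), σ k * bt D n k * ((n : ℝ) + 2 - k) ^ 2 := ⟨_, rfl⟩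
    rw [← hm0, ← hm1, ← hm2] at hcr
    have hF : (1 : ℝ) ≤ (D : ℝ) + 2 := by
      have : (0 : ℝ) ≤ D := Nat.cast_nonneg _
      linarith
    have hv := var_crit hF hcr
    have r0 : ((D : ℝ) + 2) * ((D : ℝ) + 1) *
        (∑ k ∈ Finset.range (l + 1), σ k * (if k ≤ n then ((D.choose (n - k) : ℕ) : ℝ) else 0)) = m2 - m1 := by
      rw [hm1, hm2, Finset.mul_sum, ← Finset.sum_sub_distrib]
      refine Finset.sum_congr rfl fun k _ => ?_
      have := bt_0 D n k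
      linear_combination σ k * this
    have r1 : ((D : ℝ) + 2) * ((D : ℝ) + 1) *
        (∑ k ∈ Finset.range (l + 1), σ k * (if k ≤ n + 1 then ((D.choose (n + 1 - k) : ℕ) : ℝ) else 0)) =
        ((D : ℝ) + 2) * m1 - m2 := by
      rw [hm1, hm2, Finset.mul_sum, Finset.mul_sum, ← Finset.sum_sub_distrib]
      refine Finset.sum_congr rfl fun k _ => ?_
      have := bt_1 D n k
      linear_combination σ k * this
    have r2 : ((D : ℝ) + 2) * ((D : ℝ) + 1) *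
        (∑ k ∈ Finset.range (l + 1), σ k * (if k ≤ n + 2 then ((D.choose (n + 2 - k) : ℕ) : ℝ) else 0)) =
        ((D : ℝ) + 2) * ((D : ℝ) + 2 - 1) * m0 - (2 * ((D : ℝ) + 2) - 1) * m1 + m2 := by
      rw [hm0, hm1, hm2, Finset.mul_sum, Finset.mul_sum, Finset.mul_sum, ← Finset.sum_sub_distrib,
        ← Finset.sum_add_distrib]
      refine Finset.sum_congr rfl fun k _ => ?_
      have := bt_2 D n k
      linear_combination σ k * this
    rw [← r0, ← r1, ← r2] at hv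
    have hfin : (((D : ℝ) + 2) * ((D : ℝ) + 1)) ^ 2 *
        ((∑ k ∈ Finset.range (l + 1), σ k * (if k ≤ n then ((D.choose (n - k) : ℕ) : ℝ) else 0)) *
          (∑ k ∈ Finset.range (l + 1), σ k * (if k ≤ n + 2 then ((D.choose (n + 2 - k) : ℕ) : ℝ) else 0))) ≤
        (((D : ℝ) + 2) * ((D : ℝ) + 1)) ^ 2 *
          (∑ k ∈ Finset.range (l + 1), σ k * (if k ≤ n + 1 then ((D.choose (n + 1 - k) : ℕ) : ℝ) else 0)) ^ 2 := by
      linarith [hv]
    exact le_of_mul_le_mul_left hfin (by positivity)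
  exact_mod_cast key

/-- The condition on the lattice point. -/
def cmid (i j l : ℕ) : Prop :=
  l < i + 2 ∧ l < j + 2 ∧ (l : ℤ) ^ 2 * (i + j + 4 - 2 * l) ≤ 4 * ((i + 2 - l) * (j + 2 - l))

theorem row_mid {a b c d : ℕ} {P Q R : ℤ[X][X]} (h : PT a b c d P Q R) {l n j : ℕ}
    (hd : n + j + l + 3 = a + c + (b + d)) (hc : cmid n j l) :
    (R.coeff l).coeff n * (R.coeff l).coeff (n + 2) ≤ (R.coeff l).coeff (n + 1) ^ 2 := by
  obtain ⟨P', Q', R', hT, _, _, hR⟩ := PT_TT h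
  obtain ⟨hc1, hc2, hc3⟩ := hc
  have h2 := Rel_row hR l
  obtain ⟨D, hD⟩ : ∃ D, D = a + c + (b + d) - (2 * l + 1) := ⟨_, rfl⟩
  have hDn : D + l = n + j + 2 := by omega
  have e : a + c + (b + d) = (2 * l + 1) + D := by omega
  have h3 : R.coeff l = sA ^ D * Sr R' l := by
    have hne : sA ^ (2 * l + 1) ≠ 0 := pow_ne_zero _ sA_ne
    apply mul_left_cancel₀ hne
    rw [h2, ← mul_assoc, ← pow_add, ← e]
  rw [h3]
  refine row_of_crit (fun k hk => (Sr_pos hT l k).2 hk) ?_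
  have hDr : (D : ℝ) + l = n + j + 2 := by exact_mod_cast hDn
  have hc1' : (l : ℝ) < n + 2 := by exact_mod_cast hc1
  have hc2' : (l : ℝ) < j + 2 := by exact_mod_cast hc2
  have hc3' : (l : ℝ) ^ 2 * (n + j + 4 - 2 * l) ≤ 4 * ((n + 2 - l) * (j + 2 - l)) := by exact_mod_cast hc3
  refine crit_mid (σ := fun k => (((Sr R' l).coeff k : ℤ) : ℝ)) (x := (n : ℝ) + 2 - l) (y := (j : ℝ) + 2 - l)
    (fun k => ?_) rfl (by linarith) (by linarith) (by linarith) ?_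
  · exact_mod_cast (Sr_pos hT l k).1
  · have e1 : (n : ℝ) + 2 - l + (j + 2 - l) = n + j + 4 - 2 * l := by ring
    rw [e1]
    exact hc3'

open MvPolynomial H46M

theorem W_symm' {N : MvPolynomial (Fin 3) ℤ} {u v : Fin 3} {f : Fin 3 →₀ ℕ} (h : W N u v f) : W N v u f := by
  unfold W at *
  rw [mul_comm, add_right_comm]
  exact h

theorem mt_mid {p q r s : ℕ} {P Q N : MvPolynomial (Fin 3) ℤ} (hT : MT p q r s P Q N) (f : Fin 3 →₀ ℕ)
    (hf : cmid (f 0) (f 1) (f 2)) : W N 0 1 f := by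
  obtain ⟨_, _, _, _, hH⟩ := MT_hom hT
  obtain ⟨hdet, hab, hcd, _⟩ := PT_inv (MT_PT hT)
  obtain ⟨e, he⟩ : ∃ e, e = p + r + (q + s) - 1 := ⟨_, rfl⟩
  rw [← he] at hH
  have hpos : 1 ≤ p + r + (q + s) := by
    by_contra h0
    have h1 : r = 0 := by omega
    rw [h1] at hdet; omega
  by_cases hd : f 0 + f 1 + f 2 + 2 = e
  · rw [W, mon_eq f]
    have hLC := row_mid (MT_PT hT) (l := f 2) (n := f 0) (j := f 1) (by omega) hf
    generalize f 0 = i at *
    generalize f 1 = j at *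
    generalize f 2 = l at *
    simp +decide only [mon_add, if_true, if_false, add_zero]
    rw [sB_coeff N hH i l (by omega), sB_coeff N hH (i + 2) l (by omega), sB_coeff N hH (i + 1) l (by omega)] at hLC
    rw [show e - i - l = j + 2 by omega, show e - (i + 2) - l = j by omega,
      show e - (i + 1) - l = j + 1 by omega] at hLC
    rw [mul_comm (N.coeff (mon (i + 2) j l))]
    exact hLC
  · have h1 : N.coeff (f + Finsupp.single 0 2) = 0 := by
      by_contra h0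
      apply hd
      have := deg_eq hH h0
      rw [← this, map_add, Finsupp.degree_single, Finsupp.degree_eq_sum, Fin.sum_univ_three]
    rw [W, h1, zero_mul]
    exact sq_nonneg _

theorem cmid_symm {i j l : ℕ} (h : cmid i j l) : cmid j i l := by
  obtain ⟨h1, h2, h3⟩ := h
  refine ⟨h2, h1, ?_⟩
  have e1 : ((j : ℤ) + i + 4 - 2 * l) = i + j + 4 - 2 * l := by ring
  rw [e1, mul_comm ((j : ℤ) + 2 - l)]
  exact h3

/-- The property of the node `(p, q)`. -/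
def DM' (N : MvPolynomial (Fin 3) ℤ) : Prop := ∀ f : Fin 3 →₀ ℕ, cmid (f 0) (f 1) (f 2) → W N 0 1 f

theorem third_mid {p q r s : ℕ} {P Q N : MvPolynomial (Fin 3) ℤ}
    (h : Tri (X 0 : MvPolynomial (Fin 3) ℤ) (X 1) (X 2) p q r s P Q N) : DM' N := by
  intro f hf
  rcases h.cls with ⟨rfl, rfl, rfl, rfl, rfl, rfl, rfl⟩ | h | h
  · have : (X 0 + X 1 : MvPolynomial (Fin 3) ℤ).IsHomogeneous 1 :=
      (isHomogeneous_X _ 0).add (isHomogeneous_X _ 1)
    exact W_small this le_rfl _ _ _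
  · exact mt_mid h f hf
  · have e : ∀ t, (f.mapDomain (Equiv.swap (0 : Fin 3) 1)) (Equiv.swap (0 : Fin 3) 1 t) = f t :=
      fun t => Finsupp.mapDomain_apply (Equiv.swap (0 : Fin 3) 1).injective f t
    have e2 : (f.mapDomain (Equiv.swap (0 : Fin 3) 1)) 2 = f 2 := by
      have := e 2
      rw [Equiv.swap_apply_of_ne_of_ne (by decide) (by decide)] at this
      exact this
    have e1 : (f.mapDomain (Equiv.swap (0 : Fin 3) 1)) 1 = f 0 := by
      have := e 0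
      rw [Equiv.swap_apply_left] at this
      exact this
    have e0 : (f.mapDomain (Equiv.swap (0 : Fin 3) 1)) 0 = f 1 := by
      have := e 1
      rw [Equiv.swap_apply_right] at this
      exact this
    have h2 := mt_mid h (f.mapDomain (Equiv.swap (0 : Fin 3) 1)) (by
      rw [e0, e1, e2]; exact cmid_symm hf)
    exact W_symm' ((W_rename (Equiv.swap (0 : Fin 3) 1) N 1 0 f).mp h2)

theorem tri_mid {p q r s : ℕ} {P Q N : MvPolynomial (Fin 3) ℤ}
    (h : Tri (X 0 : MvPolynomial (Fin 3) ℤ) (X 1) (X 2) p q r s P Q N) : DM' P ∧ DM' Q := by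
  induction h with
  | base =>
    have : (1 : MvPolynomial (Fin 3) ℤ).IsHomogeneous 0 := isHomogeneous_one _ _
    exact ⟨fun _ _ => W_small this (by omega) _ _ _, fun _ _ => W_small this (by omega) _ _ _⟩
  | left h ih => exact ⟨ih.1, third_mid h⟩
  | right h ih => exact ⟨third_mid h, ih.2⟩

/-- What is proved about a Markov polynomial. -/
def ResM (N : MvPolynomial (Fin 3) ℤ) (α : Fin 3 → ℤ) : Prop :=
  ∀ i j k : Fin 3, i ≠ j → j ≠ k → i ≠ k → α i ≤ α k → α j ≤ α k → ∀ (f : Fin 3 →₀ ℕ) (e1 e2 l : ℕ),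
    f i = 2 * e1 → f j = 2 * e2 → f k = 2 * l → cmid e1 e2 l → W2 N i j f

theorem W2_mid {N : MvPolynomial (Fin 3) ℤ} (σ : Equiv.Perm (Fin 3)) {u v w : Fin 3} (huv : u ≠ v) (hvw : v ≠ w)
    (huw : u ≠ w) (h : ∀ g : Fin 3 →₀ ℕ, cmid (g u) (g v) (g w) → W N u v g) (f : Fin 3 →₀ ℕ) (e1 e2 l : ℕ)
    (h1 : f (σ u) = 2 * e1) (h2 : f (σ v) = 2 * e2) (h3 : f (σ w) = 2 * l) (hc : cmid e1 e2 l) :
    W2 (num σ N) (σ u) (σ v) f := by
  obtain ⟨g, rfl⟩ : ∃ g : Fin 3 →₀ ℕ, f = g.mapDomain σ := by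
    refine ⟨f.mapDomain σ.symm, ?_⟩
    rw [← Finsupp.mapDomain_comp]
    simp
  rw [Finsupp.mapDomain_apply σ.injective] at h1 h2 h3
  rw [num, W2_rename]
  obtain ⟨g', rfl⟩ : ∃ g' : Fin 3 →₀ ℕ, g = 2 • g' := by
    refine ⟨g.mapRange (fun n => n / 2) (by simp), ?_⟩
    ext t
    have hall : ∀ u v w t : Fin 3, u ≠ v → v ≠ w → u ≠ w → t = u ∨ t = v ∨ t = w := by decide
    have ht : t = u ∨ t = v ∨ t = w := hall u v w t huv hvw huw
    rcases ht with rfl | rfl | rfl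
    · simp; omega
    · simp; omega
    · simp; omega
  have k1 : g' u = e1 := by simpa using h1
  have k2 : g' v = e2 := by simpa using h2
  have k3 : g' w = l := by simpa using h3
  have q1 : 2 • g' + Finsupp.single u 4 = 2 • (g' + Finsupp.single u 2) := by
    rw [smul_add, Finsupp.smul_single]; rfl
  have q2 : 2 • g' + Finsupp.single v 4 = 2 • (g' + Finsupp.single v 2) := by
    rw [smul_add, Finsupp.smul_single]; rfl
  have q3 : 2 • g' + Finsupp.single u 2 + Finsupp.single v 2 =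
      2 • (g' + Finsupp.single u 1 + Finsupp.single v 1) := by
    rw [smul_add, smul_add, Finsupp.smul_single, Finsupp.smul_single]; rfl
  rw [W2, q1, q2, q3, coeff_expand_smul 2 two_ne_zero, coeff_expand_smul 2 two_ne_zero,
    coeff_expand_smul 2 two_ne_zero]
  exact h g' (by rw [k1, k2, k3]; exact hc)

theorem resM_val (σ : Equiv.Perm (Fin 3)) (p q : ℕ) {P : MvPolynomial (Fin 3) ℤ} (hD : DM' P)
    (hL : p = 0 ∨ q = 0 → P = 1) :
    ResM (num σ P) (fun t => ![(p : ℤ) - 1, (q : ℤ) - 1, (p : ℤ) + q - 1] (σ.symm t)) := by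
  intro i j k hij hjk hik h1 h2 f e1 e2 l k1 k2 k3 hc
  obtain ⟨i, rfl⟩ := σ.surjective i
  obtain ⟨j, rfl⟩ := σ.surjective j
  obtain ⟨k, rfl⟩ := σ.surjective k
  simp only [Equiv.symm_apply_apply] at h1 h2
  have hij' : i ≠ j := fun e => hij (by rw [e])
  have hjk' : j ≠ k := fun e => hjk (by rw [e])
  have hik' : i ≠ k := fun e => hik (by rw [e])
  by_cases h0 : p = 0 ∨ q = 0
  · rw [hL h0]
    exact W2_mid σ hij' hjk' hik' (fun g _ => W_small (isHomogeneous_one _ _) (by omega) _ _ _) f e1 e2 l k1 k2 k3 hc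
  · fin_cases i <;> fin_cases j <;> fin_cases k <;> first
      | exact absurd rfl hij'
      | exact absurd rfl hjk'
      | exact absurd rfl hik'
      | exact W2_mid σ (u := 0) (v := 1) (w := 2) (by decide) (by decide) (by decide) (fun g hg => hD g hg) f e1 e2 l k1 k2 k3 hc
      | exact W2_mid σ (u := 1) (v := 0) (w := 2) (by decide) (by decide) (by decide)
          (fun g hg => W_symm' (hD g (cmid_symm hg))) f e1 e2 l k1 k2 k3 hc
      | (exfalso; simp at h1 h2; omega)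

theorem W2_one' (u v : Fin 3) (f : Fin 3 →₀ ℕ) : W2 1 u v f := by
  have h1 : (1 : MvPolynomial (Fin 3) ℤ).coeff (f + Finsupp.single u 4) = 0 := by
    rw [MvPolynomial.coeff_one, if_neg]
    intro h
    have := DFunLike.congr_fun h u
    simp at this
  rw [W2, h1, zero_mul]
  exact sq_nonneg _

theorem can_mid {A B C : K} (h : Can A B C) : ∀ M ∈ ({A, B, C} : Multiset K),
    ∃ N α, Reduced M N α ∧ ResM N α := by
  intro M hM
  simp only [Multiset.insert_eq_cons, Multiset.mem_cons, Multiset.mem_singleton] at hM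
  cases h with
  | init σ =>
    rcases hM with rfl | rfl | rfl
    all_goals exact ⟨1, _, reduced_x _, fun i j k _ _ _ _ _ _ _ _ _ _ _ _ _ => W2_one' _ _ _⟩
  | @tree σ p q r s P Q N h =>
    obtain ⟨g1, g2, g3⟩ := h.good
    rcases hM with rfl | rfl | rfl
    · exact ⟨_, _, reduced_val σ _ _ g1, resM_val σ _ _ (tri_mid h).1 h.nl.1.2.2⟩
    · exact ⟨_, _, reduced_val σ _ _ g2, resM_val σ _ _ (tri_mid h).2 h.nl.2.2.2⟩
    · exact ⟨_, _, reduced_val σ _ _ g3, resM_val σ _ _ (third_mid h) (third h).2.2⟩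

theorem mid {A B C : K} (h : MarkovTriple A B C) :
    (∃! p : MvPolynomial (Fin 3) ℤ × (Fin 3 → ℤ), Reduced A p.1 p.2) ∧
      ∀ N α, Reduced A N α → ResM N α := by
  refine ⟨(full h).1, ?_⟩
  obtain ⟨A', B', C', h1, h2⟩ := cls_of_markov h
  obtain ⟨N, α, h3, h4⟩ := can_mid h1 A (by rw [← h2]; simp)
  intro N' α' h5
  obtain ⟨rfl, rfl⟩ := h5.unique h3
  exact h4

end H79W
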