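import Mathlib

/-!
# H79W, file P: numerators of the Markov polynomials modulo the third power of `z^2`
-/

set_option autoImplicit false

namespace H79W

open Polynomial

/-- `A + 1`. -/
noncomputable def sA : ℤ[X] := X + 1

/-- The numerators (at `B = 1`, as polynomials in `A` and in the outer variable `C`) of the Markov polynomials with the
labels `a/b`, `c/d` and `(a+c)/(b+d)`. -/
inductive PT : ℕ → ℕ → ℕ → ℕ → ℤ[X][X] → ℤ[X][X] → ℤ[X][X] → Prop
  | base : PT 0 1 1 1 1 (C sA) (C (sA ^ 2) + C X * X)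
  | left {a b c d : ℕ} {P Q R : ℤ[X][X]} : PT a b c d P Q R →
      PT a b (a + c) (b + d) P R ((C sA + X) * (P * R) - C (X ^ a) * (X ^ (a + b) * Q))
  | right {a b c d : ℕ} {P Q R : ℤ[X][X]} : PT a b c d P Q R →
      PT (a + c) (b + d) c d R Q ((C sA + X) * (R * Q) - C (X ^ c) * (X ^ (c + d) * P))

/-- The linear form of the second row. -/
noncomputable def LL (p q : ℕ) : ℤ[X] := ((q : ℤ[X]) - 1) * X + ((p : ℤ[X]) - 1)

/-- Twice the quadratic form of the third row. -/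
noncomputable def QQ (p q : ℕ) : ℤ[X] :=
  ((q : ℤ[X]) - 1) * ((q : ℤ[X]) - 2) * X ^ 2 +
    2 * ((p : ℤ[X]) * (q : ℤ[X]) - 4 * (p : ℤ[X]) + 2) * X + ((p : ℤ[X]) - 1) * ((p : ℤ[X]) - 2)

/-- The first two rows. -/
def Row1 (p q : ℕ) (N : ℤ[X][X]) : Prop :=
  sA * N.coeff 0 = sA ^ (p + q) ∧ sA ^ 3 * N.coeff 1 = sA ^ (p + q) * LL p q

/-- The third row. -/
def Row2 (p q : ℕ) (N : ℤ[X][X]) : Prop :=
  sA ^ 5 * (2 * N.coeff 2) = sA ^ (p + q) * QQ p q

theorem coeff_mul_two (P R : ℤ[X][X]) :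
    (P * R).coeff 2 = P.coeff 0 * R.coeff 2 + P.coeff 1 * R.coeff 1 + P.coeff 2 * R.coeff 0 := by
  rw [coeff_mul]
  simp [Finset.Nat.antidiagonal_succ]
  ring

theorem st_coeff_zero (T : ℤ[X][X]) : ((C sA + X) * T).coeff 0 = sA * T.coeff 0 := by
  rw [add_mul, coeff_add, coeff_C_mul, mul_coeff_zero]
  simp

theorem st_coeff_succ (T : ℤ[X][X]) (m : ℕ) :
    ((C sA + X) * T).coeff (m + 1) = sA * T.coeff (m + 1) + T.coeff m := by
  rw [add_mul, coeff_add, coeff_C_mul, coeff_X_mul]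

theorem sub_coeff (a k m : ℕ) (Q : ℤ[X][X]) (h : m < k) :
    (C ((X : ℤ[X]) ^ a) * (X ^ k * Q)).coeff m = 0 := by
  rw [coeff_C_mul, coeff_X_pow_mul', if_neg (by omega), mul_zero]

theorem sub_coeff' (a k m : ℕ) (Q : ℤ[X][X]) (h : k ≤ m) :
    (C ((X : ℤ[X]) ^ a) * (X ^ k * Q)).coeff m = X ^ a * Q.coeff (m - k) := by
  rw [coeff_C_mul, coeff_X_pow_mul', if_pos h]

/-- The generic step. -/
theorem gen_step {p q p' q' : ℕ} {P R T : ℤ[X][X]} (hP1 : Row1 p q P) (hP2 : Row2 p q P)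
    (hR1 : Row1 p' q' R) (hR2 : Row2 p' q' R) (hT : ∀ m < 3, T.coeff m = 0) :
    Row1 (p + p') (q + q') ((C sA + X) * (P * R) - T) ∧
      Row2 (p + p') (q + q') ((C sA + X) * (P * R) - T) := by
  obtain ⟨hP0, hP1⟩ := hP1
  obtain ⟨hR0, hR1⟩ := hR1
  have e0 : ((C sA + X) * (P * R) - T).coeff 0 = sA * (P.coeff 0 * R.coeff 0) := by
    rw [coeff_sub, hT 0 (by norm_num), st_coeff_zero, mul_coeff_zero, sub_zero]
  have e1 : ((C sA + X) * (P * R) - T).coeff 1 =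
      sA * (P.coeff 0 * R.coeff 1 + P.coeff 1 * R.coeff 0) + P.coeff 0 * R.coeff 0 := by
    rw [coeff_sub, hT 1 (by norm_num), st_coeff_succ, mul_coeff_one, mul_coeff_zero, sub_zero]
  have e2 : ((C sA + X) * (P * R) - T).coeff 2 =
      sA * (P.coeff 0 * R.coeff 2 + P.coeff 1 * R.coeff 1 + P.coeff 2 * R.coeff 0) +
        (P.coeff 0 * R.coeff 1 + P.coeff 1 * R.coeff 0) := by
    rw [coeff_sub, hT 2 (by norm_num), st_coeff_succ, mul_coeff_one, coeff_mul_two, sub_zero]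
  unfold Row2 at hP2 hR2
  refine ⟨⟨?_, ?_⟩, ?_⟩
  · rw [e0]
    calc sA * (sA * (P.coeff 0 * R.coeff 0)) = (sA * P.coeff 0) * (sA * R.coeff 0) := by ring
      _ = _ := by rw [hP0, hR0]; ring
  · rw [e1]
    calc sA ^ 3 * (sA * (P.coeff 0 * R.coeff 1 + P.coeff 1 * R.coeff 0) + P.coeff 0 * R.coeff 0)
        = (sA * P.coeff 0) * (sA ^ 3 * R.coeff 1) + (sA ^ 3 * P.coeff 1) * (sA * R.coeff 0) +
          sA * ((sA * P.coeff 0) * (sA * R.coeff 0)) := by ring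
      _ = _ := by
        rw [hP0, hR0, hP1, hR1]
        unfold LL sA
        push_cast
        ring
  · unfold Row2
    rw [e2]
    calc sA ^ 5 * (2 * (sA * (P.coeff 0 * R.coeff 2 + P.coeff 1 * R.coeff 1 + P.coeff 2 * R.coeff 0) +
        (P.coeff 0 * R.coeff 1 + P.coeff 1 * R.coeff 0)))
        = (sA * P.coeff 0) * (sA ^ 5 * (2 * R.coeff 2)) +
          2 * ((sA ^ 3 * P.coeff 1) * (sA ^ 3 * R.coeff 1)) +
          (sA ^ 5 * (2 * P.coeff 2)) * (sA * R.coeff 0) +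
          2 * sA * ((sA * P.coeff 0) * (sA ^ 3 * R.coeff 1) + (sA ^ 3 * P.coeff 1) * (sA * R.coeff 0)) := by
          ring
      _ = _ := by
        rw [hP0, hR0, hP1, hR1, hP2, hR2]
        unfold LL QQ sA
        push_cast
        ring

end H79W
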