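import Pool.Agent.Lib.H79W.P

/-!
# H79W, file P2: the first three rows of the numerators, by induction over the Farey tree
-/

set_option autoImplicit false

namespace H79W

open Polynomial

theorem row1_one_one : Row1 1 1 (C sA) := by
  constructor
  · rw [coeff_C_zero]; ring
  · rw [coeff_C_of_ne_zero (by norm_num)]
    unfold LL
    push_cast
    ring

theorem row1_zero (P : ℤ[X][X]) (h : P = 1) : sA * P.coeff 0 = sA ^ (0 + 1) := by
  rw [h, coeff_one_zero]; ring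

theorem base_rows : Row1 1 2 (C (sA ^ 2) + C X * X) ∧ Row2 1 2 (C (sA ^ 2) + C X * X) := by
  refine ⟨⟨?_, ?_⟩, ?_⟩
  · rw [coeff_add, coeff_C_zero, mul_coeff_zero, coeff_X_zero]; ring
  · rw [coeff_add, coeff_C_of_ne_zero (by norm_num), coeff_C_mul, coeff_X_one]
    unfold LL
    push_cast
    ring
  · unfold Row2
    rw [coeff_add, coeff_C_of_ne_zero (by norm_num), coeff_C_mul, coeff_X]
    unfold QQ
    push_cast
    simp
    right
    ring

/-- Left step, the left end being the label `0/1`. -/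
theorem left_zero {d : ℕ} {Q R : ℤ[X][X]} (hQ : Row1 1 d Q) (hR1 : Row1 1 (d + 1) R) (hR2 : Row2 1 (d + 1) R) :
    Row1 1 (d + 2) ((C sA + X) * (1 * R) - C (X ^ 0) * (X ^ 1 * Q)) ∧
      Row2 1 (d + 2) ((C sA + X) * (1 * R) - C (X ^ 0) * (X ^ 1 * Q)) := by
  obtain ⟨hQ0, hQ1⟩ := hQ
  obtain ⟨hR0, hR1⟩ := hR1
  unfold Row2 at hR2
  rw [one_mul]
  have e0 : ((C sA + X) * R - C (X ^ 0) * (X ^ 1 * Q)).coeff 0 = sA * R.coeff 0 := by
    rw [coeff_sub, sub_coeff _ _ _ _ (by norm_num), st_coeff_zero, sub_zero]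
  have e1 : ((C sA + X) * R - C (X ^ 0) * (X ^ 1 * Q)).coeff 1 =
      sA * R.coeff 1 + R.coeff 0 - Q.coeff 0 := by
    rw [coeff_sub, sub_coeff' _ _ _ _ (by norm_num), st_coeff_succ]
    simp
  have e2 : ((C sA + X) * R - C (X ^ 0) * (X ^ 1 * Q)).coeff 2 =
      sA * R.coeff 2 + R.coeff 1 - Q.coeff 1 := by
    rw [coeff_sub, sub_coeff' _ _ _ _ (by norm_num), st_coeff_succ]
    simp
  refine ⟨⟨?_, ?_⟩, ?_⟩
  · rw [e0, hR0]; ring
  · rw [e1]
    calc sA ^ 3 * (sA * R.coeff 1 + R.coeff 0 - Q.coeff 0)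
        = sA * (sA ^ 3 * R.coeff 1) + sA ^ 2 * (sA * R.coeff 0) - sA ^ 2 * (sA * Q.coeff 0) := by ring
      _ = _ := by
        rw [hR0, hR1, hQ0]
        unfold LL sA
        push_cast
        ring
  · unfold Row2
    rw [e2]
    calc sA ^ 5 * (2 * (sA * R.coeff 2 + R.coeff 1 - Q.coeff 1))
        = sA * (sA ^ 5 * (2 * R.coeff 2)) + 2 * sA ^ 2 * (sA ^ 3 * R.coeff 1) -
          2 * sA ^ 2 * (sA ^ 3 * Q.coeff 1) := by ring
      _ = _ := by
        rw [hR1, hR2, hQ1]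
        unfold LL QQ sA
        push_cast
        ring

/-- Right step, the right end being the label `1/1`. -/
theorem right_one {a : ℕ} {P R : ℤ[X][X]} (hP : sA * P.coeff 0 = sA ^ (a + (a + 1)))
    (hR1 : Row1 (a + 1) (a + 2) R) (hR2 : Row2 (a + 1) (a + 2) R) :
    Row1 (a + 2) (a + 3) ((C sA + X) * (R * C sA) - C (X ^ 1) * (X ^ 2 * P)) ∧
      Row2 (a + 2) (a + 3) ((C sA + X) * (R * C sA) - C (X ^ 1) * (X ^ 2 * P)) := by
  obtain ⟨hR0, hR1⟩ := hR1
  unfold Row2 at hR2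
  have e0 : ((C sA + X) * (R * C sA) - C (X ^ 1) * (X ^ 2 * P)).coeff 0 = sA * (R.coeff 0 * sA) := by
    rw [coeff_sub, sub_coeff _ _ _ _ (by norm_num), st_coeff_zero, coeff_mul_C, sub_zero]
  have e1 : ((C sA + X) * (R * C sA) - C (X ^ 1) * (X ^ 2 * P)).coeff 1 =
      sA * (R.coeff 1 * sA) + R.coeff 0 * sA := by
    rw [coeff_sub, sub_coeff _ _ _ _ (by norm_num), st_coeff_succ, coeff_mul_C, coeff_mul_C, sub_zero]
  have e2 : ((C sA + X) * (R * C sA) - C (X ^ 1) * (X ^ 2 * P)).coeff 2 =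
      sA * (R.coeff 2 * sA) + R.coeff 1 * sA - X * P.coeff 0 := by
    rw [coeff_sub, sub_coeff' _ _ _ _ (by norm_num), st_coeff_succ, coeff_mul_C, coeff_mul_C]
    simp
  refine ⟨⟨?_, ?_⟩, ?_⟩
  · rw [e0]
    calc sA * (sA * (R.coeff 0 * sA)) = sA ^ 2 * (sA * R.coeff 0) := by ring
      _ = _ := by rw [hR0]; ring
  · rw [e1]
    calc sA ^ 3 * (sA * (R.coeff 1 * sA) + R.coeff 0 * sA)
        = sA ^ 2 * (sA ^ 3 * R.coeff 1) + sA ^ 3 * (sA * R.coeff 0) := by ring
      _ = _ := by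
        rw [hR0, hR1]
        unfold LL sA
        push_cast
        ring
  · unfold Row2
    rw [e2]
    calc sA ^ 5 * (2 * (sA * (R.coeff 2 * sA) + R.coeff 1 * sA - X * P.coeff 0))
        = sA ^ 2 * (sA ^ 5 * (2 * R.coeff 2)) + 2 * sA ^ 3 * (sA ^ 3 * R.coeff 1) -
          2 * X * sA ^ 4 * (sA * P.coeff 0) := by ring
      _ = _ := by
        rw [hR1, hR2, hP]
        unfold LL QQ sA
        push_cast
        ring

/-- The invariants of the tree. -/
theorem PT_inv {a b c d : ℕ} {P Q R : ℤ[X][X]} (h : PT a b c d P Q R) :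
    b * c = a * d + 1 ∧ a ≤ b ∧ c ≤ d ∧
    ((a = 0 ∧ b = 1 ∧ P = 1) ∨ (Row1 a b P ∧ Row2 a b P ∧ 1 ≤ a)) ∧
    ((c = 1 ∧ d = 1 ∧ Q = C sA) ∨ (Row1 c d Q ∧ Row2 c d Q ∧ 3 ≤ c + d)) ∧
    Row1 (a + c) (b + d) R ∧ Row2 (a + c) (b + d) R := by
  induction h with
  | base =>
    refine ⟨by norm_num, by norm_num, by norm_num, Or.inl ⟨rfl, rfl, rfl⟩, Or.inl ⟨rfl, rfl, rfl⟩, ?_⟩
    exact base_rows
  | @left a b c d P Q R h ih =>
    obtain ⟨hdet, hab, hcd, hP, hQ, hR1, hR2⟩ := ih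
    have hb : 1 ≤ b := by
      rcases Nat.eq_zero_or_pos b with h0 | h0
      · rw [h0] at hdet; omega
      · exact h0
    have hc : 1 ≤ c := by
      rcases Nat.eq_zero_or_pos c with h0 | h0
      · rw [h0] at hdet; omega
      · exact h0
    refine ⟨by nlinarith, hab, by omega, hP, Or.inr ⟨hR1, hR2, by omega⟩, ?_⟩
    rcases hP with ⟨ha, hb', hP⟩ | ⟨hP1, hP2, ha⟩
    · subst ha
      subst hb'
      subst hP
      have hc1 : c = 1 := by omega
      subst hc1
      have hQ1 : Row1 1 d Q := by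
        rcases hQ with ⟨_, hd, hQ⟩ | ⟨hQ, _, _⟩
        · rw [hd, hQ]; exact row1_one_one
        · exact hQ
      have hR1' : Row1 1 (d + 1) R := by
        have e : (1 : ℕ) + d = d + 1 := by omega
        rw [← e]; exact hR1
      have hR2' : Row2 1 (d + 1) R := by
        have e : (1 : ℕ) + d = d + 1 := by omega
        rw [← e]; exact hR2
      have hh := left_zero hQ1 hR1' hR2'
      have e1 : 0 + (0 + 1) = 1 := rfl
      have e2 : 1 + (1 + d) = d + 2 := by omega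
      rw [e1, e2]
      exact hh
    · have h3 : 3 ≤ a + b := by
        by_contra hlt
        have ha1 : a = 1 := by omega
        have hb1 : b = 1 := by omega
        rw [ha1, hb1] at hdet
        omega
      exact gen_step hP1 hP2 hR1 hR2 (fun m hm => sub_coeff _ _ _ _ (by omega))
  | @right a b c d P Q R h ih =>
    obtain ⟨hdet, hab, hcd, hP, hQ, hR1, hR2⟩ := ih
    have hb : 1 ≤ b := by
      rcases Nat.eq_zero_or_pos b with h0 | h0
      · rw [h0] at hdet; omega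
      · exact h0
    have hc : 1 ≤ c := by
      rcases Nat.eq_zero_or_pos c with h0 | h0
      · rw [h0] at hdet; omega
      · exact h0
    refine ⟨by nlinarith, by omega, hcd, Or.inr ⟨hR1, hR2, by omega⟩, hQ, ?_⟩
    rcases hQ with ⟨hc', hd', hQ⟩ | ⟨hQ1, hQ2, h3⟩
    · subst hc'
      subst hd'
      subst hQ
      have hb1 : b = a + 1 := by omega
      subst hb1
      have hP0 : sA * P.coeff 0 = sA ^ (a + (a + 1)) := by
        rcases hP with ⟨ha, _, hP⟩ | ⟨hP, _, _⟩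
        · rw [ha]; exact row1_zero P hP
        · exact hP.1
      exact right_one hP0 hR1 hR2
    · exact gen_step hR1 hR2 hQ1 hQ2 (fun m hm => sub_coeff _ _ _ _ (by omega))

end H79W
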