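import Pool.Agent.Lib.H79W.P2

/-!
# H79W, file P3: the fourth row of the numerators
-/

set_option autoImplicit false

namespace H79W

open Polynomial

/-- Six times the cubic form of the fourth row, labels at most `1/2`. -/
noncomputable def KA (p q : ℕ) : ℤ[X] :=
  ((q : ℤ[X]) - 1) * ((q : ℤ[X]) - 2) * ((q : ℤ[X]) - 3) * X ^ 3 +
    (3 * ((p : ℤ[X]) - 1) * ((q : ℤ[X]) - 1) ^ 2 + 6 * ((q : ℤ[X]) - 1) ^ 2 -
      21 * ((p : ℤ[X]) - 1) * ((q : ℤ[X]) - 1) - 18 * ((q : ℤ[X]) - 1) + 30 * ((p : ℤ[X]) - 1) + 12) * X ^ 2 +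
    (3 * ((p : ℤ[X]) - 1) ^ 2 * ((q : ℤ[X]) - 1) + 3 * ((p : ℤ[X]) - 1) * ((q : ℤ[X]) - 1) -
      18 * ((p : ℤ[X]) - 1) ^ 2 - 18 * ((p : ℤ[X]) - 1) + 6 * ((q : ℤ[X]) - 1) - 12) * X +
    ((p : ℤ[X]) - 1) * ((p : ℤ[X]) - 2) * ((p : ℤ[X]) - 3)

/-- The same, labels at least `1/2`. -/
noncomputable def KB (p q : ℕ) : ℤ[X] := KA p q - 24 * ((q : ℤ[X]) - 2 * (p : ℤ[X])) * X

/-- The fourth row. -/
def Row3 (K : ℤ[X]) (p q : ℕ) (N : ℤ[X][X]) : Prop :=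
  sA ^ 7 * (6 * N.coeff 3) = sA ^ (p + q) * K

theorem coeff_mul_three (P R : ℤ[X][X]) :
    (P * R).coeff 3 = P.coeff 0 * R.coeff 3 + P.coeff 1 * R.coeff 2 + P.coeff 2 * R.coeff 1 +
      P.coeff 3 * R.coeff 0 := by
  rw [coeff_mul]
  simp [Finset.Nat.antidiagonal_succ]
  ring

/-- The generic step. -/
theorem gen_step3 {p q p' q' : ℕ} {P R T : ℤ[X][X]} {KP KR : ℤ[X]} (hP1 : Row1 p q P) (hP2 : Row2 p q P)
    (hP3 : Row3 KP p q P)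
    (hR1 : Row1 p' q' R) (hR2 : Row2 p' q' R) (hR3 : Row3 KR p' q' R) :
    sA ^ 7 * (6 * ((C sA + X) * (P * R) - T).coeff 3) = sA ^ (p + p' + (q + q')) *
      (KR + KP + 3 * LL p q * QQ p' q' + 3 * QQ p q * LL p' q' + 3 * sA * (QQ p' q' + QQ p q) +
        6 * sA * (LL p q * LL p' q')) - sA ^ 7 * (6 * T.coeff 3) := by
  obtain ⟨hP0, hP1⟩ := hP1
  obtain ⟨hR0, hR1⟩ := hR1
  unfold Row2 at hP2 hR2
  unfold Row3 at hP3 hR3
  have e3 : ((C sA + X) * (P * R) - T).coeff 3 =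
      sA * (P.coeff 0 * R.coeff 3 + P.coeff 1 * R.coeff 2 + P.coeff 2 * R.coeff 1 +
      P.coeff 3 * R.coeff 0) +
        (P.coeff 0 * R.coeff 2 + P.coeff 1 * R.coeff 1 + P.coeff 2 * R.coeff 0) - T.coeff 3 := by
    rw [coeff_sub, st_coeff_succ, coeff_mul_three, coeff_mul_two]
  rw [e3]
  calc sA ^ 7 * (6 * (sA * (P.coeff 0 * R.coeff 3 + P.coeff 1 * R.coeff 2 + P.coeff 2 * R.coeff 1 +
      P.coeff 3 * R.coeff 0) +
        (P.coeff 0 * R.coeff 2 + P.coeff 1 * R.coeff 1 + P.coeff 2 * R.coeff 0) - T.coeff 3))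
      = (sA * P.coeff 0) * (sA ^ 7 * (6 * R.coeff 3)) + 3 * ((sA ^ 3 * P.coeff 1) * (sA ^ 5 * (2 * R.coeff 2))) +
        3 * ((sA ^ 5 * (2 * P.coeff 2)) * (sA ^ 3 * R.coeff 1)) + (sA ^ 7 * (6 * P.coeff 3)) * (sA * R.coeff 0) +
        3 * sA * ((sA * P.coeff 0) * (sA ^ 5 * (2 * R.coeff 2)) + (sA ^ 5 * (2 * P.coeff 2)) * (sA * R.coeff 0)) +
        6 * sA * ((sA ^ 3 * P.coeff 1) * (sA ^ 3 * R.coeff 1)) - sA ^ 7 * (6 * T.coeff 3) := by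
        ring
    _ = _ := by
      rw [hP0, hR0, hP1, hR1, hP2, hR2, hP3, hR3]
      ring

theorem KA_add (p q p' q' : ℕ) : KA (p + p') (q + q') =
    KA p' q' + KA p q + 3 * LL p q * QQ p' q' + 3 * QQ p q * LL p' q' + 3 * sA * (QQ p' q' + QQ p q) +
        6 * sA * (LL p q * LL p' q') := by
  unfold KA LL QQ sA
  push_cast
  ring

theorem KB_add (p q p' q' : ℕ) : KB (p + p') (q + q') =
    KB p' q' + KB p q + 3 * LL p q * QQ p' q' + 3 * QQ p q * LL p' q' + 3 * sA * (QQ p' q' + QQ p q) +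
        6 * sA * (LL p q * LL p' q') := by
  unfold KB
  rw [KA_add]
  push_cast
  ring

/-- The numerator of the label `1/2`. -/
noncomputable def Nh : ℤ[X][X] := C (sA ^ 2) + C X * X

theorem Nh_coeff3 : Nh.coeff 3 = 0 := by
  unfold Nh
  rw [coeff_add, coeff_C_of_ne_zero (by norm_num), coeff_C_mul, coeff_X, if_neg (by norm_num)]
  simp

/-- Left step with the left end `0/1`. -/
theorem left_zero3 {d : ℕ} {Q R : ℤ[X][X]} (hQ2 : Row2 1 (d + 2) Q)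
    (hR2 : Row2 1 (d + 3) R) (hR3 : Row3 (KA 1 (d + 3)) 1 (d + 3) R) :
    Row3 (KA 1 (d + 4)) 1 (d + 4) ((C sA + X) * (1 * R) - C (X ^ 0) * (X ^ 1 * Q)) := by
  unfold Row2 at hQ2 hR2
  unfold Row3 at hR3 ⊢
  rw [one_mul]
  have e3 : ((C sA + X) * R - C (X ^ 0) * (X ^ 1 * Q)).coeff 3 =
      sA * R.coeff 3 + R.coeff 2 - Q.coeff 2 := by
    rw [coeff_sub, sub_coeff' _ _ _ _ (by norm_num), st_coeff_succ]
    simp
  rw [e3]
  calc sA ^ 7 * (6 * (sA * R.coeff 3 + R.coeff 2 - Q.coeff 2))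
      = sA * (sA ^ 7 * (6 * R.coeff 3)) + 3 * sA ^ 2 * (sA ^ 5 * (2 * R.coeff 2)) -
        3 * sA ^ 2 * (sA ^ 5 * (2 * Q.coeff 2)) := by ring
    _ = _ := by
      rw [hR3, hR2, hQ2]
      unfold KA QQ sA
      push_cast
      ring

/-- Right step with the right end `1/1`. -/
theorem right_one3 {a : ℕ} {P R : ℤ[X][X]} (hP : Row1 (a + 1) (a + 2) P)
    (hR2 : Row2 (a + 2) (a + 3) R) (hR3 : Row3 (KB (a + 2) (a + 3)) (a + 2) (a + 3) R) :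
    Row3 (KB (a + 3) (a + 4)) (a + 3) (a + 4) ((C sA + X) * (R * C sA) - C (X ^ 1) * (X ^ 2 * P)) := by
  obtain ⟨_, hP1⟩ := hP
  unfold Row2 at hR2
  unfold Row3 at hR3 ⊢
  have e3 : ((C sA + X) * (R * C sA) - C (X ^ 1) * (X ^ 2 * P)).coeff 3 =
      sA * (R.coeff 3 * sA) + R.coeff 2 * sA - X * P.coeff 1 := by
    rw [coeff_sub, sub_coeff' _ _ _ _ (by norm_num), st_coeff_succ, coeff_mul_C, coeff_mul_C]
    simp
  rw [e3]
  calc sA ^ 7 * (6 * (sA * (R.coeff 3 * sA) + R.coeff 2 * sA - X * P.coeff 1))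
      = sA ^ 2 * (sA ^ 7 * (6 * R.coeff 3)) + 3 * sA ^ 3 * (sA ^ 5 * (2 * R.coeff 2)) -
        6 * X * sA ^ 4 * (sA ^ 3 * P.coeff 1) := by ring
    _ = _ := by
      rw [hR3, hR2, hP1]
      unfold KB KA LL QQ sA
      push_cast
      ring

/-- Right step with the right end `1/2`. -/
theorem right_half3 {a b : ℕ} {P R : ℤ[X][X]} (hP : sA * P.coeff 0 = sA ^ (a + b))
    (hR1 : Row1 (a + 1) (b + 2) R) (hR2 : Row2 (a + 1) (b + 2) R)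
    (hR3 : Row3 (KA (a + 1) (b + 2)) (a + 1) (b + 2) R) :
    Row3 (KA (a + 1 + 1) (b + 2 + 2)) (a + 1 + 1) (b + 2 + 2)
      ((C sA + X) * (R * Nh) - C (X ^ 1) * (X ^ 3 * P)) := by
  have h0 : Row3 0 1 2 Nh := by
    unfold Row3
    rw [Nh_coeff3]; ring
  have hs := gen_step3 (T := C (X ^ 1) * (X ^ 3 * P)) hR1 hR2 hR3 base_rows.1 base_rows.2 h0
  have hT : (C ((X : ℤ[X]) ^ 1) * (X ^ 3 * P)).coeff 3 = X * P.coeff 0 := by
    rw [sub_coeff' _ _ _ _ (by norm_num)]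
    simp
  unfold Row3
  have e : ((C sA + X) * (R * Nh) - C (X ^ 1) * (X ^ 3 * P)).coeff 3 =
    ((C sA + X) * (R * (C (sA ^ 2) + C X * X)) - C (X ^ 1) * (X ^ 3 * P)).coeff 3 := rfl
  rw [e, hs, hT, KA_add (a + 1) (b + 2) 1 2]
  have e2 : sA ^ 7 * (6 * (X * P.coeff 0)) = 6 * X * sA ^ 6 * (sA * P.coeff 0) := by ring
  rw [e2, hP]
  have e3 : KA 1 2 = -6 * X := by
    unfold KA
    push_cast
    ring
  rw [e3]
  ring

/-- Left step with the left end `1/2`. -/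
theorem left_half3 {c d : ℕ} {Q R : ℤ[X][X]} (hQ : sA * Q.coeff 0 = sA ^ (c + d))
    (hR1 : Row1 (1 + c) (2 + d) R) (hR2 : Row2 (1 + c) (2 + d) R)
    (hR3 : Row3 (KB (1 + c) (2 + d)) (1 + c) (2 + d) R) :
    Row3 (KB (1 + (1 + c)) (2 + (2 + d))) (1 + (1 + c)) (2 + (2 + d))
      ((C sA + X) * (Nh * R) - C (X ^ 1) * (X ^ 3 * Q)) := by
  have h0 : Row3 0 1 2 Nh := by
    unfold Row3
    rw [Nh_coeff3]; ring
  have hs := gen_step3 (T := C (X ^ 1) * (X ^ 3 * Q)) base_rows.1 base_rows.2 h0 hR1 hR2 hR3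
  have hT : (C ((X : ℤ[X]) ^ 1) * (X ^ 3 * Q)).coeff 3 = X * Q.coeff 0 := by
    rw [sub_coeff' _ _ _ _ (by norm_num)]
    simp
  unfold Row3
  have e : ((C sA + X) * (Nh * R) - C (X ^ 1) * (X ^ 3 * Q)).coeff 3 =
    ((C sA + X) * ((C (sA ^ 2) + C X * X) * R) - C (X ^ 1) * (X ^ 3 * Q)).coeff 3 := rfl
  rw [e, hs, hT, KB_add 1 2 (1 + c) (2 + d)]
  have e2 : sA ^ 7 * (6 * (X * Q.coeff 0)) = 6 * X * sA ^ 6 * (sA * Q.coeff 0) := by ring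
  rw [e2, hQ]
  have e3 : KB 1 2 = -6 * X := by
    unfold KB KA
    push_cast
    ring
  rw [e3]
  ring

end H79W
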