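import Pool.Agent.Lib.H79W.V

/-!
# H79W, file VLC: log-concavity of the vertical rows
-/

set_option autoImplicit false

namespace H79W

open Polynomial

theorem LC_SS (n : ℕ) : LC (SS n) := by
  constructor
  · intro i
    rw [SS_coeff]
    exact Int.natCast_nonneg _
  · intro i j hij
    rw [SS_coeff, SS_coeff, SS_coeff, SS_coeff]
    rcases Nat.lt_or_ge (j + 2) n with h | h
    · obtain ⟨D, hD⟩ := Nat.exists_eq_add_of_lt h
      obtain ⟨k, rfl⟩ := Nat.exists_eq_add_of_le hij
      have e1 : n - i = D + k + 3 := by omega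
      have e2 : n - (i + k + 2) = D + 1 := by omega
      have e3 : n - (i + 1) = D + k + 2 := by omega
      have e4 : n - (i + k + 1) = D + 2 := by omega
      rw [e1, e2, e3, e4]
      push_cast
      have hk : (0 : ℤ) ≤ k := Int.natCast_nonneg k
      nlinarith
    · have : n - (j + 2) = 0 := by omega
      rw [this]
      push_cast
      rw [mul_zero]
      positivity

theorem LC_EV {p q : ℕ} (hp : 1 ≤ p) (hpq : p < q) : LC (EV p q) := by
  have hp' : (1 : ℤ) ≤ p := by exact_mod_cast hp
  have hq' : (p : ℤ) + 1 ≤ q := by exact_mod_cast hpq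
  have hnn : ∀ i, 0 ≤ (EV p q).coeff i := by
    intro i
    rcases i with _ | _ | i
    · rw [EV_coeff_zero hp]; linarith
    · rw [EV_coeff_one hp]; linarith
    · show 0 ≤ (EV p q).coeff (i + 2)
      rw [EV_coeff_ge hp]
      positivity
  refine ⟨hnn, ?_⟩
  intro i j hij
  rcases Nat.lt_or_ge ((j + 1) * p) q with hD | hD
  · obtain ⟨D, hD⟩ := Nat.exists_eq_add_of_lt hD
    have c1 : q - (j + 1) * p = D + 1 := by omega
    have hqz : (q : ℤ) = ((j : ℤ) + 1) * p + D + 1 := by rw [hD]; push_cast; ring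
    have hDz : (0 : ℤ) ≤ D := Int.natCast_nonneg D
    have hjz : (0 : ℤ) ≤ j := Int.natCast_nonneg j
    have hj2 : (EV p q).coeff (j + 2) = 4 * ((D : ℤ) + 1) := by
      rw [EV_coeff_ge hp, c1]; push_cast; ring
    have hpz : (0 : ℤ) ≤ p := by linarith
    have h2' : p ≤ q := hpq.le
    have hc2 : (EV p q).coeff 2 = 4 * ((q : ℤ) - p) := by
      have := EV_coeff_ge hp q 0
      rw [zero_add, zero_add, one_mul] at this
      rw [this, Nat.cast_sub h2']
    rcases j with _ | j
    · have hi : i = 0 := by omega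
      subst hi
      rw [zero_add] at hj2
      show (EV p q).coeff 0 * (EV p q).coeff 2 ≤ (EV p q).coeff 1 * (EV p q).coeff 1
      rw [hc2, EV_coeff_zero hp, EV_coeff_one hp]
      nlinarith [mul_nonneg hpz hpz, mul_nonneg (by linarith : (0 : ℤ) ≤ (q : ℤ) - p) (by linarith : (0 : ℤ) ≤ (q : ℤ) - p)]
    · have hj1 : (EV p q).coeff (j + 1 + 1) = 4 * ((D : ℤ) + 1 + p) := by
        have e : (EV p q).coeff (j + 1 + 1) = 4 * ((q - (j + 1) * p : ℕ) : ℤ) := EV_coeff_ge hp q j
        have c2 : q - (j + 1) * p = D + 1 + p := by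
          have : (j + 1 + 1) * p = (j + 1) * p + p := by ring
          omega
        rw [e, c2]
        push_cast
        ring
      rcases i with _ | _ | i
      · rw [hj2, hj1, EV_coeff_zero hp]
        show _ ≤ (EV p q).coeff 1 * _
        rw [EV_coeff_one hp]
        nlinarith [mul_nonneg hDz hpz, mul_nonneg hDz (by linarith : (0 : ℤ) ≤ (q : ℤ) - p), mul_nonneg hpz hpz]
      · rw [hj2, hj1]
        show (EV p q).coeff 1 * _ ≤ (EV p q).coeff 2 * _
        rw [EV_coeff_one hp, hc2]
        have hjz' : (0 : ℤ) ≤ j := Int.natCast_nonneg j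
        rw [hqz]
        push_cast
        nlinarith [mul_nonneg hjz' hpz, mul_nonneg (mul_nonneg hjz' hpz) hpz, mul_nonneg hDz hpz,
          mul_nonneg (mul_nonneg hjz' hpz) hDz, mul_nonneg hDz hDz, mul_nonneg hpz hpz]
      · obtain ⟨k, hk⟩ := Nat.exists_eq_add_of_le (by omega : i + 1 ≤ j)
        have hi2 : (EV p q).coeff (i + 1 + 1) = 4 * (((k : ℤ) + 2) * p + D + 1) := by
          have e : (EV p q).coeff (i + 1 + 1) = 4 * ((q - (i + 1) * p : ℕ) : ℤ) := EV_coeff_ge hp q i
          have c3 : q - (i + 1) * p = (k + 2) * p + D + 1 := by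
            have h1 : (j + 1 + 1) * p = (i + 1) * p + (k + 2) * p := by rw [hk]; ring
            omega
          rw [e, c3]
          push_cast
          ring
        have hi3 : (EV p q).coeff (i + 1 + 1 + 1) = 4 * (((k : ℤ) + 1) * p + D + 1) := by
          have e : (EV p q).coeff (i + 1 + 1 + 1) = 4 * ((q - (i + 1 + 1) * p : ℕ) : ℤ) :=
            EV_coeff_ge hp q (i + 1)
          have c4 : q - (i + 1 + 1) * p = (k + 1) * p + D + 1 := by
            have h1 : (j + 1 + 1) * p = (i + 1 + 1) * p + (k + 1) * p := by rw [hk]; ring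
            omega
          rw [e, c4]
          push_cast
          ring
        rw [hi2, hi3, hj1, hj2]
        have hkz : (0 : ℤ) ≤ k := Int.natCast_nonneg k
        nlinarith [mul_nonneg hkz hpz, mul_nonneg (mul_nonneg hkz hpz) hpz, mul_nonneg hpz hpz]
  · have : q - (j + 1) * p = 0 := by omega
    have hj2 : (EV p q).coeff (j + 2) = 0 := by
      rw [EV_coeff_ge hp, this]; norm_num
    rw [hj2, mul_zero]
    exact mul_nonneg (hnn _) (hnn _)

/-- The quotient for `p = 2`. -/
noncomputable def HH (n : ℕ) : ℤ[X] := C (2 * (n : ℤ) + 2) + C 4 * (X * SS n)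

theorem HH_zero (n : ℕ) : (HH n).coeff 0 = 2 * (n : ℤ) + 2 := by
  unfold HH
  rw [coeff_add, coeff_C_zero, coeff_C_mul, mul_coeff_zero, coeff_X_zero]
  ring

theorem HH_succ (n t : ℕ) : (HH n).coeff (t + 1) = 4 * ((n - t : ℕ) : ℤ) := by
  unfold HH
  rw [coeff_add, coeff_C_of_ne_zero (by omega), coeff_C_mul, coeff_X_mul, SS_coeff]
  ring

theorem EV_two (n : ℕ) : EV 2 (2 * n + 1) = sA * HH n := by
  ext t
  rcases t with _ | _ | t
  · rw [sA_coeff_zero, HH_zero, EV_coeff_zero (by norm_num)]
    push_cast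
    ring
  · rw [sA_coeff_succ, HH_succ, HH_zero, EV_coeff_one (by norm_num), Nat.sub_zero]
    push_cast
    ring
  · show (EV 2 (2 * n + 1)).coeff (t + 2) = (sA * HH n).coeff (t + 1 + 1)
    rw [sA_coeff_succ, HH_succ, HH_succ, EV_coeff_ge (by norm_num)]
    rcases Nat.lt_or_ge t n with h | h
    · obtain ⟨D, rfl⟩ := Nat.exists_eq_add_of_lt h
      have e1 : 2 * (t + D + 1) + 1 - (t + 1) * 2 = 2 * D + 1 := by omega
      have e2 : t + D + 1 - (t + 1) = D := by omega
      have e3 : t + D + 1 - t = D + 1 := by omega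
      rw [e1, e2, e3]
      push_cast
      ring
    · have e1 : 2 * n + 1 - (t + 1) * 2 = 0 := by omega
      have e2 : n - (t + 1) = 0 := by omega
      have e3 : n - t = 0 := by omega
      rw [e1, e2, e3]
      norm_num

theorem LC_HH (n : ℕ) : LC (HH n) := by
  have hnn : ∀ i, 0 ≤ (HH n).coeff i := by
    intro i
    rcases i with _ | i
    · rw [HH_zero]; positivity
    · rw [HH_succ]; positivity
  refine ⟨hnn, ?_⟩
  intro i j hij
  have e2 : (HH n).coeff (j + 2) = 4 * ((n - (j + 1) : ℕ) : ℤ) := HH_succ n (j + 1)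
  rw [e2]
  rcases Nat.lt_or_ge (j + 1) n with h | h
  · obtain ⟨D, hD⟩ := Nat.exists_eq_add_of_lt h
    have c1 : n - (j + 1) = D + 1 := by omega
    rw [c1, HH_succ, HH_succ]
    have hDz : (0 : ℤ) ≤ D := Int.natCast_nonneg D
    have c2 : n - j = D + 2 := by omega
    rw [c2]
    rcases i with _ | i
    · rw [HH_zero]
      have c3 : n - 0 = j + D + 2 := by omega
      rw [c3]
      have hn : (n : ℤ) = j + D + 2 := by
        have : n = j + D + 2 := by omega
        rw [this]; push_cast; ring
      rw [hn]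
      push_cast
      have hjz : (0 : ℤ) ≤ j := Int.natCast_nonneg j
      nlinarith [mul_nonneg hjz hDz, mul_nonneg hDz hDz]
    · rw [HH_succ]
      obtain ⟨k, hk⟩ := Nat.exists_eq_add_of_le hij
      have c3 : n - i = D + k + 3 := by omega
      have c4 : n - (i + 1) = D + k + 2 := by omega
      rw [c3, c4]
      push_cast
      have hkz : (0 : ℤ) ≤ k := Int.natCast_nonneg k
      nlinarith
  · have h0 : n - (j + 1) = 0 := by omega
    have h1 : (4 : ℤ) * ((n - (j + 1) : ℕ) : ℤ) = 0 := by rw [h0]; norm_num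
    rw [h1, mul_zero]
    exact mul_nonneg (hnn _) (hnn _)

/-- The vertical row next to the leftmost one is log-concave. -/
theorem VLC {a b c d : ℕ} {P Q R : ℤ[X][X]} (h : VT a b c d P Q R) (hlt : a + c < b + d) :
    LC (R.coeff 0) ∧ LC (R.coeff 1) := by
  obtain ⟨hdet, hP, hQ, hR⟩ := VT_inv h
  have hc := hQ.1
  obtain ⟨hp, h0, h1, hs⟩ := hR
  constructor
  · obtain ⟨k, hk⟩ : ∃ k, a + c = k + 1 := ⟨a + c - 1, by omega⟩
    have e : R.coeff 0 = sA ^ k * 1 := by
      rw [hk] at h0
      have h2 : sA * R.coeff 0 = sA * (sA ^ k * 1) := by rw [h0]; ring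
      exact mul_left_cancel₀ sA_ne h2
    rw [e]
    exact LC_pow LC_one k
  · rcases Nat.lt_or_ge (a + c) 3 with hlt3 | hge
    · have hcase : a + c = 1 ∨ (a = 1 ∧ c = 1) := by
        rcases Nat.eq_zero_or_pos a with h2 | h2
        · left
          rw [h2] at hdet ⊢
          have : b * c = 1 := by omega
          have := Nat.eq_one_of_mul_eq_one_left this
          omega
        · omega
      rcases hcase with h2 | ⟨h2, h3⟩
      · rw [hs h2]
        exact LC_SS _
      · subst h2 h3
        have hb : b = d + 1 := by omega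
        subst hb
        have hq : d + 1 + d = 2 * d + 1 := by omega
        rw [if_neg (by norm_num), add_zero, hq] at h1
        have e : R.coeff 1 = HH d := by
          have h4 : sA ^ 3 * R.coeff 1 = sA ^ 3 * HH d := by
            rw [h1]
            have e5 : EV (1 + 1) (2 * d + 1) = sA * HH d := EV_two d
            rw [e5]
            ring
          exact mul_left_cancel₀ (pow_ne_zero 3 sA_ne) h4
        rw [e]
        exact LC_HH d
    · rw [if_neg (by omega), add_zero] at h1
      obtain ⟨k, hk⟩ : ∃ k, a + c = k + 3 := ⟨a + c - 3, by omega⟩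
      have e : R.coeff 1 = sA ^ k * EV (a + c) (b + d) := by
        have h2 : sA ^ 3 * R.coeff 1 = sA ^ 3 * (sA ^ k * EV (a + c) (b + d)) := by
          rw [h1, hk]; ring
        exact mul_left_cancel₀ (pow_ne_zero 3 sA_ne) h2
      rw [e]
      exact LC_pow (LC_EV hp hlt) k

end H79W
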