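import Pool.Agent.Lib.H79W.M3
import Pool.Agent.Lib.H79W.VLC
import Pool.Agent.Lib.H79W.HLC

/-!
# H79W, file S: the substitutions for the vertical and horizontal lines
-/

set_option autoImplicit false

namespace H79W

/-- `A ↦` outer variable, `B ↦ 1`, `C ↦` inner variable. -/
noncomputable def sV : M3 →+* Polynomial (Polynomial ℤ) :=
  (MvPolynomial.aeval (R := ℤ) ![Polynomial.X, (1 : Polynomial (Polynomial ℤ)),
    Polynomial.C Polynomial.X]).toRingHom

/-- `A ↦` inner variable, `B ↦` outer variable, `C ↦ 1`. -/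
noncomputable def sH : M3 →+* Polynomial (Polynomial ℤ) :=
  (MvPolynomial.aeval (R := ℤ) ![Polynomial.C Polynomial.X, Polynomial.X,
    (1 : Polynomial (Polynomial ℤ))]).toRingHom

theorem sV_A : sV vA = Polynomial.X := by simp [sV]
theorem sV_B : sV vB = 1 := by simp [sV]
theorem sV_C : sV vC = Polynomial.C Polynomial.X := by simp [sV]
theorem sH_A : sH vA = Polynomial.C Polynomial.X := by simp [sH]
theorem sH_B : sH vB = Polynomial.X := by simp [sH]
theorem sH_C : sH vC = 1 := by simp [sH]

theorem MT_VT {a b c d : ℕ} {P Q R : M3} (h : MT a b c d P Q R) : VT a b c d (sV P) (sV Q) (sV R) := by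
  induction h with
  | base =>
    have e1 : sV 1 = 1 := map_one _
    have e2 : sV (vA + vB) = Polynomial.X + 1 := by
      rw [map_add, sV_A, sV_B]
    have e3 : sV ((vA + vB) ^ 2 + vA * vC) =
        (Polynomial.X + 1) ^ 2 + Polynomial.X * Polynomial.C Polynomial.X := by
      rw [map_add, map_pow, e2, map_mul, sV_A, sV_C]
    rw [e1, e2, e3]
    exact VT.base
  | @left a b c d P Q R h ih =>
    have e : sV ((vA + vB + vC) * (P * R) - vA ^ a * (vB ^ b * (vC ^ (a + b) * Q))) =
        (Polynomial.C sA + Polynomial.X) * (sV P * sV R) -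
          Polynomial.X ^ a * (Polynomial.C (Polynomial.X ^ (a + b)) * sV Q) := by
      rw [map_sub, map_mul, map_mul, map_mul, map_mul, map_mul, map_pow, map_pow, map_pow, map_add, map_add,
        sV_A, sV_B, sV_C, one_pow, one_mul]
      unfold sA
      rw [Polynomial.C_add, Polynomial.C_1, Polynomial.C_pow]
      ring
    rw [e]
    exact VT.left ih
  | @right a b c d P Q R h ih =>
    have e : sV ((vA + vB + vC) * (R * Q) - vA ^ c * (vB ^ d * (vC ^ (c + d) * P))) =
        (Polynomial.C sA + Polynomial.X) * (sV R * sV Q) -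
          Polynomial.X ^ c * (Polynomial.C (Polynomial.X ^ (c + d)) * sV P) := by
      rw [map_sub, map_mul, map_mul, map_mul, map_mul, map_mul, map_pow, map_pow, map_pow, map_add, map_add,
        sV_A, sV_B, sV_C, one_pow, one_mul]
      unfold sA
      rw [Polynomial.C_add, Polynomial.C_1, Polynomial.C_pow]
      ring
    rw [e]
    exact VT.right ih

theorem MT_HT {a b c d : ℕ} {P Q R : M3} (h : MT a b c d P Q R) : HT a b c d (sH P) (sH Q) (sH R) := by
  induction h with
  | base =>
    have e1 : sH 1 = 1 := map_one _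
    have e2 : sH (vA + vB) = Polynomial.C Polynomial.X + Polynomial.X := by
      rw [map_add, sH_A, sH_B]
    have e3 : sH ((vA + vB) ^ 2 + vA * vC) =
        (Polynomial.C Polynomial.X + Polynomial.X) ^ 2 + Polynomial.C Polynomial.X := by
      rw [map_add, map_pow, e2, map_mul, sH_A, sH_C, mul_one]
    rw [e1, e2, e3]
    exact HT.base
  | @left a b c d P Q R h ih =>
    have e : sH ((vA + vB + vC) * (P * R) - vA ^ a * (vB ^ b * (vC ^ (a + b) * Q))) =
        (Polynomial.C sA + Polynomial.X) * (sH P * sH R) -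
          Polynomial.C (Polynomial.X ^ a) * (Polynomial.X ^ b * sH Q) := by
      rw [map_sub, map_mul, map_mul, map_mul, map_mul, map_mul, map_pow, map_pow, map_pow, map_add, map_add,
        sH_A, sH_B, sH_C, one_pow, one_mul]
      unfold sA
      rw [Polynomial.C_add, Polynomial.C_1, Polynomial.C_pow]
      ring
    rw [e]
    exact HT.left ih
  | @right a b c d P Q R h ih =>
    have e : sH ((vA + vB + vC) * (R * Q) - vA ^ c * (vB ^ d * (vC ^ (c + d) * P))) =
        (Polynomial.C sA + Polynomial.X) * (sH R * sH Q) -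
          Polynomial.C (Polynomial.X ^ c) * (Polynomial.X ^ d * sH P) := by
      rw [map_sub, map_mul, map_mul, map_mul, map_mul, map_mul, map_pow, map_pow, map_pow, map_add, map_add,
        sH_A, sH_B, sH_C, one_pow, one_mul]
      unfold sA
      rw [Polynomial.C_add, Polynomial.C_1, Polynomial.C_pow]
      ring
    rw [e]
    exact HT.right ih

theorem sV_monomial (s : Fin 3 →₀ ℕ) (r : ℤ) :
    sV (MvPolynomial.monomial s r) =
      Polynomial.C (Polynomial.C r * Polynomial.X ^ (s 2)) * Polynomial.X ^ (s 0) := by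
  show MvPolynomial.aeval (R := ℤ) ![Polynomial.X, (1 : Polynomial (Polynomial ℤ)),
    Polynomial.C Polynomial.X] (MvPolynomial.monomial s r) = _
  rw [MvPolynomial.aeval_monomial, Finsupp.prod_fintype _ _ (by intro i; rw [pow_zero]), Fin.prod_univ_three]
  simp only [Matrix.cons_val_zero, Matrix.cons_val_one, Matrix.cons_val, one_pow, mul_one]
  rw [Polynomial.C_mul, Polynomial.C_pow]
  show Polynomial.C (Polynomial.C r) * _ = _
  ring

theorem sH_monomial (s : Fin 3 →₀ ℕ) (r : ℤ) :
    sH (MvPolynomial.monomial s r) =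
      Polynomial.C (Polynomial.C r * Polynomial.X ^ (s 0)) * Polynomial.X ^ (s 1) := by
  show MvPolynomial.aeval (R := ℤ) ![Polynomial.C Polynomial.X, Polynomial.X,
    (1 : Polynomial (Polynomial ℤ))] (MvPolynomial.monomial s r) = _
  rw [MvPolynomial.aeval_monomial, Finsupp.prod_fintype _ _ (by intro i; rw [pow_zero]), Fin.prod_univ_three]
  simp only [Matrix.cons_val_zero, Matrix.cons_val_one, Matrix.cons_val, one_pow, mul_one]
  rw [Polynomial.C_mul, Polynomial.C_pow]
  show Polynomial.C (Polynomial.C r) * _ = _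
  ring

theorem mono_coeff (r : ℤ) (k l i m : ℕ) :
    ((Polynomial.C (Polynomial.C r * Polynomial.X ^ k) * Polynomial.X ^ l : Polynomial (Polynomial ℤ)).coeff
      m).coeff i = if l = m ∧ k = i then r else 0 := by
  rw [Polynomial.coeff_C_mul, Polynomial.coeff_X_pow]
  by_cases h2 : m = l
  · rw [if_pos h2, mul_one, Polynomial.coeff_C_mul, Polynomial.coeff_X_pow]
    by_cases h0 : i = k
    · rw [if_pos h0, if_pos ⟨h2.symm, h0.symm⟩, mul_one]
    · rw [if_neg h0, if_neg (fun h => h0 h.2.symm), mul_zero]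
  · rw [if_neg h2, mul_zero, Polynomial.coeff_zero, if_neg (fun h => h2 h.1.symm)]

theorem hom_deg {N : M3} {e : ℕ} (hN : N.IsHomogeneous e) {s : Fin 3 →₀ ℕ} (hs : s ∈ N.support) :
    s 0 + s 1 + s 2 = e := by
  have h3 : Finsupp.degree s = e := by
    by_contra hne
    exact (MvPolynomial.mem_support_iff.mp hs) (hN.coeff_eq_zero hne)
  rw [Finsupp.degree_eq_sum, Fin.sum_univ_three] at h3
  exact h3

theorem sV_coeff (N : M3) {e : ℕ} (hN : N.IsHomogeneous e) (i m : ℕ) (him : i + m ≤ e) :
    ((sV N).coeff m).coeff i = N.coeff (mon m (e - i - m) i) := by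
  have h1 : sV N = ∑ s ∈ N.support, sV (MvPolynomial.monomial s (N.coeff s)) := by
    rw [← map_sum, ← MvPolynomial.as_sum N]
  rw [h1, Polynomial.finsetSum_coeff, Polynomial.finsetSum_coeff]
  have h2 : ∀ s ∈ N.support, ((sV (MvPolynomial.monomial s (N.coeff s))).coeff m).coeff i =
      if s = mon m (e - i - m) i then N.coeff s else 0 := by
    intro s hs
    rw [sV_monomial, mono_coeff]
    have hdeg := hom_deg hN hs
    by_cases h : s 0 = m ∧ s 2 = i
    · rw [if_pos h, if_pos]
      rw [mon_eq s, h.1, h.2]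
      congr 1
      omega
    · rw [if_neg h, if_neg]
      intro hs'
      apply h
      rw [hs', mon_two, mon_zero]
      exact ⟨rfl, rfl⟩
  rw [Finset.sum_congr rfl h2, Finset.sum_ite_eq']
  by_cases h : mon m (e - i - m) i ∈ N.support
  · rw [if_pos h]
  · rw [if_neg h]
    exact (MvPolynomial.notMem_support_iff.mp h).symm

theorem sH_coeff (N : M3) {e : ℕ} (hN : N.IsHomogeneous e) (i m : ℕ) (him : i + m ≤ e) :
    ((sH N).coeff m).coeff i = N.coeff (mon i m (e - i - m)) := by
  have h1 : sH N = ∑ s ∈ N.support, sH (MvPolynomial.monomial s (N.coeff s)) := by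
    rw [← map_sum, ← MvPolynomial.as_sum N]
  rw [h1, Polynomial.finsetSum_coeff, Polynomial.finsetSum_coeff]
  have h2 : ∀ s ∈ N.support, ((sH (MvPolynomial.monomial s (N.coeff s))).coeff m).coeff i =
      if s = mon i m (e - i - m) then N.coeff s else 0 := by
    intro s hs
    rw [sH_monomial, mono_coeff]
    have hdeg := hom_deg hN hs
    by_cases h : s 1 = m ∧ s 0 = i
    · rw [if_pos h, if_pos]
      rw [mon_eq s, h.1, h.2]
      congr 1
      omega
    · rw [if_neg h, if_neg]
      intro hs'
      apply h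
      rw [hs', mon_one, mon_zero]
      exact ⟨rfl, rfl⟩
  rw [Finset.sum_congr rfl h2, Finset.sum_ite_eq']
  by_cases h : mon i m (e - i - m) ∈ N.support
  · rw [if_pos h]
  · rw [if_neg h]
    exact (MvPolynomial.notMem_support_iff.mp h).symm

end H79W
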