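import Pool.Agent.Lib.H79W.Final

/-!
# H79W, file T: all Markov triples are covered by the Farey labelling, up to a permutation of the variables
-/

set_option autoImplicit false

namespace H79W

/-- The triples which are reached from `(x, y, z)` by the moves `(X, Y, Z) ↦ (X, Y, (X² + Y²) / Z)` and permutations of
the entries. Their entries are the Markov polynomials. -/
inductive Triple : F3 → F3 → F3 → Prop
  | start : Triple (var 0) (var 1) (var 2)
  | move (X Y Z : F3) : Triple X Y Z → Triple X Y ((X ^ 2 + Y ^ 2) / Z)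
  | swap (X Y Z : F3) : Triple X Y Z → Triple Y X Z
  | swap' (X Y Z : F3) : Triple X Y Z → Triple X Z Y

/-- `u, v, w` are the three variables in some order. -/
def IsVars (u v w : F3) : Prop :=
  ∃ σ : Equiv.Perm (Fin 3), u = var (σ 0) ∧ v = var (σ 1) ∧ w = var (σ 2)

theorem IsVars.swap {u v w : F3} (h : IsVars u v w) : IsVars v u w := by
  obtain ⟨σ, h0, h1, h2⟩ := h
  refine ⟨(Equiv.swap 0 1).trans σ, ?_, ?_, ?_⟩
  · rw [h1]; congr 1
  · rw [h0]; congr 1
  · rw [h2]; congr 1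

theorem IsVars.swap' {u v w : F3} (h : IsVars u v w) : IsVars u w v := by
  obtain ⟨σ, h0, h1, h2⟩ := h
  refine ⟨(Equiv.swap 1 2).trans σ, ?_, ?_, ?_⟩
  · rw [h0]; congr 1
  · rw [h2]; congr 1
  · rw [h1]; congr 1

theorem IsVars.pos {u v w : F3} (h : IsVars u v w) : Pos u ∧ Pos v ∧ Pos w := by
  obtain ⟨σ, h0, h1, h2⟩ := h
  rw [h0, h1, h2]
  exact ⟨Pos_var _, Pos_var _, Pos_var _⟩

theorem Farey_pos {u v w : F3} (hu : Pos u) (hv : Pos v) (hw : Pos w) {a b c d : ℕ} {P Q M : F3}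
    (h : Farey u v w a b c d P Q M) : Pos P ∧ Pos Q ∧ Pos M := by
  induction h with
  | base =>
    have h1 : Pos ((u ^ 2 + v ^ 2) / w) := (hu.sq.add hv.sq).div hw
    exact ⟨hu, h1, (hu.sq.add h1.sq).div hv⟩
  | left _ ih => exact ⟨ih.1, ih.2.2, (ih.1.sq.add ih.2.2.sq).div ih.2.1⟩
  | right _ ih => exact ⟨ih.2.2, ih.2.1, (ih.2.2.sq.add ih.2.1.sq).div ih.1⟩

/-- The triples in terms of the Farey labelling. -/
inductive G : F3 → F3 → F3 → Prop
  | a0 {u v w : F3} (h : IsVars u v w) : G u v w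
  | a1 {u v w : F3} (h : IsVars u v w) : G u v ((u ^ 2 + v ^ 2) / w)
  | a2 {u v w : F3} {a b c d : ℕ} {P Q M : F3} (h : IsVars u v w) (hF : Farey u v w a b c d P Q M) : G P Q M
  | swap {X Y Z : F3} : G X Y Z → G Y X Z
  | swap' {X Y Z : F3} : G X Y Z → G X Z Y

theorem div_div_self' {s t : F3} (hs : s ≠ 0) : s / (s / t) = t := by
  rcases eq_or_ne t 0 with h | h
  · rw [h, div_zero, div_zero]
  · field_simp

theorem G_moves {X Y Z : F3} (h : G X Y Z) :
    G X Y ((X ^ 2 + Y ^ 2) / Z) ∧ G X ((X ^ 2 + Z ^ 2) / Y) Z ∧ G ((Y ^ 2 + Z ^ 2) / X) Y Z := by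
  induction h with
  | a0 h => exact ⟨G.a1 h, (G.a1 h.swap').swap', (G.a1 h.swap.swap').swap'.swap⟩
  | @a1 u v w h =>
    obtain ⟨hu, hv, hw⟩ := h.pos
    have hW : Pos ((u ^ 2 + v ^ 2) / w) := (hu.sq.add hv.sq).div hw
    refine ⟨?_, ?_, ?_⟩
    · rw [div_div_self' (hu.sq.add hv.sq).ne]
      exact G.a0 h
    · exact (G.a2 h Farey.base).swap'
    · have h1 := G.a2 h.swap Farey.base
      rw [add_comm (v ^ 2) (u ^ 2)] at h1
      exact h1.swap'.swap
  | @a2 u v w a b c d P Q M h hF =>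
    obtain ⟨hu, hv, hw⟩ := h.pos
    refine ⟨?_, ?_, ?_⟩
    · cases hF with
      | base =>
        have hW : Pos ((u ^ 2 + v ^ 2) / w) := (hu.sq.add hv.sq).div hw
        rw [div_div_self' (hu.sq.add hW.sq).ne]
        exact (G.a1 h).swap'
      | @left a b c d P Q R hF' =>
        obtain ⟨hP, hQ, hR⟩ := Farey_pos hu hv hw hF'
        rw [div_div_self' (hP.sq.add hR.sq).ne]
        exact (G.a2 h hF').swap'
      | @right a b c d P Q R hF' =>
        obtain ⟨hP, hQ, hR⟩ := Farey_pos hu hv hw hF'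
        rw [div_div_self' (hR.sq.add hQ.sq).ne]
        exact (G.a2 h hF').swap.swap'.swap
    · exact (G.a2 h hF.left).swap'
    · have h1 := G.a2 h hF.right
      rw [add_comm (M ^ 2) (Q ^ 2)] at h1
      exact h1.swap.swap'.swap
  | @swap X Y Z _ ih =>
    obtain ⟨h1, h2, h3⟩ := ih
    refine ⟨?_, h3.swap, h2.swap⟩
    rw [add_comm (Y ^ 2) (X ^ 2)]
    exact h1.swap
  | @swap' X Y Z _ ih =>
    obtain ⟨h1, h2, h3⟩ := ih
    refine ⟨h2.swap', h1.swap', ?_⟩
    rw [add_comm (Z ^ 2) (Y ^ 2)]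
    exact h3.swap'

theorem Triple_G {X Y Z : F3} (h : Triple X Y Z) : G X Y Z := by
  induction h with
  | start => exact G.a0 ⟨Equiv.refl _, rfl, rfl, rfl⟩
  | move X Y Z _ ih => exact (G_moves ih).1
  | swap X Y Z _ ih => exact ih.swap
  | swap' X Y Z _ ih => exact ih.swap'

/-- The single entries. -/
def E (f : F3) : Prop :=
  (∃ i, f = var i) ∨ (∃ u v w, IsVars u v w ∧ f = (u ^ 2 + v ^ 2) / w) ∨
    (∃ (u v w : F3) (a b c d : ℕ) (P Q : F3), IsVars u v w ∧ Farey u v w a b c d P Q f)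

theorem IsVars.E0 {u v w : F3} (h : IsVars u v w) : E u ∧ E v ∧ E w := by
  obtain ⟨σ, h0, h1, h2⟩ := h
  exact ⟨Or.inl ⟨_, h0⟩, Or.inl ⟨_, h1⟩, Or.inl ⟨_, h2⟩⟩

theorem Farey_E {u v w : F3} (h : IsVars u v w) {a b c d : ℕ} {P Q M : F3}
    (hF : Farey u v w a b c d P Q M) : E P ∧ E Q ∧ E M := by
  have hM : E M := Or.inr (Or.inr ⟨u, v, w, a, b, c, d, P, Q, h, hF⟩)
  suffices H : E P ∧ E Q from ⟨H.1, H.2, hM⟩
  clear hM
  induction hF with
  | base => exact ⟨h.E0.1, Or.inr (Or.inl ⟨u, v, w, h, rfl⟩)⟩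
  | @left a b c d P Q R hF ih => exact ⟨ih.1, Or.inr (Or.inr ⟨u, v, w, a, b, c, d, P, Q, h, hF⟩)⟩
  | @right a b c d P Q R hF ih => exact ⟨Or.inr (Or.inr ⟨u, v, w, a, b, c, d, P, Q, h, hF⟩), ih.2⟩

theorem G_E {X Y Z : F3} (h : G X Y Z) : E X ∧ E Y ∧ E Z := by
  induction h with
  | a0 h => exact h.E0
  | @a1 u v w h => exact ⟨h.E0.1, h.E0.2.1, Or.inr (Or.inl ⟨u, v, w, h, rfl⟩)⟩
  | a2 h hF => exact Farey_E h hF
  | swap _ ih => exact ⟨ih.2.1, ih.1, ih.2.2⟩
  | swap' _ ih => exact ⟨ih.1, ih.2.2, ih.2.1⟩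

/-! ### Permutations of the variables -/

/-- The exponent vector `u^i v^j w^l`, where `u, v, w` are the variables in the order `σ`. -/
noncomputable def pmon (σ : Equiv.Perm (Fin 3)) (i j l : ℕ) : Fin 3 →₀ ℕ :=
  Finsupp.single (σ 0) i + Finsupp.single (σ 1) j + Finsupp.single (σ 2) l

theorem pmon_eq (σ : Equiv.Perm (Fin 3)) (i j l : ℕ) : Finsupp.mapDomain σ (mon i j l) = pmon σ i j l := by
  unfold mon pmon
  rw [Finsupp.mapDomain_add, Finsupp.mapDomain_add, Finsupp.mapDomain_single, Finsupp.mapDomain_single,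
    Finsupp.mapDomain_single]

theorem coeff_pmon (σ : Equiv.Perm (Fin 3)) (N : M3) (i j l : ℕ) :
    (MvPolynomial.rename σ N).coeff (pmon σ i j l) = N.coeff (mon i j l) := by
  rw [← pmon_eq]
  exact MvPolynomial.coeff_rename_mapDomain σ σ.injective N (mon i j l)

theorem aut_inj (σ : Equiv.Perm (Fin 3)) :
    Function.Injective ((algebraMap M3 F3).comp (MvPolynomial.rename σ : M3 →ₐ[ℤ] M3).toRingHom) := by
  intro P Q h
  have h1 : algebraMap M3 F3 (MvPolynomial.rename σ P) = algebraMap M3 F3 (MvPolynomial.rename σ Q) := h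
  exact MvPolynomial.rename_injective σ σ.injective ((IsFractionRing.injective M3 F3) h1)

/-- The automorphism of the function field. -/
noncomputable def aut (σ : Equiv.Perm (Fin 3)) : F3 →+* F3 := IsFractionRing.lift (aut_inj σ)

theorem aut_algebraMap (σ : Equiv.Perm (Fin 3)) (N : M3) :
    aut σ (algebraMap M3 F3 N) = algebraMap M3 F3 (MvPolynomial.rename σ N) := by
  unfold aut
  rw [IsFractionRing.lift_algebraMap]
  rfl

theorem aut_var (σ : Equiv.Perm (Fin 3)) (i : Fin 3) : aut σ (var i) = var (σ i) := by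
  unfold var
  rw [aut_algebraMap, MvPolynomial.rename_X]

theorem aut_Farey (σ : Equiv.Perm (Fin 3)) {u v w : F3} {a b c d : ℕ} {P Q M : F3}
    (hF : Farey (aut σ u) (aut σ v) (aut σ w) a b c d P Q M) :
    ∃ P' Q' M', Farey u v w a b c d P' Q' M' ∧ P = aut σ P' ∧ Q = aut σ Q' ∧ M = aut σ M' := by
  induction hF with
  | base => exact ⟨_, _, _, Farey.base, rfl, by simp, by simp⟩
  | left _ ih =>
    obtain ⟨P', Q', M', hF', h1, h2, h3⟩ := ih
    exact ⟨_, _, _, hF'.left, h1, h3, by rw [h1, h2, h3]; simp⟩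
  | right _ ih =>
    obtain ⟨P', Q', M', hF', h1, h2, h3⟩ := ih
    exact ⟨_, _, _, hF'.right, h3, h2, by rw [h1, h2, h3]; simp⟩

end H79W
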