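import Pool.Agent.Lib.H79W.T

/-!
# H79W, file T2: the theorem for every Markov polynomial
-/

set_option autoImplicit false

namespace H79W

/-- The statement for one Markov polynomial `f`, in the order `σ` of the variables. -/
def St (σ : Equiv.Perm (Fin 3)) (f : F3) (p q : ℕ) (N : MvPolynomial (Fin 3) ℤ) : Prop :=
  f * (var (σ 0) ^ (p - 1) * var (σ 1) ^ (q - 1) * var (σ 2) ^ (p + q - 1)) =
    algebraMap (MvPolynomial (Fin 3) ℤ) F3 (MvPolynomial.expand 2 N) ∧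
  N.IsHomogeneous (p + q - 1) ∧
  (∀ i j, i + j = p + q - 1 → N.coeff (pmon σ i j 0) = (((i + j).choose i : ℕ) : ℤ)) ∧
  (∀ i j l, l ≤ 3 → i + j + 2 + l = p + q - 1 →
    N.coeff (pmon σ i (j + 2) l) * N.coeff (pmon σ (i + 2) j l) ≤ N.coeff (pmon σ (i + 1) (j + 1) l) ^ 2) ∧
  (∀ i j l, j ≤ 2 → i + l + 2 + j = p + q - 1 →
    N.coeff (pmon σ i j (l + 2)) * N.coeff (pmon σ (i + 2) j l) ≤ N.coeff (pmon σ (i + 1) j (l + 1)) ^ 2) ∧
  (∀ i j l, i ≤ 1 → j + l + 2 + i = p + q - 1 →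
    N.coeff (pmon σ i (j + 2) l) * N.coeff (pmon σ i j (l + 2)) ≤ N.coeff (pmon σ i (j + 1) (l + 1)) ^ 2)

/-- The same in the standard order. -/
def St0 (f : F3) (p q : ℕ) (N : MvPolynomial (Fin 3) ℤ) : Prop :=
  f * (var 0 ^ (p - 1) * var 1 ^ (q - 1) * var 2 ^ (p + q - 1)) =
    algebraMap (MvPolynomial (Fin 3) ℤ) F3 (MvPolynomial.expand 2 N) ∧
  N.IsHomogeneous (p + q - 1) ∧
  (∀ i j, i + j = p + q - 1 → N.coeff (mon i j 0) = (((i + j).choose i : ℕ) : ℤ)) ∧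
  (∀ i j l, l ≤ 3 → i + j + 2 + l = p + q - 1 →
    N.coeff (mon i (j + 2) l) * N.coeff (mon (i + 2) j l) ≤ N.coeff (mon (i + 1) (j + 1) l) ^ 2) ∧
  (∀ i j l, j ≤ 2 → i + l + 2 + j = p + q - 1 →
    N.coeff (mon i j (l + 2)) * N.coeff (mon (i + 2) j l) ≤ N.coeff (mon (i + 1) j (l + 1)) ^ 2) ∧
  (∀ i j l, i ≤ 1 → j + l + 2 + i = p + q - 1 →
    N.coeff (mon i (j + 2) l) * N.coeff (mon i j (l + 2)) ≤ N.coeff (mon i (j + 1) (l + 1)) ^ 2)

theorem St0_St (σ : Equiv.Perm (Fin 3)) {f : F3} {p q : ℕ} {N : M3} (h : St0 f p q N) :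
    St σ (aut σ f) p q (MvPolynomial.rename σ N) := by
  obtain ⟨h1, h2, h3, h4, h5, h6⟩ := h
  unfold St
  simp only [coeff_pmon]
  refine ⟨?_, h2.rename_isHomogeneous, h3, h4, h5, h6⟩
  have h7 := congrArg (aut σ) h1
  rw [map_mul, map_mul, map_mul, map_pow, map_pow, map_pow, aut_var, aut_var, aut_var, aut_algebraMap,
    MvPolynomial.rename_expand] at h7
  exact h7

theorem St0_one : St0 ((var 0 ^ 2 + var 1 ^ 2) / var 2) 1 1 (vA + vB) := by
  have hz := (Pos_var 2).ne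
  unfold St0
  refine ⟨?_, ?_, ?_, ?_, ?_, ?_⟩
  · show _ = sq (vA + vB)
    rw [map_add, sq_X, sq_X]
    norm_num
    field_simp
  · exact (MvPolynomial.isHomogeneous_X ℤ 0).add (MvPolynomial.isHomogeneous_X ℤ 1)
  · intro i j hij
    have hij' : i + j = 1 := by omega
    have hA : (vA : M3) = MvPolynomial.monomial (mon 1 0 0) 1 := by
      unfold mon; simp [MvPolynomial.X]
    have hB : (vB : M3) = MvPolynomial.monomial (mon 0 1 0) 1 := by
      unfold mon; simp [MvPolynomial.X]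
    have hne : mon 1 0 0 ≠ mon 0 1 0 := by
      intro h
      have := DFunLike.congr_fun h 0
      rw [mon_zero, mon_zero] at this
      omega
    rw [hA, hB, MvPolynomial.coeff_add, MvPolynomial.coeff_monomial, MvPolynomial.coeff_monomial]
    rcases Nat.eq_zero_or_pos i with h0 | h0
    · have h1 : j = 1 := by omega
      subst h0; subst h1
      rw [if_neg hne, if_pos rfl]
      norm_num
    · have h1 : i = 1 := by omega
      have h2 : j = 0 := by omega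
      subst h1; subst h2
      rw [if_pos rfl, if_neg hne.symm]
      norm_num
  · intro i j l _ h; omega
  · intro i j l _ h; omega
  · intro i j l _ h; omega

theorem E_St {f : F3} (h : E f) : (∃ i, f = var i) ∨
    ∃ (σ : Equiv.Perm (Fin 3)) (p q : ℕ) (N : MvPolynomial (Fin 3) ℤ),
      1 ≤ p ∧ p ≤ q ∧ p.Coprime q ∧ St σ f p q N := by
  rcases h with h | ⟨u, v, w, hv, hf⟩ | ⟨u, v, w, a, b, c, d, P, Q, hv, hF⟩
  · exact Or.inl h
  · right
    obtain ⟨σ, h0, h1, h2⟩ := hv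
    have h3 := St0_St σ St0_one
    rw [map_div₀, map_add, map_pow, map_pow, aut_var, aut_var, aut_var, ← h0, ← h1, ← h2, ← hf] at h3
    exact ⟨σ, 1, 1, _, le_rfl, le_rfl, Nat.coprime_one_left 1, h3⟩
  · right
    obtain ⟨σ, h0, h1, h2⟩ := hv
    rw [h0, h1, h2, ← aut_var, ← aut_var, ← aut_var] at hF
    obtain ⟨P', Q', M', hF', _, _, hM⟩ := aut_Farey σ hF
    obtain ⟨_, _, _, _, NP, NQ, N0, hT, _⟩ := corrM hF'
    obtain ⟨hdet, hab, hcd, _⟩ := PT_inv (MT_PT hT)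
    have hc : 1 ≤ c := by
      rcases Nat.eq_zero_or_pos c with h0 | h0
      · rw [h0] at hdet; omega
      · exact h0
    obtain ⟨N, hN⟩ := final hF'
    have h4 : St0 M' (a + c) (b + d) N := hN
    have h5 := St0_St σ h4
    rw [← hM] at h5
    refine ⟨σ, a + c, b + d, _, by omega, by omega, ?_, h5⟩
    have h6 : Nat.gcd (a + c) (b + d) ∣ 1 := by
      have e1 : Nat.gcd (a + c) (b + d) ∣ b * (a + c) := Dvd.dvd.mul_left (Nat.gcd_dvd_left _ _) _
      have e2 : Nat.gcd (a + c) (b + d) ∣ a * (b + d) := Dvd.dvd.mul_left (Nat.gcd_dvd_right _ _) _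
      have e3 : b * (a + c) = a * (b + d) + 1 := by nlinarith
      rw [e3] at e1
      exact (Nat.dvd_add_right e2).mp e1
    exact Nat.dvd_one.mp h6

theorem every {X Y Z : F3} (h : Triple X Y Z) : (∃ i, Z = var i) ∨
    ∃ (σ : Equiv.Perm (Fin 3)) (p q : ℕ) (N : MvPolynomial (Fin 3) ℤ),
      1 ≤ p ∧ p ≤ q ∧ p.Coprime q ∧ St σ Z p q N :=
  E_St (G_E (Triple_G h)).2.2

end H79W
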