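import Pool.Agent.Lib.H79W.LC3

/-!
# H79W, file V: the second row in the direction of `A` (vertical lines), at `B = 1`
-/

set_option autoImplicit false

namespace H79W

open Polynomial

/-- The numerators at `B = 1`, outer variable `A`, inner variable `C`. -/
inductive VT : ℕ → ℕ → ℕ → ℕ → ℤ[X][X] → ℤ[X][X] → ℤ[X][X] → Prop
  | base : VT 0 1 1 1 1 (X + 1) ((X + 1) ^ 2 + X * C X)
  | left {a b c d : ℕ} {P Q R : ℤ[X][X]} : VT a b c d P Q R →
      VT a b (a + c) (b + d) P R ((C sA + X) * (P * R) - X ^ a * (C (X ^ (a + b)) * Q))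
  | right {a b c d : ℕ} {P Q R : ℤ[X][X]} : VT a b c d P Q R →
      VT (a + c) (b + d) c d R Q ((C sA + X) * (R * Q) - X ^ c * (C (X ^ (c + d)) * P))

/-- `1 + X + .. + X^(n-1)`. -/
noncomputable def GG (n : ℕ) : ℤ[X] := ∑ t ∈ Finset.range n, X ^ t

theorem GG_succ (n : ℕ) : GG (n + 1) = GG n + X ^ n := by
  unfold GG
  rw [Finset.sum_range_succ]

theorem GG_rel (n : ℕ) : 1 + X * GG n = GG n + X ^ n := by
  induction n with
  | zero => simp [GG]
  | succ n ih =>
    rw [GG_succ]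
    linear_combination ih

theorem GG_coeff (n t : ℕ) : (GG n).coeff t = if t < n then 1 else 0 := by
  unfold GG
  rw [finsetSum_coeff]
  simp only [coeff_X_pow]
  rw [Finset.sum_ite_eq]
  simp

/-- `n + (n-1) X + .. + X^(n-1)`. -/
noncomputable def SS (n : ℕ) : ℤ[X] := ∑ t ∈ Finset.range n, GG (t + 1)

theorem SS_succ (n : ℕ) : SS (n + 1) = SS n + GG (n + 1) := by
  unfold SS
  rw [Finset.sum_range_succ]

theorem SS_one : SS 1 = 1 := by simp [SS, GG]

theorem SS_coeff (n t : ℕ) : (SS n).coeff t = ((n - t : ℕ) : ℤ) := by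
  induction n with
  | zero => simp [SS]
  | succ n ih =>
    rw [SS_succ, coeff_add, ih, GG_coeff]
    by_cases h : t < n + 1
    · rw [if_pos h]
      have : n + 1 - t = n - t + 1 := by omega
      rw [this]
      push_cast
      ring
    · rw [if_neg h, add_zero]
      have h1 : n + 1 - t = 0 := by omega
      have h2 : n - t = 0 := by omega
      rw [h1, h2]

theorem SS_rec (n : ℕ) : SS (n + 2) = sA * SS (n + 1) + 1 - X * SS n := by
  have h1 := GG_rel (n + 1)
  rw [SS_succ (n + 1), SS_succ n, GG_succ (n + 1)]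
  unfold sA
  linear_combination -h1

/-- The tail of the row. -/
noncomputable def FF (p q : ℕ) : ℤ[X] :=
  ∑ r ∈ Finset.range q, C (((q - (r + 1) * p : ℕ) : ℤ)) * X ^ (r + 2)

theorem FF_coeff {p : ℕ} (hp : 1 ≤ p) (q t : ℕ) :
    (FF p q).coeff t = if 2 ≤ t then ((q - (t - 1) * p : ℕ) : ℤ) else 0 := by
  unfold FF
  rw [finsetSum_coeff]
  simp only [coeff_C_mul, coeff_X_pow]
  by_cases h : 2 ≤ t
  · rw [if_pos h]
    obtain ⟨s, rfl⟩ := Nat.exists_eq_add_of_le h
    by_cases hs : s < q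
    · rw [Finset.sum_eq_single s]
      · rw [if_pos (by omega), mul_one]
        congr 3
        omega
      · intro b _ hb
        rw [if_neg (by omega), mul_zero]
      · intro hb
        exact absurd (Finset.mem_range.mpr hs) hb
    · rw [Finset.sum_eq_zero]
      · have h1 : (2 + s - 1) = s + 1 := by omega
        have h2 : q - (s + 1) * p = 0 := by
          have : q ≤ (s + 1) * p := by nlinarith
          omega
        rw [h1, h2]
        rfl
      · intro b hb
        rw [Finset.mem_range] at hb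
        rw [if_neg (by omega), mul_zero]
  · rw [if_neg h]
    apply Finset.sum_eq_zero
    intro b _
    rw [if_neg (by omega), mul_zero]

/-- The form of the second row. -/
noncomputable def EV (p q : ℕ) : ℤ[X] :=
  C ((p : ℤ) + q - 1) + C (3 * (q : ℤ) - 1) * X + 4 * FF p q

theorem EV_coeff_zero {p : ℕ} (hp : 1 ≤ p) (q : ℕ) : (EV p q).coeff 0 = (p : ℤ) + q - 1 := by
  unfold EV
  have h4 : (4 : ℤ[X]) = C 4 := by simp
  rw [h4, coeff_add, coeff_add, coeff_C_mul, coeff_C_mul, FF_coeff hp, if_neg (by norm_num), coeff_C_zero,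
    coeff_X_zero]
  ring

theorem EV_coeff_one {p : ℕ} (hp : 1 ≤ p) (q : ℕ) : (EV p q).coeff 1 = 3 * (q : ℤ) - 1 := by
  unfold EV
  have h4 : (4 : ℤ[X]) = C 4 := by simp
  rw [h4, coeff_add, coeff_add, coeff_C_mul, coeff_C_mul, FF_coeff hp, if_neg (by norm_num),
    coeff_C_of_ne_zero (by norm_num), coeff_X_one]
  ring

theorem EV_coeff_ge {p : ℕ} (hp : 1 ≤ p) (q t : ℕ) :
    (EV p q).coeff (t + 2) = 4 * ((q - (t + 1) * p : ℕ) : ℤ) := by
  unfold EV
  have h4 : (4 : ℤ[X]) = C 4 := by simp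
  rw [h4, coeff_add, coeff_add, coeff_C_mul, coeff_C_mul, FF_coeff hp, if_pos (by omega),
    coeff_C_of_ne_zero (by omega), coeff_X, if_neg (by omega)]
  have h1 : t + 2 - 1 = t + 1 := rfl
  rw [h1]
  ring

/-- Additivity on Farey neighbours. -/
theorem nb_sub {p q p' q' r : ℕ} (hp : 1 ≤ p) (hp' : 1 ≤ p') (h : q * p' = p * q' + 1) :
    q + q' - r * (p + p') = (q - r * p) + (q' - r * p') := by
  have e : r * (p + p') = r * p + r * p' := by ring
  rw [e]
  rcases Nat.lt_or_ge q (r * p) with h1 | h1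
  · rcases Nat.lt_or_ge (r * p') q' with h2 | h2
    · exfalso
      have h3 : (q + 1) * p' ≤ r * p * p' := Nat.mul_le_mul_right p' h1
      have h4 : p * (r * p' + 1) ≤ p * q' := Nat.mul_le_mul_left p h2
      nlinarith
    · omega
  · rcases Nat.lt_or_ge q' (r * p') with h2 | h2
    · rcases Nat.eq_or_lt_of_le h1 with h3 | h3
      · omega
      · exfalso
        have h4 : (r * p + 1) * p' ≤ q * p' := Nat.mul_le_mul_right p' h3
        have h5 : p * (q' + 1) ≤ p * (r * p') := Nat.mul_le_mul_left p h2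
        nlinarith
    · omega

theorem EV_add {p q p' q' : ℕ} (hp : 1 ≤ p) (hp' : 1 ≤ p') (h : q * p' = p * q' + 1) :
    EV (p + p') (q + q') = EV p' q' + EV p q + sA := by
  ext t
  rcases t with _ | _ | t
  · rw [coeff_add, coeff_add, EV_coeff_zero (by omega), EV_coeff_zero hp, EV_coeff_zero hp']
    unfold sA
    rw [coeff_add, coeff_X_zero, coeff_one_zero]
    push_cast
    ring
  · rw [coeff_add, coeff_add, EV_coeff_one (by omega), EV_coeff_one hp, EV_coeff_one hp']
    unfold sA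
    rw [coeff_add, coeff_X_one, coeff_one, if_neg (by norm_num)]
    push_cast
    ring
  · show (EV (p + p') (q + q')).coeff (t + 2) = (EV p' q' + EV p q + sA).coeff (t + 2)
    rw [coeff_add, coeff_add, EV_coeff_ge (by omega), EV_coeff_ge hp, EV_coeff_ge hp', nb_sub hp hp' h]
    unfold sA
    rw [coeff_add, coeff_X, coeff_one, if_neg (by omega), if_neg (by omega)]
    push_cast
    ring

theorem EV_one_succ (q : ℕ) : EV 1 (q + 1) = EV 1 q + (1 + 3 * X + 4 * X ^ 2 * GG q) := by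
  ext t
  have h4 : (4 : ℤ[X]) * X ^ 2 * GG q = C 4 * (X ^ 2 * GG q) := by simp; ring
  have h3 : (3 : ℤ[X]) * X = C 3 * X := by simp
  rw [h4, h3]
  rcases t with _ | _ | t
  · rw [coeff_add, coeff_add, coeff_add, EV_coeff_zero le_rfl, EV_coeff_zero le_rfl, coeff_C_mul, coeff_C_mul,
      coeff_X_zero, coeff_one_zero, coeff_X_pow_mul', if_neg (by norm_num)]
    push_cast
    ring
  · rw [coeff_add, coeff_add, coeff_add, EV_coeff_one le_rfl, EV_coeff_one le_rfl, coeff_C_mul, coeff_C_mul,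
      coeff_X_one, coeff_one, if_neg (by norm_num), coeff_X_pow_mul', if_neg (by norm_num)]
    push_cast
    ring
  · show (EV 1 (q + 1)).coeff (t + 2) = (EV 1 q + (1 + C 3 * X + C 4 * (X ^ 2 * GG q))).coeff (t + 2)
    rw [coeff_add, coeff_add, coeff_add, EV_coeff_ge le_rfl, EV_coeff_ge le_rfl, coeff_C_mul, coeff_C_mul,
      coeff_X, if_neg (by omega), coeff_one, if_neg (by omega), coeff_X_pow_mul', if_pos (by omega),
      Nat.add_sub_cancel, GG_coeff]
    by_cases h : t < q
    · rw [if_pos h]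
      have e1 : q + 1 - (t + 1) * 1 = (q - (t + 1) * 1) + 1 := by omega
      rw [e1]
      push_cast
      ring
    · rw [if_neg h]
      have e1 : q + 1 - (t + 1) * 1 = 0 := by omega
      have e2 : q - (t + 1) * 1 = 0 := by omega
      rw [e1, e2]
      norm_num

theorem EV_one (q : ℕ) (hq : 1 ≤ q) : sA ^ 2 * SS q = EV 1 q + X ^ (q + 1) := by
  induction q, hq using Nat.le_induction with
  | base =>
    rw [SS_one]
    unfold EV FF sA
    simp
    ring
  | succ q hq ih =>
    rw [SS_succ, mul_add, ih, EV_one_succ, GG_succ]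
    have h := GG_rel q
    unfold sA
    linear_combination (-(1 + 3 * (X : ℤ[X]))) * h

/-- The second row. -/
def VR (p q : ℕ) (N : ℤ[X][X]) : Prop :=
  1 ≤ p ∧ sA * N.coeff 0 = sA ^ p ∧
    sA ^ 3 * N.coeff 1 = sA ^ p * (EV p q + if p = 1 then X ^ (q + 1) else 0) ∧
    (p = 1 → N.coeff 1 = SS q)

theorem VR_of_SS {q : ℕ} (hq : 1 ≤ q) {N : ℤ[X][X]} (h0 : N.coeff 0 = 1) (h1 : N.coeff 1 = SS q) : VR 1 q N := by
  refine ⟨le_rfl, by rw [h0]; ring, ?_, fun _ => h1⟩
  rw [h1, if_pos rfl, ← EV_one q hq]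
  ring

theorem VR_base1 : VR 1 1 (X + 1) := by
  apply VR_of_SS le_rfl
  · rw [coeff_add, coeff_X_zero, coeff_one_zero, zero_add]
  · rw [coeff_add, coeff_X_one, coeff_one, if_neg (by norm_num), SS_one, add_zero]

theorem VR_base2 : VR 1 2 ((X + 1) ^ 2 + X * C X) := by
  have e : ((X + 1) ^ 2 + X * C X : ℤ[X][X]) = C 1 * X ^ 2 + C (2 + X) * X + C 1 := by
    simp only [map_one, map_add, map_ofNat]
    ring
  apply VR_of_SS (by norm_num)
  · rw [e]; simp
  · rw [e, coeff_add, coeff_add, coeff_C_mul, coeff_C_mul, coeff_X_pow, if_neg (by norm_num), coeff_X_one,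
      coeff_C_of_ne_zero (by norm_num), SS_succ, SS_one, GG_succ, GG_succ]
    simp [GG]
    ring

theorem vsub_coeff_zero (a k : ℕ) (Q : ℤ[X][X]) (h : 1 ≤ a) :
    ((X : ℤ[X][X]) ^ a * (C ((X : ℤ[X]) ^ k) * Q)).coeff 0 = 0 := by
  rw [coeff_X_pow_mul', if_neg (by omega)]

theorem vsub_coeff_one (a k : ℕ) (Q : ℤ[X][X]) (h : 1 ≤ a) :
    ((X : ℤ[X][X]) ^ a * (C ((X : ℤ[X]) ^ k) * Q)).coeff 1 = if a = 1 then X ^ k * Q.coeff 0 else 0 := by
  rw [coeff_X_pow_mul']
  by_cases h1 : a = 1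
  · rw [if_pos h1, if_pos (by omega), h1, coeff_C_mul]
  · rw [if_neg h1, if_neg (by omega)]

/-- The generic step; the exceptional terms cancel. -/
theorem v_step {p q p' q' : ℕ} {P R T : ℤ[X][X]} (hP : VR p q P) (hR : VR p' q' R) (hpq : q * p' = p * q' + 1 ∨ q' * p = p' * q + 1)
    (hp2 : 2 ≤ p + p')
    (h0 : T.coeff 0 = 0)
    (h1 : sA ^ 3 * T.coeff 1 = sA ^ (p + p') *
      ((if p = 1 then X ^ (q + 1) else 0) + (if p' = 1 then X ^ (q' + 1) else 0))) :
    VR (p + p') (q + q') ((C sA + X) * (P * R) - T) := by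
  obtain ⟨hp, hP0, hP1, _⟩ := hP
  obtain ⟨hp', hR0, hR1, _⟩ := hR
  have e0 : ((C sA + X) * (P * R) - T).coeff 0 = sA * (P.coeff 0 * R.coeff 0) := by
    rw [coeff_sub, h0, st_coeff_zero, mul_coeff_zero, sub_zero]
  have e1 : ((C sA + X) * (P * R) - T).coeff 1 =
      sA * (P.coeff 0 * R.coeff 1 + P.coeff 1 * R.coeff 0) + P.coeff 0 * R.coeff 0 - T.coeff 1 := by
    rw [coeff_sub, st_coeff_succ, mul_coeff_one, mul_coeff_zero]
  refine ⟨by omega, ?_, ?_, fun h => by omega⟩
  · rw [e0]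
    calc sA * (sA * (P.coeff 0 * R.coeff 0)) = (sA * P.coeff 0) * (sA * R.coeff 0) := by ring
      _ = _ := by rw [hP0, hR0]; ring
  · rw [e1, if_neg (by omega), add_zero]
    have hadd : EV (p + p') (q + q') = EV p' q' + EV p q + sA := by
      rcases hpq with h | h
      · exact EV_add hp hp' h
      · have := EV_add hp' hp h
        rw [add_comm p p', add_comm q q', this]
        ring
    calc sA ^ 3 * (sA * (P.coeff 0 * R.coeff 1 + P.coeff 1 * R.coeff 0) + P.coeff 0 * R.coeff 0 - T.coeff 1)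
        = (sA * P.coeff 0) * (sA ^ 3 * R.coeff 1) + (sA ^ 3 * P.coeff 1) * (sA * R.coeff 0) +
          sA * ((sA * P.coeff 0) * (sA * R.coeff 0)) - sA ^ 3 * T.coeff 1 := by ring
      _ = _ := by
        rw [hP0, hR0, hP1, hR1, h1, hadd]
        ring

/-- The invariants. -/
theorem VT_inv {a b c d : ℕ} {P Q R : ℤ[X][X]} (h : VT a b c d P Q R) :
    b * c = a * d + 1 ∧ ((a = 0 ∧ b = 1 ∧ P = 1) ∨ VR a b P) ∧ VR c d Q ∧ VR (a + c) (b + d) R := by
  induction h with
  | base => exact ⟨by norm_num, Or.inl ⟨rfl, rfl, rfl⟩, VR_base1, VR_base2⟩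
  | @left a b c d P Q R h ih =>
    obtain ⟨hdet, hP, hQ, hR⟩ := ih
    refine ⟨by nlinarith, hP, hR, ?_⟩
    have hc := hQ.1
    rcases hP with ⟨ha, hb, hP⟩ | hP
    · subst ha hb hP
      have hc1 : c = 1 := by omega
      subst hc1
      have e1 : 0 + (0 + 1) = 1 := rfl
      have e2 : 1 + (1 + d) = d + 2 := by omega
      rw [e1, e2]
      have hQ0 : Q.coeff 0 = 1 := by
        have h1 : sA * Q.coeff 0 = sA * 1 := by rw [hQ.2.1]; ring
        exact mul_left_cancel₀ sA_ne h1
      have hR0 : R.coeff 0 = 1 := by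
        have h1 : sA * R.coeff 0 = sA * 1 := by rw [hR.2.1]; ring
        exact mul_left_cancel₀ sA_ne h1
      have hQ1 : Q.coeff 1 = SS d := hQ.2.2.2 rfl
      have hR1 : R.coeff 1 = SS (d + 1) := by
        rw [hR.2.2.2 rfl]
        have : 1 + d = d + 1 := by omega
        rw [this]
      have eT : ((C sA + X) * (1 * R) - X ^ 0 * (C (X ^ 1) * Q)) = (C sA + X) * R - C X * Q := by
        rw [one_mul, pow_zero, one_mul, pow_one]
      rw [eT]
      apply VR_of_SS (by omega)
      · rw [coeff_sub, st_coeff_zero, coeff_C_mul, hQ0, hR0]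
        unfold sA
        ring
      · rw [coeff_sub, st_coeff_succ, coeff_C_mul, hR0, hQ1, hR1, SS_rec]
    · have ha := hP.1
      apply v_step hP hR (Or.inl (by nlinarith)) (by omega) (vsub_coeff_zero _ _ _ ha)
      rw [vsub_coeff_one _ _ _ ha]
      have hne : a + c ≠ 1 := by omega
      rw [if_neg hne, add_zero]
      by_cases h1 : a = 1
      · rw [if_pos h1, if_pos h1, h1]
        have e : sA ^ 3 * (X ^ (1 + b) * Q.coeff 0) = sA ^ 2 * X ^ (1 + b) * (sA * Q.coeff 0) := by ring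
        rw [e, hQ.2.1]
        ring
      · rw [if_neg h1, if_neg h1]
        ring
  | @right a b c d P Q R h ih =>
    obtain ⟨hdet, hP, hQ, hR⟩ := ih
    refine ⟨by nlinarith, Or.inr hR, hQ, ?_⟩
    have hc := hQ.1
    apply v_step hR hQ (Or.inl (by nlinarith)) (by omega) (vsub_coeff_zero _ _ _ hc)
    rw [vsub_coeff_one _ _ _ hc]
    rcases hP with ⟨ha, hb, hP⟩ | hP
    · subst ha hb hP
      have hc1 : c = 1 := by omega
      subst hc1
      rw [coeff_one_zero]
      simp only [zero_add, if_true]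
      unfold sA
      ring
    · have ha := hP.1
      have hne : a + c ≠ 1 := by omega
      rw [if_neg hne, zero_add]
      by_cases h1 : c = 1
      · rw [if_pos h1, if_pos h1, h1]
        have e : sA ^ 3 * (X ^ (1 + d) * P.coeff 0) = sA ^ 2 * X ^ (1 + d) * (sA * P.coeff 0) := by ring
        rw [e, hP.2.1]
        ring
      · rw [if_neg h1, if_neg h1]
        ring

end H79W
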